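import Mathlib

set_option autoImplicit false

open MeasureTheory Polynomial

namespace Pool.Agent.MP_12ef2a_an

/-- squared norm of a function on `[0,2]` -/
noncomputable def nsq (f : ℝ → ℂ) : ℝ := ∫ y in (0:ℝ)..2, ‖f y‖ ^ 2

/-- inner product on `[0,2]`, conjugate-linear in the first argument -/
noncomputable def ip (f g : ℝ → ℂ) : ℂ := ∫ y in (0:ℝ)..2, (starRingEnd ℂ) (f y) * g y

/-- the Legendre weight `y (2 - y)` -/
noncomputable def wt (y : ℝ) : ℝ := y * (2 - y)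

/-- the exponential polynomial `exp (i l y) p(y)` -/
noncomputable def ep (l : ℂ) (p : ℂ[X]) : ℝ → ℂ :=
  fun y => Complex.exp (Complex.I * l * y) * p.eval (y : ℂ)

/-- the family `E` of subspaces is an unconditional basis of `H`: every `f` in `H` has a unique
expansion `f = ∑ g i` with `g i` in `E i`, converging unconditionally -/
def IsUnconditionalBasisOf {ι V : Type*} [NormedAddCommGroup V] [InnerProductSpace ℂ V]
    (E : ι → Submodule ℂ V) (H : Submodule ℂ V) : Prop :=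
  (∀ i, E i ≤ H) ∧ ∀ f ∈ H, ∃! g : ι → V, (∀ i, g i ∈ E i) ∧ HasSum g f

/-- a normalised Legendre system on `[0,2]` -/
structure LegSys (v : ℕ → ℝ[X]) : Prop where
  deg : ∀ l, (v l).natDegree = l
  ortho : ∀ l m, ∫ y in (0:ℝ)..2, (v l).eval y * (v m).eval y = if l = m then 1 else 0
  eig : ∀ (l : ℕ) (h : ℝ → ℂ), ContDiff ℝ 1 h →
    ∫ y in (0:ℝ)..2, (wt y : ℂ) * deriv h y * (((derivative (v l)).eval y : ℝ) : ℂ) =
      (l : ℂ) * (l + 1) * ∫ y in (0:ℝ)..2, h y * (((v l).eval y : ℝ) : ℂ)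
  endpt : ∀ l : ℕ, ((v l).eval 0) ^ 2 + ((v l).eval 2) ^ 2 = 2 * (l : ℝ) + 1
  dnorm : ∀ l : ℕ, ∫ y in (0:ℝ)..2, ((derivative (v l)).eval y) ^ 2 =
    (l : ℝ) * (l + 1) * (2 * l + 1) / 2

end Pool.Agent.MP_12ef2a_an
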