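import Mathlib
import Pool.Agent.MP_12ef2a_an.Defs

set_option autoImplicit false

open MeasureTheory Polynomial

namespace Pool.Agent.MP_12ef2a_an

section A1

open Filter Topology
open scoped ENNReal

private theorem a1_partial_bdd {ι V : Type*} [NormedAddCommGroup V]
    (g : ι → V) (hg : Summable g) :
    ∃ B : ℝ, ∀ s : Finset ι, ‖∑ i ∈ s, g i‖ ≤ B := by
  classical
  have hc : CauchySeq (fun s : Finset ι => ∑ i ∈ s, g i) := hg.hasSum.cauchySeq
  have h1 := cauchySeq_finset_iff_vanishing_norm.1 hc 1 one_pos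
  obtain ⟨s0, hs0⟩ := h1
  refine ⟨∑ i ∈ s0, ‖g i‖ + 1, fun s => ?_⟩
  have h2 : ∑ i ∈ s, g i = ∑ i ∈ s ∩ s0, g i + ∑ i ∈ s \ s0, g i := by
    rw [← Finset.sum_union (Finset.disjoint_of_subset_left Finset.inter_subset_right
      Finset.sdiff_disjoint.symm), Finset.union_comm, Finset.sdiff_union_inter]
  rw [h2]
  refine (norm_add_le _ _).trans (add_le_add ?_ ?_)
  · refine (norm_sum_le _ _).trans ?_
    exact Finset.sum_le_sum_of_subset_of_nonneg Finset.inter_subset_right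
      (fun _ _ _ => norm_nonneg _)
  · exact (hs0 (s \ s0) Finset.sdiff_disjoint).le

private theorem a1_bound {ι V : Type*} [NormedAddCommGroup V] [InnerProductSpace ℂ V]
    [CompleteSpace V] (E : ι → Submodule ℂ V) (hE : ∀ i, IsClosed (E i : Set V))
    (hb : IsUnconditionalBasisOf E ⊤) :
    ∃ K : ℝ, 0 ≤ K ∧ ∀ (s t : Finset ι) (f : ι → V), (∀ i, f i ∈ E i) → t ⊆ s →
      ‖∑ i ∈ t, f i‖ ≤ K * ‖∑ i ∈ s, f i‖ := by
  classical
  have hex : ∀ f : V, ∃! g : ι → V, (∀ i, g i ∈ E i) ∧ HasSum g f :=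
    fun f => hb.2 f Submodule.mem_top
  choose P hP hPu using fun f => (hex f)
  simp only at hP hPu
  have hadd : ∀ f g, P (f + g) = P f + P g := by
    intro f g
    symm
    apply hPu
    exact ⟨fun i => (E i).add_mem ((hP f).1 i) ((hP g).1 i), (hP f).2.add (hP g).2⟩
  have hsmul : ∀ (c : ℂ) f, P (c • f) = c • P f := by
    intro c f
    symm
    apply hPu
    exact ⟨fun i => (E i).smul_mem c ((hP f).1 i), (hP f).2.const_smul c⟩
  have hmem : ∀ f, Memℓp (fun s : Finset ι => ∑ i ∈ s, P f i) ∞ := by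
    intro f
    obtain ⟨B, hB⟩ := a1_partial_bdd (P f) (hP f).2.summable
    apply memℓp_infty
    exact ⟨B, by rintro _ ⟨s, rfl⟩; exact hB s⟩
  let T : V →ₗ[ℂ] lp (fun _ : Finset ι => V) ∞ :=
    { toFun := fun f => ⟨fun s => ∑ i ∈ s, P f i, hmem f⟩
      map_add' := by
        intro f g
        ext s
        simp only [hadd, Pi.add_apply, Finset.sum_add_distrib]
        rfl
      map_smul' := by
        intro c f
        ext s
        simp [hsmul, Finset.smul_sum] }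
  have hTapp : ∀ f s, (T f : Finset ι → V) s = ∑ i ∈ s, P f i := fun _ _ => rfl
  have hcont : Continuous T := by
    refine T.continuous_of_seq_closed_graph ?_
    intro u x y hu hy
    have hcoord : ∀ s, Tendsto (fun n => ∑ i ∈ s, P (u n) i) atTop (𝓝 (y s)) := by
      intro s
      rw [tendsto_iff_norm_sub_tendsto_zero] at hy ⊢
      refine squeeze_zero (fun _ => norm_nonneg _) (fun n => ?_) hy
      have := lp.norm_apply_le_norm (p := ∞) (by simp) ((T ∘ u) n - y) s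
      exact this
    have hsing : ∀ i, Tendsto (fun n => P (u n) i) atTop (𝓝 (y {i})) := by
      intro i
      simpa using hcoord {i}
    have hmemE : ∀ i, y {i} ∈ E i := fun i =>
      (hE i).mem_of_tendsto (hsing i) (Eventually.of_forall fun n => (hP (u n)).1 i)
    have hys : ∀ s, y s = ∑ i ∈ s, y {i} := by
      intro s
      exact tendsto_nhds_unique (hcoord s) (tendsto_finsetSum _ fun i _ => hsing i)
    have hsum : HasSum (fun i => y {i}) x := by
      rw [HasSum, SummationFilter.unconditional_filter, Metric.tendsto_atTop]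
      intro ε hε
      obtain ⟨N1, hN1⟩ := (Metric.tendsto_atTop.1 hu) (ε / 3) (by positivity)
      obtain ⟨N2, hN2⟩ := (Metric.tendsto_atTop.1 hy) (ε / 3) (by positivity)
      set n := max N1 N2
      have h1 := hN1 n (le_max_left _ _)
      have h2 := hN2 n (le_max_right _ _)
      have h3 := (hP (u n)).2
      rw [HasSum, SummationFilter.unconditional_filter, Metric.tendsto_atTop] at h3
      obtain ⟨s0, hs0⟩ := h3 (ε / 3) (by positivity)
      refine ⟨s0, fun s hs => ?_⟩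
      have h4 := hs0 s hs
      rw [dist_eq_norm] at h1 h2 h4 ⊢
      have h5 : ‖(∑ i ∈ s, P (u n) i) - ∑ i ∈ s, y {i}‖ < ε / 3 := by
        rw [← hys s]
        have := lp.norm_apply_le_norm (p := ∞) (by simp) ((T ∘ u) n - y) s
        exact lt_of_le_of_lt this h2
      have h6 : (∑ i ∈ s, y {i}) - x = -((∑ i ∈ s, P (u n) i) - ∑ i ∈ s, y {i}) +
          ((∑ i ∈ s, P (u n) i) - u n) + (u n - x) := by abel
      rw [h6]
      have h7 := norm_add_le (-((∑ i ∈ s, P (u n) i) - ∑ i ∈ s, y {i}) +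
          ((∑ i ∈ s, P (u n) i) - u n)) (u n - x)
      have h8 := norm_add_le (-((∑ i ∈ s, P (u n) i) - ∑ i ∈ s, y {i}))
          ((∑ i ∈ s, P (u n) i) - u n)
      rw [norm_neg] at h8
      linarith
    have hPx : (fun i => y {i}) = P x := hPu x _ ⟨hmemE, hsum⟩
    ext s
    rw [hys s, hTapp, ← hPx]
  let T' : V →L[ℂ] lp (fun _ : Finset ι => V) ∞ := ⟨T, hcont⟩
  have hT' : ∀ f s, ‖∑ i ∈ s, P f i‖ ≤ ‖T'‖ * ‖f‖ := by
    intro f s
    have h1 := lp.norm_apply_le_norm (p := ∞) (by simp) (T' f) s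
    exact h1.trans (T'.le_opNorm f)
  refine ⟨‖T'‖, T'.opNorm_nonneg, fun s t f hf hts => ?_⟩
  have h1 : (fun i => if i ∈ s then f i else 0) = P (∑ i ∈ s, f i) := by
    apply hPu
    refine ⟨fun i => ?_, ?_⟩
    · by_cases hi : i ∈ s
      · simp only [hi, if_true]; exact hf i
      · simp only [hi, if_false]; exact (E i).zero_mem
    · have h2 : ∑ i ∈ s, f i = ∑ i ∈ s, (if i ∈ s then f i else 0) :=
        Finset.sum_congr rfl fun i hi => by simp [hi]
      rw [h2]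
      exact hasSum_sum_of_ne_finset_zero (fun i hi => by simp [hi])
  have h3 := hT' (∑ i ∈ s, f i) t
  rw [← h1] at h3
  have h4 : ∑ i ∈ t, (if i ∈ s then f i else 0) = ∑ i ∈ t, f i :=
    Finset.sum_congr rfl fun i hi => by simp [hts hi]
  rwa [h4] at h3

/-- signs with small or large sum -/
private theorem a1_signs {ι V : Type*} [NormedAddCommGroup V] [InnerProductSpace ℂ V]
    (s : Finset ι) (f : ι → V) :
    (∃ e : ι → ℂ, (∀ i, e i = 1 ∨ e i = -1) ∧
      ‖∑ i ∈ s, e i • f i‖ ^ 2 ≤ ∑ i ∈ s, ‖f i‖ ^ 2) ∧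
    (∃ e : ι → ℂ, (∀ i, e i = 1 ∨ e i = -1) ∧
      ∑ i ∈ s, ‖f i‖ ^ 2 ≤ ‖∑ i ∈ s, e i • f i‖ ^ 2) := by
  classical
  induction s using Finset.induction_on with
  | empty =>
    exact ⟨⟨fun _ => 1, fun _ => Or.inl rfl, by simp⟩, ⟨fun _ => 1, fun _ => Or.inl rfl, by simp⟩⟩
  | insert j s hj ih =>
    obtain ⟨⟨e, he, hle⟩, ⟨e', he', hge⟩⟩ := ih
    have hupd : ∀ (e : ι → ℂ) (c : ℂ), ∑ i ∈ insert j s, (Function.update e j c) i • f i =
        (∑ i ∈ s, e i • f i) + c • f j := by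
      intro e c
      rw [Finset.sum_insert hj, Function.update_self, add_comm]
      congr 1
      refine Finset.sum_congr rfl fun i hi => ?_
      rw [Function.update_of_ne]
      rintro rfl
      exact hj hi
    have hsign : ∀ (e : ι → ℂ) (c : ℂ), (∀ i, e i = 1 ∨ e i = -1) → (c = 1 ∨ c = -1) →
        ∀ i, (Function.update e j c) i = 1 ∨ (Function.update e j c) i = -1 := by
      intro e c he hc i
      by_cases hij : i = j
      · subst hij; rw [Function.update_self]; exact hc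
      · rw [Function.update_of_ne hij]; exact he i
    have hpar : ∀ A : V, ‖A + (1 : ℂ) • f j‖ ^ 2 + ‖A + (-1 : ℂ) • f j‖ ^ 2 =
        2 * (‖A‖ ^ 2 + ‖f j‖ ^ 2) := by
      intro A
      rw [one_smul, neg_smul, one_smul, ← sub_eq_add_neg]
      have := parallelogram_law_with_norm ℂ A (f j)
      nlinarith
    constructor
    · have h1 := hpar (∑ i ∈ s, e i • f i)
      rcases le_total (‖(∑ i ∈ s, e i • f i) + (1 : ℂ) • f j‖ ^ 2)
        (‖(∑ i ∈ s, e i • f i) + (-1 : ℂ) • f j‖ ^ 2) with h | h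
      · refine ⟨Function.update e j 1, hsign e 1 he (Or.inl rfl), ?_⟩
        rw [hupd, Finset.sum_insert hj]
        linarith
      · refine ⟨Function.update e j (-1), hsign e (-1) he (Or.inr rfl), ?_⟩
        rw [hupd, Finset.sum_insert hj]
        linarith
    · have h1 := hpar (∑ i ∈ s, e' i • f i)
      rcases le_total (‖(∑ i ∈ s, e' i • f i) + (1 : ℂ) • f j‖ ^ 2)
        (‖(∑ i ∈ s, e' i • f i) + (-1 : ℂ) • f j‖ ^ 2) with h | h
      · refine ⟨Function.update e' j (-1), hsign e' (-1) he' (Or.inr rfl), ?_⟩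
        rw [hupd, Finset.sum_insert hj]
        linarith
      · refine ⟨Function.update e' j 1, hsign e' 1 he' (Or.inl rfl), ?_⟩
        rw [hupd, Finset.sum_insert hj]
        linarith

end A1

/-! ### [A1] constants of an unconditional basis (abstract Hilbert space) -/

theorem uncond_const {ι V : Type*} [NormedAddCommGroup V] [InnerProductSpace ℂ V]
    [CompleteSpace V] (E : ι → Submodule ℂ V) (hE : ∀ i, IsClosed (E i : Set V))
    (hb : IsUnconditionalBasisOf E ⊤) :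
    ∃ C : ℝ, 1 ≤ C ∧
      (∀ (s : Finset ι) (f : ι → V), (∀ i, f i ∈ E i) →
        ∑ i ∈ s, ‖f i‖ ^ 2 ≤ C * ‖∑ i ∈ s, f i‖ ^ 2) ∧
      (∀ (s : Finset ι) (f : ι → V), (∀ i, f i ∈ E i) →
        ‖∑ i ∈ s, f i‖ ^ 2 ≤ C * ∑ i ∈ s, ‖f i‖ ^ 2) ∧
      -- lower frame bound: if |<f,g>| <= S i |f| for f in E i and sum S^2 <= σ then |g|^2 <= C σ
      (∀ (g : V) (S : ι → ℝ) (σ : ℝ), (∀ i, 0 ≤ S i) →
        (∀ i, ∀ f ∈ E i, ‖inner ℂ f g‖ ≤ S i * ‖f‖) →
        (∀ s : Finset ι, ∑ i ∈ s, S i ^ 2 ≤ σ) → ‖g‖ ^ 2 ≤ C * σ) ∧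
      -- Bessel bound
      (∀ (h : V) (s : Finset ι) (u : ι → V), (∀ i, u i ∈ E i) → (∀ i, ‖u i‖ ≤ 1) →
        ∑ i ∈ s, ‖inner ℂ (u i) h‖ ^ 2 ≤ C * ‖h‖ ^ 2) := by
  classical
  obtain ⟨K, hK0, hK⟩ := a1_bound E hE hb
  -- signs
  have hsg : ∀ (s : Finset ι) (f : ι → V) (e : ι → ℂ), (∀ i, f i ∈ E i) →
      (∀ i, e i = 1 ∨ e i = -1) → ‖∑ i ∈ s, e i • f i‖ ≤ 2 * K * ‖∑ i ∈ s, f i‖ := by
    intro s f e hf he
    have h1 : ∑ i ∈ s, e i • f i =
        ∑ i ∈ s.filter (fun i => e i = 1), f i - ∑ i ∈ s.filter (fun i => ¬ e i = 1), f i := by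
      rw [← Finset.sum_filter_add_sum_filter_not s (fun i => e i = 1) (fun i => e i • f i),
        sub_eq_add_neg, ← Finset.sum_neg_distrib]
      congr 1
      · refine Finset.sum_congr rfl fun i hi => ?_
        rw [(Finset.mem_filter.1 hi).2, one_smul]
      · refine Finset.sum_congr rfl fun i hi => ?_
        rw [(he i).resolve_left (Finset.mem_filter.1 hi).2, neg_smul, one_smul]
    rw [h1]
    have h2 := hK s (s.filter (fun i => e i = 1)) f hf (Finset.filter_subset _ _)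
    have h3 := hK s (s.filter (fun i => ¬ e i = 1)) f hf (Finset.filter_subset _ _)
    have h4 := norm_sub_le (∑ i ∈ s.filter (fun i => e i = 1), f i)
      (∑ i ∈ s.filter (fun i => ¬ e i = 1), f i)
    linarith
  set C : ℝ := max 1 (4 * K ^ 2) with hC
  have hC1 : 1 ≤ C := le_max_left _ _
  have hC2 : 4 * K ^ 2 ≤ C := le_max_right _ _
  have hC0 : 0 < C := by linarith
  have hlow : ∀ (s : Finset ι) (f : ι → V), (∀ i, f i ∈ E i) →
        ∑ i ∈ s, ‖f i‖ ^ 2 ≤ C * ‖∑ i ∈ s, f i‖ ^ 2 := by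
    intro s f hf
    obtain ⟨e, he, hge⟩ := (a1_signs s f).2
    have h1 := hsg s f e hf he
    have h2 : ‖∑ i ∈ s, e i • f i‖ ^ 2 ≤ (2 * K * ‖∑ i ∈ s, f i‖) ^ 2 :=
      pow_le_pow_left₀ (norm_nonneg _) h1 2
    have h3 : (2 * K * ‖∑ i ∈ s, f i‖) ^ 2 = 4 * K ^ 2 * ‖∑ i ∈ s, f i‖ ^ 2 := by ring
    have h4 : 4 * K ^ 2 * ‖∑ i ∈ s, f i‖ ^ 2 ≤ C * ‖∑ i ∈ s, f i‖ ^ 2 :=
      mul_le_mul_of_nonneg_right hC2 (by positivity)
    linarith
  have hup : ∀ (s : Finset ι) (f : ι → V), (∀ i, f i ∈ E i) →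
        ‖∑ i ∈ s, f i‖ ^ 2 ≤ C * ∑ i ∈ s, ‖f i‖ ^ 2 := by
    intro s f hf
    obtain ⟨e, he, hle⟩ := (a1_signs s f).1
    have h1 := hsg s (fun i => e i • f i) e (fun i => (E i).smul_mem _ (hf i)) he
    have h0 : ∑ i ∈ s, e i • (e i • f i) = ∑ i ∈ s, f i := by
      refine Finset.sum_congr rfl fun i _ => ?_
      rw [smul_smul]
      rcases he i with h | h <;> rw [h] <;> simp
    rw [h0] at h1
    have h2 : ‖∑ i ∈ s, f i‖ ^ 2 ≤ (2 * K * ‖∑ i ∈ s, e i • f i‖) ^ 2 :=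
      pow_le_pow_left₀ (norm_nonneg _) h1 2
    have h3 : (2 * K * ‖∑ i ∈ s, e i • f i‖) ^ 2 = 4 * K ^ 2 * ‖∑ i ∈ s, e i • f i‖ ^ 2 := by
      ring
    have h5 : 4 * K ^ 2 * ‖∑ i ∈ s, e i • f i‖ ^ 2 ≤ 4 * K ^ 2 * ∑ i ∈ s, ‖f i‖ ^ 2 :=
      mul_le_mul_of_nonneg_left hle (by positivity)
    have h6 : 4 * K ^ 2 * ∑ i ∈ s, ‖f i‖ ^ 2 ≤ C * ∑ i ∈ s, ‖f i‖ ^ 2 :=
      mul_le_mul_of_nonneg_right hC2 (Finset.sum_nonneg fun _ _ => by positivity)
    linarith
  refine ⟨C, hC1, hlow, hup, ?_, ?_⟩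
  · intro g S σ hS hin hσ
    obtain ⟨gi, ⟨hgi, hsum⟩, -⟩ := hb.2 g Submodule.mem_top
    have hσ0 : 0 ≤ σ := by simpa using hσ ∅
    -- finite estimate
    have hfin : ∀ s : Finset ι, ‖inner ℂ (∑ i ∈ s, gi i) g‖ ^ 2 ≤
        σ * (C * ‖∑ i ∈ s, gi i‖ ^ 2) := by
      intro s
      have h1 : ‖inner ℂ (∑ i ∈ s, gi i) g‖ ≤ ∑ i ∈ s, S i * ‖gi i‖ := by
        rw [sum_inner]
        refine (norm_sum_le _ _).trans (Finset.sum_le_sum fun i _ => hin i _ (hgi i))
      have h2 : (∑ i ∈ s, S i * ‖gi i‖) ^ 2 ≤ (∑ i ∈ s, S i ^ 2) * ∑ i ∈ s, ‖gi i‖ ^ 2 :=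
        Finset.sum_mul_sq_le_sq_mul_sq s _ _
      have h3 : ‖inner ℂ (∑ i ∈ s, gi i) g‖ ^ 2 ≤ (∑ i ∈ s, S i * ‖gi i‖) ^ 2 :=
        pow_le_pow_left₀ (norm_nonneg _) h1 2
      have h4 : (∑ i ∈ s, S i ^ 2) * ∑ i ∈ s, ‖gi i‖ ^ 2 ≤ σ * (C * ‖∑ i ∈ s, gi i‖ ^ 2) :=
        mul_le_mul (hσ s) (hlow s gi hgi) (Finset.sum_nonneg fun _ _ => by positivity) hσ0
      linarith
    have hl1 : Filter.Tendsto (fun s : Finset ι => ‖inner ℂ (∑ i ∈ s, gi i) g‖ ^ 2)
        Filter.atTop (nhds (‖inner ℂ g g‖ ^ 2)) := by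
      have h0 : Filter.Tendsto (fun s : Finset ι => ∑ i ∈ s, gi i) Filter.atTop (nhds g) := by
        have := hsum
        rwa [HasSum, SummationFilter.unconditional_filter] at this
      exact ((h0.inner tendsto_const_nhds).norm).pow 2
    have hl2 : Filter.Tendsto (fun s : Finset ι => σ * (C * ‖∑ i ∈ s, gi i‖ ^ 2))
        Filter.atTop (nhds (σ * (C * ‖g‖ ^ 2))) := by
      have h0 : Filter.Tendsto (fun s : Finset ι => ∑ i ∈ s, gi i) Filter.atTop (nhds g) := by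
        have := hsum
        rwa [HasSum, SummationFilter.unconditional_filter] at this
      exact (((h0.norm).pow 2).const_mul C).const_mul σ
    have hle := le_of_tendsto_of_tendsto' hl1 hl2 hfin
    have hin2 : ‖inner ℂ g g‖ = ‖g‖ ^ 2 := by
      rw [inner_self_eq_norm_sq_to_K]
      simp
    rw [hin2] at hle
    by_cases hg0 : ‖g‖ = 0
    · rw [hg0]
      have := mul_nonneg hC0.le hσ0
      simpa using this
    · have hpos : 0 < ‖g‖ ^ 2 := by positivity
      have : ‖g‖ ^ 2 * ‖g‖ ^ 2 ≤ (C * σ) * ‖g‖ ^ 2 := by nlinarith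
      exact le_of_mul_le_mul_right this hpos
  · intro h s u hu hu1
    set A : ℝ := ∑ i ∈ s, ‖inner ℂ (u i) h‖ ^ 2 with hA
    have hA0 : 0 ≤ A := Finset.sum_nonneg fun _ _ => by positivity
    set F : V := ∑ i ∈ s, (inner ℂ (u i) h) • u i with hF
    have h1 : inner ℂ F h = (A : ℂ) := by
      rw [hF, sum_inner, hA, Complex.ofReal_sum]
      refine Finset.sum_congr rfl fun i _ => ?_
      rw [inner_smul_left, Complex.conj_mul']
      push_cast
      rfl
    have h2 : ‖inner ℂ F h‖ ≤ ‖F‖ * ‖h‖ := norm_inner_le_norm _ _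
    have h3 : ‖inner ℂ F h‖ = A := by
      rw [h1, Complex.norm_real, Real.norm_eq_abs, abs_of_nonneg hA0]
    rw [h3] at h2
    have h4 : ‖F‖ ^ 2 ≤ C * A := by
      have h5 := hup s (fun i => (inner ℂ (u i) h) • u i) (fun i => (E i).smul_mem _ (hu i))
      refine h5.trans (mul_le_mul_of_nonneg_left ?_ hC0.le)
      rw [hA]
      refine Finset.sum_le_sum fun i _ => ?_
      rw [norm_smul]
      have h6 := hu1 i
      have h7 := norm_nonneg (u i)
      have h8 := norm_nonneg (inner ℂ (u i) h)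
      apply pow_le_pow_left₀ (by positivity)
      nlinarith
    have h5 : A ^ 2 ≤ (‖F‖ * ‖h‖) ^ 2 := pow_le_pow_left₀ hA0 h2 2
    have h6 : A ^ 2 ≤ (C * A) * ‖h‖ ^ 2 := by
      rw [mul_pow] at h5
      exact h5.trans (mul_le_mul_of_nonneg_right h4 (by positivity))
    by_cases hA' : A = 0
    · rw [hA']
      positivity
    · have hApos : 0 < A := lt_of_le_of_ne hA0 (Ne.symm hA')
      have : A * A ≤ (C * ‖h‖ ^ 2) * A := by nlinarith
      exact le_of_mul_le_mul_right this hApos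

end Pool.Agent.MP_12ef2a_an
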