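import Mathlib
import Pool.Agent.MP_12ef2a_an.Defs

/-!
Nearly orthogonal families of closed subspaces are unconditional bases of their closed span.
-/

set_option autoImplicit false

open MeasureTheory Polynomial

namespace Pool.Agent.MP_12ef2a_an

section

variable {ι V : Type*} [NormedAddCommGroup V] [InnerProductSpace ℂ V]

/-- two-sided bound for finite sums -/
lemma a2_bound (ε : ι → ι → ℝ) (hε : ∀ i j, 0 ≤ ε i j) (hsymm : ∀ i j, ε i j = ε j i)
    (hrow : ∀ (i : ι) (s : Finset ι), i ∉ s → ∑ j ∈ s, ε i j ≤ 1 / 2)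
    (f : ι → V) (hip : ∀ i j, i ≠ j → ‖inner ℂ (f i) (f j)‖ ≤ ε i j * ‖f i‖ * ‖f j‖)
    (s : Finset ι) :
    1 / 2 * ∑ i ∈ s, ‖f i‖ ^ 2 ≤ ‖∑ i ∈ s, f i‖ ^ 2 ∧
      ‖∑ i ∈ s, f i‖ ^ 2 ≤ 3 / 2 * ∑ i ∈ s, ‖f i‖ ^ 2 := by
  classical
  have h1 : ‖∑ i ∈ s, f i‖ ^ 2 = ∑ i ∈ s, ∑ j ∈ s, RCLike.re (inner ℂ (f i) (f j)) := by
    rw [← inner_self_eq_norm_sq (𝕜 := ℂ), sum_inner, map_sum]
    refine Finset.sum_congr rfl fun i _ => ?_
    rw [inner_sum, map_sum]
  have h2 : ∑ i ∈ s, ∑ j ∈ s, RCLike.re (inner ℂ (f i) (f j)) = ∑ i ∈ s, ‖f i‖ ^ 2 +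
      ∑ i ∈ s, ∑ j ∈ s, (if i = j then 0 else RCLike.re (inner ℂ (f i) (f j))) := by
    rw [← Finset.sum_add_distrib]
    refine Finset.sum_congr rfl fun i hi => ?_
    rw [← Finset.add_sum_erase _ _ hi, ← Finset.add_sum_erase (s := s)
      (f := fun j => if i = j then 0 else RCLike.re (inner ℂ (f i) (f j))) hi]
    simp only [if_true, zero_add]
    rw [inner_self_eq_norm_sq (𝕜 := ℂ)]
    congr 1
    refine Finset.sum_congr rfl fun j hj => ?_
    rw [if_neg (Finset.ne_of_mem_erase hj).symm]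
  have h3 : |∑ i ∈ s, ∑ j ∈ s, (if i = j then 0 else RCLike.re (inner ℂ (f i) (f j)))| ≤
      ∑ i ∈ s, ∑ j ∈ s, (if i = j then 0 else ε i j * ((‖f i‖ ^ 2 + ‖f j‖ ^ 2) / 2)) := by
    refine (Finset.abs_sum_le_sum_abs _ _).trans (Finset.sum_le_sum fun i _ => ?_)
    refine (Finset.abs_sum_le_sum_abs _ _).trans (Finset.sum_le_sum fun j _ => ?_)
    split_ifs with hij
    · simp
    · have h4 := (RCLike.abs_re_le_norm (inner ℂ (f i) (f j))).trans (hip i j hij)
      refine h4.trans ?_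
      rw [mul_assoc]
      refine mul_le_mul_of_nonneg_left ?_ (hε i j)
      nlinarith [sq_nonneg (‖f i‖ - ‖f j‖)]
  have h4 : ∑ i ∈ s, ∑ j ∈ s, (if i = j then 0 else ε i j * ((‖f i‖ ^ 2 + ‖f j‖ ^ 2) / 2)) =
      ∑ i ∈ s, ∑ j ∈ s, (if i = j then 0 else ε i j * ‖f i‖ ^ 2) := by
    have e1 : ∑ i ∈ s, ∑ j ∈ s, (if i = j then 0 else ε i j * ((‖f i‖ ^ 2 + ‖f j‖ ^ 2) / 2)) =
        ∑ i ∈ s, ∑ j ∈ s, (if i = j then 0 else ε i j * ‖f i‖ ^ 2) / 2 +
        ∑ i ∈ s, ∑ j ∈ s, (if i = j then 0 else ε i j * ‖f j‖ ^ 2) / 2 := by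
      rw [← Finset.sum_add_distrib]
      refine Finset.sum_congr rfl fun i _ => ?_
      rw [← Finset.sum_add_distrib]
      refine Finset.sum_congr rfl fun j _ => ?_
      split_ifs
      · simp
      · ring
    have e2 : ∑ i ∈ s, ∑ j ∈ s, (if i = j then 0 else ε i j * ‖f j‖ ^ 2) / 2 =
        ∑ i ∈ s, ∑ j ∈ s, (if i = j then 0 else ε i j * ‖f i‖ ^ 2) / 2 := by
      rw [Finset.sum_comm]
      refine Finset.sum_congr rfl fun i _ => Finset.sum_congr rfl fun j _ => ?_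
      by_cases hij : i = j
      · simp [hij]
      · rw [if_neg hij, if_neg (fun h => hij h.symm), hsymm j i]
    rw [e1, e2, ← Finset.sum_add_distrib]
    refine Finset.sum_congr rfl fun i _ => ?_
    rw [← Finset.sum_add_distrib]
    refine Finset.sum_congr rfl fun j _ => ?_
    ring
  have h5 : ∑ i ∈ s, ∑ j ∈ s, (if i = j then 0 else ε i j * ‖f i‖ ^ 2) ≤
      1 / 2 * ∑ i ∈ s, ‖f i‖ ^ 2 := by
    rw [Finset.mul_sum]
    refine Finset.sum_le_sum fun i hi => ?_
    rw [← Finset.add_sum_erase _ _ hi]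
    simp only [if_true, zero_add]
    have e1 : ∑ j ∈ s.erase i, (if i = j then 0 else ε i j * ‖f i‖ ^ 2) =
        (∑ j ∈ s.erase i, ε i j) * ‖f i‖ ^ 2 := by
      rw [Finset.sum_mul]
      refine Finset.sum_congr rfl fun j hj => ?_
      rw [if_neg (Finset.ne_of_mem_erase hj).symm]
    rw [e1]
    exact mul_le_mul_of_nonneg_right (hrow i _ (Finset.notMem_erase i s)) (sq_nonneg _)
  rw [h4] at h3
  have h6 := abs_le.1 (h3.trans h5)
  rw [h1, h2]
  constructor
  · linarith [h6.1]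
  · linarith [h6.2]

/-- uniqueness of the expansion -/
lemma a2_unique (ε : ι → ι → ℝ) (hε : ∀ i j, 0 ≤ ε i j) (hsymm : ∀ i j, ε i j = ε j i)
    (hrow : ∀ (i : ι) (s : Finset ι), i ∉ s → ∑ j ∈ s, ε i j ≤ 1 / 2)
    (f : ι → V) (hip : ∀ i j, i ≠ j → ‖inner ℂ (f i) (f j)‖ ≤ ε i j * ‖f i‖ * ‖f j‖)
    (h0 : HasSum f 0) : ∀ i, f i = 0 := by
  classical
  intro i
  have h1 : Filter.Tendsto (fun s : Finset ι => ‖∑ i ∈ s, f i‖ ^ 2) Filter.atTop (nhds 0) := by
    have h2 := (h0.norm.pow 2)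
    simpa using h2
  have h2 : ∀ᶠ s : Finset ι in Filter.atTop, 1 / 2 * ‖f i‖ ^ 2 ≤ ‖∑ i ∈ s, f i‖ ^ 2 := by
    filter_upwards [Filter.eventually_ge_atTop ({i} : Finset ι)] with s hs
    have hi : i ∈ s := hs (Finset.mem_singleton_self i)
    refine le_trans ?_ (a2_bound ε hε hsymm hrow f hip s).1
    refine mul_le_mul_of_nonneg_left ?_ (by norm_num)
    exact Finset.single_le_sum (f := fun i => ‖f i‖ ^ 2) (fun j _ => sq_nonneg _) hi
  have h3 := ge_of_tendsto h1 h2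
  have h4 : ‖f i‖ ^ 2 = 0 := le_antisymm (by linarith) (sq_nonneg _)
  have h5 : ‖f i‖ = 0 := by
    rwa [sq_eq_zero_iff] at h4
  exact norm_eq_zero.1 h5

end

theorem riesz_of_row_sum {ι V : Type*} [NormedAddCommGroup V] [InnerProductSpace ℂ V]
    [CompleteSpace V] (E : ι → Submodule ℂ V) (hE : ∀ i, IsClosed (E i : Set V))
    (ε : ι → ι → ℝ) (hε : ∀ i j, 0 ≤ ε i j) (hsymm : ∀ i j, ε i j = ε j i)
    (hrow : ∀ (i : ι) (s : Finset ι), i ∉ s → ∑ j ∈ s, ε i j ≤ 1 / 2)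
    (hip : ∀ i j, i ≠ j → ∀ f ∈ E i, ∀ g ∈ E j, ‖inner ℂ f g‖ ≤ ε i j * ‖f‖ * ‖g‖) :
    IsUnconditionalBasisOf E (⨆ i, E i).topologicalClosure := by
  classical
  have hc : ∀ i, CompleteSpace (E i) := fun i => (hE i).completeSpace_coe
  have hip' : ∀ f : ι → V, (∀ i, f i ∈ E i) →
      ∀ i j, i ≠ j → ‖inner ℂ (f i) (f j)‖ ≤ ε i j * ‖f i‖ * ‖f j‖ :=
    fun f hf i j hij => hip i j hij _ (hf i) _ (hf j)
  refine ⟨fun i => (le_iSup E i).trans (Submodule.le_topologicalClosure _), ?_⟩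
  -- the synthesis operator
  let W := lp (fun i => E i) 2
  have hsq : ∀ F : W, Summable (fun i => ‖(F i : V)‖ ^ 2) := by
    intro F
    have h1 := (memℓp_gen_iff (by norm_num)).1 (lp.memℓp F)
    simpa using h1
  have hnorm : ∀ F : W, ‖F‖ ^ 2 = ∑' i, ‖(F i : V)‖ ^ 2 := by
    intro F
    have h1 := lp.norm_rpow_eq_tsum (p := 2) (by norm_num) F
    simpa using h1
  have hsum : ∀ F : W, Summable (fun i => (F i : V)) := by
    intro F
    rw [summable_iff_vanishing_norm]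
    intro δ hδ
    have h1 := (summable_iff_vanishing_norm.1 (hsq F)) (δ ^ 2 / 2) (by positivity)
    obtain ⟨s, hs⟩ := h1
    refine ⟨s, fun t ht => ?_⟩
    have h2 := hs t ht
    have h3 := (a2_bound ε hε hsymm hrow (fun i => (F i : V)) (hip' _ fun i => (F i).2) t).2
    rw [Real.norm_of_nonneg (Finset.sum_nonneg fun i _ => sq_nonneg _)] at h2
    have h4 : ‖∑ i ∈ t, (F i : V)‖ ^ 2 < δ ^ 2 := by nlinarith
    exact lt_of_pow_lt_pow_left₀ 2 hδ.le h4
  have hup : ∀ F : W, ‖∑' i, (F i : V)‖ ^ 2 ≤ 3 / 2 * ‖F‖ ^ 2 := by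
    intro F
    rw [hnorm F]
    have h1 := ((hsum F).hasSum.norm.pow 2)
    have h2 := ((hsq F).hasSum).const_mul (3 / 2 : ℝ)
    exact le_of_tendsto_of_tendsto' h1 ((hsq F).hasSum.const_mul (3 / 2 : ℝ)) fun s =>
      (a2_bound ε hε hsymm hrow (fun i => (F i : V)) (hip' _ fun i => (F i).2) s).2
  have hlow : ∀ F : W, 1 / 2 * ‖F‖ ^ 2 ≤ ‖∑' i, (F i : V)‖ ^ 2 := by
    intro F
    rw [hnorm F]
    have h1 := ((hsum F).hasSum.norm.pow 2)
    exact le_of_tendsto_of_tendsto' ((hsq F).hasSum.const_mul (1 / 2 : ℝ)) h1 fun s =>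
      (a2_bound ε hε hsymm hrow (fun i => (F i : V)) (hip' _ fun i => (F i).2) s).1
  let T0 : W →ₗ[ℂ] V :=
    { toFun := fun F => ∑' i, (F i : V)
      map_add' := fun F G => by
        rw [← (hsum F).tsum_add (hsum G)]
        rfl
      map_smul' := fun c F => by
        simp only [RingHom.id_apply]
        rw [← tsum_const_smul'' c]
        rfl }
  let T : W →L[ℂ] V := T0.mkContinuous 2 (by
    intro F
    have h1 := hup F
    have h2 : ‖T0 F‖ ^ 2 ≤ (2 * ‖F‖) ^ 2 := by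
      refine h1.trans ?_
      nlinarith [sq_nonneg ‖F‖]
    exact le_of_sq_le_sq h2 (by positivity))
  have hT : ∀ F : W, T F = ∑' i, (F i : V) := fun F => rfl
  have hanti : AntilipschitzWith 2 T := by
    refine ContinuousLinearMap.antilipschitz_of_bound _ ?_
    intro F
    have h1 := hlow F
    rw [← hT F] at h1
    have h2 : ‖F‖ ^ 2 ≤ (2 * ‖T F‖) ^ 2 := by
      nlinarith [sq_nonneg ‖T F‖]
    have h3 := le_of_sq_le_sq h2 (by positivity)
    simpa using h3
  have hclosed : IsClosed (Set.range T) := hanti.isClosed_range T.uniformContinuous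
  have hrange : (⨆ i, E i).topologicalClosure ≤ LinearMap.range (T : W →ₗ[ℂ] V) := by
    refine Submodule.topologicalClosure_minimal _ (iSup_le fun i => ?_) hclosed
    intro x hx
    refine ⟨lp.single 2 i ⟨x, hx⟩, ?_⟩
    change ∑' j, ((lp.single 2 i (⟨x, hx⟩ : E i) : W) j : V) = x
    rw [tsum_eq_single i]
    · simp
    · intro j hj
      rw [lp.single_apply_ne _ _ _ hj]
      rfl
  intro f hf
  obtain ⟨F, hF⟩ := hrange hf
  refine ⟨fun i => (F i : V), ⟨fun i => (F i).2, ?_⟩, ?_⟩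
  · have h1 := (hsum F).hasSum
    have h2 : ∑' i, (F i : V) = f := hF
    rw [h2] at h1
    exact h1
  · rintro g ⟨hg1, hg2⟩
    have h1 : HasSum (fun i => (F i : V)) f := by
      have h1 := (hsum F).hasSum
      have h2 : ∑' i, (F i : V) = f := hF
      rw [h2] at h1
      exact h1
    have h2 := hg2.sub h1
    rw [sub_self] at h2
    have h3 := a2_unique ε hε hsymm hrow (fun i => g i - (F i : V))
      (hip' _ fun i => (E i).sub_mem (hg1 i) (F i).2) h2
    funext i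
    exact sub_eq_zero.1 (h3 i)

theorem uncond_reindex {ι κ V : Type*} [NormedAddCommGroup V] [InnerProductSpace ℂ V]
    (E : κ → Submodule ℂ V) (e : ι → κ) (he : Function.Injective e)
    (hbot : ∀ x, x ∉ Set.range e → E x = ⊥) (H : Submodule ℂ V)
    (h : IsUnconditionalBasisOf (fun i => E (e i)) H) : IsUnconditionalBasisOf E H := by
  classical
  obtain ⟨h1, h2⟩ := h
  refine ⟨?_, ?_⟩
  · intro x
    by_cases hx : x ∈ Set.range e
    · obtain ⟨i, rfl⟩ := hx
      exact h1 i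
    · rw [hbot x hx]
      exact bot_le
  · intro f hf
    obtain ⟨g, ⟨hg1, hg2⟩, hg3⟩ := h2 f hf
    refine ⟨Function.extend e g 0, ⟨?_, ?_⟩, ?_⟩
    · intro x
      by_cases hx : x ∈ Set.range e
      · obtain ⟨i, rfl⟩ := hx
        rw [he.extend_apply]
        exact hg1 i
      · rw [Function.extend_apply' _ _ _ (by simpa using hx)]
        simp
    · rw [← he.hasSum_iff (f := Function.extend e g 0)]
      · have : (Function.extend e g 0) ∘ e = g := by
          funext i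
          exact he.extend_apply _ _ _
        rw [this]
        exact hg2
      · intro x hx
        rw [Function.extend_apply' _ _ _ (by simpa using hx)]
        rfl
    · rintro g' ⟨hg'1, hg'2⟩
      have h0 : ∀ x, x ∉ Set.range e → g' x = 0 := by
        intro x hx
        have := hg'1 x
        rw [hbot x hx] at this
        simpa using this
      have h3 : HasSum (g' ∘ e) f := (he.hasSum_iff h0).2 hg'2
      have h4 := hg3 (g' ∘ e) ⟨fun i => hg'1 (e i), h3⟩
      funext x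
      by_cases hx : x ∈ Set.range e
      · obtain ⟨i, rfl⟩ := hx
        rw [he.extend_apply, ← h4]
        rfl
      · rw [h0 x hx, Function.extend_apply' _ _ _ (by simpa using hx)]
        rfl

end Pool.Agent.MP_12ef2a_an
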