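import Mathlib
import Pool.Agent.MP_12ef2a_an.Defs

set_option autoImplicit false

open MeasureTheory Polynomial

namespace Pool.Agent.MP_12ef2a_an

/-- the functional `p ↦ ∫_0^2 p` -/
noncomputable def plf : ℝ[X] →ₗ[ℝ] ℝ where
  toFun p := ∫ y in (0:ℝ)..2, p.eval y
  map_add' p q := by
    simp only [eval_add]
    exact intervalIntegral.integral_add (p.continuous.intervalIntegrable _ _)
      (q.continuous.intervalIntegrable _ _)
  map_smul' c p := by
    simp [eval_smul, intervalIntegral.integral_const_mul]

theorem plf_apply (p : ℝ[X]) : plf p = ∫ y in (0:ℝ)..2, p.eval y := rfl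

theorem plf_derivative (p : ℝ[X]) : plf (derivative p) = p.eval 2 - p.eval 0 := by
  rw [plf_apply]
  exact intervalIntegral.integral_eq_sub_of_hasDerivAt (fun x _ => p.hasDerivAt x)
    ((derivative p).continuous.intervalIntegrable _ _)

theorem plf_C_mul (c : ℝ) (p : ℝ[X]) : plf (C c * p) = c * plf p := by
  rw [← smul_eq_C_mul, map_smul, smul_eq_mul]

theorem plf_sq_pos {p : ℝ[X]} (hp : p ≠ 0) : 0 < plf (p * p) := by
  rw [plf_apply]
  apply intervalIntegral.integral_pos (by norm_num) (p * p).continuous.continuousOn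
  · intro x _
    rw [eval_mul]
    exact mul_self_nonneg _
  · by_contra hcon
    push Not at hcon
    apply hp
    apply Polynomial.eq_zero_of_infinite_isRoot
    apply Set.Infinite.mono _ (Set.Icc_infinite (show (0:ℝ) < 2 by norm_num))
    intro x hx
    have h1 := hcon x hx
    rw [eval_mul] at h1
    have h2 : p.eval x * p.eval x = 0 := le_antisymm h1 (mul_self_nonneg _)
    exact mul_self_eq_zero.mp h2

theorem plf_sq_eq_zero {p : ℝ[X]} (hp : plf (p * p) = 0) : p = 0 := by
  by_contra h
  exact absurd hp (plf_sq_pos h).ne'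

theorem plf_ext_of_pow (n : ℕ) (p : ℝ[X]) (h : ∀ i < n, plf (p * X ^ i) = 0) (q : ℝ[X])
    (hq : q.degree < n) : plf (p * q) = 0 := by
  have h1 : q = ∑ i ∈ Finset.range n, C (q.coeff i) * X ^ i := by
    by_cases h0 : q = 0
    · simp [h0]
    · rw [Polynomial.degree_eq_natDegree h0] at hq
      exact Polynomial.as_sum_range_C_mul_X_pow' q (by exact_mod_cast hq)
  rw [h1, Finset.mul_sum, map_sum]
  apply Finset.sum_eq_zero
  intro i hi
  rw [show p * (C (q.coeff i) * X ^ i) = C (q.coeff i) * (p * X ^ i) by ring, plf_C_mul,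
    h i (Finset.mem_range.mp hi), mul_zero]

/-- an orthonormal polynomial of degree `n` -/
theorem exists_orth (n : ℕ) : ∃ p : ℝ[X], p.natDegree = n ∧ p ≠ 0 ∧ plf (p * p) = 1 ∧
    ∀ q : ℝ[X], q.degree < n → plf (p * q) = 0 := by
  let T : degreeLT ℝ (n + 1) →ₗ[ℝ] (Fin n → ℝ) :=
    { toFun := fun p i => plf ((p : ℝ[X]) * X ^ (i : ℕ))
      map_add' := by
        intro p q
        funext i
        simp [add_mul]
      map_smul' := by
        intro c p
        funext i
        simp }
  have hker : LinearMap.ker T ≠ ⊥ := by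
    apply LinearMap.ker_ne_bot_of_finrank_lt
    rw [(degreeLTEquiv ℝ (n + 1)).finrank_eq]
    simp
  obtain ⟨⟨p, hpm⟩, hpk, hp0⟩ := Submodule.exists_mem_ne_zero_of_ne_bot hker
  have hp0' : p ≠ 0 := by
    intro h
    apply hp0
    exact Subtype.ext h
  have hpd : p.degree < ((n + 1 : ℕ) : WithBot ℕ) := mem_degreeLT.mp hpm
  have hX : ∀ i < n, plf (p * X ^ i) = 0 := by
    intro i hi
    have := congrFun (LinearMap.mem_ker.mp hpk) ⟨i, hi⟩
    exact this
  have horth := plf_ext_of_pow n p hX
  have hnd : p.natDegree = n := by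
    rw [Polynomial.degree_eq_natDegree hp0'] at hpd
    have h1 : p.natDegree < n + 1 := by exact_mod_cast hpd
    by_contra hne
    have h2 : p.natDegree < n := by omega
    have h3 : p.degree < (n : WithBot ℕ) := by
      rw [Polynomial.degree_eq_natDegree hp0']
      exact_mod_cast h2
    exact hp0' (plf_sq_eq_zero (horth p h3))
  have hpos := plf_sq_pos hp0'
  set s := plf (p * p) with hs
  have hsq : Real.sqrt s ≠ 0 := (Real.sqrt_pos.mpr hpos).ne'
  have hc : (Real.sqrt s)⁻¹ ≠ 0 := inv_ne_zero hsq
  refine ⟨C (Real.sqrt s)⁻¹ * p, ?_, ?_, ?_, ?_⟩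
  · rw [natDegree_C_mul hc, hnd]
  · exact mul_ne_zero (by simpa using hsq) hp0'
  · rw [show C (Real.sqrt s)⁻¹ * p * (C (Real.sqrt s)⁻¹ * p) =
      C ((Real.sqrt s)⁻¹ * (Real.sqrt s)⁻¹) * (p * p) by rw [C_mul]; ring, plf_C_mul, ← hs]
    rw [← mul_inv, Real.mul_self_sqrt hpos.le]
    exact inv_mul_cancel₀ hpos.ne'
  · intro q hq
    rw [mul_assoc, plf_C_mul, horth q hq, mul_zero]

/-- the weight as a polynomial -/
noncomputable def wp : ℝ[X] := C 2 * X - X ^ 2

theorem wp_eval (y : ℝ) : wp.eval y = wt y := by
  simp [wp, wt]; ring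

theorem wp_derivative : derivative wp = C 2 - C 2 * X := by
  simp only [wp, derivative_sub, derivative_C_mul, derivative_X, derivative_X_pow, mul_one]
  norm_num

/-- Legendre operator -/
noncomputable def lop (p : ℝ[X]) : ℝ[X] := - derivative (wp * derivative p)

theorem plf_lop (p q : ℝ[X]) : plf (lop p * q) = plf (wp * derivative p * derivative q) := by
  have h1 : plf (derivative (wp * derivative p * q)) = 0 := by
    rw [plf_derivative]
    simp [eval_mul, wp_eval, wt]
  have h2 : derivative (wp * derivative p * q) =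
      derivative (wp * derivative p) * q + wp * derivative p * derivative q := by
    rw [derivative_mul]
  rw [h2, map_add] at h1
  rw [lop, neg_mul, map_neg]
  linarith

theorem plf_lop_symm (p q : ℝ[X]) : plf (lop p * q) = plf (p * lop q) := by
  rw [plf_lop, mul_comm p, plf_lop]
  congr 1
  ring

theorem lop_X_pow (k : ℕ) : lop (X ^ (k + 1)) =
    C (((k : ℝ) + 1) * (k + 2)) * X ^ (k + 1) - C (2 * ((k : ℝ) + 1) ^ 2) * X ^ k := by
  rw [lop, wp]
  rw [derivative_X_pow, Nat.add_sub_cancel]
  have : (C (2:ℝ) * X - X ^ 2) * (C (((k + 1 : ℕ)) : ℝ) * X ^ k) =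
      C (2 * ((k : ℝ) + 1)) * X ^ (k + 1) - C ((k : ℝ) + 1) * X ^ (k + 2) := by
    push_cast
    rw [C_mul]
    ring
  rw [this, derivative_sub, derivative_C_mul, derivative_C_mul, derivative_X_pow,
    derivative_X_pow, Nat.add_sub_cancel, show k + 2 - 1 = k + 1 by omega]
  push_cast
  simp only [C_mul, C_add, C_pow, map_natCast, C_1]
  simp only [map_ofNat]
  ring

theorem lop_add (p q : ℝ[X]) : lop (p + q) = lop p + lop q := by
  rw [lop, lop, lop]
  rw [derivative_add, mul_add, derivative_add]
  ring

theorem lop_C_mul (c : ℝ) (p : ℝ[X]) : lop (C c * p) = C c * lop p := by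
  rw [lop, lop, derivative_C_mul, show wp * (C c * derivative p) = C c * (wp * derivative p) by ring,
    derivative_C_mul]
  ring

theorem coeff_lop (p : ℝ[X]) (n : ℕ) : (lop p).coeff n =
    (n : ℝ) * (n + 1) * p.coeff n - 2 * ((n : ℝ) + 1) ^ 2 * p.coeff (n + 1) := by
  have h : lop p = - (derivative wp * derivative p + wp * derivative (derivative p)) := by
    rw [lop, derivative_mul]
  rw [h, wp_derivative, wp]
  have h2 : (-((C 2 - C 2 * X) * derivative p + (C 2 * X - X ^ 2) * derivative (derivative p))) =
      C (-2 : ℝ) * derivative p + C (2 : ℝ) * (X * derivative p) +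
      C (-2 : ℝ) * (X * derivative (derivative p)) + X * (X * derivative (derivative p)) := by
    simp only [C_neg]
    ring
  rw [h2]
  simp only [coeff_add, coeff_C_mul]
  rcases n with _ | _ | n
  · simp [coeff_derivative]
  · simp [coeff_derivative, coeff_X_mul]
    ring
  · simp [coeff_derivative, coeff_X_mul]
    ring

theorem degree_lop_lt (p : ℝ[X]) (n : ℕ) (hp : p.degree < n) : (lop p).degree < n := by
  rw [degree_lt_iff_coeff_zero] at hp ⊢
  intro m hm
  rw [coeff_lop, hp m hm, hp (m + 1) (by omega)]
  ring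

theorem degree_derivative_lt' (p : ℝ[X]) (n : ℕ) (hp : p.degree < (n + 1 : ℕ)) :
    (derivative p).degree < n := by
  rw [degree_lt_iff_coeff_zero] at hp ⊢
  intro m hm
  rw [coeff_derivative, hp (m + 1) (by omega)]
  ring

theorem exists_leg : ∃ v : ℕ → ℝ[X], LegSys v := by
  choose v hdeg hne hnorm horth using exists_orth
  have hdegle : ∀ l, (v l).degree < ((l + 1 : ℕ) : WithBot ℕ) := by
    intro l
    rw [degree_eq_natDegree (hne l), hdeg l]
    exact_mod_cast Nat.lt_succ_self l
  have hint : ∀ l m : ℕ, (∫ y in (0:ℝ)..2, (v l).eval y * (v m).eval y) = plf (v l * v m) := by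
    intro l m
    rw [plf_apply]
    simp only [eval_mul]
  -- the differential equation
  have hode : ∀ l : ℕ, lop (v l) = C ((l : ℝ) * (l + 1)) * v l := by
    intro l
    have hr : (lop (v l) - C ((l : ℝ) * (l + 1)) * v l).degree < l := by
      rw [degree_lt_iff_coeff_zero]
      intro m hm
      have h1 : (v l).coeff (m + 1) = 0 := by
        apply coeff_eq_zero_of_natDegree_lt
        rw [hdeg]; omega
      rw [coeff_sub, coeff_lop, coeff_C_mul, h1]
      rcases hm.eq_or_lt with rfl | hlt
      · ring
      · have h2 : (v l).coeff m = 0 := by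
          apply coeff_eq_zero_of_natDegree_lt
          rw [hdeg]; omega
        rw [h2]; ring
    have hz : ∀ q : ℝ[X], q.degree < l →
        plf ((lop (v l) - C ((l : ℝ) * (l + 1)) * v l) * q) = 0 := by
      intro q hq
      rw [sub_mul, map_sub, mul_assoc, plf_C_mul, horth l q hq, plf_lop_symm,
        horth l _ (degree_lop_lt q l hq)]
      ring
    exact sub_eq_zero.mp (plf_sq_eq_zero (hz _ hr))
  -- end points
  have hend : ∀ l : ℕ, ((v l).eval 0) ^ 2 + ((v l).eval 2) ^ 2 = 2 * (l : ℝ) + 1 := by
    intro l
    have h1 : plf (derivative ((X - C 1) * (v l * v l))) =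
        (v l).eval 2 ^ 2 + (v l).eval 0 ^ 2 := by
      rw [plf_derivative]
      simp [eval_mul]
      ring
    have h2 : derivative ((X - C 1) * (v l * v l)) =
        v l * v l + C 2 * (v l * ((X - C 1) * derivative (v l))) := by
      rw [derivative_mul, derivative_mul, derivative_sub, derivative_X, derivative_C]
      simp only [map_ofNat]
      ring
    have h3 : plf (v l * ((X - C 1) * derivative (v l))) = l := by
      have hr : ((X - C (1:ℝ)) * derivative (v l) - C (l : ℝ) * v l).degree < (l : WithBot ℕ) := by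
        rw [degree_lt_iff_coeff_zero]
        intro m hm
        have h1 : (v l).coeff (m + 1) = 0 := by
          apply coeff_eq_zero_of_natDegree_lt
          rw [hdeg]; omega
        rw [coeff_sub, sub_mul, coeff_sub, coeff_C_mul, coeff_C_mul, coeff_derivative, h1]
        have h4 : (X * derivative (v l)).coeff m = (m : ℝ) * (v l).coeff m := by
          rcases m with _ | m
          · simp
          · rw [coeff_X_mul, coeff_derivative]
            push_cast
            ring
        rw [h4]
        rcases hm.eq_or_lt with rfl | hlt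
        · ring
        · have h2 : (v l).coeff m = 0 := by
            apply coeff_eq_zero_of_natDegree_lt
            rw [hdeg]; omega
          rw [h2]; ring
      have h5 := horth l _ hr
      rw [mul_sub, map_sub, show v l * (C (l : ℝ) * v l) = C (l : ℝ) * (v l * v l) by ring,
        plf_C_mul, hnorm l] at h5
      linarith
    rw [h2, map_add, plf_C_mul, h3, hnorm l] at h1
    linarith
  refine ⟨v, ⟨hdeg, ?_, ?_, hend, ?_⟩⟩
  · intro l m
    rw [hint]
    by_cases h : l = m
    · rw [if_pos h, h, hnorm]
    · rw [if_neg h]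
      rcases Nat.lt_or_gt_of_ne h with hlt | hlt
      · rw [mul_comm]
        apply horth
        rw [degree_eq_natDegree (hne l), hdeg l]
        exact_mod_cast hlt
      · apply horth
        rw [degree_eq_natDegree (hne m), hdeg m]
        exact_mod_cast hlt
  · intro l h hh
    -- integration by parts
    have hd : ∀ x : ℝ, HasDerivAt h (deriv h x) x := fun x =>
      (hh.differentiable (by norm_num) x).hasDerivAt
    have hcd : Continuous (deriv h) := hh.continuous_deriv (by norm_num)
    set P : ℝ[X] := wp * derivative (v l) with hP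
    have hPd : ∀ x : ℝ, HasDerivAt (fun y : ℝ => ((P.eval y : ℝ) : ℂ))
        (((derivative P).eval x : ℝ) : ℂ) x := fun x => (P.hasDerivAt x).ofReal_comp
    have hPc : Continuous (fun y : ℝ => ((P.eval y : ℝ) : ℂ)) :=
      Complex.continuous_ofReal.comp P.continuous
    have hPdc : Continuous (fun y : ℝ => (((derivative P).eval y : ℝ) : ℂ)) :=
      Complex.continuous_ofReal.comp (derivative P).continuous
    have hprod : ∀ x : ℝ, HasDerivAt (fun y : ℝ => h y * ((P.eval y : ℝ) : ℂ))
        (deriv h x * ((P.eval x : ℝ) : ℂ) + h x * (((derivative P).eval x : ℝ) : ℂ)) x :=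
      fun x => (hd x).mul (hPd x)
    have hi1 : IntervalIntegrable (fun x => deriv h x * ((P.eval x : ℝ) : ℂ)) volume 0 2 :=
      (hcd.mul hPc).intervalIntegrable _ _
    have hi2 : IntervalIntegrable (fun x => h x * (((derivative P).eval x : ℝ) : ℂ)) volume 0 2 :=
      (hh.continuous.mul hPdc).intervalIntegrable _ _
    have hftc := intervalIntegral.integral_eq_sub_of_hasDerivAt (fun x _ => hprod x)
      (hi1.add hi2)
    rw [intervalIntegral.integral_add hi1 hi2] at hftc
    have hb0 : P.eval 0 = 0 := by simp [hP, wp_eval, wt]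
    have hb2 : P.eval 2 = 0 := by simp [hP, wp_eval, wt]
    rw [hb0, hb2] at hftc
    simp only [Complex.ofReal_zero, mul_zero, sub_zero] at hftc
    have hdP : derivative P = C (-((l : ℝ) * (l + 1))) * v l := by
      have := hode l
      rw [lop, ← hP] at this
      rw [C_neg, neg_mul, ← this, neg_neg]
    have e1 : (∫ y in (0:ℝ)..2, (wt y : ℂ) * deriv h y *
        (((derivative (v l)).eval y : ℝ) : ℂ)) =
        ∫ y in (0:ℝ)..2, deriv h y * ((P.eval y : ℝ) : ℂ) := by
      apply intervalIntegral.integral_congr
      intro y _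
      simp only [hP, eval_mul, wp_eval]
      push_cast
      ring
    have e2 : (∫ y in (0:ℝ)..2, h y * (((derivative P).eval y : ℝ) : ℂ)) =
        -((l : ℂ) * (l + 1)) * ∫ y in (0:ℝ)..2, h y * (((v l).eval y : ℝ) : ℂ) := by
      rw [← intervalIntegral.integral_const_mul]
      apply intervalIntegral.integral_congr
      intro y _
      simp only [hdP, eval_mul, eval_C]
      push_cast
      ring
    rw [e1]
    rw [e2] at hftc
    linear_combination hftc
  · intro l
    have h0 : (∫ y in (0:ℝ)..2, ((derivative (v l)).eval y) ^ 2) =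
        plf (derivative (v l) * derivative (v l)) := by
      rw [plf_apply]
      simp only [eval_mul, pow_two]
    rw [h0]
    have h1 : plf (derivative (v l * derivative (v l))) =
        (v l).eval 2 * (derivative (v l)).eval 2 - (v l).eval 0 * (derivative (v l)).eval 0 := by
      rw [plf_derivative, eval_mul, eval_mul]
    have h2 : plf (v l * derivative (derivative (v l))) = 0 := by
      apply horth
      have h3 : (derivative (v l)).degree < (l : WithBot ℕ) := degree_derivative_lt' _ _ (hdegle l)
      exact lt_of_le_of_lt (degree_derivative_le) h3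
    rw [derivative_mul, map_add, h2, add_zero] at h1
    rw [h1]
    -- the equation at the end points
    have hE : ∀ x : ℝ, -((2 - 2 * x) * (derivative (v l)).eval x +
        wt x * (derivative (derivative (v l))).eval x) = (l : ℝ) * (l + 1) * (v l).eval x := by
      intro x
      have := congrArg (fun p : ℝ[X] => p.eval x) (hode l)
      simp only [lop, eval_neg, eval_mul, eval_C, derivative_mul, eval_add, wp_derivative,
        eval_sub, eval_X, wp_eval] at this
      linarith
    have hE0 := hE 0
    have hE2 := hE 2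
    simp only [wt] at hE0 hE2
    have hend' := hend l
    have a0 : (derivative (v l)).eval 0 = -((l : ℝ) * (l + 1) * (v l).eval 0) / 2 := by
      linarith
    have a2 : (derivative (v l)).eval 2 = ((l : ℝ) * (l + 1) * (v l).eval 2) / 2 := by
      linarith
    rw [a0, a2]
    have : (v l).eval 2 * ((l : ℝ) * (l + 1) * (v l).eval 2 / 2) -
        (v l).eval 0 * (-((l : ℝ) * (l + 1) * (v l).eval 0) / 2) =
        (l : ℝ) * (l + 1) / 2 * ((v l).eval 0 ^ 2 + (v l).eval 2 ^ 2) := by ring
    rw [this, hend']
    ring

end Pool.Agent.MP_12ef2a_an
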