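import Mathlib
import Pool.Agent.MP_12ef2a_an.Defs
import Pool.Agent.MP_12ef2a_an.B1

set_option autoImplicit false

open MeasureTheory Polynomial

namespace Pool.Agent.MP_12ef2a_an

namespace B2

/-- complexification of a real polynomial -/
noncomputable def cx (p : ℝ[X]) : ℂ[X] := p.map Complex.ofRealHom

theorem cx_eval (p : ℝ[X]) (y : ℝ) : (cx p).eval (y : ℂ) = ((p.eval y : ℝ) : ℂ) := by
  unfold cx
  rw [Polynomial.eval_map]
  exact Polynomial.eval₂_at_apply Complex.ofRealHom y

theorem continuous_wt : Continuous wt := by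
  unfold wt
  fun_prop

theorem wt_nonneg {y : ℝ} (h0 : 0 ≤ y) (h2 : y ≤ 2) : 0 ≤ wt y := by
  unfold wt
  exact mul_nonneg h0 (by linarith)

theorem continuous_eval (p : ℝ[X]) : Continuous (fun y : ℝ => p.eval y) := p.continuous

theorem continuous_ceval (p : ℂ[X]) : Continuous (fun y : ℝ => p.eval (y : ℂ)) :=
  p.continuous.comp Complex.continuous_ofReal

/-- expansion of the squared norm of a finite orthogonal combination -/
theorem gen (s : Finset ℕ) (w : ℝ → ℝ) (hw : Continuous w) (φ : ℕ → ℝ → ℝ)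
    (hφ : ∀ l, Continuous (φ l)) (f : ℝ → ℂ) (hf : Continuous f) (a : ℕ → ℂ) (d : ℕ → ℝ)
    (horth : ∀ l k, ∫ y in (0:ℝ)..2, w y * φ l y * φ k y = if l = k then d l else 0) :
    ∫ y in (0:ℝ)..2, w y * ‖f y - ∑ l ∈ s, a l * (φ l y : ℂ)‖ ^ 2 =
      (∫ y in (0:ℝ)..2, w y * ‖f y‖ ^ 2)
        - 2 * ∑ l ∈ s, ((starRingEnd ℂ) (a l) *
            ∫ y in (0:ℝ)..2, ((w y * φ l y : ℝ) : ℂ) * f y).re
        + ∑ l ∈ s, d l * ‖a l‖ ^ 2 := by
  classical
  induction s using Finset.induction_on with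
  | empty => simp
  | insert i s hi ih =>
    set F : ℝ → ℂ := fun y => f y - ∑ l ∈ s, a l * (φ l y : ℂ) with hF
    have hFc : Continuous F := by
      simp only [hF]
      refine hf.sub (continuous_finsetSum _ (fun l _ => ?_))
      exact continuous_const.mul (Complex.continuous_ofReal.comp (hφ l))
    have hsplit : ∀ y, f y - ∑ l ∈ insert i s, a l * (φ l y : ℂ) = F y - a i * (φ i y : ℂ) := by
      intro y
      rw [Finset.sum_insert hi]
      simp only [hF]
      ring
    have hpt : ∀ y, w y * ‖F y - a i * (φ i y : ℂ)‖ ^ 2 = w y * ‖F y‖ ^ 2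
        - 2 * ((starRingEnd ℂ) (a i) * (((w y * φ i y : ℝ) : ℂ) * F y)).re
        + ‖a i‖ ^ 2 * (w y * φ i y * φ i y) := by
      intro y
      rw [← Complex.normSq_eq_norm_sq, ← Complex.normSq_eq_norm_sq, ← Complex.normSq_eq_norm_sq]
      simp only [Complex.normSq_apply, Complex.sub_re, Complex.sub_im, Complex.mul_re,
        Complex.mul_im, Complex.ofReal_re, Complex.ofReal_im, Complex.conj_re, Complex.conj_im]
      ring
    have hcI : Continuous (fun y : ℝ => ((w y * φ i y : ℝ) : ℂ) * F y) :=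
      (Complex.continuous_ofReal.comp (hw.mul (hφ i))).mul hFc
    have hcf : Continuous (fun y : ℝ => ((w y * φ i y : ℝ) : ℂ) * f y) :=
      (Complex.continuous_ofReal.comp (hw.mul (hφ i))).mul hf
    have hre : ∫ y in (0:ℝ)..2, ((starRingEnd ℂ) (a i) * (((w y * φ i y : ℝ) : ℂ) * F y)).re =
        ((starRingEnd ℂ) (a i) * ∫ y in (0:ℝ)..2, ((w y * φ i y : ℝ) : ℂ) * F y).re := by
      rw [← intervalIntegral.integral_const_mul]
      have hc : Continuous (fun y : ℝ => (starRingEnd ℂ) (a i) *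
        (((w y * φ i y : ℝ) : ℂ) * F y)) := continuous_const.mul hcI
      have := Complex.reCLM.intervalIntegral_comp_comm (hc.intervalIntegrable 0 2)
        (μ := MeasureTheory.volume)
      simpa using this
    have hmix : ∫ y in (0:ℝ)..2, ((w y * φ i y : ℝ) : ℂ) * F y =
        ∫ y in (0:ℝ)..2, ((w y * φ i y : ℝ) : ℂ) * f y := by
      have h1 : ∀ y : ℝ, ((w y * φ i y : ℝ) : ℂ) * F y = ((w y * φ i y : ℝ) : ℂ) * f y -
          ∑ l ∈ s, a l * ((w y * φ i y * φ l y : ℝ) : ℂ) := by
        intro y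
        simp only [hF, mul_sub, Finset.mul_sum]
        congr 1
        apply Finset.sum_congr rfl
        intro l _
        push_cast
        ring
      simp_rw [h1]
      rw [intervalIntegral.integral_sub (hcf.intervalIntegrable _ _)]
      · have h2 : ∫ y in (0:ℝ)..2, ∑ l ∈ s, a l * ((w y * φ i y * φ l y : ℝ) : ℂ) = 0 := by
          rw [intervalIntegral.integral_finsetSum]
          · apply Finset.sum_eq_zero
            intro l hl
            rw [intervalIntegral.integral_const_mul, intervalIntegral.integral_ofReal, horth]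
            rw [if_neg]
            · simp
            · intro h; rw [h] at hi; exact hi hl
          · intro l _
            apply Continuous.intervalIntegrable
            exact continuous_const.mul
              (Complex.continuous_ofReal.comp ((hw.mul (hφ i)).mul (hφ l)))
        rw [h2, sub_zero]
      · apply Continuous.intervalIntegrable
        refine continuous_finsetSum _ (fun l _ => ?_)
        exact continuous_const.mul
              (Complex.continuous_ofReal.comp ((hw.mul (hφ i)).mul (hφ l)))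
    have hi1 : IntervalIntegrable (fun y => w y * ‖F y‖ ^ 2) volume 0 2 := by
      apply Continuous.intervalIntegrable
      exact hw.mul (hFc.norm.pow 2)
    have hi2 : IntervalIntegrable (fun y => 2 * ((starRingEnd ℂ) (a i) *
        (((w y * φ i y : ℝ) : ℂ) * F y)).re) volume 0 2 := by
      apply Continuous.intervalIntegrable
      exact continuous_const.mul (Complex.continuous_re.comp (continuous_const.mul hcI))
    have hi3 : IntervalIntegrable (fun y => ‖a i‖ ^ 2 * (w y * φ i y * φ i y)) volume 0 2 := by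
      apply Continuous.intervalIntegrable
      exact continuous_const.mul ((hw.mul (hφ i)).mul (hφ i))
    simp_rw [hsplit, hpt]
    rw [intervalIntegral.integral_add (hi1.sub hi2) hi3, intervalIntegral.integral_sub hi1 hi2,
      intervalIntegral.integral_const_mul, intervalIntegral.integral_const_mul, hre, hmix,
      horth, if_pos rfl]
    rw [Finset.sum_insert hi, Finset.sum_insert hi]
    have := ih
    simp only [hF]
    rw [this]
    ring

variable {v : ℕ → ℝ[X]}

theorem ne_zero (hv : LegSys v) (l : ℕ) : v l ≠ 0 := by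
  intro h
  have := hv.ortho l l
  rw [h] at this
  simp at this

/-- polynomials of degree `< m` are combinations of `v 0, …, v (m-1)` -/
theorem expand (hv : LegSys v) (m : ℕ) (p : ℂ[X]) (hp : p.degree < m) :
    ∃ c : ℕ → ℂ, p = ∑ l ∈ Finset.range m, C (c l) * cx (v l) := by
  induction m generalizing p with
  | zero =>
    refine ⟨fun _ => 0, ?_⟩
    have : p = 0 := by
      rw [← Polynomial.degree_eq_bot]
      by_contra h
      have h2 : p ≠ 0 := by
        intro h3; exact h (by rw [h3, Polynomial.degree_zero])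
      rw [Polynomial.degree_eq_natDegree h2] at hp
      exact absurd hp (by simp)
    simp [this]
  | succ m ih =>
    have hlc : (v m).coeff m ≠ 0 := by
      have h1 : (v m).leadingCoeff ≠ 0 := Polynomial.leadingCoeff_ne_zero.2 (ne_zero hv m)
      rwa [Polynomial.leadingCoeff, hv.deg m] at h1
    set a : ℂ := p.coeff m / ((v m).coeff m : ℂ) with ha
    have hcoef : (cx (v m)).coeff m = ((v m).coeff m : ℂ) := by
      unfold cx
      rw [Polynomial.coeff_map]; rfl
    have hdeg : (p - C a * cx (v m)).degree < m := by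
      rw [Polynomial.degree_lt_iff_coeff_zero]
      intro k hk
      rw [Polynomial.coeff_sub, Polynomial.coeff_C_mul]
      rcases Nat.eq_or_lt_of_le hk with h | h
      · subst h
        rw [hcoef, ha]
        have : ((v m).coeff m : ℂ) ≠ 0 := by exact_mod_cast hlc
        field_simp
        ring
      · have h1 : p.coeff k = 0 := by
          apply Polynomial.coeff_eq_zero_of_degree_lt
          exact lt_of_lt_of_le hp (by exact_mod_cast h)
        have h2 : (cx (v m)).coeff k = 0 := by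
          unfold cx
          rw [Polynomial.coeff_map]
          have : (v m).coeff k = 0 := by
            apply Polynomial.coeff_eq_zero_of_natDegree_lt
            rw [hv.deg m]; exact h
          rw [this]; simp
        rw [h1, h2]; simp
    obtain ⟨c, hc⟩ := ih _ hdeg
    refine ⟨Function.update c m a, ?_⟩
    rw [Finset.sum_range_succ, Function.update_self]
    have : ∑ l ∈ Finset.range m, C (Function.update c m a l) * cx (v l) =
        ∑ l ∈ Finset.range m, C (c l) * cx (v l) := by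
      apply Finset.sum_congr rfl
      intro l hl
      rw [Function.update_of_ne]
      exact (Finset.mem_range.1 hl).ne
    rw [this, ← hc]
    ring

theorem eval_expand {m : ℕ} {p : ℂ[X]} {c : ℕ → ℂ}
    (h : p = ∑ l ∈ Finset.range m, C (c l) * cx (v l)) (y : ℝ) :
    p.eval (y : ℂ) = ∑ l ∈ Finset.range m, c l * (((v l).eval y : ℝ) : ℂ) := by
  rw [h, Polynomial.eval_finsetSum]
  apply Finset.sum_congr rfl
  intro l _
  rw [Polynomial.eval_mul, Polynomial.eval_C, cx_eval]

theorem deriv_cx (p : ℝ[X]) : derivative (cx p) = cx (derivative p) := by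
  unfold cx
  rw [Polynomial.derivative_map]

theorem eval_deriv_expand {m : ℕ} {p : ℂ[X]} {c : ℕ → ℂ}
    (h : p = ∑ l ∈ Finset.range m, C (c l) * cx (v l)) (y : ℝ) :
    (derivative p).eval (y : ℂ) =
      ∑ l ∈ Finset.range m, c l * (((derivative (v l)).eval y : ℝ) : ℂ) := by
  rw [h, Polynomial.derivative_sum, Polynomial.eval_finsetSum]
  apply Finset.sum_congr rfl
  intro l _
  rw [Polynomial.derivative_C_mul, Polynomial.eval_mul, Polynomial.eval_C, deriv_cx, cx_eval]

theorem orth1 (hv : LegSys v) (l k : ℕ) :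
    ∫ y in (0:ℝ)..2, (1 : ℝ) * (v l).eval y * (v k).eval y = if l = k then 1 else 0 := by
  simp only [one_mul]
  exact hv.ortho l k

theorem orthw (hv : LegSys v) (l k : ℕ) :
    ∫ y in (0:ℝ)..2, wt y * (derivative (v l)).eval y * (derivative (v k)).eval y =
      if l = k then (l : ℝ) * (l + 1) else 0 := by
  have hcd0 : ContDiff ℝ 1 (fun y : ℝ => (v l).eval y) := by
    have := Polynomial.contDiff_aeval (𝕜 := ℝ) (v l) 1
    simpa [Polynomial.coe_aeval_eq_eval] using this
  have hcd : ContDiff ℝ 1 (fun y : ℝ => (((v l).eval y : ℝ) : ℂ)) :=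
    Complex.ofRealCLM.contDiff.comp hcd0
  have h := hv.eig k _ hcd
  have hder : ∀ y : ℝ, deriv (fun y : ℝ => (((v l).eval y : ℝ) : ℂ)) y =
      (((derivative (v l)).eval y : ℝ) : ℂ) := by
    intro y
    exact ((v l).hasDerivAt y).ofReal_comp.deriv
  simp_rw [hder] at h
  have e1 : ∫ y in (0:ℝ)..2, (wt y : ℂ) * (((derivative (v l)).eval y : ℝ) : ℂ) *
      (((derivative (v k)).eval y : ℝ) : ℂ) =
      ((∫ y in (0:ℝ)..2, wt y * (derivative (v l)).eval y * (derivative (v k)).eval y : ℝ) : ℂ) := by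
    rw [← intervalIntegral.integral_ofReal]
    congr 1
    ext y
    push_cast
    ring
  have e2 : ∫ y in (0:ℝ)..2, (((v l).eval y : ℝ) : ℂ) * (((v k).eval y : ℝ) : ℂ) =
      ((∫ y in (0:ℝ)..2, (v l).eval y * (v k).eval y : ℝ) : ℂ) := by
    rw [← intervalIntegral.integral_ofReal]
    congr 1
    ext y
    push_cast
    ring
  rw [e1, e2, hv.ortho] at h
  by_cases hlk : l = k
  · subst hlk
    rw [if_pos rfl]
    rw [if_pos rfl] at h
    have : ((∫ y in (0:ℝ)..2, wt y * (derivative (v l)).eval y * (derivative (v l)).eval y : ℝ)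
        : ℂ) = (((l : ℝ) * (l + 1) : ℝ) : ℂ) := by
      rw [h]; push_cast; ring
    exact_mod_cast this
  · rw [if_neg hlk]
    rw [if_neg hlk] at h
    have : ((∫ y in (0:ℝ)..2, wt y * (derivative (v l)).eval y * (derivative (v k)).eval y : ℝ)
        : ℂ) = ((0 : ℝ) : ℂ) := by
      rw [h]; simp
    exact_mod_cast this

theorem norm_expand (hv : LegSys v) {m : ℕ} {p : ℂ[X]} {c : ℕ → ℂ}
    (h : p = ∑ l ∈ Finset.range m, C (c l) * cx (v l)) :
    ∫ y in (0:ℝ)..2, ‖p.eval (y : ℂ)‖ ^ 2 = ∑ l ∈ Finset.range m, ‖c l‖ ^ 2 := by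
  have := gen (Finset.range m) (fun _ => 1) continuous_const (fun l y => (v l).eval y)
    (fun l => continuous_eval (v l)) (fun _ => 0) continuous_const c (fun _ => 1) (orth1 hv)
  simp only [one_mul, zero_sub, norm_neg, norm_zero] at this
  simp_rw [eval_expand h]
  simpa using this

theorem norm_deriv_expand (hv : LegSys v) {m : ℕ} {p : ℂ[X]} {c : ℕ → ℂ}
    (h : p = ∑ l ∈ Finset.range m, C (c l) * cx (v l)) :
    ∫ y in (0:ℝ)..2, wt y * ‖(derivative p).eval (y : ℂ)‖ ^ 2 =
      ∑ l ∈ Finset.range m, (l : ℝ) * (l + 1) * ‖c l‖ ^ 2 := by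
  have := gen (Finset.range m) wt continuous_wt (fun l y => (derivative (v l)).eval y)
    (fun l => continuous_eval _) (fun _ => 0) continuous_const c (fun l => (l : ℝ) * (l + 1))
    (orthw hv)
  simp only [zero_sub, norm_neg, norm_zero] at this
  simp_rw [eval_deriv_expand h]
  simpa using this

theorem cauchy (s : Finset ℕ) (c : ℕ → ℂ) (a : ℕ → ℝ) :
    ‖∑ l ∈ s, c l * (a l : ℂ)‖ ^ 2 ≤ (∑ l ∈ s, ‖c l‖ ^ 2) * ∑ l ∈ s, a l ^ 2 := by
  have h1 : ‖∑ l ∈ s, c l * (a l : ℂ)‖ ≤ ∑ l ∈ s, ‖c l‖ * |a l| := by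
    refine (norm_sum_le _ _).trans (le_of_eq ?_)
    apply Finset.sum_congr rfl
    intro l _
    rw [norm_mul, Complex.norm_real, Real.norm_eq_abs]
  have h2 := Finset.sum_mul_sq_le_sq_mul_sq s (fun l => ‖c l‖) (fun l => |a l|)
  simp only [sq_abs] at h2
  exact (pow_le_pow_left₀ (norm_nonneg _) h1 2).trans h2

end B2

open B2

/-- Bernstein -/
theorem bern (m : ℕ) (p : ℂ[X]) (hp : p.degree < m) :
    ∫ y in (0:ℝ)..2, wt y * ‖(derivative p).eval (y : ℂ)‖ ^ 2 ≤
      (m : ℝ) ^ 2 * ∫ y in (0:ℝ)..2, ‖p.eval (y : ℂ)‖ ^ 2 := by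
  obtain ⟨v, hv⟩ := exists_leg
  obtain ⟨c, hc⟩ := expand hv m p hp
  rw [norm_deriv_expand hv hc, norm_expand hv hc, Finset.mul_sum]
  apply Finset.sum_le_sum
  intro l hl
  have h1 : (l : ℝ) + 1 ≤ m := by exact_mod_cast Finset.mem_range.1 hl
  have h0 : (0 : ℝ) ≤ l := Nat.cast_nonneg l
  have h2 : (l : ℝ) * (l + 1) ≤ (m : ℝ) ^ 2 := by nlinarith
  exact mul_le_mul_of_nonneg_right h2 (by positivity)

/-- Markov in `L²` -/
theorem markov (m : ℕ) (p : ℂ[X]) (hp : p.degree < m) :
    ∫ y in (0:ℝ)..2, ‖(derivative p).eval (y : ℂ)‖ ^ 2 ≤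
      (m : ℝ) ^ 4 * ∫ y in (0:ℝ)..2, ‖p.eval (y : ℂ)‖ ^ 2 := by
  obtain ⟨v, hv⟩ := exists_leg
  obtain ⟨c, hc⟩ := expand hv m p hp
  rw [norm_expand hv hc]
  have h1 : ∫ y in (0:ℝ)..2, ‖(derivative p).eval (y : ℂ)‖ ^ 2 ≤
      ∫ y in (0:ℝ)..2, (∑ l ∈ Finset.range m, ‖c l‖ ^ 2) *
        ∑ l ∈ Finset.range m, ((derivative (v l)).eval y) ^ 2 := by
    apply intervalIntegral.integral_mono_on (by norm_num)
    · apply Continuous.intervalIntegrable
      exact (continuous_ceval _).norm.pow 2
    · apply Continuous.intervalIntegrable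
      exact continuous_const.mul (continuous_finsetSum _ (fun l _ => (continuous_eval _).pow 2))
    · intro y _
      rw [eval_deriv_expand hc]
      exact cauchy _ _ _
  refine h1.trans ?_
  rw [intervalIntegral.integral_const_mul, intervalIntegral.integral_finsetSum, mul_comm]
  · apply mul_le_mul_of_nonneg_right
    · have h2 : ∀ l ∈ Finset.range m, ∫ y in (0:ℝ)..2, ((derivative (v l)).eval y) ^ 2 ≤
          (m : ℝ) ^ 3 := by
        intro l hl
        rw [hv.dnorm l]
        have h1 : (l : ℝ) + 1 ≤ m := by exact_mod_cast Finset.mem_range.1 hl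
        have h0 : (0 : ℝ) ≤ l := Nat.cast_nonneg l
        have a1 : (l : ℝ) * (l + 1) ≤ m * m := by nlinarith
        have a2 : (2 * (l : ℝ) + 1) / 2 ≤ m := by linarith
        calc (l : ℝ) * (l + 1) * (2 * l + 1) / 2 = ((l : ℝ) * (l + 1)) * ((2 * l + 1) / 2) := by ring
          _ ≤ (m * m) * m := mul_le_mul a1 a2 (by positivity) (by positivity)
          _ = (m : ℝ) ^ 3 := by ring
      refine (Finset.sum_le_sum h2).trans (le_of_eq ?_)
      rw [Finset.sum_const, Finset.card_range, nsmul_eq_mul]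
      ring
    · exact Finset.sum_nonneg (fun _ _ => by positivity)
  · intro l _
    apply Continuous.intervalIntegrable
    exact (continuous_eval _).pow 2

/-- values at the end points -/
theorem endpoints (m : ℕ) (p : ℂ[X]) (hp : p.degree < m) :
    ‖p.eval 0‖ ^ 2 + ‖p.eval 2‖ ^ 2 ≤
      (m : ℝ) ^ 2 * ∫ y in (0:ℝ)..2, ‖p.eval (y : ℂ)‖ ^ 2 := by
  obtain ⟨v, hv⟩ := exists_leg
  obtain ⟨c, hc⟩ := expand hv m p hp
  rw [norm_expand hv hc]
  have e0 : p.eval 0 = ∑ l ∈ Finset.range m, c l * (((v l).eval 0 : ℝ) : ℂ) := by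
    have := eval_expand hc 0
    simpa using this
  have e2 : p.eval 2 = ∑ l ∈ Finset.range m, c l * (((v l).eval 2 : ℝ) : ℂ) := by
    have := eval_expand hc 2
    simpa using this
  have h0 := cauchy (Finset.range m) c (fun l => (v l).eval 0)
  have h2 := cauchy (Finset.range m) c (fun l => (v l).eval 2)
  rw [← e0] at h0
  rw [← e2] at h2
  have hs : ∑ l ∈ Finset.range m, ((v l).eval 0) ^ 2 + ∑ l ∈ Finset.range m, ((v l).eval 2) ^ 2 =
      (m : ℝ) ^ 2 := by
    rw [← Finset.sum_add_distrib]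
    simp_rw [hv.endpt]
    clear hc h0 h2 e0 e2 hp
    induction m with
    | zero => simp
    | succ m ih => rw [Finset.sum_range_succ, ih]; push_cast; ring
  rw [← hs]
  linarith

/-- tail criterion: if the Legendre coefficients of index `≥ m` have square sum `≤ T`, then
`f` is within `T` (in squared norm) of a polynomial of degree `< m` -/
theorem tail_crit (v : ℕ → ℝ[X]) (hv : LegSys v) (f : ℝ → ℂ) (hf : Continuous f) (m : ℕ) (T : ℝ)
    (hT : ∀ N, ∑ l ∈ Finset.Ico m N,
      ‖∫ y in (0:ℝ)..2, f y * (((v l).eval y : ℝ) : ℂ)‖ ^ 2 ≤ T) :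
    ∃ q : ℂ[X], q.degree < m ∧ nsq (fun y => f y - q.eval (y : ℂ)) ≤ T := by
  set c : ℕ → ℂ := fun l => ∫ y in (0:ℝ)..2, f y * (((v l).eval y : ℝ) : ℂ) with hc
  -- the expansion formula
  have key : ∀ (N : ℕ) (a : ℕ → ℂ) (q : ℂ[X]),
      q = ∑ l ∈ Finset.range N, C (a l) * cx (v l) →
      nsq (fun y => f y - q.eval (y : ℂ)) = nsq f - ∑ l ∈ Finset.range N, ‖c l‖ ^ 2 +
        ∑ l ∈ Finset.range N, ‖a l - c l‖ ^ 2 := by
    intro N a q hq
    have h := gen (Finset.range N) (fun _ => 1) continuous_const (fun l y => (v l).eval y)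
      (fun l => continuous_eval (v l)) f hf a (fun _ => 1) (orth1 hv)
    simp only [one_mul] at h
    unfold nsq
    simp_rw [eval_expand hq]
    rw [h]
    have h2 : ∀ l ∈ Finset.range N, ‖a l - c l‖ ^ 2 = ‖c l‖ ^ 2 - 2 * ((starRingEnd ℂ) (a l) *
        ∫ y in (0:ℝ)..2, (((v l).eval y : ℝ) : ℂ) * f y).re + ‖a l‖ ^ 2 := by
      intro l _
      have h3 : ∫ y in (0:ℝ)..2, (((v l).eval y : ℝ) : ℂ) * f y = c l := by
        simp only [hc]
        congr 1
        ext y
        ring
      rw [h3, ← Complex.normSq_eq_norm_sq, ← Complex.normSq_eq_norm_sq,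
        ← Complex.normSq_eq_norm_sq]
      simp only [Complex.normSq_apply, Complex.sub_re, Complex.sub_im, Complex.mul_re,
        Complex.conj_re, Complex.conj_im]
      ring
    rw [Finset.sum_congr rfl h2, Finset.sum_add_distrib, Finset.sum_sub_distrib, ← Finset.mul_sum]
    ring
  set q : ℂ[X] := ∑ l ∈ Finset.range m, C (c l) * cx (v l) with hq
  refine ⟨q, ?_, ?_⟩
  · rw [hq]
    rw [← Polynomial.mem_degreeLT]
    refine Submodule.sum_mem _ (fun l hl => ?_)
    rw [Polynomial.mem_degreeLT]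
    have h1 : (C (c l) * cx (v l)).natDegree ≤ l := by
      refine (Polynomial.natDegree_C_mul_le _ _).trans ?_
      unfold cx
      refine Polynomial.natDegree_map_le.trans ?_
      rw [hv.deg l]
    refine lt_of_le_of_lt Polynomial.degree_le_natDegree ?_
    exact_mod_cast lt_of_le_of_lt h1 (Finset.mem_range.1 hl)
  · have hqv := key m c q hq
    simp only [sub_self, norm_zero, ne_eq, OfNat.ofNat_ne_zero, not_false_eq_true, zero_pow,
      Finset.sum_const_zero, add_zero] at hqv
    refine le_of_forall_pos_le_add (fun ε hε => ?_)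
    -- Weierstrass
    obtain ⟨δ, hδ0, hδ⟩ : ∃ δ : ℝ, 0 < δ ∧ 8 * δ ^ 2 ≤ ε := by
      refine ⟨Real.sqrt (ε / 8), Real.sqrt_pos.2 (by positivity), ?_⟩
      rw [Real.sq_sqrt (by positivity)]
      linarith
    obtain ⟨P1, hP1⟩ := exists_polynomial_near_of_continuousOn 0 2 (fun y => (f y).re)
      (Complex.continuous_re.comp hf).continuousOn δ hδ0
    obtain ⟨P2, hP2⟩ := exists_polynomial_near_of_continuousOn 0 2 (fun y => (f y).im)
      (Complex.continuous_im.comp hf).continuousOn δ hδ0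
    set P : ℂ[X] := cx P1 + C Complex.I * cx P2 with hP
    have hPe : ∀ y : ℝ, P.eval (y : ℂ) = ((P1.eval y : ℝ) : ℂ) +
        Complex.I * ((P2.eval y : ℝ) : ℂ) := by
      intro y
      rw [hP, Polynomial.eval_add, Polynomial.eval_mul, Polynomial.eval_C, cx_eval, cx_eval]
    have hPn : ∀ y ∈ Set.Icc (0:ℝ) 2, ‖f y - P.eval (y : ℂ)‖ ^ 2 ≤ 2 * δ ^ 2 := by
      intro y hy
      rw [hPe, ← Complex.normSq_eq_norm_sq, Complex.normSq_apply]
      have h1 := hP1 y hy
      have h2 := hP2 y hy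
      simp only [Complex.sub_re, Complex.sub_im, Complex.add_re, Complex.add_im, Complex.mul_re,
        Complex.mul_im, Complex.ofReal_re, Complex.ofReal_im, Complex.I_re, Complex.I_im]
      rw [abs_lt] at h1 h2
      have h3 : ((f y).re - P1.eval y) ^ 2 ≤ δ ^ 2 := by nlinarith
      have h4 : ((f y).im - P2.eval y) ^ 2 ≤ δ ^ 2 := by nlinarith
      nlinarith
    have hPint : nsq (fun y => f y - P.eval (y : ℂ)) ≤ ε := by
      have : nsq (fun y => f y - P.eval (y : ℂ)) ≤ ∫ y in (0:ℝ)..2, 2 * δ ^ 2 := by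
        unfold nsq
        apply intervalIntegral.integral_mono_on (by norm_num)
        · apply Continuous.intervalIntegrable
          exact (hf.sub (continuous_ceval _)).norm.pow 2
        · exact intervalIntegrable_const
        · exact hPn
      rw [intervalIntegral.integral_const] at this
      simp only [sub_zero, smul_eq_mul] at this
      nlinarith [sq_nonneg δ]
    set N : ℕ := max m (P.natDegree + 1) with hN
    have hPd : P.degree < N := by
      refine lt_of_le_of_lt Polynomial.degree_le_natDegree ?_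
      have : P.natDegree < N := lt_of_lt_of_le (Nat.lt_succ_self _) (le_max_right _ _)
      exact_mod_cast this
    obtain ⟨a, ha⟩ := expand hv N P hPd
    have hPv := key N a P ha
    have hpos : 0 ≤ ∑ l ∈ Finset.range N, ‖a l - c l‖ ^ 2 :=
      Finset.sum_nonneg (fun _ _ => by positivity)
    have hspl : ∑ l ∈ Finset.range N, ‖c l‖ ^ 2 = ∑ l ∈ Finset.range m, ‖c l‖ ^ 2 +
        ∑ l ∈ Finset.Ico m N, ‖c l‖ ^ 2 :=
      (Finset.sum_range_add_sum_Ico _ (le_max_left _ _)).symm
    have hTN : ∑ l ∈ Finset.Ico m N, ‖c l‖ ^ 2 ≤ T := hT N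
    rw [hqv]
    linarith

/-- Jackson -/
theorem jackson (m : ℕ) (hm : 1 ≤ m) (f : ℝ → ℂ) (hf : ContDiff ℝ 1 f) :
    ∃ q : ℂ[X], q.degree < m ∧
      (m : ℝ) ^ 2 * nsq (fun y => f y - q.eval (y : ℂ)) ≤
        ∫ y in (0:ℝ)..2, wt y * ‖deriv f y‖ ^ 2 := by
  obtain ⟨v, hv⟩ := exists_leg
  set D : ℝ := ∫ y in (0:ℝ)..2, wt y * ‖deriv f y‖ ^ 2 with hD
  have hm0 : (0 : ℝ) < m := by exact_mod_cast hm
  set c : ℕ → ℂ := fun l => ∫ y in (0:ℝ)..2, f y * (((v l).eval y : ℝ) : ℂ) with hc
  have hdc : Continuous (deriv f) := hf.continuous_deriv le_rfl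
  have hT : ∀ N, ∑ l ∈ Finset.Ico m N, ‖c l‖ ^ 2 ≤ D / (m : ℝ) ^ 2 := by
    intro N
    have h := gen (Finset.Ico m N) wt continuous_wt (fun l y => (derivative (v l)).eval y)
      (fun l => continuous_eval _) (deriv f) hdc c (fun l => (l : ℝ) * (l + 1)) (orthw hv)
    have hnn : 0 ≤ ∫ y in (0:ℝ)..2, wt y * ‖deriv f y - ∑ l ∈ Finset.Ico m N, c l *
        (((derivative (v l)).eval y : ℝ) : ℂ)‖ ^ 2 := by
      apply intervalIntegral.integral_nonneg (by norm_num)
      intro y hy
      exact mul_nonneg (wt_nonneg hy.1 hy.2) (by positivity)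
    have hin : ∀ l, ∫ y in (0:ℝ)..2, ((wt y * (derivative (v l)).eval y : ℝ) : ℂ) * deriv f y =
        (((l : ℝ) * (l + 1) : ℝ) : ℂ) * c l := by
      intro l
      have h1 := hv.eig l f hf
      have h2 : ∫ y in (0:ℝ)..2, ((wt y * (derivative (v l)).eval y : ℝ) : ℂ) * deriv f y =
          ∫ y in (0:ℝ)..2, (wt y : ℂ) * deriv f y * (((derivative (v l)).eval y : ℝ) : ℂ) := by
        congr 1
        ext y
        push_cast
        ring
      rw [h2, h1]
      simp only [hc]
      push_cast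
      ring
    have hterm : ∀ l ∈ Finset.Ico m N, ((starRingEnd ℂ) (c l) *
        ∫ y in (0:ℝ)..2, ((wt y * (derivative (v l)).eval y : ℝ) : ℂ) * deriv f y).re =
        (l : ℝ) * (l + 1) * ‖c l‖ ^ 2 := by
      intro l _
      rw [hin, ← Complex.normSq_eq_norm_sq, Complex.normSq_apply]
      simp only [Complex.mul_re, Complex.mul_im, Complex.conj_re, Complex.conj_im,
        Complex.ofReal_re, Complex.ofReal_im]
      ring
    rw [Finset.sum_congr rfl hterm] at h
    rw [h] at hnn
    have h3 : ∑ l ∈ Finset.Ico m N, (l : ℝ) * (l + 1) * ‖c l‖ ^ 2 ≤ D := by linarith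
    rw [le_div_iff₀ (by positivity), Finset.sum_mul]
    refine le_trans (Finset.sum_le_sum (fun l hl => ?_)) h3
    have hl : (m : ℝ) ≤ l := by exact_mod_cast (Finset.mem_Ico.1 hl).1
    have h4 : (m : ℝ) ^ 2 ≤ (l : ℝ) * (l + 1) := by nlinarith
    rw [mul_comm]
    exact mul_le_mul_of_nonneg_right h4 (by positivity)
  obtain ⟨q, hq, hle⟩ := tail_crit v hv f hf.continuous m (D / (m : ℝ) ^ 2) hT
  refine ⟨q, hq, ?_⟩
  rw [le_div_iff₀ (by positivity)] at hle
  linarith

end Pool.Agent.MP_12ef2a_an
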