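import Mathlib
import Pool.Agent.MP_12ef2a_an.Defs
import Pool.Agent.MP_12ef2a_an.B1

set_option autoImplicit false

open MeasureTheory Polynomial

namespace Pool.Agent.MP_12ef2a_an

/-- Cauchy-Schwarz for continuous real functions on `[0,2]` -/
theorem c1_cs (F G : ℝ → ℝ) (hF : Continuous F) (hG : Continuous G) :
    (∫ y in (0:ℝ)..2, F y * G y) ^ 2 ≤
      (∫ y in (0:ℝ)..2, F y ^ 2) * ∫ y in (0:ℝ)..2, G y ^ 2 := by
  set A := ∫ y in (0:ℝ)..2, F y ^ 2 with hA
  set B := ∫ y in (0:ℝ)..2, F y * G y with hB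
  set D := ∫ y in (0:ℝ)..2, G y ^ 2 with hD
  have h : ∀ t : ℝ, 0 ≤ A * (t * t) + (2 * B) * t + D := by
    intro t
    have h1 : ∫ y in (0:ℝ)..2, (t * F y + G y) ^ 2 = A * (t * t) + (2 * B) * t + D := by
      have h2 : ∀ y, (t * F y + G y) ^ 2 = (t * t) * F y ^ 2 + (2 * t) * (F y * G y) + G y ^ 2 := by
        intro y; ring
      simp_rw [h2]
      rw [intervalIntegral.integral_add, intervalIntegral.integral_add,
        intervalIntegral.integral_const_mul, intervalIntegral.integral_const_mul]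
      · rw [← hA, ← hB, ← hD]; ring
      all_goals apply Continuous.intervalIntegrable; fun_prop
    rw [← h1]
    apply intervalIntegral.integral_nonneg (by norm_num)
    intro y _
    positivity
  have h3 := discrim_le_zero h
  unfold discrim at h3
  nlinarith

theorem c1_cs_norm (f g : ℝ → ℂ) (hf : Continuous f) (hg : Continuous g) :
    ‖∫ y in (0:ℝ)..2, f y * g y‖ ^ 2 ≤
      (∫ y in (0:ℝ)..2, ‖f y‖ ^ 2) * ∫ y in (0:ℝ)..2, ‖g y‖ ^ 2 := by
  have h1 : ‖∫ y in (0:ℝ)..2, f y * g y‖ ≤ ∫ y in (0:ℝ)..2, ‖f y‖ * ‖g y‖ := by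
    refine (intervalIntegral.norm_integral_le_integral_norm (by norm_num)).trans (le_of_eq ?_)
    simp_rw [norm_mul]
  calc ‖∫ y in (0:ℝ)..2, f y * g y‖ ^ 2 ≤ (∫ y in (0:ℝ)..2, ‖f y‖ * ‖g y‖) ^ 2 := by
        gcongr
    _ ≤ _ := c1_cs _ _ hf.norm hg.norm

theorem c1_wt_cont : Continuous wt := by
  unfold wt; fun_prop

theorem c1_wt_nonneg {y : ℝ} (hy : y ∈ Set.Icc (0:ℝ) 2) : 0 ≤ wt y := by
  unfold wt
  exact mul_nonneg hy.1 (by linarith [hy.2])

/-- weighted Cauchy-Schwarz -/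
theorem c1_cs_wt (f g : ℝ → ℂ) (hf : Continuous f) (hg : Continuous g) :
    ‖∫ y in (0:ℝ)..2, (wt y : ℂ) * f y * g y‖ ^ 2 ≤
      (∫ y in (0:ℝ)..2, wt y * ‖f y‖ ^ 2) * ∫ y in (0:ℝ)..2, wt y * ‖g y‖ ^ 2 := by
  have h1 : ∫ y in (0:ℝ)..2, (wt y : ℂ) * f y * g y = ∫ y in (0:ℝ)..2,
      ((Real.sqrt (wt y) : ℂ) * f y) * ((Real.sqrt (wt y) : ℂ) * g y) := by
    apply intervalIntegral.integral_congr
    intro y hy
    rw [Set.uIcc_of_le (by norm_num)] at hy
    have : (wt y : ℂ) = (Real.sqrt (wt y) : ℂ) * (Real.sqrt (wt y) : ℂ) := by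
      rw [← Complex.ofReal_mul, Real.mul_self_sqrt (c1_wt_nonneg hy)]
    simp only
    rw [this]; ring
  have h2 : ∀ f : ℝ → ℂ, ∫ y in (0:ℝ)..2, wt y * ‖f y‖ ^ 2 =
      ∫ y in (0:ℝ)..2, ‖(Real.sqrt (wt y) : ℂ) * f y‖ ^ 2 := by
    intro f
    apply intervalIntegral.integral_congr
    intro y hy
    rw [Set.uIcc_of_le (by norm_num)] at hy
    simp only
    rw [norm_mul, mul_pow, Complex.norm_real, Real.norm_eq_abs, sq_abs,
      Real.sq_sqrt (c1_wt_nonneg hy)]
  rw [h1, h2 f, h2 g]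
  apply c1_cs_norm
  · exact (Complex.continuous_ofReal.comp (c1_wt_cont.sqrt)).mul hf
  · exact (Complex.continuous_ofReal.comp (c1_wt_cont.sqrt)).mul hg

theorem c1_poly_contDiff (p : ℝ[X]) : ContDiff ℝ 1 (fun y : ℝ => ((p.eval y : ℝ) : ℂ)) := by
  have h1 : ContDiff ℝ 1 (fun y : ℝ => p.eval y) := by
    simpa using (Polynomial.contDiff_aeval p 1 : ContDiff ℝ 1 (fun x : ℝ => aeval x p))
  exact Complex.ofRealCLM.contDiff.comp h1

theorem c1_poly_hasDeriv (p : ℝ[X]) (y : ℝ) : HasDerivAt (fun y : ℝ => ((p.eval y : ℝ) : ℂ))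
    (((derivative p).eval y : ℝ) : ℂ) y := by
  exact (p.hasDerivAt y).ofReal_comp

theorem c1_sqint (v : ℕ → ℝ[X]) (hv : LegSys v) (l : ℕ) :
    ∫ y in (0:ℝ)..2, ‖(((v l).eval y : ℝ) : ℂ)‖ ^ 2 = 1 := by
  have := hv.ortho l l
  rw [if_pos rfl] at this
  rw [← this]
  congr 1
  ext y
  rw [Complex.norm_real, Real.norm_eq_abs, sq_abs]; ring

theorem c1_dint (v : ℕ → ℝ[X]) (hv : LegSys v) (l : ℕ) :
    ∫ y in (0:ℝ)..2, wt y * ‖(((derivative (v l)).eval y : ℝ) : ℂ)‖ ^ 2 = (l : ℝ) * (l + 1) := by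
  have h1 := hv.eig l (fun y => (((v l).eval y : ℝ) : ℂ)) (c1_poly_contDiff _)
  have h2 : ∀ y, deriv (fun y : ℝ => (((v l).eval y : ℝ) : ℂ)) y =
      (((derivative (v l)).eval y : ℝ) : ℂ) := fun y => (c1_poly_hasDeriv (v l) y).deriv
  have h3 : (∫ y in (0:ℝ)..2, (wt y : ℂ) * deriv (fun y : ℝ => (((v l).eval y : ℝ) : ℂ)) y *
      (((derivative (v l)).eval y : ℝ) : ℂ)) =
      ((∫ y in (0:ℝ)..2, wt y * ‖(((derivative (v l)).eval y : ℝ) : ℂ)‖ ^ 2 : ℝ) : ℂ) := by
    rw [← intervalIntegral.integral_ofReal]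
    congr 1
    ext y
    rw [h2, Complex.norm_real, Real.norm_eq_abs, sq_abs]
    push_cast; ring
  have h4 : (∫ y in (0:ℝ)..2, (((v l).eval y : ℝ) : ℂ) * (((v l).eval y : ℝ) : ℂ)) = 1 := by
    have := hv.ortho l l
    rw [if_pos rfl] at this
    rw [← Complex.ofReal_one, ← this, ← intervalIntegral.integral_ofReal]
    congr 1
    ext y
    push_cast; ring
  rw [h3, h4, mul_one] at h1
  exact_mod_cast h1

theorem coef_bound (v : ℕ → ℝ[X]) (hv : LegSys v) (l : ℕ) (ω : ℝ) (Φ χ : ℝ → ℂ)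
    (hχ : ContDiff ℝ 1 χ)
    (h : ∀ y, Φ y = ((ω ^ 2 * wt y - l * (l + 1) : ℝ) : ℂ) * χ y) :
    ‖∫ y in (0:ℝ)..2, Φ y * Complex.exp (Complex.I * ω * y) * (((v l).eval y : ℝ) : ℂ)‖ ^ 2 ≤
      2 * (ω ^ 2 * (∫ y in (0:ℝ)..2, ‖deriv (fun t => (wt t : ℂ) * χ t) y‖ ^ 2)
        + l * (l + 1) * ∫ y in (0:ℝ)..2, wt y * ‖deriv χ y‖ ^ 2) := by
  set e : ℝ → ℂ := fun y => Complex.exp (Complex.I * ω * y) with he
  set V : ℝ → ℂ := fun y => (((v l).eval y : ℝ) : ℂ) with hV
  set V' : ℝ → ℂ := fun y => (((derivative (v l)).eval y : ℝ) : ℂ) with hV'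
  set W : ℝ → ℂ := fun t => (wt t : ℂ) * χ t with hW
  have hVd : ∀ y, HasDerivAt V (V' y) y := fun y => c1_poly_hasDeriv (v l) y
  have hVc : Continuous V := (c1_poly_contDiff _).continuous
  have hV'c : Continuous V' := (c1_poly_contDiff _).continuous
  have hed : ∀ y, HasDerivAt e (Complex.I * ω * e y) y := by
    intro y
    have h1 : HasDerivAt (fun y : ℝ => Complex.I * ω * (y : ℂ)) (Complex.I * ω * 1) y :=
      (Complex.ofRealCLM.hasDerivAt (x := y)).const_mul _
    have h2 := h1.cexp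
    rw [mul_one] at h2
    rw [he]
    simp only
    rw [mul_comm (Complex.I * (ω : ℂ))]
    exact h2
  have hec : Continuous e := by rw [he]; fun_prop
  have hecd : ContDiff ℝ 1 e := by
    rw [he]
    exact ((contDiff_const.mul Complex.ofRealCLM.contDiff)).cexp
  have henorm : ∀ y, ‖e y‖ = 1 := by
    intro y
    rw [he]
    simp only
    rw [Complex.norm_exp]
    simp
  have hwcd : ContDiff ℝ 1 (fun t => (wt t : ℂ)) := by
    have h0 : ContDiff ℝ 1 wt := by
      have : wt = fun y => y * (2 - y) := rfl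
      rw [this]
      fun_prop
    exact Complex.ofRealCLM.contDiff.comp h0
  have hWcd : ContDiff ℝ 1 W := hwcd.mul hχ
  have hχd : ∀ y, HasDerivAt χ (deriv χ y) y := fun y =>
    (hχ.differentiable one_ne_zero y).hasDerivAt
  have hWd : ∀ y, HasDerivAt W (deriv W y) y := fun y =>
    (hWcd.differentiable one_ne_zero y).hasDerivAt
  have hχ'c : Continuous (deriv χ) := hχ.continuous_deriv_one
  have hW'c : Continuous (deriv W) := hWcd.continuous_deriv_one
  have hW0 : W 0 = 0 := by simp [hW, wt]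
  have hW2 : W 2 = 0 := by simp [hW, wt]
  -- the equation
  have h1 := hv.eig l (fun y => χ y * e y) (hχ.mul hecd)
  have h2 : ∀ y, deriv (fun y => χ y * e y) y = deriv χ y * e y + Complex.I * ω * χ y * e y := by
    intro y
    have h0 : HasDerivAt (fun y => χ y * e y) (deriv χ y * e y + χ y * (Complex.I * ω * e y)) y :=
      (hχd y).mul (hed y)
    rw [h0.deriv]
    ring
  -- integration by parts
  have h3 : ∫ y in (0:ℝ)..2, (W y * e y) * V' y =
      - ∫ y in (0:ℝ)..2, (deriv W y * e y + Complex.I * ω * W y * e y) * V y := by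
    have := intervalIntegral.integral_mul_deriv_eq_deriv_mul (a := 0) (b := 2)
      (u := fun y => W y * e y) (v := V) (u' := fun y => deriv W y * e y + Complex.I * ω * W y * e y)
      (v' := V') (fun y _ => by
        have h0 : HasDerivAt (fun y => W y * e y) (deriv W y * e y + W y * (Complex.I * ω * e y)) y :=
          (hWd y).mul (hed y)
        have h00 : deriv W y * e y + W y * (Complex.I * ω * e y) =
          deriv W y * e y + Complex.I * ω * W y * e y := by ring
        rw [h00] at h0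
        exact h0) (fun y _ => hVd y)
      (by apply Continuous.intervalIntegrable; fun_prop)
      (by apply Continuous.intervalIntegrable; fun_prop)
    rw [this]
    simp only [hW0, hW2]
    ring
  have key : ∫ y in (0:ℝ)..2, Φ y * e y * V y =
      Complex.I * ω * (∫ y in (0:ℝ)..2, deriv W y * (e y * V y)) -
        ∫ y in (0:ℝ)..2, (wt y : ℂ) * deriv χ y * (e y * V' y) := by
    have a1 : ∫ y in (0:ℝ)..2, (wt y : ℂ) * deriv (fun y => χ y * e y) y * V' y =
        (∫ y in (0:ℝ)..2, (wt y : ℂ) * deriv χ y * (e y * V' y)) +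
          Complex.I * ω * ∫ y in (0:ℝ)..2, (W y * e y) * V' y := by
      rw [← intervalIntegral.integral_const_mul, ← intervalIntegral.integral_add]
      · congr 1
        ext y
        rw [h2, hW]
        ring
      · apply Continuous.intervalIntegrable
        have := hwcd.continuous
        fun_prop
      · apply Continuous.intervalIntegrable
        have := hWcd.continuous
        fun_prop
    have a2 : ∫ y in (0:ℝ)..2, (deriv W y * e y + Complex.I * ω * W y * e y) * V y =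
        (∫ y in (0:ℝ)..2, deriv W y * (e y * V y)) +
          Complex.I * ω * ∫ y in (0:ℝ)..2, W y * e y * V y := by
      rw [← intervalIntegral.integral_const_mul, ← intervalIntegral.integral_add]
      · congr 1
        ext y
        ring
      · apply Continuous.intervalIntegrable
        fun_prop
      · apply Continuous.intervalIntegrable
        have := hWcd.continuous
        fun_prop
    have a3 : ∫ y in (0:ℝ)..2, Φ y * e y * V y =
        (ω : ℂ) ^ 2 * (∫ y in (0:ℝ)..2, W y * e y * V y) -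
          ((l : ℂ) * (l + 1)) * ∫ y in (0:ℝ)..2, χ y * e y * V y := by
      rw [← intervalIntegral.integral_const_mul, ← intervalIntegral.integral_const_mul,
        ← intervalIntegral.integral_sub]
      · congr 1
        ext y
        rw [h y, hW]
        push_cast
        ring
      · apply Continuous.intervalIntegrable
        have := hWcd.continuous
        fun_prop
      · apply Continuous.intervalIntegrable
        have := hχ.continuous
        fun_prop
    have a4 : ∫ y in (0:ℝ)..2, (wt y : ℂ) * deriv (fun y => χ y * e y) y * V' y =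
        (l : ℂ) * (l + 1) * ∫ y in (0:ℝ)..2, χ y * e y * V y := h1
    rw [a3, ← a4, a1, h3, a2]
    have hI : Complex.I * Complex.I = -1 := Complex.I_mul_I
    linear_combination ((ω : ℂ) ^ 2 * ∫ y in (0:ℝ)..2, W y * e y * V y) * hI
  have b1 : ‖∫ y in (0:ℝ)..2, deriv W y * (e y * V y)‖ ^ 2 ≤
      ∫ y in (0:ℝ)..2, ‖deriv W y‖ ^ 2 := by
    have := c1_cs_norm (deriv W) (fun y => e y * V y) hW'c (hec.mul hVc)
    have h5 : ∫ y in (0:ℝ)..2, ‖e y * V y‖ ^ 2 = 1 := by
      rw [← c1_sqint v hv l]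
      congr 1
      ext y
      rw [norm_mul, henorm, one_mul]
    rw [h5, mul_one] at this
    exact this
  have b2 : ‖∫ y in (0:ℝ)..2, (wt y : ℂ) * deriv χ y * (e y * V' y)‖ ^ 2 ≤
      (l * (l + 1)) * ∫ y in (0:ℝ)..2, wt y * ‖deriv χ y‖ ^ 2 := by
    have := c1_cs_wt (deriv χ) (fun y => e y * V' y) hχ'c (hec.mul hV'c)
    have h5 : ∫ y in (0:ℝ)..2, wt y * ‖e y * V' y‖ ^ 2 = (l : ℝ) * (l + 1) := by
      rw [← c1_dint v hv l]
      congr 1
      ext y
      rw [norm_mul, henorm, one_mul]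
    rw [h5, mul_comm] at this
    exact this
  have c0 : ‖∫ y in (0:ℝ)..2, Φ y * e y * V y‖ ≤
      |ω| * ‖∫ y in (0:ℝ)..2, deriv W y * (e y * V y)‖ +
        ‖∫ y in (0:ℝ)..2, (wt y : ℂ) * deriv χ y * (e y * V' y)‖ := by
    rw [key]
    refine (norm_sub_le _ _).trans ?_
    rw [norm_mul, norm_mul, Complex.norm_I, one_mul, Complex.norm_real, Real.norm_eq_abs]
  set P := ‖∫ y in (0:ℝ)..2, deriv W y * (e y * V y)‖ with hP
  set Q := ‖∫ y in (0:ℝ)..2, (wt y : ℂ) * deriv χ y * (e y * V' y)‖ with hQ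
  have d1 : ‖∫ y in (0:ℝ)..2, Φ y * e y * V y‖ ^ 2 ≤ (|ω| * P + Q) ^ 2 := by
    gcongr
  have d2 : (|ω| * P + Q) ^ 2 ≤ 2 * (ω ^ 2 * P ^ 2 + Q ^ 2) := by
    have : (|ω| * P) ^ 2 = ω ^ 2 * P ^ 2 := by rw [mul_pow, sq_abs]
    nlinarith [sq_nonneg (|ω| * P - Q)]
  refine d1.trans (d2.trans ?_)
  have e1 : ω ^ 2 * P ^ 2 ≤ ω ^ 2 * ∫ y in (0:ℝ)..2, ‖deriv W y‖ ^ 2 :=
    mul_le_mul_of_nonneg_left b1 (sq_nonneg _)
  have := add_le_add e1 b2
  linarith

theorem c1_v_ne (v : ℕ → ℝ[X]) (hv : LegSys v) (l : ℕ) : v l ≠ 0 := by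
  intro h
  have := hv.ortho l l
  rw [if_pos rfl, h] at this
  simp at this

theorem c1_eval_map (p : ℝ[X]) (y : ℝ) :
    (p.map Complex.ofRealHom).eval (y : ℂ) = ((p.eval y : ℝ) : ℂ) := by
  rw [Polynomial.eval_map]
  exact Polynomial.eval₂_at_apply Complex.ofRealHom y

/-- expansion of a polynomial of degree `< M` in the Legendre system -/
theorem c1_expand (v : ℕ → ℝ[X]) (hv : LegSys v) (M : ℕ) : ∀ p : ℂ[X], p.degree < M →
    ∃ c : ℕ → ℂ, p = ∑ l ∈ Finset.range M, C (c l) * (v l).map Complex.ofRealHom := by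
  induction M with
  | zero =>
    intro p hp
    refine ⟨fun _ => 0, ?_⟩
    simp only [Finset.range_zero, Finset.sum_empty]
    have h0 : p.degree < 0 := by exact_mod_cast hp
    by_contra hne
    exact absurd (Polynomial.zero_le_degree_iff.mpr hne) (not_le.mpr h0)
  | succ M ih =>
    intro p hp
    set V := (v M).map Complex.ofRealHom with hV
    have hVd : V.natDegree = M := by
      rw [hV, Polynomial.natDegree_map, hv.deg]
    have hV0 : V ≠ 0 := by
      rw [hV]
      exact (Polynomial.map_ne_zero_iff Complex.ofRealHom.injective).mpr (c1_v_ne v hv M)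
    have hlead : V.coeff M ≠ 0 := by
      rw [← hVd]
      exact Polynomial.leadingCoeff_ne_zero.mpr hV0
    set a : ℂ := p.coeff M / V.coeff M with ha
    have hdeg : (p - C a * V).degree < M := by
      rw [Polynomial.degree_lt_iff_coeff_zero]
      intro n hn
      rw [Polynomial.coeff_sub, Polynomial.coeff_C_mul]
      rcases Nat.eq_or_lt_of_le hn with h | h
      · subst h
        rw [ha]
        field_simp
        ring
      · have h1 : p.coeff n = 0 := by
          apply Polynomial.coeff_eq_zero_of_degree_lt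
          refine lt_of_lt_of_le hp ?_
          exact_mod_cast h
        have h2 : V.coeff n = 0 := by
          apply Polynomial.coeff_eq_zero_of_natDegree_lt
          rw [hVd]; exact h
        rw [h1, h2]; simp
    obtain ⟨c, hc⟩ := ih _ hdeg
    refine ⟨fun l => if l = M then a else c l, ?_⟩
    rw [Finset.sum_range_succ]
    have h3 : ∑ l ∈ Finset.range M, C (if l = M then a else c l) * (v l).map Complex.ofRealHom =
        ∑ l ∈ Finset.range M, C (c l) * (v l).map Complex.ofRealHom := by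
      apply Finset.sum_congr rfl
      intro l hl
      rw [if_neg (by have := Finset.mem_range.mp hl; omega)]
    simp only [if_true]
    rw [h3, ← hc]
    ring

theorem c1_eval_sum (v : ℕ → ℝ[X]) (M : ℕ) (c : ℕ → ℂ) (y : ℝ) :
    (∑ l ∈ Finset.range M, C (c l) * (v l).map Complex.ofRealHom).eval (y : ℂ) =
      ∑ l ∈ Finset.range M, c l * (((v l).eval y : ℝ) : ℂ) := by
  rw [Polynomial.eval_finsetSum]
  apply Finset.sum_congr rfl
  intro l _
  rw [Polynomial.eval_mul, Polynomial.eval_C, c1_eval_map]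

theorem c1_ofReal_nsq (f : ℝ → ℂ) : ((nsq f : ℝ) : ℂ) =
    ∫ y in (0:ℝ)..2, (starRingEnd ℂ) (f y) * f y := by
  unfold nsq
  rw [← intervalIntegral.integral_ofReal]
  congr 1
  ext y
  rw [← Complex.normSq_eq_conj_mul_self, Complex.normSq_eq_norm_sq]

theorem c1_parseval (v : ℕ → ℝ[X]) (hv : LegSys v) (M : ℕ) (c : ℕ → ℂ) :
    nsq (fun y => ∑ l ∈ Finset.range M, c l * (((v l).eval y : ℝ) : ℂ)) =
      ∑ l ∈ Finset.range M, ‖c l‖ ^ 2 := by
  have hVc : ∀ l, Continuous (fun y : ℝ => (((v l).eval y : ℝ) : ℂ)) :=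
    fun l => (c1_poly_contDiff _).continuous
  have h1 : ((nsq (fun y => ∑ l ∈ Finset.range M, c l * (((v l).eval y : ℝ) : ℂ)) : ℝ) : ℂ) =
      ((∑ l ∈ Finset.range M, ‖c l‖ ^ 2 : ℝ) : ℂ) := by
    rw [c1_ofReal_nsq]
    have h2 : ∀ y : ℝ, (starRingEnd ℂ) (∑ l ∈ Finset.range M, c l * (((v l).eval y : ℝ) : ℂ)) *
        (∑ l ∈ Finset.range M, c l * (((v l).eval y : ℝ) : ℂ)) =
        ∑ l ∈ Finset.range M, ∑ k ∈ Finset.range M, ((starRingEnd ℂ) (c l) * c k) *
          (((v l).eval y * (v k).eval y : ℝ) : ℂ) := by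
      intro y
      rw [map_sum, Finset.sum_mul_sum]
      apply Finset.sum_congr rfl
      intro l _
      apply Finset.sum_congr rfl
      intro k _
      rw [map_mul, Complex.conj_ofReal]
      push_cast
      ring
    simp_rw [h2]
    rw [intervalIntegral.integral_finsetSum]
    · rw [Complex.ofReal_sum]
      apply Finset.sum_congr rfl
      intro l hl
      rw [Complex.ofReal_pow, intervalIntegral.integral_finsetSum]
      · have h3 : ∀ k ∈ Finset.range M, ∫ y in (0:ℝ)..2, ((starRingEnd ℂ) (c l) * c k) *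
            (((v l).eval y * (v k).eval y : ℝ) : ℂ) =
            if k = l then (‖c l‖ : ℂ) ^ 2 else 0 := by
          intro k _
          rw [intervalIntegral.integral_const_mul, intervalIntegral.integral_ofReal, hv.ortho]
          by_cases hk : k = l
          · subst hk
            rw [if_pos rfl, if_pos rfl, ← Complex.normSq_eq_conj_mul_self,
              Complex.normSq_eq_norm_sq]
            push_cast
            ring
          · rw [if_neg hk, if_neg (fun h => hk h.symm)]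
            simp
        rw [Finset.sum_congr rfl h3, Finset.sum_ite_eq' , if_pos hl]
      · intro k _
        apply Continuous.intervalIntegrable
        have a1 := hVc l
        have a2 := hVc k
        push_cast
        fun_prop
    · intro l _
      apply Continuous.intervalIntegrable
      apply continuous_finsetSum
      intro k _
      have a1 := hVc l
      have a2 := hVc k
      push_cast
      fun_prop
  exact_mod_cast h1

/-- Bessel-type estimate for the pairing with a polynomial of degree `< M` -/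
theorem c1_pair (v : ℕ → ℝ[X]) (hv : LegSys v) (M : ℕ) (p : ℂ[X]) (hp : p.degree < M)
    (g : ℝ → ℂ) (hg : Continuous g) :
    ‖ip (fun y => p.eval (y : ℂ)) g‖ ^ 2 ≤ nsq (fun y => p.eval (y : ℂ)) *
      ∑ l ∈ Finset.range M, ‖∫ y in (0:ℝ)..2, g y * (((v l).eval y : ℝ) : ℂ)‖ ^ 2 := by
  obtain ⟨c, hc⟩ := c1_expand v hv M p hp
  have hVc : ∀ l, Continuous (fun y : ℝ => (((v l).eval y : ℝ) : ℂ)) :=
    fun l => (c1_poly_contDiff _).continuous
  have h1 : (fun y : ℝ => p.eval (y : ℂ)) =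
      fun y => ∑ l ∈ Finset.range M, c l * (((v l).eval y : ℝ) : ℂ) := by
    ext y
    rw [hc, c1_eval_sum]
  rw [h1, c1_parseval v hv]
  have h2 : ip (fun y => ∑ l ∈ Finset.range M, c l * (((v l).eval y : ℝ) : ℂ)) g =
      ∑ l ∈ Finset.range M, (starRingEnd ℂ) (c l) *
        ∫ y in (0:ℝ)..2, g y * (((v l).eval y : ℝ) : ℂ) := by
    unfold ip
    have h3 : ∀ y, (starRingEnd ℂ) (∑ l ∈ Finset.range M, c l * (((v l).eval y : ℝ) : ℂ)) * g y =
        ∑ l ∈ Finset.range M, (starRingEnd ℂ) (c l) * (g y * (((v l).eval y : ℝ) : ℂ)) := by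
      intro y
      rw [map_sum, Finset.sum_mul]
      apply Finset.sum_congr rfl
      intro l _
      rw [map_mul, Complex.conj_ofReal]
      ring
    simp_rw [h3]
    rw [intervalIntegral.integral_finsetSum]
    · apply Finset.sum_congr rfl
      intro l _
      rw [intervalIntegral.integral_const_mul]
    · intro l _
      apply Continuous.intervalIntegrable
      have := hVc l
      fun_prop
  rw [h2]
  set d : ℕ → ℂ := fun l => ∫ y in (0:ℝ)..2, g y * (((v l).eval y : ℝ) : ℂ) with hd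
  have h4 : ‖∑ l ∈ Finset.range M, (starRingEnd ℂ) (c l) * d l‖ ≤
      ∑ l ∈ Finset.range M, ‖c l‖ * ‖d l‖ := by
    refine (norm_sum_le _ _).trans (le_of_eq ?_)
    apply Finset.sum_congr rfl
    intro l _
    rw [norm_mul, RCLike.norm_conj]
  calc ‖∑ l ∈ Finset.range M, (starRingEnd ℂ) (c l) * d l‖ ^ 2
      ≤ (∑ l ∈ Finset.range M, ‖c l‖ * ‖d l‖) ^ 2 := by gcongr
    _ ≤ _ := Finset.sum_mul_sq_le_sq_mul_sq _ _ _

theorem c1_int_bound (f : ℝ → ℝ) (c : ℝ) (hf : Continuous f)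
    (h : ∀ y ∈ Set.Icc (0:ℝ) 2, f y ≤ c) : ∫ y in (0:ℝ)..2, f y ≤ 2 * c := by
  have h1 : ∫ y in (0:ℝ)..2, f y ≤ ∫ _ in (0:ℝ)..2, c := by
    apply intervalIntegral.integral_mono_on (by norm_num)
    · exact hf.intervalIntegrable _ _
    · exact continuous_const.intervalIntegrable _ _
    · exact h
  refine h1.trans (le_of_eq ?_)
  rw [intervalIntegral.integral_const]
  simp

theorem center (ζ r : ℝ) (hζ : 0 < ζ) (hr : 0 < r) (hr1 : r < 1) (h : 1 < ζ ^ 2 * (1 - r ^ 2))
    (φ : ℝ → ℂ) (hφ : ContDiff ℝ 1 φ) (hs : ∀ y, r ≤ |y - 1| → φ y = 0)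
    (ε : ℝ) (hε : 0 < ε) :
    ∃ M₀ : ℕ, ∀ M : ℕ, M₀ ≤ M → ∀ p : ℂ[X], p.degree < M →
      ‖ip (fun y => p.eval (y : ℂ)) (fun y => φ y * Complex.exp (Complex.I * ((ζ * M : ℝ) : ℂ) * y))‖ ^ 2
        ≤ ε * nsq (fun y => p.eval (y : ℂ)) := by
  obtain ⟨v, hv⟩ := exists_leg
  set κ := ζ ^ 2 * (1 - r ^ 2) - 1 with hκ
  have hκ0 : 0 < κ := by rw [hκ]; linarith
  have hφ'c : Continuous (deriv φ) := hφ.continuous_deriv_one
  obtain ⟨B₁, hB₁⟩ := isCompact_Icc.exists_bound_of_continuousOn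
    (s := Set.Icc (0:ℝ) 2) hφ.continuous.continuousOn
  obtain ⟨B₂, hB₂⟩ := isCompact_Icc.exists_bound_of_continuousOn
    (s := Set.Icc (0:ℝ) 2) hφ'c.continuousOn
  set B := max B₁ B₂ with hB
  have hB1 : ∀ y ∈ Set.Icc (0:ℝ) 2, ‖φ y‖ ≤ B := fun y hy => (hB₁ y hy).trans (le_max_left _ _)
  have hB2 : ∀ y ∈ Set.Icc (0:ℝ) 2, ‖deriv φ y‖ ≤ B :=
    fun y hy => (hB₂ y hy).trans (le_max_right _ _)
  have hB0 : 0 ≤ B := (norm_nonneg _).trans (hB1 0 (by norm_num))
  set C₁ := B / κ + 2 * ζ ^ 2 * B / κ ^ 2 with hC₁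
  have hC₁0 : 0 ≤ C₁ := by rw [hC₁]; positivity
  have hC₁B : B / κ ≤ C₁ := by
    rw [hC₁]
    have : 0 ≤ 2 * ζ ^ 2 * B / κ ^ 2 := by positivity
    linarith
  set C₂ := 2 * (18 * ζ ^ 2 + 2) * C₁ ^ 2 with hC₂
  have hC₂0 : 0 ≤ C₂ := by rw [hC₂]; positivity
  refine ⟨⌈C₂ / ε⌉₊ + 1, fun M hM p hp => ?_⟩
  have hM1 : (1 : ℝ) ≤ M := by exact_mod_cast (le_trans (Nat.le_add_left _ _) hM)
  have hM0 : (0 : ℝ) < M := by linarith
  have hMε : C₂ ≤ ε * M := by
    have h1 : C₂ / ε ≤ M := by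
      refine (Nat.le_ceil _).trans ?_
      exact_mod_cast (Nat.le_of_succ_le hM)
    rw [div_le_iff₀ hε] at h1
    linarith
  set ω : ℝ := ζ * M with hω
  have hω0 : 0 < ω := by positivity
  -- the bound of the coefficients
  have hcoef : ∀ l ∈ Finset.range M,
      ‖∫ y in (0:ℝ)..2, φ y * Complex.exp (Complex.I * ω * y) * (((v l).eval y : ℝ) : ℂ)‖ ^ 2 ≤
        C₂ / M ^ 2 := by
    intro l hl
    have hlM : (l : ℝ) + 1 ≤ M := by
      have := Finset.mem_range.mp hl
      exact_mod_cast this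
    have hl0 : (0 : ℝ) ≤ l := Nat.cast_nonneg l
    have hll : (l : ℝ) * (l + 1) ≤ M ^ 2 := by nlinarith
    set A : ℝ → ℝ := fun y => ω ^ 2 * wt y - l * (l + 1) with hA
    have hAd : ∀ y, HasDerivAt A (ω ^ 2 * (2 - 2 * y)) y := by
      intro y
      have h1 : HasDerivAt (fun y : ℝ => ω ^ 2 * (y * (2 - y)) - l * (l + 1))
          (ω ^ 2 * (1 * (2 - y) + y * (0 - 1)) - 0) y :=
        (((hasDerivAt_id y).mul ((hasDerivAt_const y (2:ℝ)).sub (hasDerivAt_id y))).const_mul
          (ω ^ 2)).sub (hasDerivAt_const y _)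
      have h2 : ω ^ 2 * (1 * (2 - y) + y * (0 - 1)) - 0 = ω ^ 2 * (2 - 2 * y) := by ring
      rw [h2] at h1
      exact h1
    have hAcd : ContDiff ℝ 1 (fun y => ((A y : ℝ) : ℂ)) := by
      have h0 : ContDiff ℝ 1 A := by
        have : A = fun y => ω ^ 2 * (y * (2 - y)) - l * (l + 1) := rfl
        rw [this]
        fun_prop
      exact Complex.ofRealCLM.contDiff.comp h0
    have hApos : ∀ y, |y - 1| ≤ r → κ * M ^ 2 ≤ A y := by
      intro y hy
      have h1 : (y - 1) ^ 2 ≤ r ^ 2 := by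
        rw [← sq_abs (y - 1)]
        gcongr
      have h2 : wt y = 1 - (y - 1) ^ 2 := by unfold wt; ring
      have h3 : ω ^ 2 * (1 - r ^ 2) ≤ ω ^ 2 * wt y := by
        rw [h2]
        gcongr
      simp only [hA]
      rw [hκ]
      have h4 : ω ^ 2 = ζ ^ 2 * M ^ 2 := by rw [hω]; ring
      rw [h4] at h3 ⊢
      nlinarith
    set χ : ℝ → ℂ := fun y => φ y / ((A y : ℝ) : ℂ) with hχ
    have hout : ∀ y, r < |y - 1| → χ =ᶠ[nhds y] fun _ => 0 := by
      intro y hy
      have hopen : IsOpen {y : ℝ | r < |y - 1|} := isOpen_lt continuous_const (by fun_prop)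
      filter_upwards [hopen.mem_nhds hy] with z hz
      simp only [hχ]
      rw [hs z (le_of_lt hz), zero_div]
    have hAne : ∀ y, |y - 1| ≤ r → ((A y : ℝ) : ℂ) ≠ 0 := by
      intro y hy
      have := hApos y hy
      have h1 : 0 < A y := lt_of_lt_of_le (by positivity) this
      exact_mod_cast h1.ne'
    have hχcd : ContDiff ℝ 1 χ := by
      rw [contDiff_iff_contDiffAt]
      intro y
      rcases le_or_gt |y - 1| r with hy | hy
      · have h0 : ContDiffAt ℝ 1 (fun y => (((A y : ℝ) : ℂ))⁻¹) y :=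
          hAcd.contDiffAt.inv (hAne y hy)
        have h1 := hφ.contDiffAt.mul h0
        exact h1
      · exact contDiffAt_const.congr_of_eventuallyEq (hout y hy)
    have hχb : ∀ y ∈ Set.Icc (0:ℝ) 2, ‖χ y‖ ≤ C₁ / M ^ 2 := by
      intro y hy
      rcases le_or_gt |y - 1| r with h1 | h1
      · have h2 := hApos y h1
        have h3 : 0 < κ * M ^ 2 := by positivity
        simp only [hχ]
        rw [norm_div, Complex.norm_real, Real.norm_eq_abs, abs_of_pos (lt_of_lt_of_le h3 h2)]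
        calc ‖φ y‖ / A y ≤ B / (κ * M ^ 2) := by
              gcongr
              exact hB1 y hy
          _ = (B / κ) / M ^ 2 := by rw [div_div]
          _ ≤ C₁ / M ^ 2 := by gcongr
      · rw [(hout y h1).eq_of_nhds, norm_zero]
        positivity
    have hχ'b : ∀ y ∈ Set.Icc (0:ℝ) 2, ‖deriv χ y‖ ≤ C₁ / M ^ 2 := by
      intro y hy
      rcases le_or_gt |y - 1| r with h1 | h1
      · have h2 := hApos y h1
        have h3 : 0 < κ * M ^ 2 := by positivity
        have hAy : 0 < A y := lt_of_lt_of_le h3 h2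
        have h4 : HasDerivAt χ ((deriv φ y * ((A y : ℝ) : ℂ) -
            φ y * ((ω ^ 2 * (2 - 2 * y) : ℝ) : ℂ)) / ((A y : ℝ) : ℂ) ^ 2) y :=
          ((hφ.differentiable one_ne_zero y).hasDerivAt).div (hAd y).ofReal_comp (hAne y h1)
        rw [h4.deriv]
        have h5 : (deriv φ y * ((A y : ℝ) : ℂ) -
            φ y * ((ω ^ 2 * (2 - 2 * y) : ℝ) : ℂ)) / ((A y : ℝ) : ℂ) ^ 2 =
            deriv φ y / ((A y : ℝ) : ℂ) -
              φ y * ((ω ^ 2 * (2 - 2 * y) : ℝ) : ℂ) / ((A y : ℝ) : ℂ) ^ 2 := by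
          have := hAne y h1
          field_simp
        rw [h5]
        refine (norm_sub_le _ _).trans ?_
        rw [norm_div, norm_div, norm_mul, norm_pow, Complex.norm_real, Complex.norm_real,
          Real.norm_eq_abs, Real.norm_eq_abs, abs_of_pos hAy]
        have h6 : |ω ^ 2 * (2 - 2 * y)| ≤ 2 * ζ ^ 2 * M ^ 2 := by
          rw [abs_mul, abs_of_nonneg (sq_nonneg ω)]
          have : |2 - 2 * y| ≤ 2 := by
            rw [abs_le]; constructor <;> linarith [hy.1, hy.2]
          calc ω ^ 2 * |2 - 2 * y| ≤ ω ^ 2 * 2 := by gcongr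
            _ = 2 * ζ ^ 2 * M ^ 2 := by rw [hω]; ring
        have h7 : ‖deriv φ y‖ / A y ≤ B / (κ * M ^ 2) := by
          gcongr
          exact hB2 y hy
        have h8 : ‖φ y‖ * |ω ^ 2 * (2 - 2 * y)| / A y ^ 2 ≤
            B * (2 * ζ ^ 2 * M ^ 2) / (κ * M ^ 2) ^ 2 := by
          gcongr
          exact hB1 y hy
        refine (add_le_add h7 h8).trans (le_of_eq ?_)
        rw [hC₁]
        field_simp
      · have := (hout y h1).deriv_eq
        rw [this]
        simp only [deriv_const, norm_zero]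
        positivity
    have hb := coef_bound v hv l ω φ χ hχcd (by
      intro y
      rcases le_or_gt |y - 1| r with h1 | h1
      · simp only [hχ]
        have := hAne y h1
        rw [mul_div_cancel₀]
        exact this
      · rw [hs y h1.le, (hout y h1).eq_of_nhds, mul_zero])
    refine hb.trans ?_
    have hwd : ∀ y, HasDerivAt (fun t => (wt t : ℂ)) (((2 - 2 * y : ℝ)) : ℂ) y := by
      intro y
      have h1 : HasDerivAt (fun y : ℝ => (y * (2 - y))) ((1 * (2 - y) + y * (0 - 1))) y :=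
        ((hasDerivAt_id y).mul ((hasDerivAt_const y (2:ℝ)).sub (hasDerivAt_id y)))
      have h2 : (1 * (2 - y) + y * (0 - 1)) = (2 - 2 * y) := by ring
      rw [h2] at h1
      exact h1.ofReal_comp
    have hwcd : ContDiff ℝ 1 (fun t => (wt t : ℂ)) := by
      have h0 : ContDiff ℝ 1 wt := by
        have : wt = fun y => y * (2 - y) := rfl
        rw [this]
        fun_prop
      exact Complex.ofRealCLM.contDiff.comp h0
    have hwle : ∀ y, wt y ≤ 1 := by
      intro y
      have : wt y = 1 - (y - 1) ^ 2 := by unfold wt; ring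
      rw [this]
      nlinarith [sq_nonneg (y - 1)]
    have i1 : ∫ y in (0:ℝ)..2, ‖deriv (fun t => (wt t : ℂ) * χ t) y‖ ^ 2 ≤
        2 * (3 * C₁ / M ^ 2) ^ 2 := by
      apply c1_int_bound
      · have := (hwcd.mul hχcd).continuous_deriv_one
        exact (this.norm).pow 2
      · intro y hy
        have h1 : HasDerivAt (fun t => (wt t : ℂ) * χ t)
            (((2 - 2 * y : ℝ) : ℂ) * χ y + (wt y : ℂ) * deriv χ y) y :=
          (hwd y).mul ((hχcd.differentiable one_ne_zero y).hasDerivAt)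
        rw [h1.deriv]
        have h2 : ‖((2 - 2 * y : ℝ) : ℂ) * χ y + (wt y : ℂ) * deriv χ y‖ ≤ 3 * C₁ / M ^ 2 := by
          refine (norm_add_le _ _).trans ?_
          rw [norm_mul, norm_mul, Complex.norm_real, Complex.norm_real, Real.norm_eq_abs,
            Real.norm_eq_abs, abs_of_nonneg (c1_wt_nonneg hy)]
          have h3 : |2 - 2 * y| ≤ 2 := by
            rw [abs_le]; constructor <;> linarith [hy.1, hy.2]
          have h4 := hχb y hy
          have h5 := hχ'b y hy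
          have h6 := hwle y
          have h7 : |2 - 2 * y| * ‖χ y‖ ≤ 2 * (C₁ / M ^ 2) := by gcongr
          have h8 : wt y * ‖deriv χ y‖ ≤ 1 * (C₁ / M ^ 2) := by
            gcongr
          refine (add_le_add h7 h8).trans (le_of_eq ?_)
          ring
        gcongr
    have i2 : ∫ y in (0:ℝ)..2, wt y * ‖deriv χ y‖ ^ 2 ≤ 2 * (C₁ / M ^ 2) ^ 2 := by
      apply c1_int_bound
      · have := hχcd.continuous_deriv_one
        exact c1_wt_cont.mul ((this.norm).pow 2)
      · intro y hy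
        have h5 := hχ'b y hy
        have h6 := hwle y
        have h7 := c1_wt_nonneg hy
        calc wt y * ‖deriv χ y‖ ^ 2 ≤ 1 * (C₁ / M ^ 2) ^ 2 := by gcongr
          _ = _ := one_mul _
    have i2' : 0 ≤ ∫ y in (0:ℝ)..2, wt y * ‖deriv χ y‖ ^ 2 := by
      apply intervalIntegral.integral_nonneg (by norm_num)
      intro y hy
      exact mul_nonneg (c1_wt_nonneg hy) (sq_nonneg _)
    have j1 : ω ^ 2 * (∫ y in (0:ℝ)..2, ‖deriv (fun t => (wt t : ℂ) * χ t) y‖ ^ 2) ≤
        ω ^ 2 * (2 * (3 * C₁ / M ^ 2) ^ 2) := mul_le_mul_of_nonneg_left i1 (sq_nonneg _)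
    have j2 : (l : ℝ) * (l + 1) * ∫ y in (0:ℝ)..2, wt y * ‖deriv χ y‖ ^ 2 ≤
        M ^ 2 * (2 * (C₁ / M ^ 2) ^ 2) := by
      gcongr
    calc 2 * (ω ^ 2 * (∫ y in (0:ℝ)..2, ‖deriv (fun t => (wt t : ℂ) * χ t) y‖ ^ 2)
        + l * (l + 1) * ∫ y in (0:ℝ)..2, wt y * ‖deriv χ y‖ ^ 2)
        ≤ 2 * (ω ^ 2 * (2 * (3 * C₁ / M ^ 2) ^ 2) + M ^ 2 * (2 * (C₁ / M ^ 2) ^ 2)) := by
          gcongr
      _ = C₂ / M ^ 2 := by
          rw [hC₂, hω]
          field_simp
          ring
  have hgc : Continuous (fun y : ℝ => φ y * Complex.exp (Complex.I * ((ζ * M : ℝ) : ℂ) * y)) := by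
    have := hφ.continuous
    fun_prop
  have hpair := c1_pair v hv M p hp _ hgc
  have hsum : ∑ l ∈ Finset.range M, ‖∫ y in (0:ℝ)..2,
      (fun y : ℝ => φ y * Complex.exp (Complex.I * ((ζ * M : ℝ) : ℂ) * y)) y *
        (((v l).eval y : ℝ) : ℂ)‖ ^ 2 ≤ ε := by
    calc _ ≤ ∑ l ∈ Finset.range M, C₂ / (M : ℝ) ^ 2 := Finset.sum_le_sum hcoef
      _ = M * (C₂ / (M : ℝ) ^ 2) := by
          rw [Finset.sum_const, Finset.card_range, nsmul_eq_mul]
      _ = C₂ / M := by field_simp
      _ ≤ ε := by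
          rw [div_le_iff₀ hM0]
          exact hMε
  have hn0 : 0 ≤ nsq (fun y => p.eval (y : ℂ)) := by
    unfold nsq
    apply intervalIntegral.integral_nonneg (by norm_num)
    intro y _
    positivity
  refine hpair.trans ?_
  rw [mul_comm ε]
  exact mul_le_mul_of_nonneg_left hsum hn0

end Pool.Agent.MP_12ef2a_an
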