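import Mathlib
import Pool.Agent.MP_12ef2a_an.Defs
import Pool.Agent.MP_12ef2a_an.B1
import Pool.Agent.MP_12ef2a_an.B2
import Pool.Agent.MP_12ef2a_an.C1

set_option autoImplicit false

open MeasureTheory Polynomial

namespace Pool.Agent.MP_12ef2a_an

namespace C2aux

lemma sum_inv_sq_le (M : ℕ) (hM : 1 ≤ M) (N : ℕ) :
    ∑ l ∈ Finset.Ico M N, (1 : ℝ) / (l : ℝ) ^ 2 ≤ 2 / (M : ℝ) := by
  have h1 : (1 : ℝ) ≤ M := by exact_mod_cast hM
  have H : ∀ n : ℕ, ∑ l ∈ Finset.Ico M (M + n), (1 : ℝ) / (l : ℝ) ^ 2 ≤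
      2 / (M : ℝ) - 2 / ((M : ℝ) + n) := by
    intro n
    induction n with
    | zero => simp
    | succ n ih =>
      rw [← add_assoc, Finset.sum_Ico_succ_top (by omega)]
      have hx : (1 : ℝ) ≤ (M : ℝ) + n := by
        have : (0 : ℝ) ≤ n := by positivity
        linarith
      have h3 : 1 / ((M : ℝ) + n) ^ 2 ≤ 2 / ((M : ℝ) + n) - 2 / ((M : ℝ) + n + 1) := by
        have e : 2 / ((M : ℝ) + n) - 2 / ((M : ℝ) + n + 1) = 2 / (((M : ℝ) + n) * (M + n + 1)) := by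
          field_simp; ring
        rw [e, div_le_div_iff₀ (by positivity) (by positivity)]
        nlinarith
      push_cast
      rw [← add_assoc]
      linarith
  rcases le_or_gt N M with h | h
  · rw [Finset.Ico_eq_empty (by omega), Finset.sum_empty]; positivity
  · obtain ⟨n, rfl⟩ := Nat.exists_eq_add_of_le h.le
    have h2 := H n
    have : (0 : ℝ) ≤ 2 / ((M : ℝ) + n) := by positivity
    linarith

lemma wt_eq (y : ℝ) : wt y = 1 - (y - 1) ^ 2 := by unfold wt; ring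

lemma wt_nonneg {y : ℝ} (h : y ∈ Set.Icc (0 : ℝ) 2) : 0 ≤ wt y := by
  unfold wt; exact mul_nonneg h.1 (by linarith [h.2])

lemma wt_le_one (y : ℝ) : wt y ≤ 1 := by rw [wt_eq]; nlinarith [sq_nonneg (y - 1)]

lemma contDiff_wt : ContDiff ℝ 1 wt := by unfold wt; fun_prop

/-- `ω² w - l(l+1)` -/
noncomputable def AA (ω : ℝ) (l : ℕ) (y : ℝ) : ℝ := ω ^ 2 * wt y - l * (l + 1)

lemma AA_le {ζ r : ℝ} (hr : 0 < r) (hr1 : r < 1) {l M : ℕ} (hl : M ≤ l)
    {y : ℝ} (hy : r ≤ |y - 1|) : AA (ζ * M) l y ≤ -((1 - ζ ^ 2 * (1 - r ^ 2)) * (l : ℝ) ^ 2) := by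
  have hl' : (M : ℝ) ≤ l := by exact_mod_cast hl
  have hM0 : (0 : ℝ) ≤ M := by positivity
  have hl0 : (0 : ℝ) ≤ l := by positivity
  have h1 : r ^ 2 ≤ (y - 1) ^ 2 := by
    rw [← sq_abs (y - 1)]
    gcongr
  have hw : wt y ≤ 1 - r ^ 2 := by rw [wt_eq]; linarith
  have hMl : (M : ℝ) ^ 2 ≤ (l : ℝ) ^ 2 := by gcongr
  have hs : 0 ≤ 1 - r ^ 2 := by nlinarith
  unfold AA
  have h2 : (ζ * M) ^ 2 * wt y ≤ (ζ * M) ^ 2 * (1 - r ^ 2) := by gcongr
  have h3 : (ζ * M) ^ 2 * (1 - r ^ 2) = (ζ ^ 2 * (1 - r ^ 2)) * (M : ℝ) ^ 2 := by ring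
  have h4 : (ζ ^ 2 * (1 - r ^ 2)) * (M : ℝ) ^ 2 ≤ (ζ ^ 2 * (1 - r ^ 2)) * (l : ℝ) ^ 2 := by
    have : 0 ≤ ζ ^ 2 * (1 - r ^ 2) := by positivity
    gcongr
  nlinarith

lemma hasDerivAt_AA (ω : ℝ) (l : ℕ) (y : ℝ) :
    HasDerivAt (AA ω l) (ω ^ 2 * (2 - 2 * y)) y := by
  unfold AA wt
  have h1 : HasDerivAt (fun y : ℝ => y * (2 - y)) (2 - 2 * y) y := by
    have := (hasDerivAt_id y).mul ((hasDerivAt_id y).const_sub 2)
    refine this.congr_deriv ?_
    simp only [id_eq]; ring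
  exact (h1.const_mul (ω ^ 2)).sub_const _

open Filter Topology in
lemma chi_exists {ζ r : ℝ} (hr : 0 < r) (hr1 : r < 1) (h : ζ ^ 2 * (1 - r ^ 2) < 1)
    {Ψ : ℝ → ℂ} (hΨ : ContDiff ℝ 1 Ψ) (hs : ∀ y, |y - 1| ≤ r → Ψ y = 0) {D : ℝ}
    (hD0 : ∀ y ∈ Set.Icc (0 : ℝ) 2, ‖Ψ y‖ ≤ D) (hD1 : ∀ y ∈ Set.Icc (0 : ℝ) 2, ‖deriv Ψ y‖ ≤ D)
    {l M : ℕ} (hM : 1 ≤ M) (hl : M ≤ l) {κ G : ℝ} (hκ : κ = 1 - ζ ^ 2 * (1 - r ^ 2))
    (hG : G = D / κ + 2 * D * ζ ^ 2 / κ ^ 2) :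
    ∃ χ : ℝ → ℂ, ContDiff ℝ 1 χ ∧ (∀ y, Ψ y = ((AA (ζ * M) l y : ℝ) : ℂ) * χ y) ∧
      (∀ y ∈ Set.Icc (0 : ℝ) 2, ‖χ y‖ ≤ G / (l : ℝ) ^ 2) ∧
      (∀ y ∈ Set.Icc (0 : ℝ) 2, ‖deriv χ y‖ ≤ G / (l : ℝ) ^ 2) := by
  have hκ0 : 0 < κ := by rw [hκ]; linarith
  have hD : 0 ≤ D := (norm_nonneg _).trans (hD0 0 ⟨le_rfl, by norm_num⟩)
  have hl' : (M : ℝ) ≤ l := by exact_mod_cast hl
  have hl1 : (1 : ℝ) ≤ l := by exact_mod_cast hM.trans hl
  have hG0 : 0 ≤ G := by rw [hG]; positivity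
  have hAle : ∀ y, r ≤ |y - 1| → AA (ζ * M) l y ≤ -(κ * (l : ℝ) ^ 2) := fun y hy => by
    rw [hκ]; exact AA_le hr hr1 hl hy
  have hAne : ∀ y, r ≤ |y - 1| → AA (ζ * M) l y ≠ 0 := fun y hy => by
    have := hAle y hy
    have h2 : 0 < κ * (l : ℝ) ^ 2 := by positivity
    linarith
  have hAabs : ∀ y, r ≤ |y - 1| → κ * (l : ℝ) ^ 2 ≤ |AA (ζ * M) l y| := fun y hy => by
    have := hAle y hy
    have h2 : 0 < κ * (l : ℝ) ^ 2 := by positivity
    rw [abs_of_neg (by linarith)]; linarith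
  set χ : ℝ → ℂ := fun y => Ψ y / ((AA (ζ * M) l y : ℝ) : ℂ) with hχ
  have hzero : ∀ y, |y - 1| < r → χ =ᶠ[𝓝 y] fun _ => 0 := by
    intro y hy
    have : ∀ᶠ x in 𝓝 y, |x - 1| < r := by
      have hc : Continuous fun x : ℝ => |x - 1| := by fun_prop
      exact hc.continuousAt.eventually_lt_const hy
    filter_upwards [this] with x hx
    simp only [hχ]
    rw [hs x hx.le, zero_div]
  have hAc : ContDiff ℝ 1 (fun y => ((AA (ζ * M) l y : ℝ) : ℂ)) := by
    have e1 : ContDiff ℝ 1 (fun y : ℝ => (ζ * M) ^ 2 * (y * (2 - y)) - l * (l + 1)) := by fun_prop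
    exact Complex.ofRealCLM.contDiff.comp e1
  refine ⟨χ, ?_, ?_, ?_, ?_⟩
  · rw [contDiff_iff_contDiffAt]
    intro y
    rcases lt_or_ge |y - 1| r with hy | hy
    · exact (contDiffAt_const (c := (0 : ℂ))).congr_of_eventuallyEq (hzero y hy)
    · have hne : ((AA (ζ * M) l y : ℝ) : ℂ) ≠ 0 := by exact_mod_cast hAne y hy
      have e1 := hΨ.contDiffAt (x := y) |>.mul ((hAc.contDiffAt (x := y)).inv hne)
      have e2 : χ = fun y => Ψ y * (((AA (ζ * M) l y : ℝ) : ℂ))⁻¹ := by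
        funext x; simp only [hχ, div_eq_mul_inv]
      rw [e2]; exact e1
  · intro y
    by_cases hA : AA (ζ * M) l y = 0
    · have : |y - 1| ≤ r := by
        by_contra hcon
        push Not at hcon
        exact hAne y hcon.le hA
      rw [hs y this, hA]; simp
    · simp only [hχ]
      rw [mul_div_cancel₀]
      exact_mod_cast hA
  · intro y hy
    rcases lt_or_ge |y - 1| r with h1 | h1
    · rw [(hzero y h1).eq_of_nhds, norm_zero]; positivity
    · simp only [hχ]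
      rw [norm_div, Complex.norm_real, Real.norm_eq_abs]
      calc ‖Ψ y‖ / |AA (ζ * M) l y| ≤ D / (κ * (l : ℝ) ^ 2) := by
            gcongr
            · exact hD0 y hy
            · exact hAabs y h1
        _ = (D / κ) / (l : ℝ) ^ 2 := by rw [div_div]
        _ ≤ G / (l : ℝ) ^ 2 := by
            gcongr
            rw [hG]
            have : 0 ≤ 2 * D * ζ ^ 2 / κ ^ 2 := by positivity
            linarith
  · intro y hy
    rcases lt_or_ge |y - 1| r with h1 | h1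
    · rw [(hzero y h1).deriv_eq, deriv_const, norm_zero]; positivity
    · have hd : HasDerivAt χ ((deriv Ψ y * ((AA (ζ * M) l y : ℝ) : ℂ) -
          Ψ y * (((ζ * M) ^ 2 * (2 - 2 * y) : ℝ) : ℂ)) / ((AA (ζ * M) l y : ℝ) : ℂ) ^ 2) y := by
        have d1 : HasDerivAt Ψ (deriv Ψ y) y :=
          (hΨ.differentiable (by norm_num)).differentiableAt.hasDerivAt
        have d2 : HasDerivAt (fun y => ((AA (ζ * M) l y : ℝ) : ℂ))
            ((((ζ * M) ^ 2 * (2 - 2 * y) : ℝ) : ℂ)) y := (hasDerivAt_AA (ζ * M) l y).ofReal_comp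
        exact d1.div d2 (by exact_mod_cast hAne y h1)
      rw [hd.deriv]
      have hAA : ((AA (ζ * M) l y : ℝ) : ℂ) ≠ 0 := by exact_mod_cast hAne y h1
      have e : (deriv Ψ y * ((AA (ζ * M) l y : ℝ) : ℂ) -
          Ψ y * (((ζ * M) ^ 2 * (2 - 2 * y) : ℝ) : ℂ)) / ((AA (ζ * M) l y : ℝ) : ℂ) ^ 2 =
          deriv Ψ y / ((AA (ζ * M) l y : ℝ) : ℂ) -
          Ψ y * (((ζ * M) ^ 2 * (2 - 2 * y) : ℝ) : ℂ) / ((AA (ζ * M) l y : ℝ) : ℂ) ^ 2 := by
        field_simp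
      rw [e]
      refine (norm_sub_le _ _).trans ?_
      rw [norm_div, norm_div, norm_mul, norm_pow, Complex.norm_real, Complex.norm_real,
        Real.norm_eq_abs, Real.norm_eq_abs]
      have hAp : 0 < κ * (l : ℝ) ^ 2 := by positivity
      have b1 : ‖deriv Ψ y‖ / |AA (ζ * M) l y| ≤ D / (κ * (l : ℝ) ^ 2) := by
        gcongr
        · exact hD1 y hy
        · exact hAabs y h1
      have b2 : |(ζ * M) ^ 2 * (2 - 2 * y)| ≤ ζ ^ 2 * (l : ℝ) ^ 2 * 2 := by
        rw [abs_mul, abs_of_nonneg (by positivity), mul_pow]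
        have : |2 - 2 * y| ≤ 2 := by rw [abs_le]; constructor <;> linarith [hy.1, hy.2]
        gcongr
      have b3 : ‖Ψ y‖ * |(ζ * M) ^ 2 * (2 - 2 * y)| / |AA (ζ * M) l y| ^ 2 ≤
          D * (ζ ^ 2 * (l : ℝ) ^ 2 * 2) / (κ * (l : ℝ) ^ 2) ^ 2 := by
        gcongr
        · exact hD0 y hy
        · exact hAabs y h1
      refine (add_le_add b1 b3).trans (le_of_eq ?_)
      rw [hG]
      field_simp

end C2aux

open C2aux

theorem edge (ζ r R : ℝ) (hζ : 0 < ζ) (hr : 0 < r) (hr1 : r < 1) (h : ζ ^ 2 * (1 - r ^ 2) < 1)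
    (Φ : ℝ → ℂ) (hΦ : ContDiff ℝ 1 Φ) (hs : ∀ y, |y - 1| ≤ r → Φ y = 0)
    (ε : ℝ) (hε : 0 < ε) :
    ∃ M₀ : ℕ, ∀ M : ℕ, M₀ ≤ M → ∀ ρ : ℂ, ‖ρ‖ ≤ R → ∃ q : ℂ[X], q.degree < M ∧
      nsq (fun y => Φ y * Complex.exp (Complex.I * (((ζ * M : ℝ) : ℂ) + ρ) * y) - q.eval (y : ℂ))
        ≤ ε := by
  obtain ⟨v, hv⟩ := exists_leg
  -- bounds
  obtain ⟨B0, hB0⟩ := isCompact_Icc.exists_bound_of_continuousOn
    (hΦ.continuous.continuousOn (s := Set.Icc (0 : ℝ) 2))
  obtain ⟨B1, hB1⟩ := isCompact_Icc.exists_bound_of_continuousOn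
    ((hΦ.continuous_deriv le_rfl).continuousOn (s := Set.Icc (0 : ℝ) 2))
  set B : ℝ := |B0| + |B1| with hB
  have hBn : 0 ≤ B := by positivity
  set E : ℝ := Real.exp (2 * |R|) with hE
  have hE0 : 0 < E := Real.exp_pos _
  set D : ℝ := (1 + |R|) * B * E with hD
  have hDn : 0 ≤ D := by positivity
  set κ : ℝ := 1 - ζ ^ 2 * (1 - r ^ 2) with hκ
  have hκ0 : 0 < κ := by rw [hκ]; linarith
  set G : ℝ := D / κ + 2 * D * ζ ^ 2 / κ ^ 2 with hG
  have hG0 : 0 ≤ G := by positivity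
  set H : ℝ := (36 * ζ ^ 2 + 8) * G ^ 2 with hH
  have hH0 : 0 ≤ H := by positivity
  refine ⟨max 1 ⌈2 * H / ε⌉₊, ?_⟩
  intro M hM ρ hρ
  have hM1 : 1 ≤ M := (le_max_left _ _).trans hM
  have hM1' : (1 : ℝ) ≤ M := by exact_mod_cast hM1
  have hρ' : ‖ρ‖ ≤ |R| := hρ.trans (le_abs_self R)
  have hMε : 2 * H / ε ≤ M := by
    have h1 : ⌈2 * H / ε⌉₊ ≤ M := (le_max_right _ _).trans hM
    exact (Nat.le_ceil _).trans (by exact_mod_cast h1)
  -- the function without the fast oscillation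
  set Ψ : ℝ → ℂ := fun y => Φ y * Complex.exp (Complex.I * ρ * y) with hΨ
  have hexpC : ContDiff ℝ 1 (fun y : ℝ => Complex.exp (Complex.I * ρ * y)) := by
    exact (contDiff_const.mul Complex.ofRealCLM.contDiff).cexp
  have hΨC : ContDiff ℝ 1 Ψ := hΦ.mul hexpC
  have hΨs : ∀ y, |y - 1| ≤ r → Ψ y = 0 := fun y hy => by simp only [hΨ]; rw [hs y hy, zero_mul]
  have hexp : ∀ y ∈ Set.Icc (0 : ℝ) 2, ‖Complex.exp (Complex.I * ρ * y)‖ ≤ E := by
    intro y hy
    rw [Complex.norm_exp, hE]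
    apply Real.exp_le_exp.mpr
    refine (Complex.re_le_norm _).trans ?_
    rw [norm_mul, norm_mul, Complex.norm_I, one_mul, Complex.norm_real, Real.norm_eq_abs,
      abs_of_nonneg hy.1]
    calc ‖ρ‖ * y ≤ |R| * 2 := mul_le_mul hρ' hy.2 hy.1 (abs_nonneg R)
      _ = 2 * |R| := by ring
  have hΦ0 : ∀ y ∈ Set.Icc (0 : ℝ) 2, ‖Φ y‖ ≤ B := fun y hy =>
    (hB0 y hy).trans ((le_abs_self _).trans (by rw [hB]; linarith [abs_nonneg B1]))
  have hΦ1 : ∀ y ∈ Set.Icc (0 : ℝ) 2, ‖deriv Φ y‖ ≤ B := fun y hy =>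
    (hB1 y hy).trans ((le_abs_self _).trans (by rw [hB]; linarith [abs_nonneg B0]))
  have hΨ0 : ∀ y ∈ Set.Icc (0 : ℝ) 2, ‖Ψ y‖ ≤ D := by
    intro y hy
    simp only [hΨ]
    rw [norm_mul]
    calc ‖Φ y‖ * ‖Complex.exp (Complex.I * ρ * y)‖ ≤ B * E := by
          gcongr
          · exact hΦ0 y hy
          · exact hexp y hy
      _ = 1 * B * E := by ring
      _ ≤ D := by
          rw [hD]
          gcongr
          linarith [abs_nonneg R]
  have hΨ1 : ∀ y ∈ Set.Icc (0 : ℝ) 2, ‖deriv Ψ y‖ ≤ D := by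
    intro y hy
    have d1 : HasDerivAt Φ (deriv Φ y) y :=
      (hΦ.differentiable (by norm_num)).differentiableAt.hasDerivAt
    have d2 : HasDerivAt (fun y : ℝ => Complex.exp (Complex.I * ρ * y))
        (Complex.exp (Complex.I * ρ * y) * (Complex.I * ρ)) y := by
      have h1 : HasDerivAt (fun y : ℝ => Complex.I * ρ * (y : ℂ)) (Complex.I * ρ) y := by
        have := (Complex.ofRealCLM.hasDerivAt (x := y)).const_mul (Complex.I * ρ)
        simpa using this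
      exact h1.cexp
    have d3 := (d1.mul d2).deriv
    have e0 : deriv Ψ y = deriv Φ y * Complex.exp (Complex.I * ρ * y) +
        Φ y * (Complex.exp (Complex.I * ρ * y) * (Complex.I * ρ)) := d3
    rw [e0]
    refine (norm_add_le _ _).trans ?_
    rw [norm_mul, norm_mul, norm_mul, norm_mul, Complex.norm_I, one_mul]
    calc ‖deriv Φ y‖ * ‖Complex.exp (Complex.I * ρ * y)‖ +
          ‖Φ y‖ * (‖Complex.exp (Complex.I * ρ * y)‖ * ‖ρ‖) ≤ B * E + B * (E * |R|) := by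
          gcongr
          · exact hΦ1 y hy
          · exact hexp y hy
          · exact hΦ0 y hy
          · exact hexp y hy
      _ = D := by rw [hD]; ring
  -- coefficients
  have hf : Continuous (fun y : ℝ => Φ y * Complex.exp (Complex.I * (((ζ * M : ℝ) : ℂ) + ρ) * y)) := by
    have := hΦ.continuous
    fun_prop
  refine (tail_crit v hv _ hf M ε ?_)
  intro N
  have hcoef : ∀ l ∈ Finset.Ico M N, ‖∫ y in (0:ℝ)..2, (Φ y *
      Complex.exp (Complex.I * (((ζ * M : ℝ) : ℂ) + ρ) * y)) * (((v l).eval y : ℝ) : ℂ)‖ ^ 2 ≤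
      H * (1 / (l : ℝ) ^ 2) := by
    intro l hl
    have hl' : M ≤ l := (Finset.mem_Ico.mp hl).1
    have hMl : (M : ℝ) ≤ l := by exact_mod_cast hl'
    have hl1 : (1 : ℝ) ≤ l := hM1'.trans hMl
    obtain ⟨χ, χC, χe, χ0, χ1⟩ := chi_exists hr hr1 h hΨC hΨs hΨ0 hΨ1 hM1 hl' hκ hG
    have hcb := coef_bound v hv l (ζ * M) Ψ χ χC (fun y => χe y)
    have e1 : ∀ y : ℝ, Φ y * Complex.exp (Complex.I * (((ζ * M : ℝ) : ℂ) + ρ) * y) *
        (((v l).eval y : ℝ) : ℂ) =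
        Ψ y * Complex.exp (Complex.I * ((ζ * M : ℝ) : ℂ) * y) * (((v l).eval y : ℝ) : ℂ) := by
      intro y
      have e2 : Complex.exp (Complex.I * (((ζ * M : ℝ) : ℂ) + ρ) * y) =
          Complex.exp (Complex.I * ρ * y) * Complex.exp (Complex.I * ((ζ * M : ℝ) : ℂ) * y) := by
        rw [← Complex.exp_add]; congr 1; ring
      simp only [hΨ]
      rw [e2]; ring
    simp only [e1]
    refine hcb.trans ?_
    have i1 : ∫ y in (0:ℝ)..2, ‖deriv (fun t => (wt t : ℂ) * χ t) y‖ ^ 2 ≤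
        (3 * (G / (l : ℝ) ^ 2)) ^ 2 * 2 := by
      refine (le_abs_self _).trans ?_
      rw [← Real.norm_eq_abs]
      have := intervalIntegral.norm_integral_le_of_norm_le_const (a := (0:ℝ)) (b := 2)
        (f := fun y => ‖deriv (fun t => (wt t : ℂ) * χ t) y‖ ^ 2)
        (C := (3 * (G / (l : ℝ) ^ 2)) ^ 2) ?_
      · simpa using this
      · intro y hy
        rw [Set.uIoc_of_le (by norm_num)] at hy
        have hy' : y ∈ Set.Icc (0 : ℝ) 2 := ⟨hy.1.le, hy.2⟩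
        rw [Real.norm_eq_abs, abs_of_nonneg (by positivity)]
        have d1 : HasDerivAt (fun t : ℝ => (wt t : ℂ)) (((2 - 2 * y : ℝ)) : ℂ) y := by
          have h1 : HasDerivAt wt (2 - 2 * y) y := by
            unfold wt
            have := (hasDerivAt_id y).mul ((hasDerivAt_id y).const_sub 2)
            refine this.congr_deriv ?_
            simp only [id_eq]; ring
          exact h1.ofReal_comp
        have d2 : HasDerivAt χ (deriv χ y) y :=
          (χC.differentiable (by norm_num)).differentiableAt.hasDerivAt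
        have d3 : deriv (fun t => (wt t : ℂ) * χ t) y =
          ((2 - 2 * y : ℝ) : ℂ) * χ y + (wt y : ℂ) * deriv χ y := (d1.mul d2).deriv
        rw [d3]
        gcongr
        refine (norm_add_le _ _).trans ?_
        rw [norm_mul, norm_mul, Complex.norm_real, Complex.norm_real, Real.norm_eq_abs,
          Real.norm_eq_abs, abs_of_nonneg (wt_nonneg hy')]
        have a1 : |2 - 2 * y| ≤ 2 := by rw [abs_le]; constructor <;> linarith [hy'.1, hy'.2]
        calc |2 - 2 * y| * ‖χ y‖ + wt y * ‖deriv χ y‖ ≤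
            2 * (G / (l : ℝ) ^ 2) + 1 * (G / (l : ℝ) ^ 2) := by
              gcongr
              · exact χ0 y hy'
              · exact wt_le_one y
              · exact χ1 y hy'
          _ = 3 * (G / (l : ℝ) ^ 2) := by ring
    have i2 : ∫ y in (0:ℝ)..2, wt y * ‖deriv χ y‖ ^ 2 ≤ (G / (l : ℝ) ^ 2) ^ 2 * 2 := by
      refine (le_abs_self _).trans ?_
      rw [← Real.norm_eq_abs]
      have := intervalIntegral.norm_integral_le_of_norm_le_const (a := (0:ℝ)) (b := 2)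
        (f := fun y => wt y * ‖deriv χ y‖ ^ 2)
        (C := (G / (l : ℝ) ^ 2) ^ 2) ?_
      · simpa using this
      · intro y hy
        rw [Set.uIoc_of_le (by norm_num)] at hy
        have hy' : y ∈ Set.Icc (0 : ℝ) 2 := ⟨hy.1.le, hy.2⟩
        have hw := wt_nonneg hy'
        rw [Real.norm_eq_abs, abs_of_nonneg (by positivity)]
        calc wt y * ‖deriv χ y‖ ^ 2 ≤ 1 * (G / (l : ℝ) ^ 2) ^ 2 := by
              gcongr
              · exact wt_le_one y
              · exact χ1 y hy'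
          _ = _ := one_mul _
    have j1 : 0 ≤ ∫ y in (0:ℝ)..2, ‖deriv (fun t => (wt t : ℂ) * χ t) y‖ ^ 2 :=
      intervalIntegral.integral_nonneg (by norm_num) (fun _ _ => by positivity)
    have j2 : 0 ≤ ∫ y in (0:ℝ)..2, wt y * ‖deriv χ y‖ ^ 2 :=
      intervalIntegral.integral_nonneg (by norm_num) (fun y hy => by
        have := wt_nonneg hy; positivity)
    calc 2 * ((ζ * M) ^ 2 * (∫ y in (0:ℝ)..2, ‖deriv (fun t => (wt t : ℂ) * χ t) y‖ ^ 2)
          + l * (l + 1) * ∫ y in (0:ℝ)..2, wt y * ‖deriv χ y‖ ^ 2)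
        ≤ 2 * ((ζ * l) ^ 2 * ((3 * (G / (l : ℝ) ^ 2)) ^ 2 * 2) +
          l * (l + l) * ((G / (l : ℝ) ^ 2) ^ 2 * 2)) := by gcongr
      _ = H * (1 / (l : ℝ) ^ 2) := by
          rw [hH]; field_simp; ring
  calc ∑ l ∈ Finset.Ico M N, ‖∫ y in (0:ℝ)..2, (Φ y *
      Complex.exp (Complex.I * (((ζ * M : ℝ) : ℂ) + ρ) * y)) * (((v l).eval y : ℝ) : ℂ)‖ ^ 2
      ≤ ∑ l ∈ Finset.Ico M N, H * (1 / (l : ℝ) ^ 2) := Finset.sum_le_sum hcoef
    _ = H * ∑ l ∈ Finset.Ico M N, 1 / (l : ℝ) ^ 2 := by rw [Finset.mul_sum]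
    _ ≤ H * (2 / M) := by
        gcongr
        exact sum_inv_sq_le M hM1 N
    _ ≤ ε := by
        rw [div_le_iff₀ hε] at hMε
        rw [mul_div_assoc', div_le_iff₀ (by positivity)]
        linarith

namespace C2aux

lemma exp_cosh (c : ℝ) : ∫ u in (-1:ℝ)..1, Real.exp (c * u) = ∫ u in (-1:ℝ)..1, Real.cosh (c * u) := by
  have h1 : ∫ u in (-1:ℝ)..1, Real.exp (-(c * u)) = ∫ u in (-1:ℝ)..1, Real.exp (c * u) := by
    have := intervalIntegral.integral_comp_neg (a := (-1:ℝ)) (b := 1)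
      (fun u : ℝ => Real.exp (c * u))
    simp only [neg_neg, mul_neg] at this
    exact this
  have h2 : ∫ u in (-1:ℝ)..1, Real.cosh (c * u) =
      ((∫ u in (-1:ℝ)..1, Real.exp (c * u)) + ∫ u in (-1:ℝ)..1, Real.exp (-(c * u))) / 2 := by
    rw [← intervalIntegral.integral_add (Continuous.intervalIntegrable (by fun_prop) _ _)
      (Continuous.intervalIntegrable (by fun_prop) _ _), ← intervalIntegral.integral_div]
    refine intervalIntegral.integral_congr fun u _ => ?_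
    simp only [Real.cosh_eq]
  rw [h2, h1]; ring

lemma shrink {r : ℝ} (hr : 0 < r) (hr1 : r < 1) (c : ℝ) :
    ∫ y in (1 - r)..(1 + r), Real.exp (c * y) ≤ r * ∫ y in (0:ℝ)..2, Real.exp (c * y) := by
  have e : ∀ ρ : ℝ, 0 < ρ → ∫ y in (1 - ρ)..(1 + ρ), Real.exp (c * y) =
      ρ * (Real.exp c * ∫ u in (-1:ℝ)..1, Real.cosh (c * ρ * u)) := by
    intro ρ hρ
    have h1 := intervalIntegral.integral_comp_add_mul (a := (-1:ℝ)) (b := 1)
      (fun y : ℝ => Real.exp (c * y)) hρ.ne' 1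
    have h2 : ∫ x in (-1:ℝ)..1, Real.exp (c * (1 + ρ * x)) =
        Real.exp c * ∫ u in (-1:ℝ)..1, Real.cosh (c * ρ * u) := by
      rw [← exp_cosh, ← intervalIntegral.integral_const_mul]
      refine intervalIntegral.integral_congr fun u _ => ?_
      change Real.exp (c * (1 + ρ * u)) = Real.exp c * Real.exp (c * ρ * u)
      rw [← Real.exp_add]; congr 1; ring
    rw [h2] at h1
    rw [h1]
    simp only [smul_eq_mul, mul_neg, mul_one]
    rw [← mul_assoc, mul_inv_cancel₀ hρ.ne', one_mul, ← sub_eq_add_neg]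
  have e1 := e r hr
  have e2 := e 1 one_pos
  norm_num at e2
  rw [e1, e2]
  refine mul_le_mul_of_nonneg_left (mul_le_mul_of_nonneg_left ?_ (Real.exp_pos c).le) hr.le
  refine intervalIntegral.integral_mono_on (by norm_num)
    (Continuous.intervalIntegrable (by fun_prop) _ _)
    (Continuous.intervalIntegrable (by fun_prop) _ _) fun u _ => ?_
  rw [Real.cosh_le_cosh, abs_mul, abs_mul, abs_mul, abs_of_pos hr]
  have := abs_nonneg c
  have := abs_nonneg u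
  calc |c| * r * |u| ≤ |c| * 1 * |u| := by gcongr
    _ = |c| * |u| := by ring

lemma norm_sq_exp (x : ℝ) (ρ : ℂ) (y : ℝ) :
    ‖Complex.exp (Complex.I * ((x : ℂ) + ρ) * y)‖ ^ 2 = Real.exp (-2 * ρ.im * y) := by
  rw [Complex.norm_exp, ← Real.exp_nat_mul]
  congr 1
  simp only [Complex.mul_re, Complex.I_re, Complex.I_im, Complex.add_re, Complex.add_im,
    Complex.ofReal_re, Complex.ofReal_im, Complex.mul_im]
  push_cast
  ring

end C2aux

theorem near_pt (ζ r R : ℝ) (hζ : 0 < ζ) (hr : 0 < r) (hr1 : r < 1)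
    (h : ζ ^ 2 * (1 - r ^ 2 / 4) < 1) (ε : ℝ) (hε : 0 < ε) :
    ∃ M₀ : ℕ, ∀ M : ℕ, M₀ ≤ M → ∀ ρ : ℂ, ‖ρ‖ ≤ R → ∃ q : ℂ[X], q.degree < M ∧
      nsq (fun y => Complex.exp (Complex.I * (((ζ * M : ℝ) : ℂ) + ρ) * y) - q.eval (y : ℂ))
        ≤ (2 * r + ε) * nsq (fun y => Complex.exp (Complex.I * (((ζ * M : ℝ) : ℂ) + ρ) * y)) := by
  set b : ContDiffBump (1 : ℝ) := ⟨r / 2, r, by positivity, by linarith⟩ with hb
  have hbc : Continuous b := b.continuous
  set Φ : ℝ → ℂ := fun y => ((1 - b y : ℝ) : ℂ) with hΦ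
  have hΦC : ContDiff ℝ 1 Φ := by
    apply Complex.ofRealCLM.contDiff.comp
    exact contDiff_const.sub b.contDiff
  have hΦs : ∀ y, |y - 1| ≤ r / 2 → Φ y = 0 := by
    intro y hy
    have : b y = 1 := b.one_of_mem_closedBall (by
      rw [Metric.mem_closedBall, Real.dist_eq]; exact hy)
    simp only [hΦ, this]; simp
  set ε' : ℝ := ε * Real.exp (-(4 * |R|)) with hε'
  have hε'0 : 0 < ε' := by positivity
  obtain ⟨M₀, hM₀⟩ := edge ζ (r / 2) R hζ (by positivity) (by linarith)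
    (by have e : (r / 2) ^ 2 = r ^ 2 / 4 := by ring
        rw [e]; exact h) Φ hΦC hΦs ε' hε'0
  refine ⟨M₀, fun M hM ρ hρ => ?_⟩
  obtain ⟨q, hq, hqn⟩ := hM₀ M hM ρ hρ
  refine ⟨q, hq, ?_⟩
  set f : ℝ → ℂ := fun y => Complex.exp (Complex.I * (((ζ * M : ℝ) : ℂ) + ρ) * y) with hf
  have hfc : Continuous f := by simp only [hf]; fun_prop
  have hfn : ∀ y : ℝ, ‖f y‖ ^ 2 = Real.exp (-2 * ρ.im * y) := fun y => norm_sq_exp _ _ _
  have hqc : Continuous (fun y : ℝ => q.eval (y : ℂ)) := q.continuous.comp Complex.continuous_ofReal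
  have hΦc : Continuous Φ := hΦC.continuous
  -- lower bound
  have hlow : 2 * Real.exp (-(4 * |R|)) ≤ nsq f := by
    unfold nsq
    have h1 : ∫ y in (0:ℝ)..2, Real.exp (-(4 * |R|)) = 2 * Real.exp (-(4 * |R|)) := by
      rw [intervalIntegral.integral_const]; simp
    rw [← h1]
    refine intervalIntegral.integral_mono_on (by norm_num)
      (Continuous.intervalIntegrable (by fun_prop) _ _)
      (Continuous.intervalIntegrable (by fun_prop) _ _) fun y hy => ?_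
    rw [hfn]
    apply Real.exp_le_exp.mpr
    have h2 : |ρ.im| ≤ |R| := (Complex.abs_im_le_norm ρ).trans (hρ.trans (le_abs_self R))
    have h3 : ρ.im * y ≤ |R| * 2 := by
      calc ρ.im * y ≤ |ρ.im| * y := by
            have := hy.1
            gcongr
            exact le_abs_self _
        _ ≤ |R| * 2 := mul_le_mul h2 hy.2 hy.1 (abs_nonneg R)
    linarith
  -- the bump part
  have hbf : ∫ y in (0:ℝ)..2, ‖(b y : ℂ) * f y‖ ^ 2 ≤ r * nsq f := by
    have hc : Continuous fun y : ℝ => ‖(b y : ℂ) * f y‖ ^ 2 := by fun_prop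
    have hz : ∀ y, r ≤ |y - 1| → ‖(b y : ℂ) * f y‖ ^ 2 = 0 := by
      intro y hy
      have : b y = 0 := b.zero_of_le_dist (by rw [Real.dist_eq]; exact hy)
      rw [this]; simp
    rw [← intervalIntegral.integral_add_adjacent_intervals (b := 1 - r)
      (hc.intervalIntegrable _ _) (hc.intervalIntegrable _ _),
      ← intervalIntegral.integral_add_adjacent_intervals (a := 1 - r) (b := 1 + r)
      (hc.intervalIntegrable _ _) (hc.intervalIntegrable _ _)]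
    have z1 : ∫ y in (0:ℝ)..(1 - r), ‖(b y : ℂ) * f y‖ ^ 2 = 0 := by
      rw [intervalIntegral.integral_congr (g := fun _ => (0:ℝ))]
      · simp
      · intro y hy
        rw [Set.uIcc_of_le (by linarith)] at hy
        apply hz
        rw [abs_sub_comm, le_abs]; left; linarith [hy.2]
    have z2 : ∫ y in (1 + r)..(2:ℝ), ‖(b y : ℂ) * f y‖ ^ 2 = 0 := by
      rw [intervalIntegral.integral_congr (g := fun _ => (0:ℝ))]
      · simp
      · intro y hy
        rw [Set.uIcc_of_le (by linarith)] at hy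
        apply hz
        rw [le_abs]; left; linarith [hy.1]
    rw [z1, z2, zero_add, add_zero]
    have h1 : ∫ y in (1 - r)..(1 + r), ‖(b y : ℂ) * f y‖ ^ 2 ≤
        ∫ y in (1 - r)..(1 + r), Real.exp (-2 * ρ.im * y) := by
      refine intervalIntegral.integral_mono_on (by linarith) (hc.intervalIntegrable _ _)
        (Continuous.intervalIntegrable (by fun_prop) _ _) fun y _ => ?_
      rw [norm_mul, mul_pow, hfn, Complex.norm_real, Real.norm_eq_abs, abs_of_nonneg b.nonneg]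
      have : b y ^ 2 ≤ 1 := pow_le_one₀ b.nonneg b.le_one
      have := Real.exp_pos (-2 * ρ.im * y)
      nlinarith
    refine h1.trans ((shrink hr hr1 (-2 * ρ.im)).trans (le_of_eq ?_))
    unfold nsq
    congr 1
    exact intervalIntegral.integral_congr fun y _ => (hfn y).symm
  -- conclusion
  have hsum : nsq (fun y => f y - q.eval (y : ℂ)) ≤
      2 * (∫ y in (0:ℝ)..2, ‖(b y : ℂ) * f y‖ ^ 2) + 2 * nsq (fun y => Φ y * f y - q.eval (y : ℂ)) := by
    unfold nsq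
    rw [← intervalIntegral.integral_const_mul, ← intervalIntegral.integral_const_mul,
      ← intervalIntegral.integral_add (Continuous.intervalIntegrable (by fun_prop) _ _)
      (Continuous.intervalIntegrable (by fun_prop) _ _)]
    refine intervalIntegral.integral_mono_on (by norm_num)
      (Continuous.intervalIntegrable (by fun_prop) _ _)
      (Continuous.intervalIntegrable (by fun_prop) _ _) fun y _ => ?_
    change ‖f y - q.eval (y : ℂ)‖ ^ 2 ≤ 2 * ‖(b y : ℂ) * f y‖ ^ 2 +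
      2 * ‖Φ y * f y - q.eval (y : ℂ)‖ ^ 2
    have e : f y - q.eval (y : ℂ) = (b y : ℂ) * f y + (Φ y * f y - q.eval (y : ℂ)) := by
      simp only [hΦ]; push_cast; ring
    rw [e]
    have h1 := norm_add_le ((b y : ℂ) * f y) (Φ y * f y - q.eval (y : ℂ))
    have h2 : ‖(b y : ℂ) * f y + (Φ y * f y - q.eval (y : ℂ))‖ ^ 2 ≤
        (‖(b y : ℂ) * f y‖ + ‖Φ y * f y - q.eval (y : ℂ)‖) ^ 2 := by gcongr
    nlinarith [sq_nonneg (‖(b y : ℂ) * f y‖ - ‖Φ y * f y - q.eval (y : ℂ)‖)]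
  have hlast : 2 * ε' ≤ ε * nsq f := by
    rw [hε']; nlinarith
  calc nsq (fun y => f y - q.eval (y : ℂ)) ≤ 2 * (r * nsq f) + 2 * ε' := by
        refine hsum.trans ?_
        gcongr
    _ ≤ (2 * r + ε) * nsq f := by linarith

end Pool.Agent.MP_12ef2a_an
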