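import Mathlib
import Pool.Agent.MP_12ef2a_an.Defs

set_option autoImplicit false

open MeasureTheory Polynomial

namespace Pool.Agent.MP_12ef2a_an

namespace Lag

/-- moments of the exponential weight -/
theorem moment (n : ℕ) :
    IntegrableOn (fun s : ℝ => s ^ n * Real.exp (-s)) (Set.Ioi 0) ∧
      ∫ s in Set.Ioi (0:ℝ), s ^ n * Real.exp (-s) = (n.factorial : ℝ) := by
  have h0 : (0:ℝ) < (n : ℝ) + 1 := by positivity
  have hcong : ∀ s ∈ Set.Ioi (0:ℝ), Real.exp (-s) * s ^ (((n : ℝ) + 1) - 1) =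
      s ^ n * Real.exp (-s) := by
    intro s _
    rw [add_sub_cancel_right, Real.rpow_natCast, mul_comm]
  constructor
  · exact (Real.GammaIntegral_convergent h0).congr_fun hcong measurableSet_Ioi
  · rw [← setIntegral_congr_fun measurableSet_Ioi hcong, ← Real.Gamma_eq_integral h0,
      Real.Gamma_nat_eq_factorial]

/-- Vandermonde -/
theorem vdm (k j m : ℕ) (hj : j < m) :
    ∑ i ∈ Finset.range m, (k.choose i : ℝ) * (j.choose i : ℝ) = ((k + j).choose j : ℝ) := by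
  have h1 : ((k + j).choose j : ℕ) = ∑ i ∈ Finset.range (j + 1), k.choose i * j.choose i := by
    rw [Nat.add_choose_eq, Finset.Nat.sum_antidiagonal_eq_sum_range_succ
      (fun a b => k.choose a * j.choose b)]
    apply Finset.sum_congr rfl
    intro i hi
    rw [Nat.choose_symm (by have := Finset.mem_range.mp hi; omega)]
  rw [h1]
  push_cast
  symm
  apply Finset.sum_subset
  · intro i hi
    have := Finset.mem_range.mp hi
    exact Finset.mem_range.mpr (by omega)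
  · intro i _ hi
    have : j < i := by
      by_contra hc
      exact hi (Finset.mem_range.mpr (by omega))
    rw [Nat.choose_eq_zero_of_lt this]
    simp

theorem fact_id (k j : ℕ) :
    ((k + j).factorial : ℝ) = (k.factorial : ℝ) * j.factorial * ((k + j).choose j : ℝ) := by
  have := Nat.add_choose_mul_factorial_mul_factorial k j
  have h : ((k + j).factorial : ℝ) = ((k + j).choose j : ℝ) * k.factorial * j.factorial := by
    exact_mod_cast this.symm
  rw [h]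
  ring

/-- the recurrence -/
theorem rec_id (k i : ℕ) :
    ((k : ℝ) + 1) * ((k + 1).choose i : ℝ) =
      (2 * i + 1) * (k.choose i : ℝ) + i * (k.choose (i - 1) : ℝ) +
        (i + 1) * (k.choose (i + 1) : ℝ) := by
  have h1 : (k.choose (i + 1) : ℝ) * (i + 1) = (k.choose i : ℝ) * ((k : ℝ) - i) := by
    rcases Nat.lt_or_ge k i with h | h
    · rw [Nat.choose_eq_zero_of_lt h, Nat.choose_eq_zero_of_lt (by omega)]
      simp
    · have := Nat.choose_succ_right_eq k i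
      have h2 : (k.choose (i + 1) : ℝ) * (i + 1) = (k.choose i : ℝ) * ((k - i : ℕ) : ℝ) := by
        exact_mod_cast this
      rw [h2, Nat.cast_sub h]
  rcases Nat.eq_zero_or_pos i with hi | hi
  · subst hi
    simp only [Nat.choose_zero_right, Nat.cast_one, CharP.cast_eq_zero, mul_zero, zero_add,
      mul_one, zero_mul, add_zero, sub_zero] at h1 ⊢
    linarith
  · obtain ⟨i, rfl⟩ : ∃ i', i = i' + 1 := ⟨i - 1, by omega⟩
    have h3 : (k.choose (i + 1) : ℝ) * (i + 1) = (k.choose i : ℝ) * ((k : ℝ) - i) := by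
      rcases Nat.lt_or_ge k i with h | h
      · rw [Nat.choose_eq_zero_of_lt h, Nat.choose_eq_zero_of_lt (by omega)]
        simp
      · have := Nat.choose_succ_right_eq k i
        have h2 : (k.choose (i + 1) : ℝ) * (i + 1) = (k.choose i : ℝ) * ((k - i : ℕ) : ℝ) := by
          exact_mod_cast this
        rw [h2, Nat.cast_sub h]
    rw [Nat.choose_succ_succ]
    rw [Nat.add_sub_cancel]
    push_cast at h1 ⊢
    linarith

/-- squared modulus of a finite sum -/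
theorem sq_sum (m : ℕ) (a : ℕ → ℂ) :
    ‖∑ k ∈ Finset.range m, a k‖ ^ 2 =
      ∑ k ∈ Finset.range m, ∑ j ∈ Finset.range m, (a k * (starRingEnd ℂ) (a j)).re := by
  rw [← Complex.normSq_eq_norm_sq]
  have h : ((Complex.normSq (∑ k ∈ Finset.range m, a k) : ℝ) : ℂ) =
      ∑ k ∈ Finset.range m, ∑ j ∈ Finset.range m, a k * (starRingEnd ℂ) (a j) := by
    rw [← Complex.mul_conj, map_sum, Finset.sum_mul_sum]
  have h2 := congrArg Complex.re h
  rw [Complex.ofReal_re] at h2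
  rw [h2, Complex.re_sum]
  exact Finset.sum_congr rfl fun k _ => Complex.re_sum _ _

/-- weighted integral of the squared modulus of a polynomial -/
theorem integral_sq (m d : ℕ) (b : ℕ → ℂ) :
    ∫ s in Set.Ioi (0:ℝ), s ^ d * ‖∑ k ∈ Finset.range m, b k * (s : ℂ) ^ k‖ ^ 2 *
        Real.exp (-s) =
      ∑ k ∈ Finset.range m, ∑ j ∈ Finset.range m,
        (b k * (starRingEnd ℂ) (b j)).re * ((k + j + d).factorial : ℝ) := by
  have h1 : ∀ s : ℝ, s ^ d * ‖∑ k ∈ Finset.range m, b k * (s : ℂ) ^ k‖ ^ 2 * Real.exp (-s) =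
      ∑ k ∈ Finset.range m, ∑ j ∈ Finset.range m,
        (b k * (starRingEnd ℂ) (b j)).re * (s ^ (k + j + d) * Real.exp (-s)) := by
    intro s
    rw [sq_sum, Finset.mul_sum, Finset.sum_mul]
    apply Finset.sum_congr rfl
    intro k _
    rw [Finset.mul_sum, Finset.sum_mul]
    apply Finset.sum_congr rfl
    intro j _
    have h2 : b k * (s : ℂ) ^ k * (starRingEnd ℂ) (b j * (s : ℂ) ^ j) =
        ((s ^ (k + j) : ℝ) : ℂ) * (b k * (starRingEnd ℂ) (b j)) := by
      rw [map_mul, map_pow, Complex.conj_ofReal]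
      push_cast
      ring
    rw [h2, Complex.re_ofReal_mul]
    ring
  simp only [h1]
  rw [integral_finsetSum]
  · apply Finset.sum_congr rfl
    intro k _
    rw [integral_finsetSum]
    · apply Finset.sum_congr rfl
      intro j _
      rw [integral_const_mul, (moment _).2]
    · intro j _
      exact (moment _).1.const_mul _
  · intro k _
    apply integrable_finsetSum
    intro j _
    exact (moment _).1.const_mul _

/-- coordinates -/
noncomputable def cc (m : ℕ) (a : ℕ → ℂ) (i : ℕ) : ℂ :=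
  ∑ k ∈ Finset.range m, a k * ((k.choose i : ℝ) : ℂ)

theorem cc_zero (m : ℕ) (a : ℕ → ℂ) {i : ℕ} (hi : m ≤ i) : cc m a i = 0 := by
  unfold cc
  apply Finset.sum_eq_zero
  intro k hk
  have := Finset.mem_range.mp hk
  rw [Nat.choose_eq_zero_of_lt (by omega)]
  simp

/-- bilinear identity -/
theorem bil (m : ℕ) (a : ℕ → ℂ) (f : ℕ → ℕ → ℝ) :
    ∑ k ∈ Finset.range m, ∑ j ∈ Finset.range m,
      (a k * (starRingEnd ℂ) (a j)).re * ∑ i ∈ Finset.range m, f k i * (j.choose i : ℝ) =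
    ∑ i ∈ Finset.range m, ((∑ k ∈ Finset.range m, a k * ((f k i : ℝ) : ℂ)) *
      (starRingEnd ℂ) (cc m a i)).re := by
  have h1 : ∀ i, ((∑ k ∈ Finset.range m, a k * ((f k i : ℝ) : ℂ)) *
      (starRingEnd ℂ) (cc m a i)).re = ∑ k ∈ Finset.range m, ∑ j ∈ Finset.range m,
      (a k * (starRingEnd ℂ) (a j)).re * (f k i * (j.choose i : ℝ)) := by
    intro i
    unfold cc
    rw [map_sum, Finset.sum_mul_sum, Complex.re_sum]
    apply Finset.sum_congr rfl
    intro k _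
    rw [Complex.re_sum]
    apply Finset.sum_congr rfl
    intro j _
    rw [map_mul, Complex.conj_ofReal]
    have : a k * ((f k i : ℝ) : ℂ) * ((starRingEnd ℂ) (a j) * ((j.choose i : ℝ) : ℂ)) =
        ((f k i * (j.choose i : ℝ) : ℝ) : ℂ) * (a k * (starRingEnd ℂ) (a j)) := by
      push_cast
      ring
    rw [this, Complex.re_ofReal_mul]
    ring
  simp only [h1]
  conv_rhs => rw [Finset.sum_comm]
  apply Finset.sum_congr rfl
  intro k _
  conv_rhs => rw [Finset.sum_comm]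
  apply Finset.sum_congr rfl
  intro j _
  rw [Finset.mul_sum]

theorem sum_norm (m : ℕ) (b : ℕ → ℂ) :
    ∫ s in Set.Ioi (0:ℝ), s ^ 0 * ‖∑ k ∈ Finset.range m, b k * (s : ℂ) ^ k‖ ^ 2 *
        Real.exp (-s) =
      ∑ i ∈ Finset.range m, ‖cc m (fun k => b k * ((k.factorial : ℝ) : ℂ)) i‖ ^ 2 := by
  set a : ℕ → ℂ := fun k => b k * ((k.factorial : ℝ) : ℂ) with ha
  have hb : ∀ k j, (b k * (starRingEnd ℂ) (b j)).re * ((k.factorial : ℝ) * j.factorial) =
      (a k * (starRingEnd ℂ) (a j)).re := by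
    intro k j
    rw [ha]
    simp only
    rw [map_mul, Complex.conj_ofReal]
    have : b k * ((k.factorial : ℝ) : ℂ) * ((starRingEnd ℂ) (b j) * ((j.factorial : ℝ) : ℂ)) =
        (((k.factorial : ℝ) * j.factorial : ℝ) : ℂ) * (b k * (starRingEnd ℂ) (b j)) := by
      push_cast
      ring
    rw [this, Complex.re_ofReal_mul]
    ring
  rw [integral_sq]
  have h1 : ∀ i, ‖cc m a i‖ ^ 2 = ((∑ k ∈ Finset.range m, a k * (((k.choose i : ℕ) : ℝ) : ℂ)) *
      (starRingEnd ℂ) (cc m a i)).re := by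
    intro i
    change ‖cc m a i‖ ^ 2 = (cc m a i * (starRingEnd ℂ) (cc m a i)).re
    rw [Complex.mul_conj, Complex.ofReal_re, Complex.normSq_eq_norm_sq]
  simp only [h1]
  rw [← bil m a (fun k i => (k.choose i : ℝ))]
  apply Finset.sum_congr rfl
  intro k _
  apply Finset.sum_congr rfl
  intro j hj
  rw [vdm k j m (Finset.mem_range.mp hj), add_zero, fact_id, ← hb k j]
  ring

theorem sum_X (m : ℕ) (b : ℕ → ℂ) :
    ∫ s in Set.Ioi (0:ℝ), s ^ 1 * ‖∑ k ∈ Finset.range m, b k * (s : ℂ) ^ k‖ ^ 2 *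
        Real.exp (-s) =
      ∑ i ∈ Finset.range m, (((2 * i + 1 : ℝ) : ℂ) * cc m (fun k => b k * ((k.factorial : ℝ) : ℂ)) i
        * (starRingEnd ℂ) (cc m (fun k => b k * ((k.factorial : ℝ) : ℂ)) i) +
        ((i : ℝ) : ℂ) * cc m (fun k => b k * ((k.factorial : ℝ) : ℂ)) (i - 1)
        * (starRingEnd ℂ) (cc m (fun k => b k * ((k.factorial : ℝ) : ℂ)) i) +
        ((i + 1 : ℝ) : ℂ) * cc m (fun k => b k * ((k.factorial : ℝ) : ℂ)) (i + 1)
        * (starRingEnd ℂ) (cc m (fun k => b k * ((k.factorial : ℝ) : ℂ)) i)).re := by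
  set a : ℕ → ℂ := fun k => b k * ((k.factorial : ℝ) : ℂ) with ha
  have hb : ∀ k j, (b k * (starRingEnd ℂ) (b j)).re * ((k.factorial : ℝ) * j.factorial) =
      (a k * (starRingEnd ℂ) (a j)).re := by
    intro k j
    rw [ha]
    simp only
    rw [map_mul, Complex.conj_ofReal]
    have : b k * ((k.factorial : ℝ) : ℂ) * ((starRingEnd ℂ) (b j) * ((j.factorial : ℝ) : ℂ)) =
        (((k.factorial : ℝ) * j.factorial : ℝ) : ℂ) * (b k * (starRingEnd ℂ) (b j)) := by
      push_cast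
      ring
    rw [this, Complex.re_ofReal_mul]
    ring
  rw [integral_sq]
  have h1 : ∀ i : ℕ, ((2 * i + 1 : ℝ) : ℂ) * cc m a i * (starRingEnd ℂ) (cc m a i) +
        ((i : ℝ) : ℂ) * cc m a (i - 1) * (starRingEnd ℂ) (cc m a i) +
        ((i + 1 : ℝ) : ℂ) * cc m a (i + 1) * (starRingEnd ℂ) (cc m a i) =
      (∑ k ∈ Finset.range m, a k * ((((k : ℝ) + 1) * ((k + 1).choose i : ℝ) : ℝ) : ℂ)) *
      (starRingEnd ℂ) (cc m a i) := by
    intro i
    rw [← add_mul, ← add_mul]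
    congr 1
    unfold cc
    rw [Finset.mul_sum, Finset.mul_sum, Finset.mul_sum, ← Finset.sum_add_distrib,
      ← Finset.sum_add_distrib]
    apply Finset.sum_congr rfl
    intro k _
    rw [rec_id]
    push_cast
    ring
  simp only [h1]
  rw [← bil m a (fun k i => ((k : ℝ) + 1) * ((k + 1).choose i : ℝ))]
  apply Finset.sum_congr rfl
  intro k _
  apply Finset.sum_congr rfl
  intro j hj
  have h2 : ∑ i ∈ Finset.range m, ((k : ℝ) + 1) * ((k + 1).choose i : ℝ) * (j.choose i : ℝ) =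
      ((k : ℝ) + 1) * ((k + 1 + j).choose j : ℝ) := by
    rw [← vdm (k + 1) j m (Finset.mem_range.mp hj), Finset.mul_sum]
    apply Finset.sum_congr rfl
    intro i _
    ring
  rw [h2, show k + j + 1 = (k + 1) + j by ring, fact_id, ← hb k j, Nat.factorial_succ]
  push_cast
  ring

/-- the final estimate -/
theorem final (m : ℕ) (c : ℕ → ℂ) (hc : c m = 0) :
    ∑ i ∈ Finset.range m, (((2 * i + 1 : ℝ) : ℂ) * c i * (starRingEnd ℂ) (c i) +
        ((i : ℝ) : ℂ) * c (i - 1) * (starRingEnd ℂ) (c i) +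
        ((i + 1 : ℝ) : ℂ) * c (i + 1) * (starRingEnd ℂ) (c i)).re ≤
      4 * m * ∑ i ∈ Finset.range m, ‖c i‖ ^ 2 := by
  have key : ∀ (z w : ℂ), (z * (starRingEnd ℂ) w).re ≤ (‖z‖ ^ 2 + ‖w‖ ^ 2) / 2 := by
    intro z w
    have h1 : (z * (starRingEnd ℂ) w).re ≤ ‖z * (starRingEnd ℂ) w‖ := Complex.re_le_norm _
    rw [norm_mul, RCLike.norm_conj] at h1
    nlinarith [sq_nonneg (‖z‖ - ‖w‖)]
  have hterm : ∀ i ∈ Finset.range m, (((2 * i + 1 : ℝ) : ℂ) * c i * (starRingEnd ℂ) (c i) +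
        ((i : ℝ) : ℂ) * c (i - 1) * (starRingEnd ℂ) (c i) +
        ((i + 1 : ℝ) : ℂ) * c (i + 1) * (starRingEnd ℂ) (c i)).re ≤
      (2 * i + 1) * ‖c i‖ ^ 2 + i * ((‖c (i - 1)‖ ^ 2 + ‖c i‖ ^ 2) / 2) +
        (i + 1) * ((‖c (i + 1)‖ ^ 2 + ‖c i‖ ^ 2) / 2) := by
    intro i _
    rw [Complex.add_re, Complex.add_re, mul_assoc, mul_assoc, mul_assoc, Complex.re_ofReal_mul,
      Complex.re_ofReal_mul, Complex.re_ofReal_mul]
    have e1 : (c i * (starRingEnd ℂ) (c i)).re = ‖c i‖ ^ 2 := by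
      rw [Complex.mul_conj, Complex.ofReal_re, Complex.normSq_eq_norm_sq]
    rw [e1]
    have e2 := mul_le_mul_of_nonneg_left (key (c (i - 1)) (c i)) (Nat.cast_nonneg (α := ℝ) i)
    have e3 := mul_le_mul_of_nonneg_left (key (c (i + 1)) (c i))
      (show (0:ℝ) ≤ (i : ℝ) + 1 by positivity)
    linarith
  refine (Finset.sum_le_sum hterm).trans ?_
  have s1 : ∑ i ∈ Finset.range m, (i : ℝ) * ‖c (i - 1)‖ ^ 2 ≤
      ∑ i ∈ Finset.range m, ((i : ℝ) + 1) * ‖c i‖ ^ 2 := by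
    rcases Nat.eq_zero_or_pos m with h | h
    · subst h; simp
    · obtain ⟨n, rfl⟩ : ∃ n, m = n + 1 := ⟨m - 1, by omega⟩
      rw [Finset.sum_range_succ', Finset.sum_range_succ (fun i => ((i : ℝ) + 1) * ‖c i‖ ^ 2)]
      simp only [Nat.add_sub_cancel]
      push_cast
      have : (0:ℝ) ≤ ((n : ℝ) + 1) * ‖c n‖ ^ 2 := by positivity
      linarith
  have s2 : ∑ i ∈ Finset.range m, ((i : ℝ) + 1) * ‖c (i + 1)‖ ^ 2 =
      ∑ i ∈ Finset.range m, (i : ℝ) * ‖c i‖ ^ 2 := by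
    have h1 := Finset.sum_range_succ' (fun i => (i : ℝ) * ‖c i‖ ^ 2) m
    have h2 := Finset.sum_range_succ (fun i => (i : ℝ) * ‖c i‖ ^ 2) m
    rw [h1, hc] at h2
    push_cast at h2
    simp at h2
    linarith
  have s3 : ∑ i ∈ Finset.range m, ((2 * i + 1) * ‖c i‖ ^ 2 +
      i * ((‖c (i - 1)‖ ^ 2 + ‖c i‖ ^ 2) / 2) +
        (i + 1) * ((‖c (i + 1)‖ ^ 2 + ‖c i‖ ^ 2) / 2)) =
      ∑ i ∈ Finset.range m, ((2 * i + 1) * ‖c i‖ ^ 2 + i * ‖c i‖ ^ 2 / 2 +
        (i + 1) * ‖c i‖ ^ 2 / 2) + (∑ i ∈ Finset.range m, (i : ℝ) * ‖c (i - 1)‖ ^ 2) / 2 +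
        (∑ i ∈ Finset.range m, ((i : ℝ) + 1) * ‖c (i + 1)‖ ^ 2) / 2 := by
    rw [Finset.sum_div, Finset.sum_div, ← Finset.sum_add_distrib, ← Finset.sum_add_distrib]
    apply Finset.sum_congr rfl
    intro i _
    ring
  rw [s3, s2]
  have s4 : ∑ i ∈ Finset.range m, ((2 * i + 1) * ‖c i‖ ^ 2 + i * ‖c i‖ ^ 2 / 2 +
        (i + 1) * ‖c i‖ ^ 2 / 2) + (∑ i ∈ Finset.range m, ((i : ℝ) + 1) * ‖c i‖ ^ 2) / 2 +
        (∑ i ∈ Finset.range m, (i : ℝ) * ‖c i‖ ^ 2) / 2 =
      ∑ i ∈ Finset.range m, (4 * (i : ℝ) + 2) * ‖c i‖ ^ 2 := by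
    rw [Finset.sum_div, Finset.sum_div, ← Finset.sum_add_distrib, ← Finset.sum_add_distrib]
    apply Finset.sum_congr rfl
    intro i _
    ring
  have s5 : ∑ i ∈ Finset.range m, (4 * (i : ℝ) + 2) * ‖c i‖ ^ 2 ≤
      4 * m * ∑ i ∈ Finset.range m, ‖c i‖ ^ 2 := by
    rw [Finset.mul_sum]
    apply Finset.sum_le_sum
    intro i hi
    have h1 : (i : ℝ) + 1 ≤ m := by exact_mod_cast Finset.mem_range.mp hi
    have h2 : (0:ℝ) ≤ ‖c i‖ ^ 2 := by positivity
    nlinarith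
  linarith

end Lag

/-- Laguerre inequality -/
theorem laguerre (m : ℕ) (p : ℂ[X]) (hp : p.degree < m) :
    ∫ s in Set.Ioi (0:ℝ), s * ‖p.eval (s : ℂ)‖ ^ 2 * Real.exp (-s) ≤
      4 * m * ∫ s in Set.Ioi (0:ℝ), ‖p.eval (s : ℂ)‖ ^ 2 * Real.exp (-s) := by
  have hev : ∀ s : ℝ, p.eval (s : ℂ) = ∑ k ∈ Finset.range m, p.coeff k * (s : ℂ) ^ k := by
    intro s
    rcases eq_or_ne p 0 with h | h
    · subst h; simp
    · exact Polynomial.eval_eq_sum_range' ((Polynomial.natDegree_lt_iff_degree_lt h).mpr hp) _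
  have h1 := Lag.sum_X m p.coeff
  have h0 := Lag.sum_norm m p.coeff
  simp only [pow_one, pow_zero, one_mul] at h0 h1
  simp only [hev]
  rw [h0, h1]
  exact Lag.final m _ (Lag.cc_zero m _ le_rfl)

end Pool.Agent.MP_12ef2a_an
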