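import Mathlib
import Pool.Agent.MP_12ef2a_an.Defs
import Pool.Agent.MP_12ef2a_an.B2
import Pool.Agent.MP_12ef2a_an.D1

set_option autoImplicit false

open MeasureTheory Polynomial

namespace Pool.Agent.MP_12ef2a_an

/-! stubs -/

/-! ### Poincare step -/

lemma D2_cs (g : ℝ → ℝ) (hg : Continuous g) (a b : ℝ) (hab : a < b) :
    (∫ t in a..b, g t) ^ 2 ≤ (b - a) * ∫ t in a..b, (g t) ^ 2 := by
  set J := ∫ t in a..b, g t with hJ
  set I2 := ∫ t in a..b, (g t) ^ 2 with hI2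
  have hpos : 0 < b - a := sub_pos.mpr hab
  set c := J / (b - a) with hc
  have h1 : 0 ≤ ∫ t in a..b, (g t - c) ^ 2 := by
    apply intervalIntegral.integral_nonneg hab.le
    intro t _
    positivity
  have h2 : ∫ t in a..b, (g t - c) ^ 2 = I2 - 2 * c * J + c ^ 2 * (b - a) := by
    have e1 : ∀ t, (g t - c) ^ 2 = ((g t) ^ 2 - 2 * c * g t) + c ^ 2 := by
      intro t; ring
    simp_rw [e1]
    rw [intervalIntegral.integral_add, intervalIntegral.integral_sub,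
      intervalIntegral.integral_const_mul, intervalIntegral.integral_const]
    · simp only [smul_eq_mul]
      ring
    · exact (hg.pow 2).intervalIntegrable _ _
    · exact (continuous_const.mul hg).intervalIntegrable _ _
    · exact ((hg.pow 2).sub (continuous_const.mul hg)).intervalIntegrable _ _
    · exact continuous_const.intervalIntegrable _ _
  rw [h2] at h1
  have h3 : c * (b - a) = J := by
    rw [hc]; field_simp
  have h4 : J ^ 2 = c * (b - a) * J := by rw [h3]; ring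
  nlinarith [h1, h3, h4, hpos, mul_nonneg hpos.le h1]

lemma D2_diff (u u' : ℝ → ℂ) (hu : ∀ y, HasDerivAt u (u' y) y) (hu' : Continuous u')
    (a b : ℝ) (hab : a < b) :
    ‖u b - u a‖ ^ 2 ≤ (b - a) * ∫ t in a..b, ‖u' t‖ ^ 2 := by
  have h1 : ∫ t in a..b, u' t = u b - u a :=
    intervalIntegral.integral_eq_sub_of_hasDerivAt (fun t _ => hu t) (hu'.intervalIntegrable _ _)
  rw [← h1]
  have h2 : ‖∫ t in a..b, u' t‖ ≤ ∫ t in a..b, ‖u' t‖ :=
    intervalIntegral.norm_integral_le_integral_norm hab.le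
  calc ‖∫ t in a..b, u' t‖ ^ 2 ≤ (∫ t in a..b, ‖u' t‖) ^ 2 := by gcongr
    _ ≤ _ := D2_cs _ hu'.norm a b hab

lemma D2_poincare (u u' : ℝ → ℂ) (hu : ∀ y, HasDerivAt u (u' y) y) (hu' : Continuous u')
    (a δ : ℝ) (hδ : 0 < δ) :
    (∫ y in a..(a + δ), ‖u y‖ ^ 2) ≤ 2 * (∫ y in (a + δ)..(a + 2 * δ), ‖u y‖ ^ 2)
      + 2 * δ ^ 2 * ∫ y in a..(a + 2 * δ), ‖u' y‖ ^ 2 ∧
    (∫ y in (a + δ)..(a + 2 * δ), ‖u y‖ ^ 2) ≤ 2 * (∫ y in a..(a + δ), ‖u y‖ ^ 2)
      + 2 * δ ^ 2 * ∫ y in a..(a + 2 * δ), ‖u' y‖ ^ 2 := by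
  have hc : Continuous u := continuous_iff_continuousAt.mpr (fun y => (hu y).continuousAt)
  set I := ∫ y in a..(a + 2 * δ), ‖u' y‖ ^ 2 with hI
  have hshift : ∫ y in (a + δ)..(a + 2 * δ), ‖u y‖ ^ 2 = ∫ y in a..(a + δ), ‖u (y + δ)‖ ^ 2 := by
    rw [intervalIntegral.integral_comp_add_right (fun y => ‖u y‖ ^ 2) δ]
    congr 1
    ring
  have hI0 : ∀ y ∈ Set.Icc a (a + δ), ‖u (y + δ) - u y‖ ^ 2 ≤ δ * I := by
    intro y hy
    have h1 := D2_diff u u' hu hu' y (y + δ) (by linarith)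
    have h2 : ∫ t in y..(y + δ), ‖u' t‖ ^ 2 ≤ I := by
      apply intervalIntegral.integral_mono_interval hy.1 (by linarith) (by linarith [hy.2])
      · exact Filter.Eventually.of_forall (fun t => by positivity)
      · exact (hu'.norm.pow 2).intervalIntegrable _ _
    calc ‖u (y + δ) - u y‖ ^ 2 ≤ (y + δ - y) * ∫ t in y..(y + δ), ‖u' t‖ ^ 2 := h1
      _ = δ * ∫ t in y..(y + δ), ‖u' t‖ ^ 2 := by ring
      _ ≤ δ * I := by gcongr
  have key : ∀ x z : ℂ, ‖x‖ ^ 2 ≤ 2 * ‖z‖ ^ 2 + 2 * ‖z - x‖ ^ 2 := by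
    intro x z
    have h1 : ‖x‖ ≤ ‖z‖ + ‖z - x‖ := by
      have : x = z - (z - x) := by ring
      calc ‖x‖ = ‖z - (z - x)‖ := by rw [← this]
        _ ≤ ‖z‖ + ‖z - x‖ := norm_sub_le _ _
    have h2 : ‖x‖ ^ 2 ≤ (‖z‖ + ‖z - x‖) ^ 2 := by gcongr
    nlinarith [sq_nonneg (‖z‖ - ‖z - x‖)]
  have hcs : Continuous (fun y => u (y + δ)) := hc.comp (continuous_id.add continuous_const)
  constructor
  · rw [hshift]
    have h1 : ∫ y in a..(a + δ), ‖u y‖ ^ 2 ≤
        ∫ y in a..(a + δ), (2 * ‖u (y + δ)‖ ^ 2 + 2 * (δ * I)) := by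
      apply intervalIntegral.integral_mono_on (by linarith)
      · exact (hc.norm.pow 2).intervalIntegrable _ _
      · exact ((continuous_const.mul (hcs.norm.pow 2)).add continuous_const).intervalIntegrable _ _
      · intro y hy
        have := hI0 y hy
        have := key (u y) (u (y + δ))
        linarith
    rw [intervalIntegral.integral_add, intervalIntegral.integral_const_mul,
      intervalIntegral.integral_const] at h1
    · simp only [smul_eq_mul] at h1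
      calc _ ≤ _ := h1
        _ = _ := by ring
    · exact (continuous_const.mul (hcs.norm.pow 2)).intervalIntegrable _ _
    · exact continuous_const.intervalIntegrable _ _
  · rw [hshift]
    have h1 : ∫ y in a..(a + δ), ‖u (y + δ)‖ ^ 2 ≤
        ∫ y in a..(a + δ), (2 * ‖u y‖ ^ 2 + 2 * (δ * I)) := by
      apply intervalIntegral.integral_mono_on (by linarith)
      · exact (hcs.norm.pow 2).intervalIntegrable _ _
      · exact ((continuous_const.mul (hc.norm.pow 2)).add continuous_const).intervalIntegrable _ _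
      · intro y hy
        have := hI0 y hy
        have := key (u (y + δ)) (u y)
        rw [norm_sub_rev (u y)] at this
        linarith
    rw [intervalIntegral.integral_add, intervalIntegral.integral_const_mul,
      intervalIntegral.integral_const] at h1
    · simp only [smul_eq_mul] at h1
      calc _ ≤ _ := h1
        _ = _ := by ring
    · exact (continuous_const.mul (hc.norm.pow 2)).intervalIntegrable _ _
    · exact continuous_const.intervalIntegrable _ _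

/-! ### the functions -/

lemma D2_cont (l : ℂ) (p : ℂ[X]) : Continuous (ep l p) := by
  unfold ep
  fun_prop

lemma D2_deriv (l : ℂ) (p : ℂ[X]) (y : ℝ) :
    HasDerivAt (ep l p) (ep l (derivative p + C (Complex.I * l) * p) y) y := by
  have h1 : HasDerivAt (fun z : ℂ => Complex.exp (Complex.I * l * z) * p.eval z)
      (Complex.exp (Complex.I * l * y) * (Complex.I * l) * p.eval (y : ℂ)
        + Complex.exp (Complex.I * l * y) * (derivative p).eval (y : ℂ)) (y : ℂ) := by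
    have e1 : HasDerivAt (fun z : ℂ => Complex.exp (Complex.I * l * z))
        (Complex.exp (Complex.I * l * y) * (Complex.I * l)) (y : ℂ) := by
      have := ((hasDerivAt_id (y : ℂ)).const_mul (Complex.I * l)).cexp
      simpa using this
    have e2 := p.hasDerivAt (y : ℂ)
    exact e1.mul e2
  have h2 := h1.comp_ofReal
  have e3 : ep l (derivative p + C (Complex.I * l) * p) y =
      Complex.exp (Complex.I * l * y) * (Complex.I * l) * p.eval (y : ℂ)
        + Complex.exp (Complex.I * l * y) * (derivative p).eval (y : ℂ) := by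
    unfold ep
    rw [eval_add, eval_mul, eval_C]
    ring
  rw [e3]
  exact h2

lemma D2_norm (l : ℂ) (p : ℂ[X]) (y : ℝ) :
    ‖ep l p y‖ = Real.exp (-(l.im * y)) * ‖p.eval (y : ℂ)‖ := by
  unfold ep
  rw [norm_mul, Complex.norm_exp]
  congr 2
  simp [Complex.mul_re, Complex.mul_im]

/-! ### Taylor polynomials of the exponential -/

lemma D2_exp_tail (x r : ℝ) (hx : 0 ≤ x) (hr : 1 ≤ r) (n : ℕ) :
    r ^ n * (Real.exp x - ∑ m ∈ Finset.range n, x ^ m / (m.factorial : ℝ)) ≤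
      Real.exp (r * x) := by
  have h1 : HasSum (fun m : ℕ => x ^ m / (m.factorial : ℝ)) (Real.exp x) := by
    have := NormedSpace.expSeries_div_hasSum_exp x
    rwa [← Real.exp_eq_exp_ℝ] at this
  have h2 : HasSum (fun m : ℕ => (r * x) ^ m / (m.factorial : ℝ)) (Real.exp (r * x)) := by
    have := NormedSpace.expSeries_div_hasSum_exp (r * x)
    rwa [← Real.exp_eq_exp_ℝ] at this
  have h3 : HasSum (fun m : ℕ => x ^ (m + n) / ((m + n).factorial : ℝ))
      (Real.exp x - ∑ m ∈ Finset.range n, x ^ m / (m.factorial : ℝ)) := by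
    exact (hasSum_nat_add_iff' (f := fun m : ℕ => x ^ m / (m.factorial : ℝ)) n).mpr h1
  have h4 : HasSum (fun m : ℕ => (r * x) ^ (m + n) / ((m + n).factorial : ℝ))
      (Real.exp (r * x) - ∑ m ∈ Finset.range n, (r * x) ^ m / (m.factorial : ℝ)) := by
    exact (hasSum_nat_add_iff' (f := fun m : ℕ => (r * x) ^ m / (m.factorial : ℝ)) n).mpr h2
  have h5 := hasSum_le (fun m => ?_) (h3.mul_left (r ^ n)) h4
  · have h6 : 0 ≤ ∑ m ∈ Finset.range n, (r * x) ^ m / (m.factorial : ℝ) := by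
      apply Finset.sum_nonneg
      intro i _
      positivity
    linarith
  · rw [mul_pow, ← mul_div_assoc]
    gcongr
    exact le_add_of_nonneg_left (Nat.zero_le m)

lemma D2_taylor (x : ℝ) (hx : 0 ≤ x) (N : ℕ) (hN : 5 * x + 1 ≤ N) :
    |∑ k ∈ Finset.range N, (-x) ^ k / (k.factorial : ℝ) - Real.exp (-x)| ≤
      1 / 2 * Real.exp (-x) := by
  have h1 : |Real.exp (-x) - ∑ k ∈ Finset.range N, (-x) ^ k / (k.factorial : ℝ)| ≤
      Real.exp x - ∑ k ∈ Finset.range N, x ^ k / (k.factorial : ℝ) := by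
    have := Complex.norm_exp_sub_sum_le_exp_norm_sub_sum ((-x : ℝ) : ℂ) N
    have e1 : Complex.exp ((-x : ℝ) : ℂ) -
        ∑ m ∈ Finset.range N, ((-x : ℝ) : ℂ) ^ m / (m.factorial : ℂ) =
        ((Real.exp (-x) - ∑ k ∈ Finset.range N, (-x) ^ k / (k.factorial : ℝ) : ℝ) : ℂ) := by
      push_cast
      rfl
    rw [e1, Complex.norm_real, Complex.norm_real, Real.norm_eq_abs, Real.norm_eq_abs, abs_neg,
      abs_of_nonneg hx] at this
    exact this
  rw [abs_sub_comm]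
  refine h1.trans ?_
  have h2 := D2_exp_tail x 4 hx (by norm_num) N
  have he4 : Real.exp 1 ≤ 4 := by
    have := Real.exp_one_lt_d9
    linarith
  have he2 : 2 ≤ Real.exp 1 := by
    have := Real.exp_one_gt_d9
    linarith
  have h3 : 2 * Real.exp (5 * x) ≤ 4 ^ N := by
    calc 2 * Real.exp (5 * x) ≤ Real.exp 1 * Real.exp (5 * x) := by gcongr
      _ = Real.exp (5 * x + 1) := by rw [← Real.exp_add]; ring_nf
      _ ≤ Real.exp N := Real.exp_le_exp.mpr hN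
      _ = Real.exp 1 ^ N := by rw [← Real.exp_nat_mul]; ring_nf
      _ ≤ 4 ^ N := by gcongr
  have h4 : Real.exp (4 * x) = Real.exp (5 * x) * Real.exp (-x) := by
    rw [← Real.exp_add]; ring_nf
  set Rn := Real.exp x - ∑ k ∈ Finset.range N, x ^ k / (k.factorial : ℝ) with hRn
  have hpos : (0:ℝ) < 4 ^ N := by positivity
  have h5 : 4 ^ N * Rn ≤ 4 ^ N * (1 / 2 * Real.exp (-x)) := by
    calc 4 ^ N * Rn ≤ Real.exp (4 * x) := h2
      _ = Real.exp (5 * x) * Real.exp (-x) := h4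
      _ = (2 * Real.exp (5 * x)) * (1 / 2 * Real.exp (-x)) := by ring
      _ ≤ 4 ^ N * (1 / 2 * Real.exp (-x)) := by gcongr
  exact le_of_mul_le_mul_left h5 hpos

/-- Taylor polynomial of `exp (-η y)` -/
noncomputable def D2_TP (η : ℝ) (N : ℕ) : ℂ[X] :=
  ∑ k ∈ Finset.range N, C ((((-η) ^ k / (k.factorial : ℝ) : ℝ)) : ℂ) * X ^ k

lemma D2_TP_eval (η : ℝ) (N : ℕ) (y : ℝ) :
    (D2_TP η N).eval (y : ℂ) =
      ((∑ k ∈ Finset.range N, (-(η * y)) ^ k / (k.factorial : ℝ) : ℝ) : ℂ) := by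
  unfold D2_TP
  rw [eval_finsetSum]
  push_cast
  apply Finset.sum_congr rfl
  intro k _
  rw [eval_mul, eval_C, eval_pow, eval_X]
  have : (-((η : ℂ) * y)) ^ k = (-(η : ℂ)) ^ k * (y : ℂ) ^ k := by
    rw [← mul_pow]; ring
  rw [this]
  ring

lemma D2_TP_natDegree (η : ℝ) (N : ℕ) : (D2_TP η (N + 1)).natDegree ≤ N := by
  unfold D2_TP
  apply natDegree_sum_le_of_forall_le
  intro k hk
  refine (natDegree_C_mul_X_pow_le _ _).trans ?_
  have := Finset.mem_range.mp hk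
  omega

lemma D2_TP_deriv (η : ℝ) (N : ℕ) :
    derivative (D2_TP η (N + 1)) = C (-(η : ℂ)) * D2_TP η N := by
  unfold D2_TP
  rw [derivative_sum, Finset.sum_range_succ', Finset.mul_sum]
  have h0 : derivative (C ((((-η) ^ 0 / (Nat.factorial 0 : ℝ) : ℝ)) : ℂ) * (X : ℂ[X]) ^ 0) = 0 := by
    simp
  rw [h0, add_zero]
  apply Finset.sum_congr rfl
  intro k _
  rw [derivative_C_mul_X_pow, ← mul_assoc, ← C_mul]
  simp only [Nat.add_sub_cancel]
  congr 2
  push_cast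
  rw [Nat.factorial_succ]
  have h1 : ((k : ℂ) + 1) ≠ 0 := by exact_mod_cast Nat.succ_ne_zero k
  have h2 : ((k.factorial : ℂ)) ≠ 0 := by exact_mod_cast Nat.factorial_ne_zero k
  push_cast
  field_simp
  ring

lemma D2_deg_mul (p q : ℂ[X]) (N m : ℕ) (hq : q.natDegree ≤ N) (hp : p.degree < m) :
    (q * p).degree < ((N + m : ℕ) : WithBot ℕ) := by
  by_cases hp0 : p = 0
  · subst hp0
    rw [mul_zero, degree_zero]
    exact WithBot.bot_lt_coe _
  · have h1 : p.natDegree < m := (natDegree_lt_iff_degree_lt hp0).mpr hp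
    refine degree_le_natDegree.trans_lt ?_
    have h2 := natDegree_mul_le (p := q) (q := p)
    exact_mod_cast (by omega : (q * p).natDegree < N + m)

lemma D2_wt_le (y : ℝ) : wt y ≤ 1 := by
  unfold wt
  nlinarith [sq_nonneg (y - 1)]

lemma D2_wt_nonneg (y : ℝ) (h0 : 0 ≤ y) (h2 : y ≤ 2) : 0 ≤ wt y := by
  unfold wt
  nlinarith

lemma D2_wt_cont : Continuous wt := by
  unfold wt
  fun_prop

lemma D2_eval_cont (p : ℂ[X]) : Continuous (fun y : ℝ => p.eval (y : ℂ)) := by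
  fun_prop

/-- weighted Bernstein -/
lemma D2_B (η : ℝ) (hη : 0 ≤ η) (N m : ℕ) (hN : 10 * η + 1 ≤ N) (p : ℂ[X]) (hp : p.degree < m) :
    ∫ y in (0:ℝ)..2, wt y * (Real.exp (-(η * y)) ^ 2 * ‖(derivative p).eval (y : ℂ)‖ ^ 2) ≤
      18 * (((N : ℝ) + m) ^ 2 + η ^ 2) *
        ∫ y in (0:ℝ)..2, Real.exp (-(η * y)) ^ 2 * ‖p.eval (y : ℂ)‖ ^ 2 := by
  set A := ∫ y in (0:ℝ)..2, Real.exp (-(η * y)) ^ 2 * ‖p.eval (y : ℂ)‖ ^ 2 with hA
  set T := D2_TP η (N + 1) with hT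
  have hb := bern (N + m) (T * p) (D2_deg_mul p T N m (D2_TP_natDegree η N) hp)
  have hpc := D2_eval_cont p
  have hdc := D2_eval_cont (derivative p)
  have hTc := D2_eval_cont (T * p)
  have hTdc := D2_eval_cont (derivative (T * p))
  have hec : Continuous (fun y : ℝ => Real.exp (-(η * y))) := by fun_prop
  have hwc := D2_wt_cont
  -- bounds for the Taylor polynomials
  have ht : ∀ y ∈ Set.Icc (0:ℝ) 2, ∀ n : ℕ, N ≤ n →
      |∑ k ∈ Finset.range n, (-(η * y)) ^ k / (k.factorial : ℝ) - Real.exp (-(η * y))| ≤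
        1 / 2 * Real.exp (-(η * y)) := by
    intro y hy n hn
    apply D2_taylor (η * y) (mul_nonneg hη hy.1)
    have h1 : η * y ≤ η * 2 := mul_le_mul_of_nonneg_left hy.2 hη
    have h2 : (N : ℝ) ≤ n := by exact_mod_cast hn
    linarith
  -- norm of T p
  have h1 : ∫ y in (0:ℝ)..2, ‖(T * p).eval (y : ℂ)‖ ^ 2 ≤ 9 / 4 * A := by
    rw [hA, ← intervalIntegral.integral_const_mul]
    apply intervalIntegral.integral_mono_on (by norm_num)
    · exact (hTc.norm.pow 2).intervalIntegrable _ _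
    · exact (continuous_const.mul ((hec.pow 2).mul (hpc.norm.pow 2))).intervalIntegrable _ _
    · intro y hy
      have h := ht y hy (N + 1) (by omega)
      rw [eval_mul, norm_mul, hT, D2_TP_eval, Complex.norm_real, Real.norm_eq_abs]
      set t := ∑ k ∈ Finset.range (N + 1), (-(η * y)) ^ k / (k.factorial : ℝ) with ht'
      set e := Real.exp (-(η * y)) with he
      have he0 : 0 < e := Real.exp_pos _
      have h3 : |t| ≤ 3 / 2 * e := by
        have := abs_le.mp h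
        rw [abs_le]
        constructor <;> linarith [this.1, this.2]
      calc (|t| * ‖p.eval (y : ℂ)‖) ^ 2 ≤ (3 / 2 * e * ‖p.eval (y : ℂ)‖) ^ 2 := by gcongr
        _ = _ := by ring
  -- main pointwise inequality
  have h2 : ∀ y ∈ Set.Icc (0:ℝ) 2,
      wt y * (Real.exp (-(η * y)) ^ 2 * ‖(derivative p).eval (y : ℂ)‖ ^ 2) ≤
      8 * (wt y * ‖(derivative (T * p)).eval (y : ℂ)‖ ^ 2) +
        18 * η ^ 2 * (Real.exp (-(η * y)) ^ 2 * ‖p.eval (y : ℂ)‖ ^ 2) := by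
    intro y hy
    have hw0 := D2_wt_nonneg y hy.1 hy.2
    have hw1 := D2_wt_le y
    have hh1 := ht y hy (N + 1) (by omega)
    have hh0 := ht y hy N le_rfl
    have hder : (derivative (T * p)).eval (y : ℂ) =
        -(η : ℂ) * (D2_TP η N).eval (y : ℂ) * p.eval (y : ℂ) +
          (D2_TP η (N + 1)).eval (y : ℂ) * (derivative p).eval (y : ℂ) := by
      rw [derivative_mul, hT, D2_TP_deriv, eval_add, eval_mul, eval_mul, eval_mul, eval_C]
    rw [hder, D2_TP_eval, D2_TP_eval]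
    set t1 := ∑ k ∈ Finset.range (N + 1), (-(η * y)) ^ k / (k.factorial : ℝ) with ht1
    set t0 := ∑ k ∈ Finset.range N, (-(η * y)) ^ k / (k.factorial : ℝ) with ht0
    set e := Real.exp (-(η * y)) with he
    set a := p.eval (y : ℂ) with ha
    set b := (derivative p).eval (y : ℂ) with hb'
    have he0 : 0 < e := Real.exp_pos _
    have h3 : e / 2 ≤ t1 := by
      have := abs_le.mp hh1
      linarith [this.1]
    have h4 : |t0| ≤ 3 / 2 * e := by
      have := abs_le.mp hh0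
      rw [abs_le]
      constructor <;> linarith [this.1, this.2]
    have h5 : ‖(t1 : ℂ) * b‖ ≤ ‖-(η : ℂ) * (t0 : ℂ) * a + (t1 : ℂ) * b‖ + η * |t0| * ‖a‖ := by
      have e1 : (t1 : ℂ) * b = (-(η : ℂ) * (t0 : ℂ) * a + (t1 : ℂ) * b) + (η : ℂ) * (t0 : ℂ) * a := by
        ring
      calc ‖(t1 : ℂ) * b‖ = ‖(-(η : ℂ) * (t0 : ℂ) * a + (t1 : ℂ) * b) + (η : ℂ) * (t0 : ℂ) * a‖ := by
            rw [← e1]
        _ ≤ _ := norm_add_le _ _
        _ = _ := by
            rw [norm_mul ((η : ℂ) * (t0 : ℂ)) a, norm_mul (η : ℂ) (t0 : ℂ), Complex.norm_real,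
              Complex.norm_real, Real.norm_eq_abs, Real.norm_eq_abs, abs_of_nonneg hη]
    set D := ‖-(η : ℂ) * (t0 : ℂ) * a + (t1 : ℂ) * b‖ with hD
    have hD0 : 0 ≤ D := norm_nonneg _
    have h6 : e / 2 * ‖b‖ ≤ ‖(t1 : ℂ) * b‖ := by
      rw [norm_mul, Complex.norm_real, Real.norm_eq_abs]
      gcongr
      exact h3.trans (le_abs_self _)
    have h7 : e / 2 * ‖b‖ ≤ D + 3 / 2 * (η * e * ‖a‖) := by
      have : η * |t0| * ‖a‖ ≤ η * (3 / 2 * e) * ‖a‖ := by gcongr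
      calc e / 2 * ‖b‖ ≤ D + η * |t0| * ‖a‖ := h6.trans h5
        _ ≤ D + η * (3 / 2 * e) * ‖a‖ := by linarith
        _ = _ := by ring
    have h8 : (e / 2 * ‖b‖) ^ 2 ≤ 2 * D ^ 2 + 9 / 2 * (η * e * ‖a‖) ^ 2 := by
      have h9 : (e / 2 * ‖b‖) ^ 2 ≤ (D + 3 / 2 * (η * e * ‖a‖)) ^ 2 := by
        have : 0 ≤ e / 2 * ‖b‖ := by positivity
        gcongr
      nlinarith [sq_nonneg (D - 3 / 2 * (η * e * ‖a‖))]
    have h10 : e ^ 2 * ‖b‖ ^ 2 ≤ 8 * D ^ 2 + 18 * (η ^ 2 * (e ^ 2 * ‖a‖ ^ 2)) := by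
      have e1 : (e / 2 * ‖b‖) ^ 2 = 1 / 4 * (e ^ 2 * ‖b‖ ^ 2) := by ring
      have e2 : (η * e * ‖a‖) ^ 2 = η ^ 2 * (e ^ 2 * ‖a‖ ^ 2) := by ring
      rw [e1, e2] at h8
      linarith
    have h11 : wt y * (e ^ 2 * ‖b‖ ^ 2) ≤
        wt y * (8 * D ^ 2 + 18 * (η ^ 2 * (e ^ 2 * ‖a‖ ^ 2))) :=
      mul_le_mul_of_nonneg_left h10 hw0
    have h12 : wt y * (18 * (η ^ 2 * (e ^ 2 * ‖a‖ ^ 2))) ≤
        1 * (18 * (η ^ 2 * (e ^ 2 * ‖a‖ ^ 2))) :=
      mul_le_mul_of_nonneg_right hw1 (by positivity)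
    calc wt y * (e ^ 2 * ‖b‖ ^ 2) ≤ _ := h11
      _ = 8 * (wt y * D ^ 2) + wt y * (18 * (η ^ 2 * (e ^ 2 * ‖a‖ ^ 2))) := by ring
      _ ≤ _ := by linarith
  have h3 : ∫ y in (0:ℝ)..2, wt y * (Real.exp (-(η * y)) ^ 2 * ‖(derivative p).eval (y : ℂ)‖ ^ 2) ≤
      ∫ y in (0:ℝ)..2, (8 * (wt y * ‖(derivative (T * p)).eval (y : ℂ)‖ ^ 2) +
        18 * η ^ 2 * (Real.exp (-(η * y)) ^ 2 * ‖p.eval (y : ℂ)‖ ^ 2)) := by
    apply intervalIntegral.integral_mono_on (by norm_num)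
    · exact (hwc.mul ((hec.pow 2).mul (hdc.norm.pow 2))).intervalIntegrable _ _
    · exact ((continuous_const.mul (hwc.mul (hTdc.norm.pow 2))).add
        (continuous_const.mul ((hec.pow 2).mul (hpc.norm.pow 2)))).intervalIntegrable _ _
    · exact h2
  rw [intervalIntegral.integral_add, intervalIntegral.integral_const_mul,
    intervalIntegral.integral_const_mul] at h3
  · refine h3.trans ?_
    rw [← hA]
    push_cast at hb
    have hsq : (0:ℝ) ≤ ((N : ℝ) + m) ^ 2 := by positivity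
    have h5 := mul_le_mul_of_nonneg_left h1 hsq
    nlinarith [hb, h5]
  · exact (continuous_const.mul (hwc.mul (hTdc.norm.pow 2))).intervalIntegrable _ _
  · exact (continuous_const.mul ((hec.pow 2).mul (hpc.norm.pow 2))).intervalIntegrable _ _

/-- both ends -/
lemma D2_ends (u u' : ℝ → ℂ) (hu : ∀ y, HasDerivAt u (u' y) y) (hu' : Continuous u')
    (δ : ℝ) (hδ : 0 < δ) (hδ1 : 2 * δ ≤ 1)
    (hW : ∫ y in (0:ℝ)..2, wt y * ‖u y‖ ^ 2 ≤ δ / 4 * ∫ y in (0:ℝ)..2, ‖u y‖ ^ 2) :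
    ∫ y in (0:ℝ)..2, ‖u y‖ ^ 2 ≤ 8 * δ ^ 2 * ∫ y in (0:ℝ)..2, ‖u' y‖ ^ 2 := by
  have hc : Continuous u := continuous_iff_continuousAt.mpr (fun y => (hu y).continuousAt)
  have hi : ∀ a b : ℝ, IntervalIntegrable (fun y => ‖u y‖ ^ 2) volume a b :=
    fun a b => (hc.norm.pow 2).intervalIntegrable _ _
  have hi' : ∀ a b : ℝ, IntervalIntegrable (fun y => ‖u' y‖ ^ 2) volume a b :=
    fun a b => (hu'.norm.pow 2).intervalIntegrable _ _
  have hiw : ∀ a b : ℝ, IntervalIntegrable (fun y => wt y * ‖u y‖ ^ 2) volume a b :=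
    fun a b => (D2_wt_cont.mul (hc.norm.pow 2)).intervalIntegrable _ _
  set A := ∫ y in (0:ℝ)..2, ‖u y‖ ^ 2 with hA
  set I := ∫ y in (0:ℝ)..2, ‖u' y‖ ^ 2 with hI
  have hnn : ∀ a b : ℝ, a ≤ b → 0 ≤ ∫ y in a..b, ‖u y‖ ^ 2 := fun a b hab =>
    intervalIntegral.integral_nonneg hab (fun y _ => by positivity)
  have hnn' : ∀ a b : ℝ, a ≤ b → 0 ≤ ∫ y in a..b, ‖u' y‖ ^ 2 := fun a b hab =>
    intervalIntegral.integral_nonneg hab (fun y _ => by positivity)
  have hP1 := (D2_poincare u u' hu hu' 0 δ hδ).1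
  have hP2 := (D2_poincare u u' hu hu' (2 - 2 * δ) δ hδ).2
  have e1 : (2:ℝ) - 2 * δ + δ = 2 - δ := by ring
  have e2 : (2:ℝ) - 2 * δ + 2 * δ = 2 := by ring
  rw [e1, e2] at hP2
  rw [zero_add, zero_add] at hP1
  -- splitting
  have s1 : (∫ y in (0:ℝ)..δ, ‖u y‖ ^ 2) + (∫ y in δ..(2 - δ), ‖u y‖ ^ 2) +
      (∫ y in (2 - δ)..2, ‖u y‖ ^ 2) = A := by
    rw [intervalIntegral.integral_add_adjacent_intervals (hi _ _) (hi _ _),
      intervalIntegral.integral_add_adjacent_intervals (hi _ _) (hi _ _)]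
  have s2 : (∫ y in δ..(2 * δ), ‖u y‖ ^ 2) + (∫ y in (2 * δ)..(2 - 2 * δ), ‖u y‖ ^ 2) +
      (∫ y in (2 - 2 * δ)..(2 - δ), ‖u y‖ ^ 2) = ∫ y in δ..(2 - δ), ‖u y‖ ^ 2 := by
    rw [intervalIntegral.integral_add_adjacent_intervals (hi _ _) (hi _ _),
      intervalIntegral.integral_add_adjacent_intervals (hi _ _) (hi _ _)]
  have s3 : (∫ y in (0:ℝ)..(2 * δ), ‖u' y‖ ^ 2) + (∫ y in (2 * δ)..(2 - 2 * δ), ‖u' y‖ ^ 2) +
      (∫ y in (2 - 2 * δ)..2, ‖u' y‖ ^ 2) = I := by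
    rw [intervalIntegral.integral_add_adjacent_intervals (hi' _ _) (hi' _ _),
      intervalIntegral.integral_add_adjacent_intervals (hi' _ _) (hi' _ _)]
  have s4 : (∫ y in (0:ℝ)..δ, wt y * ‖u y‖ ^ 2) + (∫ y in δ..(2 - δ), wt y * ‖u y‖ ^ 2) +
      (∫ y in (2 - δ)..2, wt y * ‖u y‖ ^ 2) = ∫ y in (0:ℝ)..2, wt y * ‖u y‖ ^ 2 := by
    rw [intervalIntegral.integral_add_adjacent_intervals (hiw _ _) (hiw _ _),
      intervalIntegral.integral_add_adjacent_intervals (hiw _ _) (hiw _ _)]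
  have n1 : 0 ≤ ∫ y in (2 * δ)..(2 - 2 * δ), ‖u y‖ ^ 2 := hnn _ _ (by linarith)
  have n2 : 0 ≤ ∫ y in (2 * δ)..(2 - 2 * δ), ‖u' y‖ ^ 2 := hnn' _ _ (by linarith)
  have n3 : 0 ≤ ∫ y in (0:ℝ)..δ, wt y * ‖u y‖ ^ 2 :=
    intervalIntegral.integral_nonneg hδ.le (fun y hy =>
      mul_nonneg (D2_wt_nonneg y hy.1 (by linarith [hy.2])) (by positivity))
  have n4 : 0 ≤ ∫ y in (2 - δ)..2, wt y * ‖u y‖ ^ 2 :=
    intervalIntegral.integral_nonneg (by linarith) (fun y hy =>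
      mul_nonneg (D2_wt_nonneg y (by linarith [hy.1]) hy.2) (by positivity))
  have m1 : δ * (∫ y in δ..(2 - δ), ‖u y‖ ^ 2) ≤ ∫ y in δ..(2 - δ), wt y * ‖u y‖ ^ 2 := by
    rw [← intervalIntegral.integral_const_mul]
    apply intervalIntegral.integral_mono_on (by linarith)
    · exact (continuous_const.mul (hc.norm.pow 2)).intervalIntegrable _ _
    · exact hiw _ _
    · intro y hy
      have : δ ≤ wt y := by
        unfold wt
        nlinarith [hy.1, hy.2, mul_nonneg (sub_nonneg.mpr hy.1) (sub_nonneg.mpr hy.2)]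
      gcongr
  have m2 : δ * (∫ y in δ..(2 - δ), ‖u y‖ ^ 2) ≤ δ * (1 / 4 * A) := by linarith
  have m3 := le_of_mul_le_mul_left m2 hδ
  have hδ2 : 0 ≤ δ ^ 2 := by positivity
  have m4 : δ ^ 2 * ((∫ y in (0:ℝ)..(2 * δ), ‖u' y‖ ^ 2) + (∫ y in (2 - 2 * δ)..2, ‖u' y‖ ^ 2)) ≤
      δ ^ 2 * I := by
    apply mul_le_mul_of_nonneg_left _ hδ2
    linarith
  nlinarith [m3, m4, hP1, hP2, s1, s2, n1]

/-- cone case -/
lemma D2_cone (L δ : ℝ) (hδ : 0 < δ) (hδ1 : 4 * δ ≤ 1) (hδL : 8 * δ ^ 2 * L ^ 2 ≤ 1)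
    (m N : ℕ) (l : ℂ) (p : ℂ[X]) (hp : p.degree < m) (him : 0 ≤ l.im)
    (hN : 10 * l.im + 1 ≤ N)
    (h1 : 18 * (((N : ℝ) + m) ^ 2 + l.im ^ 2) ≤ δ / 16 * ‖l‖ ^ 2)
    (h2 : L ^ 2 ≤ δ / 16 * ‖l‖ ^ 2) :
    L ^ 2 * nsq (ep l p) ≤ nsq (ep l (derivative p + C (Complex.I * l) * p)) := by
  set p1 := derivative p + C (Complex.I * l) * p with hp1
  have hu := D2_deriv l p
  have hu' := D2_cont l p1
  have hc := D2_cont l p
  set A := nsq (ep l p) with hA
  set I := nsq (ep l p1) with hI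
  have hA0 : 0 ≤ A := intervalIntegral.integral_nonneg (by norm_num) (fun y _ => by positivity)
  have hI0 : 0 ≤ I := intervalIntegral.integral_nonneg (by norm_num) (fun y _ => by positivity)
  by_cases hW : ∫ y in (0:ℝ)..2, wt y * ‖ep l p y‖ ^ 2 ≤ δ / 4 * ∫ y in (0:ℝ)..2, ‖ep l p y‖ ^ 2
  · have h3 := D2_ends (ep l p) (ep l p1) hu hu' δ hδ (by linarith) hW
    have h4 : A ≤ 8 * δ ^ 2 * I := h3
    calc L ^ 2 * A ≤ L ^ 2 * (8 * δ ^ 2 * I) := by gcongr
      _ = (8 * δ ^ 2 * L ^ 2) * I := by ring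
      _ ≤ 1 * I := by gcongr
      _ = I := one_mul _
  · push Not at hW
    have hB := D2_B l.im him N m hN p hp
    have hAe : ∫ y in (0:ℝ)..2, Real.exp (-(l.im * y)) ^ 2 * ‖p.eval (y : ℂ)‖ ^ 2 = A := by
      rw [hA]
      unfold nsq
      congr 1
      funext y
      rw [D2_norm]
      ring
    rw [hAe] at hB
    have hW' : δ / 4 * A < ∫ y in (0:ℝ)..2, wt y * ‖ep l p y‖ ^ 2 := hW
    have hec : Continuous (fun y : ℝ => Real.exp (-(l.im * y))) := by fun_prop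
    have hdc := D2_eval_cont (derivative p)
    have h3 : ∫ y in (0:ℝ)..2, (1 / 2 * ‖l‖ ^ 2 * (wt y * ‖ep l p y‖ ^ 2) -
        wt y * (Real.exp (-(l.im * y)) ^ 2 * ‖(derivative p).eval (y : ℂ)‖ ^ 2)) ≤ I := by
      rw [hI]
      apply intervalIntegral.integral_mono_on (by norm_num)
      · exact ((continuous_const.mul (D2_wt_cont.mul (hc.norm.pow 2))).sub
          (D2_wt_cont.mul ((hec.pow 2).mul (hdc.norm.pow 2)))).intervalIntegrable _ _
      · exact (hu'.norm.pow 2).intervalIntegrable _ _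
      · intro y hy
        have hw0 := D2_wt_nonneg y hy.1 hy.2
        have hw1 := D2_wt_le y
        rw [D2_norm, D2_norm, hp1, eval_add, eval_mul, eval_C]
        set e := Real.exp (-(l.im * y)) with he
        set a := p.eval (y : ℂ) with ha
        set b := (derivative p).eval (y : ℂ) with hb
        have k1 : ‖l‖ * ‖a‖ ≤ ‖b + Complex.I * l * a‖ + ‖b‖ := by
          have e1 : Complex.I * l * a = (b + Complex.I * l * a) - b := by ring
          calc ‖l‖ * ‖a‖ = ‖Complex.I * l * a‖ := by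
                rw [norm_mul, norm_mul, Complex.norm_I, one_mul]
            _ = ‖(b + Complex.I * l * a) - b‖ := by rw [← e1]
            _ ≤ _ := norm_sub_le _ _
        set D := ‖b + Complex.I * l * a‖ with hD
        have hD0 : 0 ≤ D := norm_nonneg _
        have k2 : (‖l‖ * ‖a‖) ^ 2 ≤ 2 * D ^ 2 + 2 * ‖b‖ ^ 2 := by
          have : (‖l‖ * ‖a‖) ^ 2 ≤ (D + ‖b‖) ^ 2 := by
            have : 0 ≤ ‖l‖ * ‖a‖ := by positivity
            gcongr
          nlinarith [sq_nonneg (D - ‖b‖)]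
        have k3 : 1 / 2 * ‖l‖ ^ 2 * (e * ‖a‖) ^ 2 - e ^ 2 * ‖b‖ ^ 2 ≤ (e * D) ^ 2 := by
          have he2 : 0 ≤ e ^ 2 := by positivity
          have := mul_le_mul_of_nonneg_left k2 he2
          nlinarith [this]
        have k4 : wt y * (1 / 2 * ‖l‖ ^ 2 * (e * ‖a‖) ^ 2 - e ^ 2 * ‖b‖ ^ 2) ≤
            wt y * (e * D) ^ 2 := mul_le_mul_of_nonneg_left k3 hw0
        have k5 : wt y * (e * D) ^ 2 ≤ 1 * (e * D) ^ 2 :=
          mul_le_mul_of_nonneg_right hw1 (by positivity)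
        calc _ = wt y * (1 / 2 * ‖l‖ ^ 2 * (e * ‖a‖) ^ 2 - e ^ 2 * ‖b‖ ^ 2) := by ring
          _ ≤ wt y * (e * D) ^ 2 := k4
          _ ≤ 1 * (e * D) ^ 2 := k5
          _ = _ := one_mul _
    rw [intervalIntegral.integral_sub, intervalIntegral.integral_const_mul] at h3
    · have k1 : 1 / 2 * ‖l‖ ^ 2 * (δ / 4 * A) ≤
          1 / 2 * ‖l‖ ^ 2 * ∫ y in (0:ℝ)..2, wt y * ‖ep l p y‖ ^ 2 := by gcongr
      have k2 : 18 * (((N : ℝ) + m) ^ 2 + l.im ^ 2) * A ≤ δ / 16 * ‖l‖ ^ 2 * A := by gcongr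
      have k3 : L ^ 2 * A ≤ δ / 16 * ‖l‖ ^ 2 * A := by gcongr
      nlinarith [k1, k2, k3, h3, hB]
    · exact (continuous_const.mul (D2_wt_cont.mul (hc.norm.pow 2))).intervalIntegrable _ _
    · exact (D2_wt_cont.mul ((hec.pow 2).mul (hdc.norm.pow 2))).intervalIntegrable _ _

/-! ### steep case -/

lemma D2_isLittleO (p : ℂ[X]) (b : ℝ) (hb : 0 < b) :
    (fun y : ℝ => p.eval (y : ℂ)) =o[Filter.atTop] (fun y : ℝ => Real.exp (b * y)) := by
  have h1 : (fun y : ℝ => p.eval (y : ℂ)) =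
      ∑ i ∈ Finset.range (p.natDegree + 1), fun y : ℝ => p.coeff i * (y : ℂ) ^ i := by
    funext y
    rw [Finset.sum_apply, eval_eq_sum_range]
  rw [h1]
  apply Asymptotics.IsLittleO.sum
  intro i _
  apply Asymptotics.IsLittleO.const_mul_left
  have h2 := isLittleO_pow_exp_pos_mul_atTop (k := i) hb
  refine Asymptotics.IsLittleO.congr' (f₁ := fun y : ℝ => ((y ^ i : ℝ) : ℂ)) ?_
    (Filter.Eventually.of_forall (fun y => by push_cast; rfl)) (Filter.EventuallyEq.rfl)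
  rw [← Asymptotics.isLittleO_norm_left]
  refine (h2.norm_left).congr' (Filter.Eventually.of_forall (fun y => ?_)) Filter.EventuallyEq.rfl
  simp only [Complex.norm_real]

lemma D2_integrable (η : ℝ) (hη : 0 < η) (p : ℂ[X]) (k : ℕ) (a : ℝ) :
    IntegrableOn (fun y : ℝ => y ^ k * (Real.exp (-(η * y)) ^ 2 * ‖p.eval (y : ℂ)‖ ^ 2))
      (Set.Ioi a) := by
  apply integrable_of_isBigO_exp_neg hη
  · have hpc := D2_eval_cont p
    fun_prop
  · have hb : 0 < η / 3 := by positivity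
    have h1 := isLittleO_pow_exp_pos_mul_atTop (k := k) hb
    have h2 := (D2_isLittleO p (η / 3) hb).norm_left
    have h3 := h2.mul h2
    have h4 := h1.mul h3
    have h5 : (fun y : ℝ => Real.exp (-(η * y)) ^ 2) =O[Filter.atTop]
        (fun y : ℝ => Real.exp (-(η * y)) ^ 2) := Asymptotics.isBigO_refl _ _
    have h6 := (h4.mul_isBigO h5).isBigO
    refine h6.congr' (Filter.Eventually.of_forall (fun y => ?_))
      (Filter.Eventually.of_forall (fun y => ?_))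
    · simp only
      ring
    · simp only
      rw [← Real.exp_add, ← Real.exp_add, ← Real.exp_nat_mul, ← Real.exp_add]
      congr 1
      push_cast
      ring

lemma D2_deg_comp (p q : ℂ[X]) (m : ℕ) (hp : p.degree < m) (hq : q.natDegree ≤ 1) :
    (p.comp q).degree < m := by
  by_cases hp0 : p = 0
  · subst hp0
    rw [zero_comp, degree_zero]
    exact WithBot.bot_lt_coe _
  · have h1 : p.natDegree < m := (natDegree_lt_iff_degree_lt hp0).mpr hp
    refine degree_le_natDegree.trans_lt ?_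
    have h2 : (p.comp q).natDegree = p.natDegree * q.natDegree := natDegree_comp
    have h3 : p.natDegree * q.natDegree ≤ p.natDegree * 1 := Nat.mul_le_mul_left _ hq
    exact_mod_cast (by omega : (p.comp q).natDegree < m)

/-- first moment on the half line -/
lemma D2_moment (η : ℝ) (hη : 0 < η) (m : ℕ) (p : ℂ[X]) (hp : p.degree < m) :
    η * (∫ y in Set.Ioi (0:ℝ), y * (Real.exp (-(η * y)) ^ 2 * ‖p.eval (y : ℂ)‖ ^ 2)) ≤
      2 * m * ∫ y in Set.Ioi (0:ℝ), Real.exp (-(η * y)) ^ 2 * ‖p.eval (y : ℂ)‖ ^ 2 := by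
  set c : ℝ := 2 * η with hc
  have hc0 : 0 < c := by positivity
  set q : ℂ[X] := p.comp (C ((c⁻¹ : ℝ) : ℂ) * X) with hq
  have hqd : q.degree < m := by
    apply D2_deg_comp p _ m hp
    exact (natDegree_C_mul_le _ _).trans natDegree_X_le
  have h1 := laguerre m q hqd
  have hqe : ∀ y : ℝ, q.eval ((c * y : ℝ) : ℂ) = p.eval (y : ℂ) := by
    intro y
    rw [hq, eval_comp, eval_mul, eval_C, eval_X]
    congr 1
    rw [← Complex.ofReal_mul]
    congr 1
    field_simp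
  have h2 := integral_comp_mul_left_Ioi
    (fun s : ℝ => s * ‖q.eval (s : ℂ)‖ ^ 2 * Real.exp (-s)) 0 hc0
  have h3 := integral_comp_mul_left_Ioi
    (fun s : ℝ => ‖q.eval (s : ℂ)‖ ^ 2 * Real.exp (-s)) 0 hc0
  rw [mul_zero] at h2 h3
  have hexp : ∀ y : ℝ, Real.exp (-(c * y)) = Real.exp (-(η * y)) ^ 2 := by
    intro y
    rw [← Real.exp_nat_mul]
    congr 1
    rw [hc]; push_cast; ring
  have e2 : ∫ x in Set.Ioi (0:ℝ), (fun s : ℝ => s * ‖q.eval (s : ℂ)‖ ^ 2 * Real.exp (-s)) (c * x) =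
      c * ∫ y in Set.Ioi (0:ℝ), y * (Real.exp (-(η * y)) ^ 2 * ‖p.eval (y : ℂ)‖ ^ 2) := by
    rw [← integral_const_mul]
    congr 1
    funext y
    simp only [hqe, hexp]
    ring
  have e3 : ∫ x in Set.Ioi (0:ℝ), (fun s : ℝ => ‖q.eval (s : ℂ)‖ ^ 2 * Real.exp (-s)) (c * x) =
      ∫ y in Set.Ioi (0:ℝ), (Real.exp (-(η * y)) ^ 2 * ‖p.eval (y : ℂ)‖ ^ 2) := by
    congr 1
    funext y
    simp only [hqe, hexp]
    ring
  rw [e2] at h2
  rw [e3] at h3
  simp only [smul_eq_mul] at h2 h3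
  set M1 := ∫ y in Set.Ioi (0:ℝ), y * (Real.exp (-(η * y)) ^ 2 * ‖p.eval (y : ℂ)‖ ^ 2) with hM1
  set M0 := ∫ y in Set.Ioi (0:ℝ), (Real.exp (-(η * y)) ^ 2 * ‖p.eval (y : ℂ)‖ ^ 2) with hM0
  set S1 := ∫ s in Set.Ioi (0:ℝ), s * ‖q.eval (s : ℂ)‖ ^ 2 * Real.exp (-s) with hS1
  set S0 := ∫ s in Set.Ioi (0:ℝ), ‖q.eval (s : ℂ)‖ ^ 2 * Real.exp (-s) with hS0
  have h4 : c * (c * M1) = S1 := by
    rw [h2]; field_simp
  have h5 : c * M0 = S0 := by
    rw [h3]; field_simp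
  rw [← h4, ← h5] at h1
  have h6 : c * (c * M1) ≤ c * (4 * m * M0) := by linarith
  have h7 := le_of_mul_le_mul_left h6 hc0
  rw [hc] at h7
  linarith

lemma D2_steep (L δ : ℝ) (hδ : 0 < δ) (hδ1 : 4 * δ ≤ 1) (hδL : 8 * δ ^ 2 * L ^ 2 ≤ 1)
    (m : ℕ) (l : ℂ) (p : ℂ[X]) (hp : p.degree < m) (him : 0 < l.im)
    (h1 : 8 * (m : ℝ) ≤ δ * l.im) :
    L ^ 2 * nsq (ep l p) ≤ nsq (ep l (derivative p + C (Complex.I * l) * p)) := by
  set p1 := derivative p + C (Complex.I * l) * p with hp1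
  have hu := D2_deriv l p
  have hu' := D2_cont l p1
  have hc := D2_cont l p
  set A := nsq (ep l p) with hA
  set I := nsq (ep l p1) with hI
  have hI0 : 0 ≤ I := intervalIntegral.integral_nonneg (by norm_num) (fun y _ => by positivity)
  have hG : ∀ y : ℝ, ‖ep l p y‖ ^ 2 =
      Real.exp (-(l.im * y)) ^ 2 * ‖p.eval (y : ℂ)‖ ^ 2 := by
    intro y
    rw [D2_norm]; ring
  have hint : ∀ a : ℝ, IntegrableOn (fun y : ℝ => ‖ep l p y‖ ^ 2) (Set.Ioi a) := by
    intro a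
    have := D2_integrable l.im him p 0 a
    simp only [pow_zero, one_mul] at this
    simpa only [hG] using this
  have hint1 : ∀ a : ℝ, IntegrableOn (fun y : ℝ => y * ‖ep l p y‖ ^ 2) (Set.Ioi a) := by
    intro a
    have := D2_integrable l.im him p 1 a
    simp only [pow_one] at this
    simpa only [hG] using this
  have hmom := D2_moment l.im him m p hp
  simp only [← hG] at hmom
  set M0 := ∫ y in Set.Ioi (0:ℝ), ‖ep l p y‖ ^ 2 with hM0
  set M1 := ∫ y in Set.Ioi (0:ℝ), y * ‖ep l p y‖ ^ 2 with hM1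
  have hM00 : 0 ≤ M0 := setIntegral_nonneg measurableSet_Ioi (fun y _ => by positivity)
  -- tail
  set T := ∫ y in Set.Ioi δ, ‖ep l p y‖ ^ 2 with hT
  have t1 : δ * T ≤ ∫ y in Set.Ioi δ, y * ‖ep l p y‖ ^ 2 := by
    rw [hT, ← integral_const_mul]
    apply setIntegral_mono_on
    · exact (hint δ).const_mul δ
    · exact hint1 δ
    · exact measurableSet_Ioi
    · intro y hy
      have : δ < y := hy
      gcongr
  have t2 : ∫ y in Set.Ioi δ, y * ‖ep l p y‖ ^ 2 ≤ M1 := by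
    apply setIntegral_mono_set (hint1 0)
    · refine (ae_restrict_iff' measurableSet_Ioi).mpr (Filter.Eventually.of_forall (fun y hy => ?_))
      have : (0:ℝ) < y := hy
      simp only [Pi.zero_apply]
      positivity
    · exact (Set.Ioi_subset_Ioi hδ.le).eventuallyLE
  have t3 : l.im * (δ * T) ≤ l.im * (δ * (1 / 4 * M0)) := by
    calc l.im * (δ * T) ≤ l.im * M1 := by gcongr; exact t1.trans t2
      _ ≤ 2 * m * M0 := hmom
      _ = 1 / 4 * (8 * m) * M0 := by ring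
      _ ≤ 1 / 4 * (δ * l.im) * M0 := by gcongr
      _ = _ := by ring
  have t4 : T ≤ 1 / 4 * M0 := le_of_mul_le_mul_left (le_of_mul_le_mul_left t3 him) hδ
  have s1 : (∫ y in (0:ℝ)..δ, ‖ep l p y‖ ^ 2) + T = M0 :=
    intervalIntegral.integral_interval_add_Ioi (hint 0) (hint δ)
  have s2 : (∫ y in δ..(2 * δ), ‖ep l p y‖ ^ 2) + (∫ y in Set.Ioi (2 * δ), ‖ep l p y‖ ^ 2) = T :=
    intervalIntegral.integral_interval_add_Ioi (hint δ) (hint (2 * δ))
  have s3 : (∫ y in (0:ℝ)..2, ‖ep l p y‖ ^ 2) + (∫ y in Set.Ioi (2:ℝ), ‖ep l p y‖ ^ 2) = M0 :=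
    intervalIntegral.integral_interval_add_Ioi (hint 0) (hint 2)
  have n1 : 0 ≤ ∫ y in Set.Ioi (2 * δ), ‖ep l p y‖ ^ 2 :=
    setIntegral_nonneg measurableSet_Ioi (fun y _ => by positivity)
  have n2 : 0 ≤ ∫ y in Set.Ioi (2:ℝ), ‖ep l p y‖ ^ 2 :=
    setIntegral_nonneg measurableSet_Ioi (fun y _ => by positivity)
  have hA' : A ≤ M0 := by
    have : A = ∫ y in (0:ℝ)..2, ‖ep l p y‖ ^ 2 := rfl
    linarith
  have hP1 := (D2_poincare (ep l p) (ep l p1) hu hu' 0 δ hδ).1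
  rw [zero_add, zero_add] at hP1
  have s4 : (∫ y in (0:ℝ)..(2 * δ), ‖ep l p1 y‖ ^ 2) ≤ I := by
    rw [hI]
    unfold nsq
    apply intervalIntegral.integral_mono_interval le_rfl (by linarith) (by linarith)
    · exact Filter.Eventually.of_forall (fun t => by positivity)
    · exact (hu'.norm.pow 2).intervalIntegrable _ _
  have s5 : 2 * δ ^ 2 * (∫ y in (0:ℝ)..(2 * δ), ‖ep l p1 y‖ ^ 2) ≤ 2 * δ ^ 2 * I := by gcongr
  have h4 : M0 ≤ 8 * δ ^ 2 * I := by linarith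
  calc L ^ 2 * A ≤ L ^ 2 * (8 * δ ^ 2 * I) := by
        gcongr
        exact hA'.trans h4
    _ = (8 * δ ^ 2 * L ^ 2) * I := by ring
    _ ≤ 1 * I := by gcongr
    _ = I := one_mul _

lemma D2_pos (L δ : ℝ) (hL : 0 < L) (hδ : δ = 1 / (4 * (L + 1)))
    (m : ℕ) (l : ℂ) (p : ℂ[X]) (hR : 432 / δ ^ 2 ≤ ‖l‖) (hK : 3456 / δ ^ 2 * m ≤ ‖l‖)
    (hp : p.degree < m) (him : 0 ≤ l.im) :
    L ^ 2 * nsq (ep l p) ≤ nsq (ep l (derivative p + C (Complex.I * l) * p)) := by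
  have hδ0 : 0 < δ := by rw [hδ]; positivity
  have hδL1 : δ * (4 * (L + 1)) = 1 := by
    rw [hδ]; field_simp
  have hδ1 : 4 * δ ≤ 1 := by nlinarith
  have hδL : 8 * δ ^ 2 * L ^ 2 ≤ 1 := by
    have h1 : 4 * (δ * L) ≤ 1 := by nlinarith
    have h2 : 0 ≤ δ * L := by positivity
    nlinarith
  have hδ2 : 0 < δ ^ 2 := by positivity
  have hR' : 432 ≤ δ ^ 2 * ‖l‖ := by
    rw [div_le_iff₀ hδ2] at hR
    linarith
  have hK' : 3456 * (m : ℝ) ≤ δ ^ 2 * ‖l‖ := by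
    rw [div_mul_eq_mul_div, div_le_iff₀ hδ2] at hK
    linarith
  have hd0 : 0 < ‖l‖ := by
    by_contra h
    push Not at h
    have : δ ^ 2 * ‖l‖ ≤ 0 := mul_nonpos_of_nonneg_of_nonpos hδ2.le h
    linarith
  by_cases hst : δ / 432 * ‖l‖ ≤ l.im
  · have him' : 0 < l.im := lt_of_lt_of_le (by positivity) hst
    apply D2_steep L δ hδ0 hδ1 hδL m l p hp him'
    have : δ * (δ / 432 * ‖l‖) ≤ δ * l.im := by gcongr
    nlinarith
  · push Not at hst
    set N : ℕ := ⌈10 * l.im + 1⌉₊ with hN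
    have hN1 : 10 * l.im + 1 ≤ N := Nat.le_ceil _
    have hN2 : (N : ℝ) < 10 * l.im + 1 + 1 := Nat.ceil_lt_add_one (by positivity)
    apply D2_cone L δ hδ0 hδ1 hδL m N l p hp him hN1
    · have e1 : δ ^ 2 * ‖l‖ ≤ 1 / 4 * (δ * ‖l‖) := by
        have : δ * (δ * ‖l‖) ≤ 1 / 4 * (δ * ‖l‖) := by
          apply mul_le_mul_of_nonneg_right (by linarith) (by positivity)
        nlinarith
      have e2 : (N : ℝ) + m ≤ 1 / 40 * (δ * ‖l‖) := by
        have : δ / 432 * ‖l‖ = 1 / 432 * (δ * ‖l‖) := by ring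
        rw [this] at hst
        linarith
      have e3 : l.im ≤ 1 / 432 * (δ * ‖l‖) := by
        have : δ / 432 * ‖l‖ = 1 / 432 * (δ * ‖l‖) := by ring
        rw [this] at hst
        linarith
      have e4 : ((N : ℝ) + m) ^ 2 ≤ (1 / 40 * (δ * ‖l‖)) ^ 2 := by gcongr
      have e5 : l.im ^ 2 ≤ (1 / 432 * (δ * ‖l‖)) ^ 2 := by gcongr
      have e6 : (δ * ‖l‖) ^ 2 ≤ 1 / 4 * (δ * ‖l‖ ^ 2) := by
        have : δ * (δ * ‖l‖ ^ 2) ≤ 1 / 4 * (δ * ‖l‖ ^ 2) := by
          apply mul_le_mul_of_nonneg_right (by linarith) (by positivity)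
        nlinarith
      have e7 : 0 ≤ δ * ‖l‖ ^ 2 := by positivity
      have e8 : δ / 16 * ‖l‖ ^ 2 = 1 / 16 * (δ * ‖l‖ ^ 2) := by ring
      rw [e8]
      nlinarith
    · have e1 : 1728 * (L + 1) ≤ δ * ‖l‖ := by
        have h3 : 432 * (4 * (L + 1)) ≤ (δ ^ 2 * ‖l‖) * (4 * (L + 1)) := by gcongr
        have h4 : (δ ^ 2 * ‖l‖) * (4 * (L + 1)) = (δ * (4 * (L + 1))) * (δ * ‖l‖) := by ring
        rw [h4, hδL1] at h3
        linarith
      have e2 : δ * ‖l‖ ≤ ‖l‖ := by nlinarith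
      have e3 : 1728 * (L + 1) ≤ ‖l‖ := e1.trans e2
      have e4 : (1728 * (L + 1)) * (1728 * (L + 1)) ≤ (δ * ‖l‖) * ‖l‖ := by gcongr
      have e5 : δ / 16 * ‖l‖ ^ 2 = 1 / 16 * ((δ * ‖l‖) * ‖l‖) := by ring
      rw [e5]
      nlinarith [sq_nonneg L]

/-! ### reflection -/

lemma D2_refl (l : ℂ) (p : ℂ[X]) :
    nsq (ep l p) = ‖Complex.exp (2 * Complex.I * l)‖ ^ 2 * nsq (ep (-l) (p.comp (C 2 - X))) := by
  unfold nsq
  have h1 : ∀ y : ℝ, ‖ep l p y‖ ^ 2 =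
      ‖Complex.exp (2 * Complex.I * l)‖ ^ 2 * ‖ep (-l) (p.comp (C 2 - X)) (2 - y)‖ ^ 2 := by
    intro y
    rw [← mul_pow, ← norm_mul]
    congr 2
    unfold ep
    rw [eval_comp, eval_sub, eval_C, eval_X, ← mul_assoc, ← Complex.exp_add]
    congr 2
    · push_cast
      ring
    · push_cast
      ring
  simp_rw [h1]
  rw [intervalIntegral.integral_const_mul]
  congr 1
  rw [intervalIntegral.integral_comp_sub_left (fun y => ‖ep (-l) (p.comp (C 2 - X)) y‖ ^ 2) 2]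
  norm_num

theorem lemL (L : ℝ) (hL : 0 < L) :
    ∃ R K : ℝ, 0 < R ∧ 1 ≤ K ∧ ∀ (m : ℕ) (l : ℂ) (p : ℂ[X]), R ≤ ‖l‖ → K * m ≤ ‖l‖ →
      p.degree < m →
      L ^ 2 * nsq (ep l p) ≤ nsq (ep l (derivative p + C (Complex.I * l) * p)) := by
  set δ : ℝ := 1 / (4 * (L + 1)) with hδ
  have hδ0 : 0 < δ := by rw [hδ]; positivity
  have hδ1 : δ ≤ 1 := by
    rw [hδ, div_le_one (by positivity)]
    linarith
  refine ⟨432 / δ ^ 2, 3456 / δ ^ 2, by positivity, ?_, ?_⟩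
  · rw [le_div_iff₀ (by positivity)]
    nlinarith
  · intro m l p hR hK hp
    rcases le_or_gt 0 l.im with him | him
    · exact D2_pos L δ hL hδ m l p hR hK hp him
    · have hq : ((C 2 - X : ℂ[X])).natDegree ≤ 1 := by
        refine (natDegree_sub_le _ _).trans ?_
        rw [natDegree_C, natDegree_X]
        simp
      have h1 := D2_pos L δ hL hδ m (-l) (p.comp (C 2 - X)) (by rwa [norm_neg])
        (by rwa [norm_neg]) (D2_deg_comp p _ m hp hq) (by simp; linarith)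
      rw [D2_refl l p, D2_refl l (derivative p + C (Complex.I * l) * p)]
      have h2 : nsq (ep (-l) ((derivative p + C (Complex.I * l) * p).comp (C 2 - X))) =
          nsq (ep (-l) (derivative (p.comp (C 2 - X)) +
            C (Complex.I * -l) * p.comp (C 2 - X))) := by
        unfold nsq
        congr 1
        funext y
        congr 1
        have e1 : (derivative p + C (Complex.I * l) * p).comp (C 2 - X) =
            -(derivative (p.comp (C 2 - X)) + C (Complex.I * -l) * p.comp (C 2 - X)) := by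
          rw [derivative_comp, add_comp, mul_comp, C_comp]
          simp only [derivative_sub, derivative_C, derivative_X, mul_neg, C_neg]
          ring
        rw [e1]
        unfold ep
        rw [eval_neg, mul_neg, norm_neg]
      rw [h2]
      have h3 : 0 ≤ ‖Complex.exp (2 * Complex.I * l)‖ ^ 2 := by positivity
      calc _ = ‖Complex.exp (2 * Complex.I * l)‖ ^ 2 *
            (L ^ 2 * nsq (ep (-l) (p.comp (C 2 - X)))) := by ring
        _ ≤ _ := mul_le_mul_of_nonneg_left h1 h3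

end Pool.Agent.MP_12ef2a_an
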