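import Mathlib
import Pool.Agent.MP_12ef2a_an.Defs
import Pool.Agent.MP_12ef2a_an.B2

set_option autoImplicit false

open MeasureTheory Polynomial

namespace Pool.Agent.MP_12ef2a_an

namespace E1

/-- A bump function with a bounded derivative. -/
lemma exists_bump : ∃ (Ψ : ℝ → ℝ) (C₁ : ℝ), 1 ≤ C₁ ∧ ContDiff ℝ 1 Ψ ∧ (∀ x, 0 ≤ Ψ x) ∧
    (∀ x, Ψ x ≤ 1) ∧ (∀ x, |x| ≤ 1 / 2 → Ψ x = 1) ∧ (∀ x, 1 ≤ |x| → Ψ x = 0) ∧
    (∀ x, |deriv Ψ x| ≤ C₁) ∧ (∀ x, 1 ≤ |x| → deriv Ψ x = 0) := by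
  let f : ContDiffBump (0 : ℝ) := ⟨1 / 2, 1, by norm_num, by norm_num⟩
  have hf1 : ContDiff ℝ 1 (fun x => f x) := f.contDiff
  have hzero : ∀ x, 1 ≤ |x| → f x = 0 := by
    intro x hx
    apply f.zero_of_le_dist
    rw [dist_zero_right, Real.norm_eq_abs]
    exact hx
  have hcs : HasCompactSupport (deriv fun x => f x) := f.hasCompactSupport.deriv
  have hcont : Continuous (deriv fun x => f x) := hf1.continuous_deriv le_rfl
  obtain ⟨C, hC⟩ := hcs.exists_bound_of_continuous hcont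
  refine ⟨fun x => f x, max 1 C, le_max_left _ _, hf1, fun x => f.nonneg, fun x => f.le_one, ?_,
    hzero, ?_, ?_⟩
  · intro x hx
    apply f.one_of_mem_closedBall
    rw [Metric.mem_closedBall, dist_zero_right, Real.norm_eq_abs]
    exact hx
  · intro x
    exact (hC x).trans (le_max_right _ _)
  · intro x hx
    have : IsLocalMin (fun x => f x) x := by
      refine Filter.Eventually.of_forall fun y => ?_
      show f x ≤ f y
      rw [hzero x hx]
      exact f.nonneg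
    exact this.deriv_eq_zero

lemma approx {Ψ : ℝ → ℝ} {C₁ : ℝ} (hC₁ : 1 ≤ C₁) (hΨ : ContDiff ℝ 1 Ψ) (hΨ0 : ∀ x, 0 ≤ Ψ x)
    (hΨ1 : ∀ x, Ψ x ≤ 1) (hz : ∀ x, 1 ≤ |x| → Ψ x = 0)
    (hd : ∀ x, |deriv Ψ x| ≤ C₁) (hdz : ∀ x, 1 ≤ |x| → deriv Ψ x = 0)
    {δ : ℝ} (hδ : 0 < δ) (hδ1 : δ ≤ 1) (l : ℂ) (h0 : 0 ≤ l.im) (h1 : l.im * δ ≤ 1) (n : ℕ)
    (hn : 1 ≤ n) :
    ∃ q : ℂ[X], q.degree < n ∧
      (n : ℝ) ^ 2 * nsq (fun y => ((Ψ (y / δ) : ℝ) : ℂ) - ep l q y) ≤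
        18 * (C₁ + ‖l‖ * δ) ^ 2 := by
  set G : ℝ → ℂ := fun y => ((Ψ (y / δ) : ℝ) : ℂ) * Complex.exp (-(Complex.I * l * y)) with hG
  have hΨc : ContDiff ℝ 1 (fun y : ℝ => ((Ψ (y / δ) : ℝ) : ℂ)) := by
    have : ContDiff ℝ 1 (fun y : ℝ => Ψ (y / δ)) := hΨ.comp (contDiff_id.div_const δ)
    exact Complex.ofRealCLM.contDiff.comp this
  have hexpc : ContDiff ℝ 1 (fun y : ℝ => Complex.exp (-(Complex.I * l * y))) := by
    refine ContDiff.cexp ?_
    exact (contDiff_const.mul Complex.ofRealCLM.contDiff).neg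
  have hGc : ContDiff ℝ 1 G := hΨc.mul hexpc
  -- the derivative
  have hGd : ∀ y : ℝ, deriv G y = (((deriv Ψ (y / δ)) / δ : ℝ) : ℂ) *
      Complex.exp (-(Complex.I * l * y)) + ((Ψ (y / δ) : ℝ) : ℂ) *
      (Complex.exp (-(Complex.I * l * y)) * (-(Complex.I * l))) := by
    intro y
    have e1 : HasDerivAt (fun y : ℝ => Ψ (y / δ)) (deriv Ψ (y / δ) * (1 / δ)) y := by
      have ha : HasDerivAt Ψ (deriv Ψ (y / δ)) (y / δ) :=
        (hΨ.differentiable (by norm_num) (y / δ)).hasDerivAt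
      have hb : HasDerivAt (fun y : ℝ => y / δ) (1 / δ) y := (hasDerivAt_id y).div_const δ
      exact ha.comp y hb
    have e2 : HasDerivAt (fun y : ℝ => ((Ψ (y / δ) : ℝ) : ℂ))
        (((deriv Ψ (y / δ)) / δ : ℝ) : ℂ) y := by
      have := e1.ofReal_comp
      rw [mul_one_div] at this
      exact this
    have e3 : HasDerivAt (fun y : ℝ => -(Complex.I * l * (y : ℂ))) (-(Complex.I * l)) y := by
      have hc : HasDerivAt (fun y : ℝ => (y : ℂ)) 1 y := Complex.ofRealCLM.hasDerivAt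
      have := (hc.const_mul (Complex.I * l)).neg
      rw [mul_one] at this
      exact this
    exact (e2.mul e3.cexp).deriv
  have hexpn : ∀ y : ℝ, ‖Complex.exp (-(Complex.I * l * y))‖ = Real.exp (l.im * y) := by
    intro y
    rw [Complex.norm_exp]
    congr 1
    simp
  have hexpn' : ∀ y : ℝ, ‖Complex.exp (Complex.I * l * y)‖ = Real.exp (-(l.im * y)) := by
    intro y
    rw [Complex.norm_exp]
    congr 1
    simp
  obtain ⟨q, hq, hqn⟩ := jackson n hn G hGc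
  refine ⟨q, hq, ?_⟩
  -- the right-hand side
  have hcont : Continuous (fun y : ℝ => wt y * ‖deriv G y‖ ^ 2) := by
    have h2 : Continuous (deriv G) := hGc.continuous_deriv le_rfl
    unfold wt
    fun_prop
  have hR : ∫ y in (0:ℝ)..2, wt y * ‖deriv G y‖ ^ 2 ≤ 18 * (C₁ + ‖l‖ * δ) ^ 2 := by
    rw [← intervalIntegral.integral_add_adjacent_intervals (b := δ)
      (hcont.intervalIntegrable _ _) (hcont.intervalIntegrable _ _)]
    have hz2 : ∫ y in δ..2, wt y * ‖deriv G y‖ ^ 2 = 0 := by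
      rw [intervalIntegral.integral_congr (g := fun _ => (0:ℝ))]
      · simp
      · intro y hy
        rw [Set.uIcc_of_le (by linarith)] at hy
        have hy1 : 1 ≤ |y / δ| := by
          rw [abs_of_nonneg (div_nonneg (by linarith [hy.1]) hδ.le)]
          rw [le_div_iff₀ hδ]
          linarith [hy.1]
        show wt y * ‖deriv G y‖ ^ 2 = 0
        rw [hGd y, hz _ hy1, hdz _ hy1]
        simp
    rw [hz2, add_zero]
    have hle : ∫ y in (0:ℝ)..δ, wt y * ‖deriv G y‖ ^ 2 ≤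
        ∫ y in (0:ℝ)..δ, (2 * δ) * (3 * (C₁ / δ + ‖l‖)) ^ 2 := by
      refine intervalIntegral.integral_mono_on hδ.le (hcont.intervalIntegrable _ _)
        intervalIntegrable_const ?_
      intro y hy
      have hw : wt y ≤ 2 * δ := by
        unfold wt
        nlinarith [hy.1, hy.2]
      have hw0 : 0 ≤ wt y := by
        unfold wt
        exact mul_nonneg hy.1 (by linarith [hy.2])
      have he : Real.exp (l.im * y) ≤ 3 := by
        have h3 : l.im * y ≤ 1 := (mul_le_mul_of_nonneg_left hy.2 h0).trans h1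
        have h4 := Real.exp_le_exp.2 h3
        have h5 := Real.exp_one_lt_d9
        linarith
      have hn1 : ‖deriv G y‖ ≤ 3 * (C₁ / δ + ‖l‖) := by
        rw [hGd y]
        refine (norm_add_le _ _).trans ?_
        rw [norm_mul, norm_mul, norm_mul, norm_neg, norm_mul, Complex.norm_I, one_mul, hexpn,
          Complex.norm_real, Complex.norm_real, Real.norm_eq_abs, Real.norm_eq_abs, abs_div,
          abs_of_pos hδ, abs_of_nonneg (hΨ0 _)]
        have h6 : |deriv Ψ (y / δ)| / δ ≤ C₁ / δ := by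
          gcongr
          exact hd _
        have h7 := hΨ1 (y / δ)
        have h8 := hΨ0 (y / δ)
        have h9 : 0 ≤ |deriv Ψ (y / δ)| / δ := by positivity
        have h10 : 0 ≤ Real.exp (l.im * y) := (Real.exp_pos _).le
        have h11 : |deriv Ψ (y / δ)| / δ * Real.exp (l.im * y) ≤ C₁ / δ * 3 := by gcongr
        have h12 : Ψ (y / δ) * (Real.exp (l.im * y) * ‖l‖) ≤ 1 * (3 * ‖l‖) := by gcongr
        linarith
      gcongr
    refine hle.trans (le_of_eq ?_)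
    rw [intervalIntegral.integral_const, smul_eq_mul, sub_zero]
    field_simp
    ring
  -- comparison
  have hcomp : nsq (fun y => ((Ψ (y / δ) : ℝ) : ℂ) - ep l q y) ≤
      nsq (fun y => G y - q.eval (y : ℂ)) := by
    unfold nsq
    have hqc : Continuous (fun y : ℝ => q.eval (y : ℂ)) :=
      q.continuous.comp Complex.continuous_ofReal
    refine intervalIntegral.integral_mono_on (by norm_num) ?_ ?_ ?_
    · refine Continuous.intervalIntegrable ?_ _ _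
      unfold ep
      have := hΨc.continuous
      fun_prop
    · refine Continuous.intervalIntegrable ?_ _ _
      have := hGc.continuous
      fun_prop
    · intro y hy
      have e : ((Ψ (y / δ) : ℝ) : ℂ) - ep l q y =
          Complex.exp (Complex.I * l * y) * (G y - q.eval (y : ℂ)) := by
        have h2 : Complex.exp (Complex.I * l * y) * Complex.exp (-(Complex.I * l * y)) = 1 := by
          rw [← Complex.exp_add, add_neg_cancel, Complex.exp_zero]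
        unfold ep
        rw [hG]
        simp only
        linear_combination -((Ψ (y / δ) : ℝ) : ℂ) * h2
      beta_reduce
      rw [e, norm_mul, hexpn']
      have h3 : Real.exp (-(l.im * y)) ≤ 1 := by
        rw [Real.exp_le_one_iff]
        have := mul_nonneg h0 hy.1
        linarith
      have h4 : 0 ≤ Real.exp (-(l.im * y)) := (Real.exp_pos _).le
      have h5 : Real.exp (-(l.im * y)) * ‖G y - q.eval (y : ℂ)‖ ≤
          1 * ‖G y - q.eval (y : ℂ)‖ := by gcongr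
      rw [one_mul] at h5
      have h6 : 0 ≤ Real.exp (-(l.im * y)) * ‖G y - q.eval (y : ℂ)‖ := by positivity
      exact pow_le_pow_left₀ h6 h5 2
  calc (n : ℝ) ^ 2 * nsq (fun y => ((Ψ (y / δ) : ℝ) : ℂ) - ep l q y)
      ≤ (n : ℝ) ^ 2 * nsq (fun y => G y - q.eval (y : ℂ)) := by gcongr
    _ ≤ _ := hqn.trans hR

lemma nsq_bump {Ψ : ℝ → ℝ} (hΨ : ContDiff ℝ 1 Ψ) (hone : ∀ x, |x| ≤ 1 / 2 → Ψ x = 1)
    {δ : ℝ} (hδ : 0 < δ) (hδ1 : δ ≤ 1) : δ / 2 ≤ nsq (fun y => ((Ψ (y / δ) : ℝ) : ℂ)) := by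
  unfold nsq
  have hcont : Continuous (fun y : ℝ => ‖((Ψ (y / δ) : ℝ) : ℂ)‖ ^ 2) := by
    have := hΨ.continuous
    fun_prop
  rw [← intervalIntegral.integral_add_adjacent_intervals (b := δ / 2)
      (hcont.intervalIntegrable _ _) (hcont.intervalIntegrable _ _)]
  have h1 : ∫ y in (0:ℝ)..(δ / 2), ‖((Ψ (y / δ) : ℝ) : ℂ)‖ ^ 2 = δ / 2 := by
    rw [intervalIntegral.integral_congr (g := fun _ => (1:ℝ))]
    · simp
    · intro y hy
      rw [Set.uIcc_of_le (by linarith)] at hy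
      have h2 : |y / δ| ≤ 1 / 2 := by
        rw [abs_of_nonneg (div_nonneg hy.1 hδ.le), div_le_iff₀ hδ]
        linarith [hy.2]
      show ‖((Ψ (y / δ) : ℝ) : ℂ)‖ ^ 2 = 1
      rw [hone _ h2]
      simp
  have h2 : 0 ≤ ∫ y in (δ / 2)..2, ‖((Ψ (y / δ) : ℝ) : ℂ)‖ ^ 2 :=
    intervalIntegral.integral_nonneg (by linarith) (fun y _ => by positivity)
  linarith

lemma arith {C₁ a b m c δ : ℝ} (ha : 0 ≤ a) (hC : 0 ≤ C₁) (hab : a ≤ b)
    (h1 : 144 * C₁ ^ 2 ≤ m ^ 2 * c * δ) (h2 : 144 * b ^ 2 ≤ m ^ 2 * c * δ) :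
    18 * (C₁ + a) ^ 2 ≤ m ^ 2 * (c * (δ / 2)) := by
  have h3 : (C₁ + a) ^ 2 ≤ (C₁ + b) ^ 2 := by gcongr
  have h4 : (C₁ + b) ^ 2 ≤ 2 * C₁ ^ 2 + 2 * b ^ 2 := by
    have := sq_nonneg (C₁ - b)
    nlinarith
  nlinarith

/-- The case of nonnegative imaginary part. -/
theorem conflict_pos (c K : ℝ) (hc : 0 < c) (hK : 1 ≤ K) :
    ∃ (m₀ : ℕ) (κ : ℝ), 1 ≤ m₀ ∧ 0 < κ ∧ ∀ (m M : ℕ) (ω : ℝ) (l : ℂ), m₀ ≤ m → 1 ≤ M →
      (m : ℝ) ≤ κ * (M : ℝ) ^ 2 → |ω| ≤ 2 * M → ‖l‖ ≤ K * m → 0 ≤ l.im →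
      ∃ (f : ℝ → ℂ) (q₁ q₂ : ℂ[X]), Continuous f ∧ 0 < nsq f ∧ q₁.degree < m ∧ q₂.degree < M ∧
        nsq (fun y => f y - ep l q₁ y) ≤ c * nsq f ∧
        nsq (fun y => f y - ep (-(ω : ℂ)) q₂ y) ≤ c * nsq f := by
  obtain ⟨Ψ, C₁, hC₁, hΨ, hΨ0, hΨ1, hone, hz, hd, hdz⟩ := exists_bump
  set δ₀ : ℝ := min 1 (c / (576 * K ^ 2)) with hδ₀
  have hK0 : 0 < K := by linarith
  have hδ₀0 : 0 < δ₀ := lt_min one_pos (by positivity)
  have hδ₀1 : δ₀ ≤ 1 := min_le_left _ _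
  have hδ₀c : δ₀ ≤ c / (576 * K ^ 2) := min_le_right _ _
  set B : ℝ := 1 / δ₀ + 1 + K with hB
  have hB0 : 0 < B := by positivity
  have hC0 : 0 < C₁ := by linarith
  refine ⟨max 1 ⌈144 * C₁ ^ 2 * B / c⌉₊, c / (144 * C₁ ^ 2 * B), le_max_left _ _, by positivity, ?_⟩
  intro m M ω l hm hM hmM hω hl hl0
  have hm1 : 1 ≤ m := (le_max_left _ _).trans hm
  have hmc : 144 * C₁ ^ 2 * B / c ≤ m :=
    (Nat.le_ceil _).trans (by exact_mod_cast (le_max_right _ _).trans hm)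
  have hm1' : (1:ℝ) ≤ m := by exact_mod_cast hm1
  have hM1' : (1:ℝ) ≤ M := by exact_mod_cast hM
  set δ : ℝ := min δ₀ (1 / (1 + l.im)) with hδdef
  have him : 0 < 1 + l.im := by linarith
  have hδ0 : 0 < δ := lt_min hδ₀0 (by positivity)
  have hδle : δ ≤ δ₀ := min_le_left _ _
  have hδ1 : δ ≤ 1 := hδle.trans hδ₀1
  have himδ : l.im * δ ≤ 1 := by
    have h2 : δ ≤ 1 / (1 + l.im) := min_le_right _ _
    have h3 : l.im * δ ≤ l.im * (1 / (1 + l.im)) := by gcongr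
    have h4 : l.im * (1 / (1 + l.im)) ≤ 1 := by
      rw [mul_one_div, div_le_one him]; linarith
    linarith
  have himl : l.im ≤ K * m := (Complex.im_le_norm l).trans hl
  -- `1 / δ ≤ B m`
  have hinv : 1 / δ ≤ B * m := by
    have h2 : 1 / δ ≤ 1 / δ₀ + (1 + l.im) := by
      rcases min_choice δ₀ (1 / (1 + l.im)) with h | h
      · rw [hδdef, h]; linarith
      · rw [hδdef, h, one_div_one_div]
        have : 0 < 1 / δ₀ := by positivity
        linarith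
    have h3 : 1 / δ₀ + (1 + l.im) ≤ B * m := by
      rw [hB]
      have h4 : 1 / δ₀ ≤ 1 / δ₀ * m := le_mul_of_one_le_right (by positivity) hm1'
      nlinarith
    linarith
  have hδB : 1 ≤ B * m * δ := by
    rw [div_le_iff₀ hδ0] at hinv
    exact hinv
  have hns := nsq_bump hΨ hone hδ0 hδ1
  obtain ⟨q₁, hq₁, h₁⟩ := approx hC₁ hΨ hΨ0 hΨ1 hz hd hdz hδ0 hδ1 l hl0 himδ m hm1
  obtain ⟨q₂, hq₂, h₂⟩ := approx hC₁ hΨ hΨ0 hΨ1 hz hd hdz hδ0 hδ1 (-(ω : ℂ)) (by simp) (by simp)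
    M hM
  have hcK : 576 * K ^ 2 * δ ≤ c := by
    have h2 : δ ≤ c / (576 * K ^ 2) := hδle.trans hδ₀c
    rw [le_div_iff₀ (by positivity)] at h2
    linarith
  have hK2 : 1 ≤ K ^ 2 := by nlinarith
  refine ⟨fun y => ((Ψ (y / δ) : ℝ) : ℂ), q₁, q₂, ?_, ?_, hq₁, hq₂, ?_, ?_⟩
  · have := hΨ.continuous
    fun_prop
  · linarith
  · -- first error
    have h3 : 18 * (C₁ + ‖l‖ * δ) ^ 2 ≤ (m : ℝ) ^ 2 * (c * (δ / 2)) := by
      have h5 : ‖l‖ * δ ≤ K * m * δ := by gcongr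
      have h6 : 0 ≤ ‖l‖ * δ := by positivity
      have h7 : 144 * C₁ ^ 2 ≤ (m : ℝ) ^ 2 * c * δ := by
        have h8 : 144 * C₁ ^ 2 * B ≤ m * c := by
          rw [div_le_iff₀ hc] at hmc
          exact hmc
        have h9 : 144 * C₁ ^ 2 * 1 ≤ 144 * C₁ ^ 2 * (B * m * δ) := by gcongr
        have h10 : 144 * C₁ ^ 2 * (B * m * δ) ≤ (m * c) * (m * δ) := by
          have : 144 * C₁ ^ 2 * (B * m * δ) = (144 * C₁ ^ 2 * B) * (m * δ) := by ring
          rw [this]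
          gcongr
        calc 144 * C₁ ^ 2 = 144 * C₁ ^ 2 * 1 := (mul_one _).symm
          _ ≤ _ := h9
          _ ≤ _ := h10
          _ = (m : ℝ) ^ 2 * c * δ := by ring
      have h11 : 144 * (K * m * δ) ^ 2 ≤ (m : ℝ) ^ 2 * c * δ := by
        have : 144 * (K * m * δ) ^ 2 = (m : ℝ) ^ 2 * δ * (144 * K ^ 2 * δ) := by ring
        rw [this]
        have h12 : 144 * K ^ 2 * δ ≤ c := by
          have h13 : 0 < K ^ 2 * δ := mul_pos (pow_pos hK0 2) hδ0
          linarith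
        calc (m : ℝ) ^ 2 * δ * (144 * K ^ 2 * δ) ≤ (m : ℝ) ^ 2 * δ * c := by gcongr
          _ = _ := by ring
      exact arith h6 hC0.le h5 h7 h11
    have h4 : (m : ℝ) ^ 2 * nsq (fun y => ((Ψ (y / δ) : ℝ) : ℂ) - ep l q₁ y) ≤
        (m : ℝ) ^ 2 * (c * nsq (fun y => ((Ψ (y / δ) : ℝ) : ℂ))) := by
      refine h₁.trans (h3.trans ?_)
      gcongr
    exact le_of_mul_le_mul_left h4 (by positivity)
  · have h3 : 18 * (C₁ + ‖(-(ω : ℂ))‖ * δ) ^ 2 ≤ (M : ℝ) ^ 2 * (c * (δ / 2)) := by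
      have hωn : ‖(-(ω : ℂ))‖ = |ω| := by rw [norm_neg, Complex.norm_real, Real.norm_eq_abs]
      rw [hωn]
      have h5 : |ω| * δ ≤ 2 * M * δ := by gcongr
      have h6 : 0 ≤ |ω| * δ := by positivity
      have h7 : 144 * C₁ ^ 2 ≤ (M : ℝ) ^ 2 * c * δ := by
        have h8 : B * m * δ ≤ B * (c / (144 * C₁ ^ 2 * B) * (M : ℝ) ^ 2) * δ := by gcongr
        have h9 : B * (c / (144 * C₁ ^ 2 * B) * (M : ℝ) ^ 2) * δ =
            (M : ℝ) ^ 2 * c * δ / (144 * C₁ ^ 2) := by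
          field_simp
        have h10 : 1 ≤ (M : ℝ) ^ 2 * c * δ / (144 * C₁ ^ 2) := by linarith
        rw [le_div_iff₀ (by positivity)] at h10
        linarith
      have h11 : 144 * (2 * M * δ) ^ 2 ≤ (M : ℝ) ^ 2 * c * δ := by
        have : 144 * (2 * M * δ) ^ 2 = (M : ℝ) ^ 2 * δ * (576 * δ) := by ring
        rw [this]
        have h12 : 576 * δ ≤ c := by
          have h13 : 1 * δ ≤ K ^ 2 * δ := by gcongr
          linarith
        calc (M : ℝ) ^ 2 * δ * (576 * δ) ≤ (M : ℝ) ^ 2 * δ * c := by gcongr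
          _ = _ := by ring
      exact arith h6 hC0.le h5 h7 h11
    have h4 : (M : ℝ) ^ 2 * nsq (fun y => ((Ψ (y / δ) : ℝ) : ℂ) - ep (-(ω : ℂ)) q₂ y) ≤
        (M : ℝ) ^ 2 * (c * nsq (fun y => ((Ψ (y / δ) : ℝ) : ℂ))) := by
      refine h₂.trans (h3.trans ?_)
      gcongr
    exact le_of_mul_le_mul_left h4 (by positivity)

lemma nsq_reflect (f : ℝ → ℂ) : nsq (fun y => f (2 - y)) = nsq f := by
  unfold nsq
  rw [intervalIntegral.integral_comp_sub_left (fun y => ‖f y‖ ^ 2) (2:ℝ)]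
  norm_num

/-- reflected polynomial, multiplied by a constant -/
lemma ep_reflect (l : ℂ) (q : ℂ[X]) (n : ℕ) (hq : q.degree < n) :
    ∃ q' : ℂ[X], q'.degree < n ∧ ∀ y : ℝ, ep (-l) q' y = ep l q (2 - y) := by
  refine ⟨C (Complex.exp (Complex.I * l * 2)) * q.comp (C 2 - X), ?_, ?_⟩
  · rw [Polynomial.degree_lt_iff_coeff_zero] at hq ⊢
    intro k hk
    have h1 : (C (Complex.exp (Complex.I * l * 2)) * q.comp (C 2 - X)).natDegree ≤
        q.natDegree := by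
      refine (Polynomial.natDegree_C_mul_le _ _).trans ?_
      refine (Polynomial.natDegree_comp_le).trans ?_
      have h2 : (C (2:ℂ) - X).natDegree ≤ 1 := by
        rw [← Polynomial.natDegree_neg]
        rw [neg_sub]
        exact Polynomial.natDegree_X_sub_C_le 2
      calc q.natDegree * (C (2:ℂ) - X).natDegree ≤ q.natDegree * 1 := by gcongr
        _ = _ := mul_one _
    by_cases hq0 : q = 0
    · simp [hq0]
    · have h3 : q.natDegree < n := by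
        by_contra hcon
        push Not at hcon
        exact hq0 (Polynomial.leadingCoeff_eq_zero.1 (hq _ hcon))
      exact Polynomial.coeff_eq_zero_of_natDegree_lt (by omega)
  · intro y
    unfold ep
    rw [eval_mul, eval_C, eval_comp]
    simp only [eval_sub, eval_C, eval_X]
    rw [← mul_assoc, ← Complex.exp_add]
    push_cast
    congr 2
    ring

end E1

theorem conflict (c K : ℝ) (hc : 0 < c) (hK : 1 ≤ K) :
    ∃ (m₀ M₀ : ℕ) (κ : ℝ), 0 < κ ∧ ∀ (m M : ℕ) (ω : ℝ) (l : ℂ), m₀ ≤ m → M₀ ≤ M →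
      (m : ℝ) ≤ κ * (M : ℝ) ^ 2 → |ω| ≤ 2 * M → ‖l‖ ≤ K * m →
      ∃ (f : ℝ → ℂ) (q₁ q₂ : ℂ[X]), Continuous f ∧ 0 < nsq f ∧ q₁.degree < m ∧ q₂.degree < M ∧
        nsq (fun y => f y - ep l q₁ y) ≤ c * nsq f ∧
        nsq (fun y => f y - ep (-(ω : ℂ)) q₂ y) ≤ c * nsq f := by
  obtain ⟨m₀, κ, hm₀, hκ, h⟩ := E1.conflict_pos c K hc hK
  refine ⟨m₀, 1, κ, hκ, fun m M ω l hm hM hmM hω hl => ?_⟩
  rcases le_total 0 l.im with h0 | h0
  · exact h m M ω l hm hM hmM hω hl h0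
  · obtain ⟨f, q₁, q₂, hf, hpos, hd1, hd2, he1, he2⟩ := h m M (-ω) (-l) hm hM hmM
      (by rwa [abs_neg]) (by rwa [norm_neg]) (by simpa using h0)
    obtain ⟨q₁', hd1', hr1⟩ := E1.ep_reflect (-l) q₁ m hd1
    obtain ⟨q₂', hd2', hr2⟩ := E1.ep_reflect (ω : ℂ) q₂ M hd2
    refine ⟨fun y => f (2 - y), q₁', q₂', hf.comp (continuous_const.sub continuous_id), ?_, hd1',
      hd2', ?_, ?_⟩
    · rw [E1.nsq_reflect]; exact hpos
    · rw [E1.nsq_reflect]
      have e : nsq (fun y => f (2 - y) - ep l q₁' y) = nsq (fun y => f y - ep (-l) q₁ y) := by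
        rw [← E1.nsq_reflect (fun y => f y - ep (-l) q₁ y)]
        congr 1
        funext y
        rw [← hr1 y, neg_neg]
      rw [e]; exact he1
    · rw [E1.nsq_reflect]
      have e : nsq (fun y => f (2 - y) - ep (-(ω : ℂ)) q₂' y) =
          nsq (fun y => f y - ep (-((-ω : ℝ) : ℂ)) q₂ y) := by
        rw [← E1.nsq_reflect (fun y => f y - ep (-((-ω : ℝ) : ℂ)) q₂ y)]
        congr 1
        funext y
        have h1 := hr2 y
        have h2 : -((-ω : ℝ) : ℂ) = (ω : ℂ) := by push_cast; ring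
        rw [h2, ← h1]
      rw [e]; exact he2

end Pool.Agent.MP_12ef2a_an
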