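import Mathlib
import Pool.Agent.MP_12ef2a_an.Defs
import Pool.Agent.MP_12ef2a_an.B2

set_option autoImplicit false

open MeasureTheory Polynomial

namespace Pool.Agent.MP_12ef2a_an

/-- reflection of the interval -/
theorem nsq_reflect (f : ℝ → ℂ) : nsq (fun y => f (2 - y)) = nsq f := by
  unfold nsq
  rw [intervalIntegral.integral_comp_sub_left (fun y => ‖f y‖ ^ 2) 2]
  norm_num

theorem int_mul_exp (β : ℝ) (hβ : 0 < β) :
    ∫ y in (0:ℝ)..2, y * Real.exp (-(β * y)) ≤ 1 / β ^ 2 := by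
  have hd : ∀ y ∈ Set.uIcc (0:ℝ) 2, HasDerivAt
      (fun y => -(y / β + 1 / β ^ 2) * Real.exp (-(β * y))) (y * Real.exp (-(β * y))) y := by
    intro y _
    have h1 : HasDerivAt (fun y : ℝ => -(y / β + 1 / β ^ 2)) (-(1 / β)) y := by
      have h0 : HasDerivAt (fun y : ℝ => y / β) (1 / β) y := (hasDerivAt_id' y).div_const β
      exact (h0.add_const (1 / β ^ 2)).fun_neg
    have h2 : HasDerivAt (fun y : ℝ => Real.exp (-(β * y))) (Real.exp (-(β * y)) * (-β)) y := by
      have h3 : HasDerivAt (fun y : ℝ => -(β * y)) (-β) y := by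
        have := ((hasDerivAt_id' y).const_mul β).fun_neg
        rwa [mul_one] at this
      exact h3.exp
    have hb : β ≠ 0 := hβ.ne'
    refine (h1.fun_mul h2).congr_deriv ?_
    have e : ∀ E : ℝ, -(1 / β) * E + -(y / β + 1 / β ^ 2) * (E * -β) = y * E := by
      intro E; field_simp; ring
    exact e _
  have hc : Continuous (fun y : ℝ => y * Real.exp (-(β * y))) := by fun_prop
  rw [intervalIntegral.integral_eq_sub_of_hasDerivAt hd (hc.intervalIntegrable _ _)]
  have h4 : 0 ≤ (2 / β + 1 / β ^ 2) * Real.exp (-(β * 2)) := by positivity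
  simp only [mul_zero, neg_zero, Real.exp_zero, zero_div, zero_add, mul_one]
  linarith

theorem block_left (β : ℝ) (l : ℂ) (m : ℕ) (hβ : 0 < β) (hl : 2 * ‖l‖ ≤ β) (hm : 1 ≤ m)
    (him : 0 ≤ l.im) :
    ∃ q : ℂ[X], q.degree < m ∧
      nsq (fun y => Complex.exp (-((β * y : ℝ) : ℂ)) - ep l q y) ≤ 5 / (m : ℝ) ^ 2 := by
  set z : ℂ := (β : ℂ) + Complex.I * l with hz
  have hzre : z.re = β - l.im := by simp [hz]; ring
  have hlim : |l.im| ≤ ‖l‖ := Complex.abs_im_le_norm l
  have hzre' : β / 2 ≤ z.re := by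
    rw [hzre]; have := (abs_le.1 hlim).2; linarith
  have hzn : ‖z‖ ≤ 3 / 2 * β := by
    calc ‖z‖ ≤ ‖(β : ℂ)‖ + ‖Complex.I * l‖ := norm_add_le _ _
      _ = β + ‖l‖ := by
        rw [norm_mul, Complex.norm_I, one_mul, Complex.norm_real, Real.norm_eq_abs, abs_of_pos hβ]
      _ ≤ _ := by linarith
  let G : ℝ → ℂ := fun y => Complex.exp (-(z * y))
  have hGd : ∀ y : ℝ, HasDerivAt G (Complex.exp (-(z * y)) * (-z)) y := by
    intro y
    have h3 : HasDerivAt (fun y : ℝ => -(z * (y : ℂ))) (-z) y := by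
      have h0 : HasDerivAt (fun y : ℝ => (y : ℂ)) 1 y := by
        exact Complex.ofRealCLM.hasDerivAt (x := y)
      have := (h0.const_mul z).fun_neg
      rwa [mul_one] at this
    exact h3.cexp
  have hG : ContDiff ℝ 1 G := by
    have : ContDiff ℝ 1 (fun y : ℝ => -(z * (y : ℂ))) := by
      exact (contDiff_const.mul Complex.ofRealCLM.contDiff).neg
    exact this.cexp
  obtain ⟨q, hq, hqb⟩ := jackson m hm G hG
  have hmr : (0 : ℝ) < (m : ℝ) ^ 2 := by
    have : (0 : ℝ) < m := by exact_mod_cast hm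
    positivity
  refine ⟨q, hq, ?_⟩
  rw [le_div_iff₀ hmr, mul_comm]
  have hqc : Continuous (fun y : ℝ => q.eval (y : ℂ)) := by
    exact (q.continuous).comp Complex.continuous_ofReal
  have hGc : Continuous G := hG.continuous
  have hfac : ∀ y : ℝ, Complex.exp (-((β * y : ℝ) : ℂ)) - ep l q y
      = Complex.exp (Complex.I * l * y) * (G y - q.eval (y : ℂ)) := by
    intro y
    simp only [ep, G]
    rw [mul_sub, ← Complex.exp_add]
    congr 2
    rw [hz]; push_cast; ring
  have step1 : nsq (fun y => Complex.exp (-((β * y : ℝ) : ℂ)) - ep l q y)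
      ≤ nsq (fun y => G y - q.eval (y : ℂ)) := by
    unfold nsq
    apply intervalIntegral.integral_mono_on (by norm_num)
    · apply Continuous.intervalIntegrable
      simp only [ep]
      have : Continuous (fun y : ℝ => Complex.exp (-((β * y : ℝ) : ℂ)) -
          Complex.exp (Complex.I * l * y) * q.eval (y : ℂ)) := by
        fun_prop
      exact (this.norm).pow 2
    · apply Continuous.intervalIntegrable
      exact ((hGc.sub hqc).norm).pow 2
    · intro y hy
      beta_reduce
      rw [hfac, norm_mul, mul_pow]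
      have h5 : ‖Complex.exp (Complex.I * l * y)‖ ≤ 1 := by
        rw [Complex.norm_exp, Real.exp_le_one_iff]
        have : (Complex.I * l * y).re = -(l.im * y) := by simp
        rw [this]
        have := mul_nonneg him hy.1
        linarith
      have h6 : ‖Complex.exp (Complex.I * l * y)‖ ^ 2 ≤ 1 := pow_le_one₀ (norm_nonneg _) h5
      exact mul_le_of_le_one_left (by positivity) h6
  have step2 : ∫ y in (0:ℝ)..2, wt y * ‖deriv G y‖ ^ 2 ≤
      ∫ y in (0:ℝ)..2, (2 * ‖z‖ ^ 2) * (y * Real.exp (-(β * y))) := by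
    apply intervalIntegral.integral_mono_on (by norm_num)
    · apply Continuous.intervalIntegrable
      have hdG : deriv G = fun y : ℝ => Complex.exp (-(z * y)) * (-z) := funext fun y => (hGd y).deriv
      rw [hdG]
      simp only [wt]
      fun_prop
    · apply Continuous.intervalIntegrable
      fun_prop
    · intro y hy
      rw [(hGd y).deriv, norm_mul, norm_neg, Complex.norm_exp, mul_pow, ← Real.exp_nat_mul]
      have h7 : (-(z * (y : ℂ))).re = -(z.re * y) := by simp
      rw [h7]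
      have h8 : Real.exp (((2 : ℕ) : ℝ) * -(z.re * y)) ≤ Real.exp (-(β * y)) := by
        apply Real.exp_le_exp.2
        push_cast
        nlinarith [hy.1]
      have h9 : wt y ≤ 2 * y := by
        simp only [wt]; nlinarith [hy.1]
      have h10 : 0 ≤ wt y := by
        simp only [wt]; exact mul_nonneg hy.1 (by linarith [hy.2])
      calc wt y * (Real.exp (((2 : ℕ) : ℝ) * -(z.re * y)) * ‖z‖ ^ 2)
          ≤ (2 * y) * (Real.exp (-(β * y)) * ‖z‖ ^ 2) := by
            apply mul_le_mul h9 _ (by positivity) (by linarith [hy.1])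
            exact mul_le_mul_of_nonneg_right h8 (by positivity)
        _ = _ := by ring
  rw [intervalIntegral.integral_const_mul] at step2
  have h11 := int_mul_exp β hβ
  have h12 : (2 * ‖z‖ ^ 2) * (∫ y in (0:ℝ)..2, y * Real.exp (-(β * y))) ≤ 5 := by
    have hz2 : ‖z‖ ^ 2 ≤ (3 / 2 * β) ^ 2 := pow_le_pow_left₀ (norm_nonneg _) hzn 2
    calc (2 * ‖z‖ ^ 2) * (∫ y in (0:ℝ)..2, y * Real.exp (-(β * y)))
        ≤ (2 * ‖z‖ ^ 2) * (1 / β ^ 2) := mul_le_mul_of_nonneg_left h11 (by positivity)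
      _ ≤ (2 * (3 / 2 * β) ^ 2) * (1 / β ^ 2) :=
          mul_le_mul_of_nonneg_right (by linarith) (by positivity)
      _ = 9 / 2 := by field_simp; norm_num
      _ ≤ 5 := by norm_num
  calc (m : ℝ) ^ 2 * nsq (fun y => Complex.exp (-((β * y : ℝ) : ℂ)) - ep l q y)
      ≤ (m : ℝ) ^ 2 * nsq (fun y => G y - q.eval (y : ℂ)) :=
        mul_le_mul_of_nonneg_left step1 hmr.le
    _ ≤ _ := hqb
    _ ≤ _ := step2
    _ ≤ 5 := h12

theorem block_right (β : ℝ) (l : ℂ) (m : ℕ) (hβ : 0 < β) (hl : 2 * ‖l‖ ≤ β) (hm : 1 ≤ m)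
    (him : l.im ≤ 0) :
    ∃ q : ℂ[X], q.degree < m ∧
      nsq (fun y => Complex.exp ((β * (y - 2) : ℝ) : ℂ) - ep l q y) ≤ 5 / (m : ℝ) ^ 2 := by
  obtain ⟨q, hq, hb⟩ := block_left β (-l) m hβ (by rwa [norm_neg]) hm
    (by rw [Complex.neg_im]; linarith)
  refine ⟨C (Complex.exp (-(2 * Complex.I * l))) * q.comp (C 2 - X), ?_, ?_⟩
  · rw [Polynomial.degree_C_mul (Complex.exp_ne_zero _)]
    have h1 : (q.comp (C 2 - X)).degree ≤ q.degree := by
      by_cases hq0 : q = 0
      · simp [hq0]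
      · refine (Polynomial.degree_le_natDegree).trans ?_
        rw [Polynomial.degree_eq_natDegree hq0]
        have h2 := Polynomial.natDegree_comp (p := q) (q := (C 2 - X : ℂ[X]))
        have h3 : (C 2 - X : ℂ[X]).natDegree = 1 := by
          have : (C 2 - X : ℂ[X]) = -(X - C 2) := by ring
          rw [this, Polynomial.natDegree_neg, Polynomial.natDegree_X_sub_C]
        rw [h2, h3, mul_one]
    exact lt_of_le_of_lt h1 hq
  · rw [← nsq_reflect] at hb
    refine le_of_eq_of_le ?_ hb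
    congr 1
    funext y
    simp only [ep, Polynomial.eval_mul, Polynomial.eval_C, Polynomial.eval_comp,
      Polynomial.eval_sub, Polynomial.eval_X]
    have e1 : -((β * (2 - y) : ℝ) : ℂ) = ((β * (y - 2) : ℝ) : ℂ) := by push_cast; ring
    have e2 : ((2 - y : ℝ) : ℂ) = 2 - (y : ℂ) := by push_cast; ring
    rw [e1, e2, ← mul_assoc, ← Complex.exp_add]
    congr 3
    ring

theorem nsq_block_left (β : ℝ) (hβ : 1 ≤ β) :
    1 / (4 * β) ≤ nsq (fun y => Complex.exp (-((β * y : ℝ) : ℂ))) := by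
  have h0 : (0 : ℝ) < β := by linarith
  have h1 : nsq (fun y => Complex.exp (-((β * y : ℝ) : ℂ)))
      = ∫ y in (0:ℝ)..2, Real.exp (-(2 * β) * y) := by
    unfold nsq
    refine intervalIntegral.integral_congr (fun y _ => ?_)
    beta_reduce
    rw [Complex.norm_exp, ← Real.exp_nat_mul]
    congr 1
    simp only [Complex.neg_re, Complex.ofReal_re]
    push_cast
    ring
  have hd : ∀ y ∈ Set.uIcc (0:ℝ) 2, HasDerivAt
      (fun y => -(1 / (2 * β)) * Real.exp (-(2 * β) * y)) (Real.exp (-(2 * β) * y)) y := by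
    intro y _
    have h3 : HasDerivAt (fun y : ℝ => -(2 * β) * y) (-(2 * β)) y := by
      have := (hasDerivAt_id' y).const_mul (-(2 * β))
      rwa [mul_one] at this
    have hb : β ≠ 0 := h0.ne'
    refine ((h3.exp).const_mul (-(1 / (2 * β)))).congr_deriv ?_
    have e : ∀ E : ℝ, -(1 / (2 * β)) * (E * -(2 * β)) = E := by
      intro E; field_simp
    exact e _
  have hc : Continuous (fun y : ℝ => Real.exp (-(2 * β) * y)) := by fun_prop
  rw [h1, intervalIntegral.integral_eq_sub_of_hasDerivAt hd (hc.intervalIntegrable _ _)]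
  simp only [mul_zero, Real.exp_zero, mul_one]
  have h2 : Real.exp (-(2 * β) * 2) ≤ 1 / 2 := by
    have h4 : Real.exp (-(2 * β) * 2) ≤ Real.exp (-1) := Real.exp_le_exp.2 (by linarith)
    have h5 : Real.exp (-1) ≤ 1 / 2 := by
      rw [Real.exp_neg, one_div]
      apply inv_anti₀ (by norm_num)
      have := Real.add_one_le_exp (1 : ℝ)
      linarith
    linarith
  have h6 : -(1 / (2 * β)) * Real.exp (-(2 * β) * 2) - -(1 / (2 * β))
      = (1 / (2 * β)) * (1 - Real.exp (-(2 * β) * 2)) := by ring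
  rw [h6]
  calc 1 / (4 * β) = (1 / (2 * β)) * (1 / 2) := by field_simp; norm_num
    _ ≤ _ := mul_le_mul_of_nonneg_left (by linarith) (by positivity)

/-- squared norm of the blockers -/
theorem nsq_block (β : ℝ) (hβ : 1 ≤ β) :
    1 / (4 * β) ≤ nsq (fun y => Complex.exp (-((β * y : ℝ) : ℂ))) ∧
    1 / (4 * β) ≤ nsq (fun y => Complex.exp ((β * (y - 2) : ℝ) : ℂ)) := by
  refine ⟨nsq_block_left β hβ, ?_⟩
  have h1 := nsq_block_left β hβ
  rw [← nsq_reflect] at h1
  refine h1.trans (le_of_eq ?_)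
  congr 1
  funext y
  congr 1
  push_cast
  ring

end Pool.Agent.MP_12ef2a_an
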