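import Mathlib
import Pool.Agent.MP_12ef2a_an.Defs
import Pool.Agent.MP_12ef2a_an.B2
import Pool.Agent.MP_12ef2a_an.E2

set_option autoImplicit false

open MeasureTheory Polynomial

namespace Pool.Agent.MP_12ef2a_an

/-! stubs of other tasks -/

/-! auxiliary results for task F -/

/-- Cauchy-Schwarz for continuous functions -/
lemma F_cs (f g : ℝ → ℝ) (hf : Continuous f) (hg : Continuous g) :
    ∫ y in (0:ℝ)..2, f y * g y ≤
      Real.sqrt (∫ y in (0:ℝ)..2, f y ^ 2) * Real.sqrt (∫ y in (0:ℝ)..2, g y ^ 2) := by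
  have hff : IntervalIntegrable (fun y => f y ^ 2) volume 0 2 := (hf.pow 2).intervalIntegrable _ _
  have hgg : IntervalIntegrable (fun y => g y ^ 2) volume 0 2 := (hg.pow 2).intervalIntegrable _ _
  have hfg : IntervalIntegrable (fun y => f y * g y) volume 0 2 := (hf.mul hg).intervalIntegrable _ _
  have ha : 0 ≤ ∫ y in (0:ℝ)..2, f y ^ 2 :=
    intervalIntegral.integral_nonneg (by norm_num) (fun y _ => by positivity)
  have hb : 0 ≤ ∫ y in (0:ℝ)..2, g y ^ 2 :=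
    intervalIntegral.integral_nonneg (by norm_num) (fun y _ => by positivity)
  have key : ∀ t : ℝ, 0 ≤ (∫ y in (0:ℝ)..2, f y ^ 2) * (t * t)
      + (2 * ∫ y in (0:ℝ)..2, f y * g y) * t + ∫ y in (0:ℝ)..2, g y ^ 2 := by
    intro t
    have h1 : 0 ≤ ∫ y in (0:ℝ)..2, (t * f y + g y) ^ 2 :=
      intervalIntegral.integral_nonneg (by norm_num) (fun y _ => by positivity)
    have h2 : ∫ y in (0:ℝ)..2, (t * f y + g y) ^ 2
        = ∫ y in (0:ℝ)..2, ((t * t) * f y ^ 2 + (2 * t) * (f y * g y)) + g y ^ 2 := by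
      congr 1; ext y; ring
    rw [h2, intervalIntegral.integral_add ((hff.const_mul _).add (hfg.const_mul _)) hgg,
      intervalIntegral.integral_add (hff.const_mul _) (hfg.const_mul _),
      intervalIntegral.integral_const_mul, intervalIntegral.integral_const_mul] at h1
    linarith
  have hd := discrim_le_zero key
  unfold discrim at hd
  rw [← Real.sqrt_mul ha]
  refine Real.le_sqrt_of_sq_le ?_
  nlinarith

/-- one integration by parts -/
lemma F_osc (P P' : ℝ → ℂ) (hP : ∀ y, HasDerivAt P (P' y) y) (hP' : Continuous P') (z : ℂ)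
    (hz : z ≠ 0) :
    ‖∫ y in (0:ℝ)..2, P y * Complex.exp (z * y)‖ ≤
      (‖P 2‖ * ‖Complex.exp (z * (2:ℝ))‖ + ‖P 0‖
        + ∫ y in (0:ℝ)..2, ‖P' y‖ * ‖Complex.exp (z * y)‖) / ‖z‖ := by
  have hE : Continuous fun y : ℝ => Complex.exp (z * y) := by fun_prop
  have hv : ∀ y : ℝ, HasDerivAt (fun y : ℝ => Complex.exp (z * y) / z) (Complex.exp (z * y)) y := by
    intro y
    have h1 : HasDerivAt (fun y : ℂ => Complex.exp (z * y) / z) (Complex.exp (z * y)) (y : ℂ) := by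
      have h2 : HasDerivAt (fun y : ℂ => z * y) z (y : ℂ) := by
        simpa using (hasDerivAt_id (y : ℂ)).const_mul z
      have h3 := (h2.cexp).div_const z
      rwa [mul_div_assoc, div_self hz, mul_one] at h3
    exact h1.comp_ofReal
  have hibp := intervalIntegral.integral_mul_deriv_eq_deriv_mul (a := (0:ℝ)) (b := 2)
    (u := P) (v := fun y : ℝ => Complex.exp (z * y) / z) (u' := P')
    (v' := fun y : ℝ => Complex.exp (z * y)) (fun y _ => hP y) (fun y _ => hv y)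
    (hP'.intervalIntegrable _ _) (hE.intervalIntegrable _ _)
  rw [hibp]
  have hz0 : 0 < ‖z‖ := norm_pos_iff.2 hz
  have h1 : ‖P 2 * (Complex.exp (z * (2:ℝ)) / z)‖ = ‖P 2‖ * ‖Complex.exp (z * (2:ℝ))‖ / ‖z‖ := by
    rw [norm_mul, norm_div, mul_div_assoc]
  have h2 : ‖P 0 * (Complex.exp (z * (0:ℝ)) / z)‖ = ‖P 0‖ / ‖z‖ := by
    rw [norm_mul, norm_div]; simp [div_eq_mul_inv]
  have h3 : ‖∫ y in (0:ℝ)..2, P' y * (Complex.exp (z * y) / z)‖
      ≤ (∫ y in (0:ℝ)..2, ‖P' y‖ * ‖Complex.exp (z * y)‖) / ‖z‖ := by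
    refine (intervalIntegral.norm_integral_le_integral_norm (by norm_num)).trans (le_of_eq ?_)
    rw [← intervalIntegral.integral_div]
    congr 1; ext y
    rw [norm_mul, norm_div, mul_div_assoc]
  calc _ ≤ ‖P 2 * (Complex.exp (z * (2:ℝ)) / z)‖ + ‖P 0 * (Complex.exp (z * (0:ℝ)) / z)‖
        + ‖∫ y in (0:ℝ)..2, P' y * (Complex.exp (z * y) / z)‖ :=
        (norm_sub_le _ _).trans (add_le_add_left (norm_sub_le _ _) _)
    _ ≤ _ := by
        rw [h1, h2, add_div, add_div]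
        gcongr

lemma F_hasDerivAt (p : ℂ[X]) (y : ℝ) :
    HasDerivAt (fun y : ℝ => p.eval (y : ℂ)) ((derivative p).eval (y : ℂ)) y :=
  (p.hasDerivAt (y : ℂ)).comp_ofReal

lemma F_hasDerivAt_conj (p : ℂ[X]) (y : ℝ) :
    HasDerivAt (fun y : ℝ => (starRingEnd ℂ) (p.eval (y : ℂ)))
      ((starRingEnd ℂ) ((derivative p).eval (y : ℂ))) y :=
  (F_hasDerivAt p y).star

lemma F_norm_exp (l y : ℝ) : ‖Complex.exp (Complex.I * l * y)‖ = 1 := by
  have : Complex.I * l * y = ((l * y : ℝ) : ℂ) * Complex.I := by push_cast; ring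
  rw [this, Complex.norm_exp_ofReal_mul_I]

lemma F_nsq_ep (l : ℝ) (p : ℂ[X]) :
    nsq (ep l p) = ∫ y in (0:ℝ)..2, ‖p.eval (y : ℂ)‖ ^ 2 := by
  unfold nsq ep
  congr 1; ext y
  rw [norm_mul, F_norm_exp, one_mul]

lemma F_cont (p : ℂ[X]) : Continuous fun y : ℝ => p.eval (y : ℂ) :=
  p.continuous.comp Complex.continuous_ofReal

/-- consequence of Markov: norm of the derivative -/
lemma F_markov (N : ℕ) (p : ℂ[X]) (hp : p.degree < N) :
    Real.sqrt (∫ y in (0:ℝ)..2, ‖(derivative p).eval (y : ℂ)‖ ^ 2) ≤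
      (N : ℝ) ^ 2 * Real.sqrt (∫ y in (0:ℝ)..2, ‖p.eval (y : ℂ)‖ ^ 2) := by
  have h := Real.sqrt_le_sqrt (markov N p hp)
  have h2 : (N : ℝ) ^ 4 = ((N : ℝ) ^ 2) ^ 2 := by ring
  rwa [h2, Real.sqrt_mul (by positivity), Real.sqrt_sq (by positivity)] at h

lemma F_endpoints (N : ℕ) (p : ℂ[X]) (hp : p.degree < N) :
    Real.sqrt (‖p.eval 0‖ ^ 2 + ‖p.eval 2‖ ^ 2) ≤
      N * Real.sqrt (∫ y in (0:ℝ)..2, ‖p.eval (y : ℂ)‖ ^ 2) := by
  have h := Real.sqrt_le_sqrt (endpoints N p hp)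
  rwa [Real.sqrt_mul (by positivity), Real.sqrt_sq (by positivity)] at h

theorem cross_clusters (N : ℕ) (p q : ℂ[X]) (hp : p.degree < N) (hq : q.degree < N)
    (l l' : ℝ) (hl : l ≠ l') :
    ‖ip (ep l p) (ep l' q)‖ ≤
      4 * (N : ℝ) ^ 2 / |l - l'| * Real.sqrt (nsq (ep l p)) * Real.sqrt (nsq (ep l' q)) := by
  rw [F_nsq_ep, F_nsq_ep]
  set A := Real.sqrt (∫ y in (0:ℝ)..2, ‖p.eval (y : ℂ)‖ ^ 2) with hA
  set B := Real.sqrt (∫ y in (0:ℝ)..2, ‖q.eval (y : ℂ)‖ ^ 2) with hB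
  have hA0 : 0 ≤ A := Real.sqrt_nonneg _
  have hB0 : 0 ≤ B := Real.sqrt_nonneg _
  set z : ℂ := Complex.I * ((l' - l : ℝ) : ℂ) with hz
  have hzn : ‖z‖ = |l - l'| := by
    rw [hz, norm_mul, Complex.norm_I, one_mul, Complex.norm_real, Real.norm_eq_abs, abs_sub_comm]
  have hpos : 0 < |l - l'| := abs_pos.2 (sub_ne_zero.2 hl)
  have hz0 : z ≠ 0 := by rw [← norm_pos_iff, hzn]; exact hpos
  have hip : ip (ep l p) (ep l' q) = ∫ y in (0:ℝ)..2,
      ((starRingEnd ℂ) (p.eval (y : ℂ)) * q.eval (y : ℂ)) * Complex.exp (z * y) := by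
    unfold ip ep
    congr 1; ext y
    rw [map_mul, ← Complex.exp_conj]
    have e : Complex.exp (z * y) = Complex.exp ((starRingEnd ℂ) (Complex.I * l * y))
        * Complex.exp (Complex.I * l' * y) := by
      rw [← Complex.exp_add]
      congr 1
      simp only [map_mul, Complex.conj_I, Complex.conj_ofReal, hz]
      push_cast; ring
    rw [e]; ring
  rw [hip]
  have hE : ∀ y : ℝ, ‖Complex.exp (z * y)‖ = 1 := by
    intro y
    have := F_norm_exp (l' - l) y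
    rwa [hz]
  have hosc := F_osc (fun y : ℝ => (starRingEnd ℂ) (p.eval (y : ℂ)) * q.eval (y : ℂ))
    (fun y : ℝ => (starRingEnd ℂ) ((derivative p).eval (y : ℂ)) * q.eval (y : ℂ)
      + (starRingEnd ℂ) (p.eval (y : ℂ)) * (derivative q).eval (y : ℂ))
    (fun y => (F_hasDerivAt_conj p y).mul (F_hasDerivAt q y))
    (by
      have h1 := F_cont p
      have h2 := F_cont q
      have h3 := F_cont (derivative p)
      have h4 := F_cont (derivative q)
      exact ((Complex.continuous_conj.comp h3).mul h2).add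
        ((Complex.continuous_conj.comp h1).mul h4)) z hz0
  refine hosc.trans ?_
  rw [hE, mul_one, hzn]
  have hI : ∫ y in (0:ℝ)..2, ‖(starRingEnd ℂ) ((derivative p).eval (y : ℂ)) * q.eval (y : ℂ)
      + (starRingEnd ℂ) (p.eval (y : ℂ)) * (derivative q).eval (y : ℂ)‖ * ‖Complex.exp (z * y)‖
      ≤ 2 * (N : ℝ) ^ 2 * (A * B) := by
    have c1 : Continuous fun y : ℝ => ‖(derivative p).eval (y : ℂ)‖ * ‖q.eval (y : ℂ)‖ :=
      (F_cont (derivative p)).norm.mul (F_cont q).norm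
    have c2 : Continuous fun y : ℝ => ‖p.eval (y : ℂ)‖ * ‖(derivative q).eval (y : ℂ)‖ :=
      (F_cont p).norm.mul (F_cont (derivative q)).norm
    have h1 : ∫ y in (0:ℝ)..2, ‖(starRingEnd ℂ) ((derivative p).eval (y : ℂ)) * q.eval (y : ℂ)
        + (starRingEnd ℂ) (p.eval (y : ℂ)) * (derivative q).eval (y : ℂ)‖ * ‖Complex.exp (z * y)‖
        ≤ ∫ y in (0:ℝ)..2, (‖(derivative p).eval (y : ℂ)‖ * ‖q.eval (y : ℂ)‖
          + ‖p.eval (y : ℂ)‖ * ‖(derivative q).eval (y : ℂ)‖) := by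
      refine intervalIntegral.integral_mono_on (by norm_num) ?_ ?_ (fun y _ => ?_)
      · apply Continuous.intervalIntegrable
        have h1 := F_cont p
        have h2 := F_cont q
        have h3 := F_cont (derivative p)
        have h4 := F_cont (derivative q)
        exact (((Complex.continuous_conj.comp h3).mul h2).add
          ((Complex.continuous_conj.comp h1).mul h4)).norm.mul (by fun_prop)
      · exact (c1.add c2).intervalIntegrable _ _
      · rw [hE, mul_one]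
        refine (norm_add_le _ _).trans (le_of_eq ?_)
        rw [norm_mul, norm_mul, RCLike.norm_conj, RCLike.norm_conj]
    rw [intervalIntegral.integral_add (c1.intervalIntegrable _ _) (c2.intervalIntegrable _ _)] at h1
    have h2 := F_cs (fun y : ℝ => ‖(derivative p).eval (y : ℂ)‖) (fun y : ℝ => ‖q.eval (y : ℂ)‖)
      (F_cont _).norm (F_cont _).norm
    have h3 := F_cs (fun y : ℝ => ‖p.eval (y : ℂ)‖) (fun y : ℝ => ‖(derivative q).eval (y : ℂ)‖)
      (F_cont _).norm (F_cont _).norm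
    have h4 := F_markov N p hp
    have h5 := F_markov N q hq
    rw [← hA] at h4 h3
    rw [← hB] at h5 h2
    have h6 := mul_le_mul_of_nonneg_right h4 hB0
    have h7 := mul_le_mul_of_nonneg_left h5 hA0
    linarith
  have hend : ‖(starRingEnd ℂ) (p.eval ((2:ℝ) : ℂ)) * q.eval ((2:ℝ) : ℂ)‖
      + ‖(starRingEnd ℂ) (p.eval ((0:ℝ) : ℂ)) * q.eval ((0:ℝ) : ℂ)‖ ≤ (N : ℝ) ^ 2 * (A * B) := by
    rw [norm_mul, norm_mul, RCLike.norm_conj, RCLike.norm_conj]
    push_cast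
    have h1 := F_endpoints N p hp
    have h2 := F_endpoints N q hq
    rw [← hA] at h1
    rw [← hB] at h2
    have h3 : ‖p.eval 2‖ * ‖q.eval 2‖ + ‖p.eval 0‖ * ‖q.eval 0‖
        ≤ Real.sqrt (‖p.eval 0‖ ^ 2 + ‖p.eval 2‖ ^ 2)
          * Real.sqrt (‖q.eval 0‖ ^ 2 + ‖q.eval 2‖ ^ 2) := by
      rw [← Real.sqrt_mul (by positivity)]
      refine Real.le_sqrt_of_sq_le ?_
      nlinarith [sq_nonneg (‖p.eval 2‖ * ‖q.eval 0‖ - ‖p.eval 0‖ * ‖q.eval 2‖)]
    refine h3.trans ?_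
    calc _ ≤ (N * A) * (N * B) := by gcongr
      _ = _ := by ring
  rw [div_mul_eq_mul_div, div_mul_eq_mul_div]
  gcongr
  nlinarith [mul_nonneg hA0 hB0, sq_nonneg (N : ℝ), mul_nonneg (sq_nonneg (N : ℝ)) (mul_nonneg hA0 hB0)]

/-- common part of the two blocker estimates: `g = exp (b y + c)` with `|b| = β`, `g ≤ 1` -/
lemma F_block (N : ℕ) (p : ℂ[X]) (hp : p.degree < N) (l β b c : ℝ) (hβ : 1 ≤ β) (hb : |b| = β)
    (h0 : c ≤ 0) (h2 : b * 2 + c ≤ 0)
    (hn : 1 / (4 * β) ≤ ∫ y in (0:ℝ)..2, Real.exp (b * y + c) ^ 2) :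
    ‖∫ y in (0:ℝ)..2, (starRingEnd ℂ) (Complex.exp (Complex.I * l * y) * p.eval (y : ℂ))
        * Complex.exp (((b * y + c : ℝ) : ℂ))‖ ≤
      (4 * N * Real.sqrt β + 2 * (N : ℝ) ^ 2) / max |l| β
        * Real.sqrt (∫ y in (0:ℝ)..2, ‖p.eval (y : ℂ)‖ ^ 2) *
        Real.sqrt (∫ y in (0:ℝ)..2, Real.exp (b * y + c) ^ 2) := by
  set A := Real.sqrt (∫ y in (0:ℝ)..2, ‖p.eval (y : ℂ)‖ ^ 2) with hA
  set G := Real.sqrt (∫ y in (0:ℝ)..2, Real.exp (b * y + c) ^ 2) with hG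
  have hA0 : 0 ≤ A := Real.sqrt_nonneg _
  have hG0 : 0 ≤ G := Real.sqrt_nonneg _
  have hβ0 : 0 < β := by linarith
  set z : ℂ := (b : ℂ) - Complex.I * l with hz
  have hre : z.re = b := by simp [hz]
  have him : z.im = -l := by simp [hz]
  have hzn : max |l| β ≤ ‖z‖ := by
    apply max_le
    · have := Complex.abs_im_le_norm z
      rwa [him, abs_neg] at this
    · have := Complex.abs_re_le_norm z
      rwa [hre, hb] at this
  have hm : 0 < max |l| β := lt_of_lt_of_le hβ0 (le_max_right _ _)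
  have hz0 : z ≠ 0 := by rw [← norm_pos_iff]; linarith
  have hEn : ∀ y : ℝ, ‖Complex.exp (z * y)‖ = Real.exp (b * y) := by
    intro y
    rw [Complex.norm_exp]
    congr 1
    simp [hre]
  have hint : ∫ y in (0:ℝ)..2, (starRingEnd ℂ) (Complex.exp (Complex.I * l * y) * p.eval (y : ℂ))
        * Complex.exp (((b * y + c : ℝ) : ℂ))
      = (Real.exp c : ℂ) * ∫ y in (0:ℝ)..2, (starRingEnd ℂ) (p.eval (y : ℂ)) * Complex.exp (z * y) := by
    rw [← intervalIntegral.integral_const_mul]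
    congr 1; ext y
    rw [map_mul, ← Complex.exp_conj]
    have e : Complex.exp ((starRingEnd ℂ) (Complex.I * l * y)) * Complex.exp (((b * y + c : ℝ) : ℂ))
        = (Real.exp c : ℂ) * Complex.exp (z * y) := by
      rw [← Complex.exp_add, Complex.ofReal_exp, ← Complex.exp_add]
      congr 1
      simp only [map_mul, Complex.conj_I, Complex.conj_ofReal, hz]
      push_cast; ring
    calc _ = (Complex.exp ((starRingEnd ℂ) (Complex.I * l * y))
          * Complex.exp (((b * y + c : ℝ) : ℂ))) * (starRingEnd ℂ) (p.eval (y : ℂ)) := by ring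
      _ = _ := by rw [e]; ring
  rw [hint, norm_mul]
  have hec : ‖(Real.exp c : ℂ)‖ = Real.exp c := by
    rw [Complex.norm_real, Real.norm_eq_abs, abs_of_pos (Real.exp_pos _)]
  rw [hec]
  have hosc := F_osc (fun y : ℝ => (starRingEnd ℂ) (p.eval (y : ℂ)))
    (fun y : ℝ => (starRingEnd ℂ) ((derivative p).eval (y : ℂ)))
    (fun y => F_hasDerivAt_conj p y) (Complex.continuous_conj.comp (F_cont (derivative p))) z hz0
  have hec0 : 0 < Real.exp c := Real.exp_pos _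
  -- integral term
  have hI : Real.exp c * ∫ y in (0:ℝ)..2, ‖(starRingEnd ℂ) ((derivative p).eval (y : ℂ))‖
      * ‖Complex.exp (z * y)‖ ≤ (N : ℝ) ^ 2 * (A * G) := by
    have h1 : Real.exp c * ∫ y in (0:ℝ)..2, ‖(starRingEnd ℂ) ((derivative p).eval (y : ℂ))‖
        * ‖Complex.exp (z * y)‖
        = ∫ y in (0:ℝ)..2, ‖(derivative p).eval (y : ℂ)‖ * Real.exp (b * y + c) := by
      rw [← intervalIntegral.integral_const_mul]
      congr 1; ext y
      rw [RCLike.norm_conj, hEn, Real.exp_add]; ring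
    rw [h1]
    have h2 := F_cs (fun y : ℝ => ‖(derivative p).eval (y : ℂ)‖) (fun y : ℝ => Real.exp (b * y + c))
      (F_cont _).norm (by fun_prop)
    have h4 := F_markov N p hp
    rw [← hA] at h4
    rw [← hG] at h2
    have h6 := mul_le_mul_of_nonneg_right h4 hG0
    linarith
  -- endpoint terms
  have hGlow : 1 ≤ 2 * Real.sqrt β * G := by
    have h1 : Real.sqrt (1 / (4 * β)) ≤ G := Real.sqrt_le_sqrt hn
    have h2 : Real.sqrt (1 / (4 * β)) = 1 / (2 * Real.sqrt β) := by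
      rw [Real.sqrt_div (by norm_num), Real.sqrt_one, Real.sqrt_mul (by norm_num)]
      congr 2
      rw [show (4:ℝ) = 2 ^ 2 by norm_num, Real.sqrt_sq (by norm_num)]
    rw [h2] at h1
    have h3 : 0 < Real.sqrt β := Real.sqrt_pos.2 hβ0
    rw [div_le_iff₀ (by positivity)] at h1
    linarith
  have hend : Real.exp c * (‖(starRingEnd ℂ) (p.eval ((2:ℝ) : ℂ))‖ * ‖Complex.exp (z * (2:ℝ))‖
      + ‖(starRingEnd ℂ) (p.eval ((0:ℝ) : ℂ))‖) ≤ 2 * N * A := by
    rw [RCLike.norm_conj, RCLike.norm_conj, hEn]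
    push_cast
    have h1 := F_endpoints N p hp
    rw [← hA] at h1
    have h3 : ‖p.eval 2‖ ≤ Real.sqrt (‖p.eval 0‖ ^ 2 + ‖p.eval 2‖ ^ 2) := by
      refine Real.le_sqrt_of_sq_le ?_
      nlinarith [sq_nonneg ‖p.eval 0‖]
    have h4 : ‖p.eval 0‖ ≤ Real.sqrt (‖p.eval 0‖ ^ 2 + ‖p.eval 2‖ ^ 2) := by
      refine Real.le_sqrt_of_sq_le ?_
      nlinarith [sq_nonneg ‖p.eval 2‖]
    have h5 : Real.exp c * Real.exp (b * 2) ≤ 1 := by
      rw [← Real.exp_add]; exact Real.exp_le_one_iff.2 (by linarith)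
    have h6 : Real.exp c ≤ 1 := Real.exp_le_one_iff.2 h0
    calc Real.exp c * (‖p.eval 2‖ * Real.exp (b * 2) + ‖p.eval 0‖)
        = (Real.exp c * Real.exp (b * 2)) * ‖p.eval 2‖ + Real.exp c * ‖p.eval 0‖ := by ring
      _ ≤ 1 * ‖p.eval 2‖ + 1 * ‖p.eval 0‖ := by gcongr
      _ ≤ 2 * N * A := by linarith
  calc Real.exp c * ‖∫ y in (0:ℝ)..2, (starRingEnd ℂ) (p.eval (y : ℂ)) * Complex.exp (z * y)‖
      ≤ Real.exp c * ((‖(starRingEnd ℂ) (p.eval ((2:ℝ) : ℂ))‖ * ‖Complex.exp (z * (2:ℝ))‖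
        + ‖(starRingEnd ℂ) (p.eval ((0:ℝ) : ℂ))‖
        + ∫ y in (0:ℝ)..2, ‖(starRingEnd ℂ) ((derivative p).eval (y : ℂ))‖
          * ‖Complex.exp (z * y)‖) / ‖z‖) := by gcongr
    _ = (Real.exp c * (‖(starRingEnd ℂ) (p.eval ((2:ℝ) : ℂ))‖ * ‖Complex.exp (z * (2:ℝ))‖
        + ‖(starRingEnd ℂ) (p.eval ((0:ℝ) : ℂ))‖)
        + Real.exp c * ∫ y in (0:ℝ)..2, ‖(starRingEnd ℂ) ((derivative p).eval (y : ℂ))‖
          * ‖Complex.exp (z * y)‖) / ‖z‖ := by ring
    _ ≤ (2 * N * A + (N : ℝ) ^ 2 * (A * G)) / ‖z‖ := by gcongr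
    _ ≤ (2 * N * A * (2 * Real.sqrt β * G) + 2 * (N : ℝ) ^ 2 * (A * G)) / ‖z‖ := by
        have h1 : (2 * N * A : ℝ) ≤ 2 * N * A * (2 * Real.sqrt β * G) :=
          le_mul_of_one_le_right (by positivity) hGlow
        have h2 : 0 ≤ (N : ℝ) ^ 2 * (A * G) := by positivity
        gcongr ?_ / _
        linarith
    _ ≤ (2 * N * A * (2 * Real.sqrt β * G) + 2 * (N : ℝ) ^ 2 * (A * G)) / max |l| β := by
        gcongr
    _ = _ := by ring

theorem cross_left (N : ℕ) (p : ℂ[X]) (hp : p.degree < N) (l β : ℝ) (hβ : 1 ≤ β) :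
    ‖ip (ep l p) (fun y => Complex.exp (-((β * y : ℝ) : ℂ)))‖ ≤
      (4 * N * Real.sqrt β + 2 * (N : ℝ) ^ 2) / max |l| β * Real.sqrt (nsq (ep l p)) *
        Real.sqrt (nsq (fun y => Complex.exp (-((β * y : ℝ) : ℂ)))) := by
  have e : ∀ y : ℝ, Complex.exp (-((β * y : ℝ) : ℂ)) = Complex.exp ((((-β) * y + 0 : ℝ) : ℂ)) := by
    intro y; congr 1; push_cast; ring
  have en : nsq (fun y => Complex.exp (-((β * y : ℝ) : ℂ)))
      = ∫ y in (0:ℝ)..2, Real.exp ((-β) * y + 0) ^ 2 := by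
    unfold nsq
    congr 1; ext y
    beta_reduce
    rw [e, Complex.norm_exp_ofReal]
  have hn := (nsq_block β hβ).1
  rw [en] at hn
  rw [F_nsq_ep, en]
  have := F_block N p hp l β (-β) 0 hβ (by rw [abs_neg, abs_of_pos (by linarith)]) le_rfl
    (by linarith) hn
  refine le_trans (le_of_eq ?_) this
  unfold ip ep
  congr 2; ext y
  beta_reduce
  rw [e]

theorem cross_right (N : ℕ) (p : ℂ[X]) (hp : p.degree < N) (l β : ℝ) (hβ : 1 ≤ β) :
    ‖ip (ep l p) (fun y => Complex.exp ((β * (y - 2) : ℝ) : ℂ))‖ ≤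
      (4 * N * Real.sqrt β + 2 * (N : ℝ) ^ 2) / max |l| β * Real.sqrt (nsq (ep l p)) *
        Real.sqrt (nsq (fun y => Complex.exp ((β * (y - 2) : ℝ) : ℂ))) := by
  have e : ∀ y : ℝ, Complex.exp ((β * (y - 2) : ℝ) : ℂ) = Complex.exp (((β * y + (-2 * β) : ℝ) : ℂ)) := by
    intro y; congr 1; push_cast; ring
  have en : nsq (fun y => Complex.exp ((β * (y - 2) : ℝ) : ℂ))
      = ∫ y in (0:ℝ)..2, Real.exp (β * y + (-2 * β)) ^ 2 := by
    unfold nsq
    congr 1; ext y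
    beta_reduce
    rw [e, Complex.norm_exp_ofReal]
  have hn := (nsq_block β hβ).2
  rw [en] at hn
  rw [F_nsq_ep, en]
  have := F_block N p hp l β β (-2 * β) hβ (by rw [abs_of_pos (by linarith)]) (by linarith)
    (by linarith) hn
  refine le_trans (le_of_eq ?_) this
  unfold ip ep
  congr 2; ext y
  beta_reduce
  rw [e]

end Pool.Agent.MP_12ef2a_an
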