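import Mathlib
import Pool.Agent.MP_12ef2a_an.A1
import Pool.Agent.MP_12ef2a_an.A2
import Pool.Agent.MP_12ef2a_an.C2
import Pool.Agent.MP_12ef2a_an.D2
import Pool.Agent.MP_12ef2a_an.E1
import Pool.Agent.MP_12ef2a_an.F
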