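import Mathlib
import Pool.Agent.MP_12ef2a_an.Defs

set_option autoImplicit false

open MeasureTheory Polynomial

namespace Pool.Agent.MP_12ef2a_an

theorem continuous_ep (l : ℂ) (p : ℂ[X]) : Continuous (ep l p) := by
  unfold ep
  have : Continuous fun y : ℝ => p.eval (y : ℂ) := p.continuous.comp Complex.continuous_ofReal
  fun_prop

theorem norm_cexp_I_mul (l : ℂ) (y : ℝ) :
    ‖Complex.exp (Complex.I * l * y)‖ = Real.exp (-(l.im * y)) := by
  rw [Complex.norm_exp]
  congr 1
  simp [Complex.mul_re, Complex.mul_im]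

theorem ep_add (l : ℂ) (p q : ℂ[X]) : ep l (p + q) = ep l p + ep l q := by
  funext y; simp [ep, mul_add]

theorem ep_smul (l : ℂ) (c : ℂ) (p : ℂ[X]) : ep l (c • p) = c • ep l p := by
  funext y; simp [ep]; ring

/-- shift of the frequency by a real number does not change the modulus -/
theorem ep_shift (l : ℂ) (t : ℝ) (p : ℂ[X]) (y : ℝ) :
    ep (l + t) p y = Complex.exp (Complex.I * t * y) * ep l p y := by
  unfold ep
  rw [← mul_assoc, ← Complex.exp_add]
  congr 2
  ring

theorem norm_exp_real (t y : ℝ) : ‖Complex.exp (Complex.I * t * y)‖ = 1 := by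
  have h : Complex.I * (t : ℂ) * y = ((t * y : ℝ) : ℂ) * Complex.I := by push_cast; ring
  rw [h, Complex.norm_exp_ofReal_mul_I]

theorem nsq_shift (l : ℂ) (t : ℝ) (p : ℂ[X]) : nsq (ep (l + t) p) = nsq (ep l p) := by
  unfold nsq
  congr 1
  funext y
  rw [ep_shift, norm_mul, norm_exp_real, one_mul]

theorem nsq_exp_mul (t : ℝ) (f : ℝ → ℂ) :
    nsq (fun y => Complex.exp (Complex.I * t * y) * f y) = nsq f := by
  unfold nsq
  congr 1
  funext y
  rw [norm_mul, norm_exp_real, one_mul]

theorem nsq_nonneg (f : ℝ → ℂ) : 0 ≤ nsq f := by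
  unfold nsq
  apply intervalIntegral.integral_nonneg (by norm_num)
  intro y _
  positivity

theorem ip_exp_mul (t : ℝ) (f g : ℝ → ℂ) :
    ip (fun y => Complex.exp (Complex.I * t * y) * f y)
      (fun y => Complex.exp (Complex.I * t * y) * g y) = ip f g := by
  unfold ip
  congr 1
  funext y
  have h : (starRingEnd ℂ) (Complex.exp (Complex.I * t * y)) * Complex.exp (Complex.I * t * y) = 1 := by
    rw [← Complex.normSq_eq_conj_mul_self, Complex.normSq_eq_norm_sq, norm_exp_real]
    simp
  calc (starRingEnd ℂ) (Complex.exp (Complex.I * t * y) * f y) * (Complex.exp (Complex.I * t * y) * g y)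
      = ((starRingEnd ℂ) (Complex.exp (Complex.I * t * y)) * Complex.exp (Complex.I * t * y)) *
        ((starRingEnd ℂ) (f y) * g y) := by rw [map_mul]; ring
    _ = _ := by rw [h, one_mul]

/-- the derivative of an exponential polynomial -/
theorem hasDerivAt_ep (l : ℂ) (p : ℂ[X]) (y : ℝ) :
    HasDerivAt (ep l p) (ep l (derivative p + C (Complex.I * l) * p) y) y := by
  have h1 : HasDerivAt (fun z : ℂ => Complex.exp (Complex.I * l * z))
      (Complex.exp (Complex.I * l * y) * (Complex.I * l)) (y : ℂ) := by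
    have := ((hasDerivAt_id (y : ℂ)).const_mul (Complex.I * l)).cexp
    simpa using this
  have h2 : HasDerivAt (fun z : ℂ => p.eval z) ((derivative p).eval (y : ℂ)) (y : ℂ) :=
    p.hasDerivAt _
  have h3 := (h1.mul h2).comp_ofReal
  have h4 : ep l (derivative p + C (Complex.I * l) * p) y =
      Complex.exp (Complex.I * l * y) * (Complex.I * l) * p.eval (y : ℂ) +
        Complex.exp (Complex.I * l * y) * (derivative p).eval (y : ℂ) := by
    unfold ep
    rw [eval_add, eval_mul, eval_C]
    ring
  rw [h4]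
  exact h3

/-- surjectivity of `q ↦ q' + μ q` on polynomials of degree `< m` -/
theorem exists_antideriv (μ : ℂ) (hμ : μ ≠ 0) (m : ℕ) (p : ℂ[X]) (hp : p.degree < m) :
    ∃ q : ℂ[X], q.degree < m ∧ derivative q + C μ * q = p := by
  induction m generalizing p with
  | zero =>
    have : p = 0 := by
      rw [← Polynomial.degree_eq_bot]
      exact (Nat.WithBot.lt_zero_iff.mp hp)
    exact ⟨0, by simp, by simp [this]⟩
  | succ m ih =>
    -- subtract the top term
    set q₁ : ℂ[X] := C (μ⁻¹) * p with hq₁
    have hdeg1 : q₁.degree < (m + 1 : ℕ) := by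
      rw [hq₁, Polynomial.degree_C_mul (inv_ne_zero hμ)]
      exact hp
    have hres : p - (derivative q₁ + C μ * q₁) = - derivative q₁ := by
      have : C μ * q₁ = p := by
        rw [hq₁, ← mul_assoc, ← C_mul, mul_inv_cancel₀ hμ, C_1, one_mul]
      rw [this]; ring
    have hd : (-(derivative q₁)).degree < (m : ℕ) := by
      rw [Polynomial.degree_neg]
      by_cases h0 : q₁ = 0
      · rw [h0]; simp
      · have h2 := Polynomial.degree_derivative_lt h0
        have h3 : q₁.degree ≤ (m : ℕ) := by
          rw [Polynomial.degree_eq_natDegree h0] at hdeg1 ⊢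
          have : q₁.natDegree < m + 1 := by exact_mod_cast hdeg1
          exact_mod_cast Nat.lt_succ_iff.mp this
        exact lt_of_lt_of_le h2 h3
    obtain ⟨q₂, hq2, hq2'⟩ := ih _ hd
    refine ⟨q₁ + q₂, ?_, ?_⟩
    · refine lt_of_le_of_lt (Polynomial.degree_add_le _ _) (max_lt hdeg1 ?_)
      exact lt_trans hq2 (by exact_mod_cast Nat.lt_succ_self m)
    · rw [derivative_add, mul_add]
      have : derivative q₁ + derivative q₂ + (C μ * q₁ + C μ * q₂) =
          (derivative q₁ + C μ * q₁) + (derivative q₂ + C μ * q₂) := by ring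
      rw [this, hq2', ← hres]; ring

end Pool.Agent.MP_12ef2a_an
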