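import Mathlib
import Pool.Agent.MP_12ef2a_an.Emb

set_option autoImplicit false

open MeasureTheory Polynomial

namespace Pool.Agent.MP_12ef2a_an

/-- exponential polynomials as continuous functions, linear in the polynomial -/
noncomputable def epC (l : ℂ) : ℂ[X] →ₗ[ℂ] C(ℝ, ℂ) where
  toFun p := ⟨ep l p, continuous_ep l p⟩
  map_add' p q := by ext y; simp [ep_add]
  map_smul' c p := by ext y; simp [ep_smul]

@[simp] theorem epC_apply (l : ℂ) (p : ℂ[X]) (y : ℝ) : epC l p y = ep l p y := rfl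

theorem coe_epC (l : ℂ) (p : ℂ[X]) : ⇑(epC l p) = ep l p := rfl

section
variable {V : Type*} [NormedAddCommGroup V] [InnerProductSpace ℂ V]

/-- the family of subspaces attached to a divisor -/
noncomputable def expSub (emb : C(ℝ, ℂ) →ₗ[ℂ] V) (k : ℂ → ℕ) (l : ℂ) : Submodule ℂ V :=
  (degreeLT ℂ (k l)).map (emb ∘ₗ epC l)

theorem mem_expSub {emb : C(ℝ, ℂ) →ₗ[ℂ] V} {k : ℂ → ℕ} {l : ℂ} {f : V} :
    f ∈ expSub emb k l ↔ ∃ p : ℂ[X], p.degree < k l ∧ emb (epC l p) = f := by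
  unfold expSub
  rw [Submodule.mem_map]
  constructor
  · rintro ⟨p, hp, h⟩
    exact ⟨p, Polynomial.mem_degreeLT.mp hp, h⟩
  · rintro ⟨p, hp, h⟩
    exact ⟨p, Polynomial.mem_degreeLT.mpr hp, h⟩

instance finiteDimensional_expSub (emb : C(ℝ, ℂ) →ₗ[ℂ] V) (k : ℂ → ℕ) (l : ℂ) :
    FiniteDimensional ℂ (expSub emb k l) := by
  unfold expSub
  haveI : FiniteDimensional ℂ (degreeLT ℂ (k l)) := inferInstance
  infer_instance

theorem isClosed_expSub (emb : C(ℝ, ℂ) →ₗ[ℂ] V) (k : ℂ → ℕ) (l : ℂ) :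
    IsClosed (expSub emb k l : Set V) :=
  Submodule.closed_of_finiteDimensional _

/-- the embedding is isometric up to a constant factor -/
structure IsEmb (emb : C(ℝ, ℂ) →ₗ[ℂ] V) (c₀ : ℝ) : Prop where
  pos : 0 < c₀
  inner_eq : ∀ f g : C(ℝ, ℂ), inner ℂ (emb f) (emb g) = c₀ * ip f g

theorem ip_self (f : C(ℝ, ℂ)) : ip f f = (nsq f : ℂ) := by
  unfold ip nsq
  rw [← intervalIntegral.integral_ofReal]
  congr 1
  funext y
  rw [← Complex.normSq_eq_conj_mul_self, Complex.normSq_eq_norm_sq]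

theorem IsEmb.norm_sq {emb : C(ℝ, ℂ) →ₗ[ℂ] V} {c₀ : ℝ} (h : IsEmb emb c₀) (f : C(ℝ, ℂ)) :
    ‖emb f‖ ^ 2 = c₀ * nsq f := by
  have h1 := inner_self_eq_norm_sq_to_K (𝕜 := ℂ) (emb f)
  rw [h.inner_eq, ip_self] at h1
  have h2 : ((c₀ * nsq f : ℝ) : ℂ) = ((‖emb f‖ ^ 2 : ℝ) : ℂ) := by
    push_cast
    exact h1
  exact (Complex.ofReal_injective h2).symm

end

end Pool.Agent.MP_12ef2a_an
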