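import Mathlib
import Pool.Agent.MP_12ef2a_an.Fam

set_option autoImplicit false

open MeasureTheory Polynomial

namespace Pool.Agent.MP_12ef2a_an

section
variable {ι V : Type*} [NormedAddCommGroup V] [InnerProductSpace ℂ V]

/-- two different members of a Riesz family are at a positive angle -/
theorem pair_ineq [DecidableEq ι] (E : ι → Submodule ℂ V) (C : ℝ)
    (hlow : ∀ (s : Finset ι) (f : ι → V), (∀ i, f i ∈ E i) →
        ∑ i ∈ s, ‖f i‖ ^ 2 ≤ C * ‖∑ i ∈ s, f i‖ ^ 2)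
    {i j : ι} (hij : i ≠ j) {f g : V} (hf : f ∈ E i) (hg : g ∈ E j) :
    ‖f‖ ^ 2 ≤ C * ‖f - g‖ ^ 2 := by
  have h := hlow {i, j} (fun x => if x = i then f else if x = j then -g else 0) (by
    intro x
    by_cases h1 : x = i
    · subst h1; simpa using hf
    · by_cases h2 : x = j
      · subst h2; simpa [h1] using hg
      · simp [h1, h2])
  rw [Finset.sum_pair hij, Finset.sum_pair hij] at h
  simp only [if_true, hij.symm, if_false, norm_neg] at h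
  have h3 : f - g = f + -g := sub_eq_add_neg f g
  rw [h3]
  nlinarith [sq_nonneg ‖g‖]

/-- a common approximate vector contradicts the angle -/
theorem common_absurd [DecidableEq ι] (E : ι → Submodule ℂ V) (C : ℝ) (hC : 1 ≤ C)
    (hlow : ∀ (s : Finset ι) (f : ι → V), (∀ i, f i ∈ E i) →
        ∑ i ∈ s, ‖f i‖ ^ 2 ≤ C * ‖∑ i ∈ s, f i‖ ^ 2)
    {i j : ι} (hij : i ≠ j) {f e₁ e₂ : V} (h1 : e₁ ∈ E i) (h2 : e₂ ∈ E j)
    (hf : 0 < ‖f‖ ^ 2)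
    (h3 : ‖f - e₁‖ ^ 2 ≤ 1 / (64 * C) * ‖f‖ ^ 2)
    (h4 : ‖f - e₂‖ ^ 2 ≤ 1 / (64 * C) * ‖f‖ ^ 2) : False := by
  have hp := pair_ineq E C hlow hij h1 h2
  have hC0 : 0 < C := by linarith
  have hf0 : 0 < ‖f‖ := by
    rcases (norm_nonneg f).lt_or_eq with h | h
    · exact h
    · rw [← h] at hf; norm_num at hf
  -- norms
  have h5 : ‖e₁ - e₂‖ ≤ ‖f - e₁‖ + ‖f - e₂‖ := by
    have : e₁ - e₂ = (f - e₂) - (f - e₁) := by abel
    rw [this]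
    linarith [norm_sub_le (f - e₂) (f - e₁)]
  have h6 : ‖f‖ ≤ ‖f - e₁‖ + ‖e₁‖ := by
    calc ‖f‖ = ‖(f - e₁) + e₁‖ := by rw [sub_add_cancel]
      _ ≤ _ := norm_add_le _ _
  have h7 : C * ‖f - e₁‖ ^ 2 ≤ 1 / 64 * ‖f‖ ^ 2 := by
    have := mul_le_mul_of_nonneg_left h3 hC0.le
    calc C * ‖f - e₁‖ ^ 2 ≤ C * (1 / (64 * C) * ‖f‖ ^ 2) := this
      _ = 1 / 64 * ‖f‖ ^ 2 := by field_simp
  have h8 : C * ‖f - e₂‖ ^ 2 ≤ 1 / 64 * ‖f‖ ^ 2 := by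
    have := mul_le_mul_of_nonneg_left h4 hC0.le
    calc C * ‖f - e₂‖ ^ 2 ≤ C * (1 / (64 * C) * ‖f‖ ^ 2) := this
      _ = 1 / 64 * ‖f‖ ^ 2 := by field_simp
  have h9 : ‖f - e₁‖ ≤ 1 / 8 * ‖f‖ := by
    have : ‖f - e₁‖ ^ 2 ≤ (1 / 8 * ‖f‖) ^ 2 := by nlinarith [sq_nonneg ‖f - e₁‖]
    exact (sq_le_sq₀ (norm_nonneg _) (by positivity)).mp this
  have h10 : C * ‖e₁ - e₂‖ ^ 2 ≤ 1 / 16 * ‖f‖ ^ 2 := by
    have ha : ‖e₁ - e₂‖ ^ 2 ≤ 2 * ‖f - e₁‖ ^ 2 + 2 * ‖f - e₂‖ ^ 2 := by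
      have h0 : 0 ≤ ‖e₁ - e₂‖ := norm_nonneg _
      nlinarith [sq_nonneg (‖f - e₁‖ - ‖f - e₂‖), norm_nonneg (f - e₁), norm_nonneg (f - e₂)]
    nlinarith
  have h11 : 7 / 8 * ‖f‖ ≤ ‖e₁‖ := by linarith
  have h12 : (7 / 8 * ‖f‖) ^ 2 ≤ ‖e₁‖ ^ 2 := by
    apply pow_le_pow_left₀ (by positivity) h11
  nlinarith

end

/-- existence of a blocker of the right size -/
theorem blocker_exists (b : ℕ) (hb : 2 ≤ b) (κ K c : ℝ) (hκ : 0 < κ) (hK : 1 ≤ K) (hc : 0 < c) :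
    ∃ M₄ : ℕ, ∀ (M m : ℕ) (t : ℝ), M₄ ≤ M → κ * (M : ℝ) ^ 2 < m →
      t ≤ (M : ℝ) ^ 3 + 2 * M + K * m →
      ∃ j : ℕ, 1 ≤ j ∧ 2 * t ≤ (b : ℝ) ^ j ∧ (b : ℝ) ^ j ≤ c * (m : ℝ) ^ 2 := by
  have hb' : (2 : ℝ) ≤ b := by exact_mod_cast hb
  -- write m = x^2
  set D : ℝ := (1 / Real.sqrt κ) ^ 3 + 2 * (1 / Real.sqrt κ) + K with hD
  have hsκ : 0 < Real.sqrt κ := Real.sqrt_pos.mpr hκ
  have hD1 : 1 ≤ D := by
    have : 0 < 1 / Real.sqrt κ := by positivity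
    have h3 : 0 < (1 / Real.sqrt κ) ^ 3 := by positivity
    linarith
  set X : ℝ := 1 + 2 * b * D / c + b / c with hX
  have hX1 : 1 ≤ X := by
    have : 0 ≤ 2 * b * D / c := by positivity
    have : 0 ≤ (b : ℝ) / c := by positivity
    linarith
  obtain ⟨M₄, hM₄⟩ := exists_nat_ge (X / Real.sqrt κ)
  refine ⟨M₄, fun M m t hM hm ht => ?_⟩
  set x : ℝ := Real.sqrt m with hx
  have hxm : x ^ 2 = m := Real.sq_sqrt (by positivity)
  have hMx : Real.sqrt κ * M < x := by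
    rw [hx]
    apply Real.lt_sqrt_of_sq_lt
    rw [mul_pow, Real.sq_sqrt hκ.le]
    exact hm
  have hXx : X ≤ x := by
    have h1 : X / Real.sqrt κ ≤ M := le_trans hM₄ (by exact_mod_cast hM)
    rw [div_le_iff₀ hsκ] at h1
    linarith [mul_comm (M : ℝ) (Real.sqrt κ)]
  have hx1 : 1 ≤ x := le_trans hX1 hXx
  have hM2 : (M : ℝ) ≤ 1 / Real.sqrt κ * x := by
    rw [div_mul_eq_mul_div, one_mul, le_div_iff₀ hsκ]
    linarith [mul_comm (M : ℝ) (Real.sqrt κ)]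
  have ht2 : t ≤ D * x ^ 3 := by
    have h1 : (M : ℝ) ^ 3 ≤ (1 / Real.sqrt κ * x) ^ 3 := pow_le_pow_left₀ (by positivity) hM2 3
    have h2 : x ≤ x ^ 3 := by nlinarith [sq_nonneg x, mul_nonneg (sub_nonneg.mpr hx1) (sq_nonneg x)]
    have h3 : x ^ 2 ≤ x ^ 3 := by nlinarith [mul_nonneg (sub_nonneg.mpr hx1) (sq_nonneg x)]
    have h4 : 0 < 1 / Real.sqrt κ := by positivity
    calc t ≤ (M : ℝ) ^ 3 + 2 * M + K * m := ht
      _ ≤ (1 / Real.sqrt κ * x) ^ 3 + 2 * (1 / Real.sqrt κ * x) + K * x ^ 2 := by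
          rw [hxm]; linarith
      _ ≤ (1 / Real.sqrt κ) ^ 3 * x ^ 3 + 2 * (1 / Real.sqrt κ) * x ^ 3 + K * x ^ 3 := by
          have h5 : 2 * (1 / Real.sqrt κ * x) ≤ 2 * (1 / Real.sqrt κ) * x ^ 3 := by
            nlinarith [mul_le_mul_of_nonneg_left h2 h4.le]
          have h6 : K * x ^ 2 ≤ K * x ^ 3 := mul_le_mul_of_nonneg_left h3 (by linarith)
          rw [mul_pow]
          linarith
      _ = D * x ^ 3 := by rw [hD]; ring
  have hcm : c * (m : ℝ) ^ 2 = c * x ^ 4 := by rw [← hxm]; ring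
  have hcx : 2 * b * D ≤ c * x := by
    have : 2 * b * D / c ≤ x := by
      have : 0 ≤ (b : ℝ) / c := by positivity
      linarith
    rw [div_le_iff₀ hc] at this
    linarith [mul_comm x c]
  have hcb : (b : ℝ) ≤ c * x := by
    have : (b : ℝ) / c ≤ x := by
      have : 0 ≤ 2 * b * D / c := by positivity
      linarith
    rw [div_le_iff₀ hc] at this
    linarith [mul_comm x c]
  have hbig : (b : ℝ) ≤ c * (m : ℝ) ^ 2 := by
    rw [hcm]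
    have : x ≤ x ^ 4 := by nlinarith [sq_nonneg x, sq_nonneg (x ^ 2 - 1), pow_le_pow_left₀ (by norm_num : (0:ℝ) ≤ 1) hx1 3]
    nlinarith
  have hone : 1 ≤ c * (m : ℝ) ^ 2 := by linarith
  obtain ⟨j, hj1, hj2⟩ := exists_nat_pow_near hone (by linarith : (1 : ℝ) < b)
  refine ⟨j, ?_, ?_, hj1⟩
  · by_contra h0
    have : j = 0 := by omega
    subst this
    simp at hj2
    linarith
  · have h1 : 2 * D * x ^ 3 * b ≤ c * x ^ 4 := by
      have := mul_le_mul_of_nonneg_right hcx (by positivity : (0 : ℝ) ≤ x ^ 3)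
      nlinarith
    have h2 : 2 * D * x ^ 3 * b < (b : ℝ) ^ j * b := by
      rw [← pow_succ]
      calc _ ≤ c * x ^ 4 := h1
        _ = c * (m : ℝ) ^ 2 := hcm.symm
        _ < _ := hj2
    have h3 : 2 * D * x ^ 3 < (b : ℝ) ^ j := lt_of_mul_lt_mul_right h2 (by linarith)
    have h4 : 2 * D * x ^ 3 = 2 * (D * x ^ 3) := by ring
    rw [h4] at h3
    linarith

end Pool.Agent.MP_12ef2a_an
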