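import Mathlib
import Pool.Agent.MP_12ef2a_an.Fam
import Pool.Agent.MP_12ef2a_an.A2
import Pool.Agent.MP_12ef2a_an.F

set_option autoImplicit false

open MeasureTheory Polynomial

namespace Pool.Agent.MP_12ef2a_an

/-- left blocker -/
noncomputable def BL (β : ℝ) : C(ℝ, ℂ) := ⟨fun y => Complex.exp (-((β * y : ℝ) : ℂ)), by fun_prop⟩

/-- right blocker -/
noncomputable def BR (β : ℝ) : C(ℝ, ℂ) := ⟨fun y => Complex.exp ((β * (y - 2) : ℝ) : ℂ), by fun_prop⟩

theorem coe_BL (β : ℝ) : ⇑(BL β) = fun y : ℝ => Complex.exp (-((β * y : ℝ) : ℂ)) := rfl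
theorem coe_BR (β : ℝ) : ⇑(BR β) = fun y : ℝ => Complex.exp ((β * (y - 2) : ℝ) : ℂ) := rfl

/-- normalised correlation at most `ε` -/
def NO (ε : ℝ) (f g : C(ℝ, ℂ)) : Prop :=
  ‖ip f g‖ ≤ ε * (Real.sqrt (nsq f) * Real.sqrt (nsq g))

theorem ip_conj (f g : ℝ → ℂ) : (starRingEnd ℂ) (ip f g) = ip g f := by
  unfold ip
  rw [← intervalIntegral.intervalIntegral_conj]
  congr 1
  funext y
  simp [mul_comm]

theorem norm_ip_comm (f g : ℝ → ℂ) : ‖ip f g‖ = ‖ip g f‖ := by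
  rw [← ip_conj g f, RCLike.norm_conj]

theorem NO.symm {ε : ℝ} {f g : C(ℝ, ℂ)} (h : NO ε f g) : NO ε g f := by
  unfold NO at *
  rw [norm_ip_comm, mul_comm (Real.sqrt _)]
  exact h

theorem NO.mono {ε ε' : ℝ} {f g : C(ℝ, ℂ)} (h : NO ε f g) (hε : ε ≤ ε') : NO ε' f g := by
  unfold NO at *
  refine h.trans ?_
  gcongr

theorem nsq_smul' (c : ℂ) (f : C(ℝ, ℂ)) : nsq ⇑(c • f) = ‖c‖ ^ 2 * nsq f := by
  unfold nsq
  rw [← intervalIntegral.integral_const_mul]
  congr 1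
  funext y
  simp [mul_pow]

theorem ip_smul_right' (c : ℂ) (f g : C(ℝ, ℂ)) : ip ⇑f ⇑(c • g) = c * ip f g := by
  unfold ip
  rw [← intervalIntegral.integral_const_mul]
  congr 1
  funext y
  simp
  ring

theorem NO.smul_right {ε : ℝ} {f g : C(ℝ, ℂ)} (c : ℂ) (h : NO ε f g) : NO ε f (c • g) := by
  unfold NO at *
  rw [ip_smul_right', norm_mul, nsq_smul', Real.sqrt_mul (by positivity), Real.sqrt_sq (by positivity)]
  have := mul_le_mul_of_nonneg_left h (norm_nonneg c)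
  linarith

theorem NO.smul_left {ε : ℝ} {f g : C(ℝ, ℂ)} (c : ℂ) (h : NO ε f g) : NO ε (c • f) g :=
  (h.symm.smul_right c).symm


/-! ### integrals of exponentials -/

theorem int_exp_neg (γ : ℝ) (hγ : 0 < γ) : ∫ y in (0:ℝ)..2, Real.exp (-(γ * y)) ≤ 1 / γ := by
  have h1 : ∀ y ∈ Set.uIcc (0:ℝ) 2,
      HasDerivAt (fun y => -(Real.exp (-(γ * y)) / γ)) (Real.exp (-(γ * y))) y := by
    intro y _
    have h := (((hasDerivAt_id y).const_mul γ).neg.exp.div_const γ).neg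
    have e : -(Real.exp (-(γ * id y)) * -(γ * 1) / γ) = Real.exp (-(γ * y)) := by
      simp only [id]
      field_simp
    rw [← e]
    exact h
  rw [intervalIntegral.integral_eq_sub_of_hasDerivAt h1
    (Continuous.intervalIntegrable (by fun_prop) _ _)]
  have h2 : 0 < Real.exp (-(γ * 2)) / γ := by positivity
  simp only [mul_zero, neg_zero, Real.exp_zero]
  linarith

theorem int_exp_right (γ : ℝ) (hγ : 0 < γ) :
    ∫ y in (0:ℝ)..2, Real.exp (γ * (y - 2)) ≤ 1 / γ := by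
  have h := intervalIntegral.integral_comp_sub_left (a := 0) (b := 2)
    (fun y => Real.exp (-(γ * y))) 2
  have h2 : ∀ y : ℝ, Real.exp (-(γ * (2 - y))) = Real.exp (γ * (y - 2)) := fun y => by ring_nf
  simp only [h2] at h
  rw [h]
  norm_num
  simpa using int_exp_neg γ hγ

theorem norm_BL (β y : ℝ) : ‖BL β y‖ = Real.exp (-(β * y)) := by
  change ‖Complex.exp (-((β * y : ℝ) : ℂ))‖ = _
  rw [Complex.norm_exp]; simp

theorem norm_BR (β y : ℝ) : ‖BR β y‖ = Real.exp (β * (y - 2)) := by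
  change ‖Complex.exp ((β * (y - 2) : ℝ) : ℂ)‖ = _
  rw [Complex.norm_exp]; simp

theorem norm_ip_le (f g : C(ℝ, ℂ)) : ‖ip f g‖ ≤ ∫ y in (0:ℝ)..2, ‖f y‖ * ‖g y‖ := by
  unfold ip
  refine (intervalIntegral.norm_integral_le_integral_norm (by norm_num)).trans ?_
  apply le_of_eq
  congr 1
  funext y
  rw [norm_mul, RCLike.norm_conj]

theorem ip_LL (β β' : ℝ) (h : 0 < β) (h' : 0 < β') : ‖ip (BL β) (BL β')‖ ≤ 1 / β := by
  refine (norm_ip_le _ _).trans (le_trans ?_ (int_exp_neg β h))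
  apply intervalIntegral.integral_mono_on (by norm_num)
  · exact Continuous.intervalIntegrable (by fun_prop) _ _
  · exact Continuous.intervalIntegrable (by fun_prop) _ _
  · intro y hy
    rw [norm_BL, norm_BL]
    have : Real.exp (-(β' * y)) ≤ 1 := by
      rw [Real.exp_le_one_iff]
      have := mul_nonneg h'.le hy.1
      linarith
    have h3 := Real.exp_pos (-(β * y))
    nlinarith

theorem ip_RR (β β' : ℝ) (h : 0 < β) (h' : 0 < β') : ‖ip (BR β) (BR β')‖ ≤ 1 / β := by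
  refine (norm_ip_le _ _).trans (le_trans ?_ (int_exp_right β h))
  apply intervalIntegral.integral_mono_on (by norm_num)
  · exact Continuous.intervalIntegrable (by fun_prop) _ _
  · exact Continuous.intervalIntegrable (by fun_prop) _ _
  · intro y hy
    rw [norm_BR, norm_BR]
    have : Real.exp (β' * (y - 2)) ≤ 1 := by
      rw [Real.exp_le_one_iff]
      exact mul_nonpos_of_nonneg_of_nonpos h'.le (by linarith [hy.2])
    have h3 := Real.exp_pos (β * (y - 2))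
    nlinarith

theorem ip_LR (β β' : ℝ) (h : 0 < β) (h' : 0 < β') : ‖ip (BL β) (BR β')‖ ≤ 1 / β := by
  refine (norm_ip_le _ _).trans (le_trans ?_ (int_exp_neg β h))
  apply intervalIntegral.integral_mono_on (by norm_num)
  · exact Continuous.intervalIntegrable (by fun_prop) _ _
  · exact Continuous.intervalIntegrable (by fun_prop) _ _
  · intro y hy
    rw [norm_BL, norm_BR]
    have : Real.exp (β' * (y - 2)) ≤ 1 := by
      rw [Real.exp_le_one_iff]
      exact mul_nonpos_of_nonneg_of_nonpos h'.le (by linarith [hy.2])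
    have h3 := Real.exp_pos (-(β * y))
    nlinarith

theorem ip_LR' (β β' : ℝ) (h : 0 < β) (h' : 0 < β') : ‖ip (BL β) (BR β')‖ ≤ 1 / β' := by
  refine (norm_ip_le _ _).trans (le_trans ?_ (int_exp_right β' h'))
  apply intervalIntegral.integral_mono_on (by norm_num)
  · exact Continuous.intervalIntegrable (by fun_prop) _ _
  · exact Continuous.intervalIntegrable (by fun_prop) _ _
  · intro y hy
    rw [norm_BL, norm_BR]
    have : Real.exp (-(β * y)) ≤ 1 := by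
      rw [Real.exp_le_one_iff]
      have := mul_nonneg h.le hy.1
      linarith
    have h3 := Real.exp_pos (β' * (y - 2))
    nlinarith

theorem ip_LR_self (β : ℝ) (h : 0 < β) : ‖ip (BL β) (BR β)‖ ≤ 1 / β ^ 2 := by
  refine (norm_ip_le _ _).trans ?_
  have h1 : ∀ y : ℝ, ‖BL β y‖ * ‖BR β y‖ = Real.exp (-(2 * β)) := by
    intro y
    rw [norm_BL, norm_BR, ← Real.exp_add]
    congr 1
    ring
  simp only [h1]
  rw [intervalIntegral.integral_const]
  have h2 : (2 * β) ^ 2 / 2 ≤ Real.exp (2 * β) := by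
    have := Real.quadratic_le_exp_of_nonneg (x := 2 * β) (by positivity)
    linarith
  rw [Real.exp_neg, smul_eq_mul, ← div_eq_mul_inv]
  rw [div_le_div_iff₀ (Real.exp_pos _) (by positivity)]
  nlinarith

/-- blockers: from inner product to normalised correlation -/
theorem NO_of (f g : C(ℝ, ℂ)) (β β' s ε δ : ℝ) (hε : 0 ≤ ε) (hs : 0 < s) (hss : s ^ 2 = β * β')
    (hβ : 0 < β) (hβ' : 0 < β')
    (hf : 1 / (4 * β) ≤ nsq f) (hg : 1 / (4 * β') ≤ nsq g) (h : ‖ip f g‖ ≤ δ)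
    (hδ : 4 * δ * s ≤ ε) : NO ε f g := by
  unfold NO
  have h1 : 1 / (4 * s) ≤ Real.sqrt (nsq f) * Real.sqrt (nsq g) := by
    rw [← Real.sqrt_mul (by linarith [show 0 < 1 / (4 * β) by positivity])]
    apply Real.le_sqrt_of_sq_le
    calc (1 / (4 * s)) ^ 2 = (1 / (4 * β)) * (1 / (4 * β')) := by
          field_simp
          rw [hss]
      _ ≤ nsq f * nsq g := mul_le_mul hf hg (by positivity) (nsq_nonneg _)
  calc ‖ip f g‖ ≤ δ := h
    _ = (4 * δ * s) * (1 / (4 * s)) := by field_simp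
    _ ≤ ε * (1 / (4 * s)) := by gcongr
    _ ≤ _ := by gcongr

/-! ### explicit points -/

theorem pow_key (B : ℝ) (hB : 1 ≤ B) (N m M : ℕ) (h : N + m ≤ M) :
    B ^ N ≤ (1 / B) ^ m * B ^ M := by
  have hB0 : B ≠ 0 := by positivity
  rw [one_div, inv_pow, ← div_eq_inv_mul, le_div_iff₀ (by positivity), ← pow_add]
  exact pow_le_pow_right₀ hB h

theorem sqrt_bpow (B : ℝ) (hB : 1 ≤ B) (j : ℕ) :
    Real.sqrt ((B ^ 8) ^ (j + 1)) = B ^ (4 * (j + 1)) := by
  rw [show (B ^ 8) ^ (j + 1) = (B ^ (4 * (j + 1))) ^ 2 by ring]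
  exact Real.sqrt_sq (by positivity)

theorem one_le_bpow (B : ℝ) (hB : 1 ≤ B) (j : ℕ) : 1 ≤ (B ^ 8) ^ (j + 1) :=
  one_le_pow₀ (one_le_pow₀ hB)

theorem nsq_BL (β : ℝ) (h : 1 ≤ β) : 1 / (4 * β) ≤ nsq (BL β) := (nsq_block β h).1
theorem nsq_BR (β : ℝ) (h : 1 ≤ β) : 1 / (4 * β) ≤ nsq (BR β) := (nsq_block β h).2

theorem L_blk (B : ℝ) (hB : 1 ≤ B) (i j : ℕ) (hij : i < j) (f g : C(ℝ, ℂ))
    (hf : 1 / (4 * (B ^ 8) ^ (i + 1)) ≤ nsq f) (hg : 1 / (4 * (B ^ 8) ^ (j + 1)) ≤ nsq g)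
    (h : ‖ip f g‖ ≤ 1 / (B ^ 8) ^ (j + 1)) :
    NO (8 * (1 / B) ^ ((j - i) + 1)) f g := by
  refine NO_of f g _ _ (B ^ (4 * (i + 1) + 4 * (j + 1))) _ _ (by positivity) (by positivity) ?_
    (by positivity) (by positivity) hf hg h ?_
  · ring
  · have := pow_key B hB (4 * (i + 1) + 4 * (j + 1)) ((j - i) + 1) (8 * (j + 1)) (by omega)
    have h2 : (B ^ 8) ^ (j + 1) = B ^ (8 * (j + 1)) := by rw [← pow_mul]
    rw [h2, mul_one_div, div_mul_eq_mul_div, div_le_iff₀ (by positivity)]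
    have h3 : 0 < (1 / B) ^ ((j - i) + 1) * B ^ (8 * (j + 1)) := by positivity
    nlinarith

theorem L11 (B : ℝ) (hB : 1 ≤ B) (i j : ℕ) (hij : i ≠ j) :
    NO (8 * (1 / B) ^ ((i - j) + (j - i) + 1)) (BL ((B ^ 8) ^ (i + 1)))
      (BL ((B ^ 8) ^ (j + 1))) := by
  wlog h : i < j generalizing i j with H
  · have := H j i hij.symm (by omega)
    rw [add_comm (i - j)]
    exact this.symm
  · have h0 : i - j = 0 := by omega
    rw [h0, zero_add]
    refine L_blk B hB i j h _ _ (nsq_BL _ (one_le_bpow B hB i)) (nsq_BL _ (one_le_bpow B hB j)) ?_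
    rw [norm_ip_comm]
    exact ip_LL _ _ (by positivity) (by positivity)

theorem L22 (B : ℝ) (hB : 1 ≤ B) (i j : ℕ) (hij : i ≠ j) :
    NO (8 * (1 / B) ^ ((i - j) + (j - i) + 1)) (BR ((B ^ 8) ^ (i + 1)))
      (BR ((B ^ 8) ^ (j + 1))) := by
  wlog h : i < j generalizing i j with H
  · have := H j i hij.symm (by omega)
    rw [add_comm (i - j)]
    exact this.symm
  · have h0 : i - j = 0 := by omega
    rw [h0, zero_add]
    refine L_blk B hB i j h _ _ (nsq_BR _ (one_le_bpow B hB i)) (nsq_BR _ (one_le_bpow B hB j)) ?_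
    rw [norm_ip_comm]
    exact ip_RR _ _ (by positivity) (by positivity)

theorem L12 (B : ℝ) (hB : 1 ≤ B) (i j : ℕ) :
    NO (8 * (1 / B) ^ ((i - j) + (j - i) + 1)) (BL ((B ^ 8) ^ (i + 1)))
      (BR ((B ^ 8) ^ (j + 1))) := by
  rcases lt_trichotomy i j with h | h | h
  · have h0 : i - j = 0 := by omega
    rw [h0, zero_add]
    refine L_blk B hB i j h _ _ (nsq_BL _ (one_le_bpow B hB i)) (nsq_BR _ (one_le_bpow B hB j)) ?_
    exact ip_LR' _ _ (by positivity) (by positivity)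
  · subst h
    simp only [Nat.sub_self, zero_add]
    refine NO_of _ _ _ _ ((B ^ 8) ^ (i + 1)) _ _ (by positivity) (by positivity) ?_
      (by positivity) (by positivity) (nsq_BL _ (one_le_bpow B hB i))
      (nsq_BR _ (one_le_bpow B hB i)) (ip_LR_self _ (by positivity)) ?_
    · ring
    · have h2 : (B ^ 8) ^ (i + 1) = B ^ (8 * (i + 1)) := by rw [← pow_mul]
      have := pow_key B hB 0 1 (8 * (i + 1)) (by omega)
      rw [h2]
      rw [mul_one_div, div_mul_eq_mul_div, div_le_iff₀ (by positivity)]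
      rw [pow_zero, pow_one] at this
      have h3 : 0 < B ^ (8 * (i + 1)) := by positivity
      have h4 : 0 < 1 / B * B ^ (8 * (i + 1)) := by positivity
      calc 4 * B ^ (8 * (i + 1)) ≤ 8 * (1 * B ^ (8 * (i + 1))) := by linarith
        _ ≤ 8 * ((1 / B * B ^ (8 * (i + 1))) * B ^ (8 * (i + 1))) := by gcongr
        _ = 8 * (1 / B) ^ 1 * (B ^ (8 * (i + 1))) ^ 2 := by ring
  · have h0 : j - i = 0 := by omega
    rw [h0, add_zero]
    refine (L_blk B hB j i h _ _ (nsq_BR _ (one_le_bpow B hB j)) (nsq_BL _ (one_le_bpow B hB i)) ?_).symm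
    rw [norm_ip_comm]
    exact ip_LR _ _ (by positivity) (by positivity)

/-- cluster elements -/
def Cl (b : ℕ) (n : ℕ) (f : C(ℝ, ℂ)) : Prop :=
  ∃ p : ℂ[X], p.degree < ((b ^ (n + 1) : ℕ) : WithBot ℕ) ∧
    f = epC (((b : ℝ) ^ (3 * (n + 1)) : ℝ) : ℂ) p

theorem L00_aux (B : ℝ) (hB : 2 ≤ B) (b : ℕ) (hb : (b : ℝ) = B ^ 8) (n n' : ℕ) (h : n < n')
    (f g : C(ℝ, ℂ)) (hf : Cl b n f) (hg : Cl b n' g) :
    NO (8 * (1 / B) ^ ((n' - n) + 1)) f g := by
  obtain ⟨p, hp, rfl⟩ := hf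
  obtain ⟨q, hq, rfl⟩ := hg
  have hB1 : 1 ≤ B := by linarith
  have hb1 : 1 ≤ b := by
    have : (1:ℝ) ≤ b := by rw [hb]; exact one_le_pow₀ hB1
    exact_mod_cast this
  have hp' : p.degree < ((b ^ (n' + 1) : ℕ) : WithBot ℕ) := by
    refine lt_of_lt_of_le hp ?_
    exact_mod_cast Nat.pow_le_pow_right hb1 (by omega)
  have hx : (0:ℝ) < B ^ (24 * (n + 1)) := by positivity
  have h1 : (b : ℝ) ^ (3 * (n' + 1)) - (b : ℝ) ^ (3 * (n + 1)) ≥ B ^ (24 * (n' + 1)) / 2 := by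
    rw [hb, ← pow_mul, ← pow_mul, show 8 * (3 * (n' + 1)) = 24 * (n' + 1) by ring,
      show 8 * (3 * (n + 1)) = 24 * (n + 1) by ring]
    have h3 : B * B ^ (24 * (n + 1)) ≤ B ^ (24 * (n' + 1)) := by
      rw [← pow_succ']
      exact pow_le_pow_right₀ hB1 (by omega)
    nlinarith
  have h2 : |(b : ℝ) ^ (3 * (n + 1)) - (b : ℝ) ^ (3 * (n' + 1))| ≥ B ^ (24 * (n' + 1)) / 2 := by
    rw [abs_sub_comm]
    exact h1.le.trans (le_abs_self _)
  have hne : (b : ℝ) ^ (3 * (n + 1)) ≠ (b : ℝ) ^ (3 * (n' + 1)) := by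
    intro h5
    rw [h5, sub_self, abs_zero] at h2
    have : 0 < B ^ (24 * (n' + 1)) / 2 := by positivity
    linarith
  have h3 := cross_clusters (b ^ (n' + 1)) p q hp' hq _ _ hne
  unfold NO
  rw [coe_epC, coe_epC]
  refine h3.trans ?_
  rw [mul_assoc]
  refine mul_le_mul_of_nonneg_right ?_ (by positivity)
  have h4 : (0:ℝ) < B ^ (24 * (n' + 1)) := by positivity
  have h5 := pow_key B hB1 (16 * (n' + 1)) ((n' - n) + 1) (24 * (n' + 1)) (by omega)
  have h6 : ((b ^ (n' + 1) : ℕ) : ℝ) ^ 2 = B ^ (16 * (n' + 1)) := by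
    push_cast
    rw [hb]
    ring
  rw [h6, div_le_iff₀ (by linarith)]
  calc 4 * B ^ (16 * (n' + 1)) ≤ 4 * ((1 / B) ^ ((n' - n) + 1) * B ^ (24 * (n' + 1))) := by gcongr
    _ = 8 * (1 / B) ^ ((n' - n) + 1) * (B ^ (24 * (n' + 1)) / 2) := by ring
    _ ≤ _ := by gcongr

theorem L00 (B : ℝ) (hB : 2 ≤ B) (b : ℕ) (hb : (b : ℝ) = B ^ 8) (n n' : ℕ) (h : n ≠ n')
    (f g : C(ℝ, ℂ)) (hf : Cl b n f) (hg : Cl b n' g) :
    NO (8 * (1 / B) ^ ((n - n') + (n' - n) + 1)) f g := by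
  rcases lt_or_gt_of_ne h with h | h
  · rw [show n - n' = 0 by omega, zero_add]
    exact L00_aux B hB b hb n n' h f g hf hg
  · rw [show n' - n = 0 by omega, add_zero]
    exact (L00_aux B hB b hb n' n h g f hg hf).symm

theorem L0x_num (B : ℝ) (hB : 1 ≤ B) (b : ℕ) (hb : (b : ℝ) = B ^ 8) (n j : ℕ) :
    (4 * ((b ^ (n + 1) : ℕ) : ℝ) * Real.sqrt ((B ^ 8) ^ (j + 1)) +
      2 * ((b ^ (n + 1) : ℕ) : ℝ) ^ 2) / max |(b : ℝ) ^ (3 * (n + 1))| ((B ^ 8) ^ (j + 1)) ≤
      8 * (1 / B) ^ ((n - j) + (j - n) + 1) := by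
  rw [sqrt_bpow B hB]
  push_cast
  rw [hb, abs_of_pos (by positivity)]
  have e1 : (B ^ 8) ^ (3 * (n + 1)) = B ^ (24 * (n + 1)) := by ring
  have e2 : (B ^ 8) ^ (j + 1) = B ^ (8 * (j + 1)) := by ring
  have e3 : (B ^ 8) ^ (n + 1) * B ^ (4 * (j + 1)) = B ^ (8 * (n + 1) + 4 * (j + 1)) := by ring
  have e4 : ((B ^ 8) ^ (n + 1)) ^ 2 = B ^ (16 * (n + 1)) := by ring
  rw [mul_assoc 4, e3, e4, e1, e2]
  have hM : 0 < max (B ^ (24 * (n + 1))) (B ^ (8 * (j + 1))) :=
    lt_of_lt_of_le (by positivity) (le_max_left _ _)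
  rw [div_le_iff₀ hM]
  set d := (n - j) + (j - n) + 1 with hd
  have ht : 0 ≤ (1 / B) ^ d := by positivity
  have k1 : B ^ (8 * (n + 1) + 4 * (j + 1)) ≤
      (1 / B) ^ d * max (B ^ (24 * (n + 1))) (B ^ (8 * (j + 1))) := by
    rcases le_total (j + 1) (3 * (n + 1)) with h | h
    · have := pow_key B hB (8 * (n + 1) + 4 * (j + 1)) d (24 * (n + 1)) (by omega)
      exact this.trans (mul_le_mul_of_nonneg_left (le_max_left _ _) ht)
    · have := pow_key B hB (8 * (n + 1) + 4 * (j + 1)) d (8 * (j + 1)) (by omega)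
      exact this.trans (mul_le_mul_of_nonneg_left (le_max_right _ _) ht)
  have k2 : B ^ (16 * (n + 1)) ≤
      (1 / B) ^ d * max (B ^ (24 * (n + 1))) (B ^ (8 * (j + 1))) := by
    rcases le_total (j + 1) (3 * (n + 1)) with h | h
    · have := pow_key B hB (16 * (n + 1)) d (24 * (n + 1)) (by omega)
      exact this.trans (mul_le_mul_of_nonneg_left (le_max_left _ _) ht)
    · have := pow_key B hB (16 * (n + 1)) d (8 * (j + 1)) (by omega)
      exact this.trans (mul_le_mul_of_nonneg_left (le_max_right _ _) ht)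
  have k3 : 0 ≤ (1 / B) ^ d * max (B ^ (24 * (n + 1))) (B ^ (8 * (j + 1))) := by positivity
  linarith

theorem L01 (B : ℝ) (hB : 1 ≤ B) (b : ℕ) (hb : (b : ℝ) = B ^ 8) (n j : ℕ)
    (f : C(ℝ, ℂ)) (hf : Cl b n f) :
    NO (8 * (1 / B) ^ ((n - j) + (j - n) + 1)) f (BL ((B ^ 8) ^ (j + 1))) := by
  obtain ⟨p, hp, rfl⟩ := hf
  unfold NO
  rw [coe_epC, coe_BL]
  refine (cross_left (b ^ (n + 1)) p hp _ _ (one_le_bpow B hB j)).trans ?_
  rw [mul_assoc]
  exact mul_le_mul_of_nonneg_right (L0x_num B hB b hb n j) (by positivity)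

theorem L02 (B : ℝ) (hB : 1 ≤ B) (b : ℕ) (hb : (b : ℝ) = B ^ 8) (n j : ℕ)
    (f : C(ℝ, ℂ)) (hf : Cl b n f) :
    NO (8 * (1 / B) ^ ((n - j) + (j - n) + 1)) f (BR ((B ^ 8) ^ (j + 1))) := by
  obtain ⟨p, hp, rfl⟩ := hf
  unfold NO
  rw [coe_epC, coe_BR]
  refine (cross_right (b ^ (n + 1)) p hp _ _ (one_le_bpow B hB j)).trans ?_
  rw [mul_assoc]
  exact mul_le_mul_of_nonneg_right (L0x_num B hB b hb n j) (by positivity)

/-! ### row sums -/

theorem row_aux (t : ℝ) (ht : 0 < t) (ht1 : t < 1) (n N : ℕ) :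
    ∑ m ∈ Finset.range N, t ^ ((n - m) + (m - n)) ≤
      if N ≤ n then t ^ (n - N + 1) / (1 - t) else (2 - t ^ (N - n)) / (1 - t) := by
  have h1 : 0 < 1 - t := by linarith
  induction N with
  | zero => simp; positivity
  | succ N ih =>
    rw [Finset.sum_range_succ]
    rcases lt_trichotomy N n with h | h | h
    · rw [if_pos h.le] at ih
      rw [if_pos (by omega)]
      have e : n - N + (N - n) = n - N := by omega
      have e2 : n - (N + 1) + 1 = n - N := by omega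
      rw [e, e2]
      rw [div_eq_mul_inv] at *
      have h2 : t ^ (n - N + 1) * (1 - t)⁻¹ + t ^ (n - N) = t ^ (n - N) * (1 - t)⁻¹ := by
        rw [pow_succ]
        field_simp
        ring
      linarith
    · subst h
      rw [if_pos le_rfl] at ih
      rw [if_neg (by omega)]
      simp only [Nat.sub_self, add_zero, pow_zero, zero_add, pow_one] at *
      have : N + 1 - N = 1 := by omega
      rw [this, pow_one]
      have h2 : t / (1 - t) + 1 ≤ (2 - t) / (1 - t) := by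
        rw [div_add_one h1.ne']
        apply div_le_div_of_nonneg_right _ h1.le
        linarith
      linarith
    · rw [if_neg (by omega)] at ih
      rw [if_neg (by omega)]
      have e : n - N + (N - n) = N - n := by omega
      have e2 : N + 1 - n = (N - n) + 1 := by omega
      rw [e, e2]
      have h2 : (2 - t ^ (N - n)) / (1 - t) + t ^ (N - n) = (2 - t ^ (N - n + 1)) / (1 - t) := by
        rw [pow_succ]
        field_simp
        ring
      linarith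

theorem row_sum (t : ℝ) (ht : 0 < t) (ht1 : t < 1) (n N : ℕ) :
    ∑ m ∈ Finset.range N, t ^ ((n - m) + (m - n)) ≤ 2 / (1 - t) := by
  have h1 : 0 < 1 - t := by linarith
  refine (row_aux t ht ht1 n N).trans ?_
  split_ifs with h
  · apply div_le_div_of_nonneg_right _ h1.le
    have : t ^ (n - N + 1) ≤ 1 := pow_le_one₀ ht.le ht1.le
    linarith
  · apply div_le_div_of_nonneg_right _ h1.le
    have : 0 < t ^ (N - n) := by positivity
    linarith

theorem row_total (B : ℝ) (hB : 100 ≤ B) (i : Fin 3 × ℕ) (s : Finset (Fin 3 × ℕ)) :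
    ∑ j ∈ s, 8 * (1 / B) ^ ((i.2 - j.2) + (j.2 - i.2) + 1) ≤ 1 / 2 := by
  have ht : 0 < 1 / B := by positivity
  have ht1 : 1 / B ≤ 1 / 100 := by gcongr
  obtain ⟨N, hN⟩ : ∃ N, ∀ j ∈ s, j.2 < N := by
    refine ⟨s.sup (fun j => j.2) + 1, fun j hj => ?_⟩
    have := Finset.le_sup (f := fun j : Fin 3 × ℕ => j.2) hj
    omega
  have h1 : ∑ j ∈ s, 8 * (1 / B) ^ ((i.2 - j.2) + (j.2 - i.2) + 1) ≤
      ∑ j ∈ (Finset.univ : Finset (Fin 3)) ×ˢ Finset.range N,
        8 * (1 / B) ^ ((i.2 - j.2) + (j.2 - i.2) + 1) := by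
    apply Finset.sum_le_sum_of_subset_of_nonneg
    · intro j hj
      simp [hN j hj]
    · intro j _ _
      positivity
  refine h1.trans ?_
  rw [Finset.sum_product]
  simp only [Finset.sum_const, Finset.card_univ, Fintype.card_fin, nsmul_eq_mul]
  have h2 := row_sum (1 / B) ht (by linarith) i.2 N
  have h3 : ∑ x ∈ Finset.range N, 8 * (1 / B) ^ ((i.2 - x) + (x - i.2) + 1) =
      8 * (1 / B) * ∑ x ∈ Finset.range N, (1 / B) ^ ((i.2 - x) + (x - i.2)) := by
    rw [Finset.mul_sum]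
    apply Finset.sum_congr rfl
    intro x _
    rw [pow_succ]
    ring
  rw [h3]
  have h4 : 2 / (1 - 1 / B) ≤ 2 / (99 / 100) := by
    apply div_le_div_of_nonneg_left (by norm_num) (by norm_num) (by linarith)
  have h5 : ∑ x ∈ Finset.range N, (1 / B) ^ ((i.2 - x) + (x - i.2)) ≤ 2 / (99 / 100) :=
    h2.trans h4
  push_cast
  calc (3:ℝ) * (8 * (1 / B) * ∑ x ∈ Finset.range N, (1 / B) ^ ((i.2 - x) + (x - i.2)))
      ≤ 3 * (8 * (1 / 100) * (2 / (99 / 100))) := by gcongr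
    _ ≤ 1 / 2 := by norm_num

end Pool.Agent.MP_12ef2a_an
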