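import Mathlib
import Pool.Agent.MP_12ef2a_an.Base

set_option autoImplicit false

open MeasureTheory Polynomial

namespace Pool.Agent.MP_12ef2a_an

/-- the divisor: multiplicity `b ^ n` at `b ^ (3 n)`, `n ≥ 1`, multiplicity one at
`± i b ^ j`, `j ≥ 1`, and zero elsewhere -/
noncomputable def div0 (b : ℕ) (z : ℂ) : ℕ :=
  open Classical in
  if h : ∃ n : ℕ, z = (((b : ℝ) ^ (3 * (n + 1)) : ℝ) : ℂ) then b ^ (h.choose + 1)
  else if ∃ j : ℕ, z = Complex.I * (((b : ℝ) ^ (j + 1) : ℝ) : ℂ) ∨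
    z = -(Complex.I * (((b : ℝ) ^ (j + 1) : ℝ) : ℂ)) then 1
  else 0

/-- the points of the divisor -/
noncomputable def pt (b : ℕ) (i : Fin 3 × ℕ) : ℂ :=
  match i.1 with
  | 0 => (((b : ℝ) ^ (3 * (i.2 + 1)) : ℝ) : ℂ)
  | 1 => Complex.I * (((b : ℝ) ^ (i.2 + 1) : ℝ) : ℂ)
  | 2 => -(Complex.I * (((b : ℝ) ^ (i.2 + 1) : ℝ) : ℂ))

theorem pt0 (b n : ℕ) : pt b (0, n) = (((b : ℝ) ^ (3 * (n + 1)) : ℝ) : ℂ) := rfl
theorem pt1 (b n : ℕ) : pt b (1, n) = Complex.I * (((b : ℝ) ^ (n + 1) : ℝ) : ℂ) := rfl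
theorem pt2 (b n : ℕ) : pt b (2, n) = -(Complex.I * (((b : ℝ) ^ (n + 1) : ℝ) : ℂ)) := rfl

theorem rpow_inj (b : ℕ) (hb : 2 ≤ b) (m n : ℕ) (h : (b : ℝ) ^ m = (b : ℝ) ^ n) : m = n := by
  have : (b ^ m : ℕ) = b ^ n := by exact_mod_cast h
  exact Nat.pow_right_injective hb this

theorem re_I_mul (x : ℝ) : (Complex.I * (x : ℂ)).re = 0 := by simp
theorem im_I_mul (x : ℝ) : (Complex.I * (x : ℂ)).im = x := by simp

theorem pt_injective (b : ℕ) (hb : 2 ≤ b) : Function.Injective (pt b) := by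
  have hb0 : (0:ℝ) < b := by positivity
  rintro ⟨i, m⟩ ⟨j, n⟩ h
  have hre := congrArg Complex.re h
  have him := congrArg Complex.im h
  have hp : ∀ m : ℕ, (0:ℝ) < (b:ℝ) ^ m := fun m => by positivity
  fin_cases i <;> fin_cases j <;>
    simp only [Fin.zero_eta, Fin.mk_one, Fin.reduceFinMk, Fin.isValue, pt0, pt1, pt2, re_I_mul, im_I_mul, Complex.ofReal_re, Complex.ofReal_im,
      Complex.neg_re, Complex.neg_im, neg_inj] at hre him ⊢
  · have := rpow_inj b hb _ _ hre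
    ext <;> simp; omega
  · exact absurd hre (hp _).ne'
  · rw [neg_zero] at hre; exact absurd hre (hp _).ne'
  · exact absurd hre (hp _).ne
  · have := rpow_inj b hb _ _ him
    ext <;> simp; omega
  · have h1 := hp (m + 1); have h2 := hp (n + 1); linarith
  · rw [neg_zero] at hre; exact absurd hre (hp _).ne
  · have h1 := hp (m + 1); have h2 := hp (n + 1); linarith
  · have := rpow_inj b hb _ _ him
    ext <;> simp; omega

theorem div0_pt0 (b : ℕ) (hb : 2 ≤ b) (n : ℕ) : div0 b (pt b (0, n)) = b ^ (n + 1) := by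
  unfold div0
  have h : ∃ m : ℕ, pt b (0, n) = (((b : ℝ) ^ (3 * (m + 1)) : ℝ) : ℂ) := ⟨n, rfl⟩
  rw [dif_pos h]
  have h2 : pt b (0, n) = pt b (0, h.choose) := h.choose_spec
  have h3 := pt_injective b hb h2
  have h4 : n = h.choose := congrArg Prod.snd h3
  rw [← h4]

theorem div0_pt1 (b : ℕ) (hb : 2 ≤ b) (n : ℕ) : div0 b (pt b (1, n)) = 1 := by
  unfold div0
  have h : ¬ ∃ m : ℕ, pt b (1, n) = (((b : ℝ) ^ (3 * (m + 1)) : ℝ) : ℂ) := by
    rintro ⟨m, hm⟩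
    have := pt_injective b hb (hm.trans (pt0 b m).symm)
    simp at this
  rw [dif_neg h, if_pos ⟨n, Or.inl rfl⟩]

theorem div0_pt2 (b : ℕ) (hb : 2 ≤ b) (n : ℕ) : div0 b (pt b (2, n)) = 1 := by
  unfold div0
  have h : ¬ ∃ m : ℕ, pt b (2, n) = (((b : ℝ) ^ (3 * (m + 1)) : ℝ) : ℂ) := by
    rintro ⟨m, hm⟩
    have := pt_injective b hb (hm.trans (pt0 b m).symm)
    simp at this
  rw [dif_neg h, if_pos ⟨n, Or.inr rfl⟩]

theorem div0_of_not (b : ℕ) (z : ℂ) (hz : z ∉ Set.range (pt b)) : div0 b z = 0 := by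
  unfold div0
  have h : ¬ ∃ m : ℕ, z = (((b : ℝ) ^ (3 * (m + 1)) : ℝ) : ℂ) := by
    rintro ⟨m, hm⟩
    exact hz ⟨(0, m), by rw [pt0]; exact hm.symm⟩
  have h2 : ¬ ∃ j : ℕ, z = Complex.I * (((b : ℝ) ^ (j + 1) : ℝ) : ℂ) ∨
      z = -(Complex.I * (((b : ℝ) ^ (j + 1) : ℝ) : ℂ)) := by
    rintro ⟨m, hm | hm⟩
    · exact hz ⟨(1, m), by rw [pt1]; exact hm.symm⟩
    · exact hz ⟨(2, m), by rw [pt2]; exact hm.symm⟩
  rw [dif_neg h, if_neg h2]

/-- the functions of the subspace at the point `pt b i` -/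
def QF (b : ℕ) (i : Fin 3 × ℕ) (F : C(ℝ, ℂ)) : Prop :=
  match i.1 with
  | 0 => Cl b i.2 F
  | 1 => ∃ c : ℂ, F = c • BL ((b : ℝ) ^ (i.2 + 1))
  | 2 => ∃ c : ℂ, F = c • BR ((b : ℝ) ^ (i.2 + 1))

theorem epC_I (β : ℝ) (c : ℂ) : epC (Complex.I * (β : ℂ)) (C c) = c • BL β := by
  ext y
  rw [epC_apply, ep, eval_C]
  change _ = c * Complex.exp (-((β * y : ℝ) : ℂ))
  rw [mul_comm]
  congr 2
  push_cast
  rw [← mul_assoc, Complex.I_mul_I]
  ring

theorem epC_negI (β : ℝ) (c : ℂ) :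
    epC (-(Complex.I * (β : ℂ))) (C c) = (c * Complex.exp ((2 * β : ℝ) : ℂ)) • BR β := by
  ext y
  rw [epC_apply, ep, eval_C]
  change _ = (c * Complex.exp ((2 * β : ℝ) : ℂ)) * Complex.exp ((β * (y - 2) : ℝ) : ℂ)
  rw [mul_assoc c, ← Complex.exp_add, mul_comm _ c]
  congr 2
  push_cast
  rw [mul_neg, ← mul_assoc, Complex.I_mul_I]
  ring

theorem eq_C_of_deg (p : ℂ[X]) (hp : p.degree < ((1 : ℕ) : WithBot ℕ)) : ∃ c, p = C c := by
  refine ⟨p.coeff 0, Polynomial.eq_C_of_degree_le_zero ?_⟩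
  have h : p.degree < (1 : WithBot ℕ) := by simpa using hp
  exact Polynomial.degree_le_of_natDegree_le (by
    by_contra hcon
    push Not at hcon
    have h0 : p ≠ 0 := by
      rintro rfl
      simp at hcon
    rw [Polynomial.degree_eq_natDegree h0] at h
    have : p.natDegree < 1 := by exact_mod_cast h
    omega)

section
variable {V : Type*} [NormedAddCommGroup V] [InnerProductSpace ℂ V]

theorem mem_pt {emb : C(ℝ, ℂ) →ₗ[ℂ] V} (b : ℕ) (hb : 2 ≤ b) (i : Fin 3 × ℕ) (f : V)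
    (hf : f ∈ expSub emb (div0 b) (pt b i)) : ∃ F : C(ℝ, ℂ), QF b i F ∧ emb F = f := by
  rw [mem_expSub] at hf
  obtain ⟨p, hp, rfl⟩ := hf
  refine ⟨_, ?_, rfl⟩
  obtain ⟨i, n⟩ := i
  fin_cases i
  · simp only [Fin.zero_eta, Fin.isValue] at hp ⊢
    rw [div0_pt0 b hb] at hp
    exact ⟨p, hp, rfl⟩
  · simp only [Fin.mk_one, Fin.isValue] at hp ⊢
    rw [div0_pt1 b hb] at hp
    obtain ⟨c, rfl⟩ := eq_C_of_deg p hp
    exact ⟨c, by rw [pt1, epC_I]⟩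
  · simp only [Fin.reduceFinMk, Fin.isValue] at hp ⊢
    rw [div0_pt2 b hb] at hp
    obtain ⟨c, rfl⟩ := eq_C_of_deg p hp
    exact ⟨_, by rw [pt2, epC_negI]⟩

theorem NO_inner {emb : C(ℝ, ℂ) →ₗ[ℂ] V} {c₀ : ℝ} (h : IsEmb emb c₀) {ε : ℝ} {F G : C(ℝ, ℂ)}
    (hFG : NO ε F G) : ‖(inner ℂ (emb F) (emb G) : ℂ)‖ ≤ ε * ‖emb F‖ * ‖emb G‖ := by
  have hc := h.pos
  have hn : ∀ F : C(ℝ, ℂ), ‖emb F‖ = Real.sqrt c₀ * Real.sqrt (nsq F) := by
    intro F
    rw [← Real.sqrt_mul hc.le, ← h.norm_sq F, Real.sqrt_sq (norm_nonneg _)]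
  rw [h.inner_eq, norm_mul, hn F, hn G]
  unfold NO at hFG
  have h1 : ‖(c₀ : ℂ)‖ = c₀ := by simp [abs_of_pos hc]
  rw [h1]
  calc c₀ * ‖ip F G‖ ≤ c₀ * (ε * (Real.sqrt (nsq F) * Real.sqrt (nsq G))) := by gcongr
    _ = ε * (Real.sqrt c₀ * Real.sqrt c₀) * (Real.sqrt (nsq F) * Real.sqrt (nsq G)) := by
        rw [Real.mul_self_sqrt hc.le]; ring
    _ = _ := by ring

theorem QF_NO (B : ℝ) (hB : 2 ≤ B) (b : ℕ) (hb : (b : ℝ) = B ^ 8) (i j : Fin 3 × ℕ) (hij : i ≠ j)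
    (F G : C(ℝ, ℂ)) (hF : QF b i F) (hG : QF b j G) :
    NO (8 * (1 / B) ^ ((i.2 - j.2) + (j.2 - i.2) + 1)) F G := by
  have hB1 : 1 ≤ B := by linarith
  obtain ⟨i, m⟩ := i
  obtain ⟨j, n⟩ := j
  have hsw : ∀ m n : ℕ, (m - n) + (n - m) + 1 = (n - m) + (m - n) + 1 := fun m n => by omega
  fin_cases i <;> fin_cases j <;>
    simp only [Fin.zero_eta, Fin.mk_one, Fin.reduceFinMk, Fin.isValue, QF, hb] at hF hG hij ⊢
  · exact L00 B hB b hb m n (fun h => hij (by rw [h])) F G hF hG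
  · obtain ⟨c, rfl⟩ := hG
    exact (L01 B hB1 b hb m n F hF).smul_right c
  · obtain ⟨c, rfl⟩ := hG
    exact (L02 B hB1 b hb m n F hF).smul_right c
  · obtain ⟨c, rfl⟩ := hF
    rw [hsw]
    exact ((L01 B hB1 b hb n m G hG).smul_right c).symm
  · obtain ⟨c, rfl⟩ := hF
    obtain ⟨c', rfl⟩ := hG
    exact ((L11 B hB1 m n (fun h => hij (by rw [h]))).smul_right c').smul_left c
  · obtain ⟨c, rfl⟩ := hF
    obtain ⟨c', rfl⟩ := hG
    exact ((L12 B hB1 m n).smul_right c').smul_left c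
  · obtain ⟨c, rfl⟩ := hF
    rw [hsw]
    exact ((L02 B hB1 b hb n m G hG).smul_right c).symm
  · obtain ⟨c, rfl⟩ := hF
    obtain ⟨c', rfl⟩ := hG
    rw [hsw]
    exact (((L12 B hB1 n m).smul_right c).smul_left c').symm
  · obtain ⟨c, rfl⟩ := hF
    obtain ⟨c', rfl⟩ := hG
    exact ((L22 B hB1 m n (fun h => hij (by rw [h]))).smul_right c').smul_left c

theorem base [CompleteSpace V] {emb : C(ℝ, ℂ) →ₗ[ℂ] V} {c₀ : ℝ} (h : IsEmb emb c₀)
    (B : ℝ) (hB : 100 ≤ B) (b : ℕ) (hb : (b : ℝ) = B ^ 8) :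
    IsUnconditionalBasisOf (expSub emb (div0 b))
      (⨆ l, expSub emb (div0 b) l).topologicalClosure := by
  have hb2 : 2 ≤ b := by
    have : (2:ℝ) ≤ b := by
      rw [hb]
      calc (2:ℝ) ≤ 100 ^ 8 := by norm_num
        _ ≤ B ^ 8 := by gcongr
    exact_mod_cast this
  have hbot : ∀ x, x ∉ Set.range (pt b) → expSub emb (div0 b) x = ⊥ := by
    intro x hx
    rw [Submodule.eq_bot_iff]
    intro f hf
    rw [mem_expSub, div0_of_not b x hx] at hf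
    obtain ⟨p, hp, rfl⟩ := hf
    have : p = 0 := by
      rw [← Polynomial.degree_eq_bot]
      exact (Nat.WithBot.lt_zero_iff.mp hp)
    rw [this, map_zero, map_zero]
  have hsup : (⨆ l, expSub emb (div0 b) l) = ⨆ i, expSub emb (div0 b) (pt b i) := by
    apply le_antisymm
    · apply iSup_le
      intro l
      by_cases hl : l ∈ Set.range (pt b)
      · obtain ⟨i, rfl⟩ := hl
        exact le_iSup (fun i => expSub emb (div0 b) (pt b i)) i
      · rw [hbot l hl]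
        exact bot_le
    · apply iSup_le
      intro i
      exact le_iSup (fun l => expSub emb (div0 b) l) (pt b i)
  rw [hsup]
  apply uncond_reindex _ (pt b) (pt_injective b hb2) hbot
  refine riesz_of_row_sum (fun i => expSub emb (div0 b) (pt b i))
    (fun i => isClosed_expSub emb _ _)
    (fun i j => 8 * (1 / B) ^ ((i.2 - j.2) + (j.2 - i.2) + 1)) ?_ ?_ ?_ ?_
  · intro i j; positivity
  · intro i j
    rw [add_comm (i.2 - j.2)]
  · intro i s _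
    exact row_total B hB i s
  · intro i j hij f hf g hg
    obtain ⟨F, hF, rfl⟩ := mem_pt b hb2 i f hf
    obtain ⟨G, hG, rfl⟩ := mem_pt b hb2 j g hg
    exact NO_inner h (QF_NO B (by linarith) b hb i j hij F G hF hG)

end

end Pool.Agent.MP_12ef2a_an
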