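import Mathlib
import Pool.Agent.MP_12ef2a_an.Aux1

set_option autoImplicit false

open MeasureTheory Polynomial

namespace Pool.Agent.MP_12ef2a_an

/-- continuous function `exp(i w y) φ(y)` -/
noncomputable def modC (φ : ℝ → ℂ) (hφ : Continuous φ) (w : ℝ) : C(ℝ, ℂ) :=
  ⟨fun y => Complex.exp (Complex.I * w * y) * φ y, by fun_prop⟩

theorem coe_modC (φ : ℝ → ℂ) (hφ : Continuous φ) (w : ℝ) :
    ⇑(modC φ hφ w) = fun y : ℝ => Complex.exp (Complex.I * w * y) * φ y := rfl

theorem ip_parts (l : ℂ) (q : ℂ[X]) (φ ψ : ℝ → ℂ) (hφ : ∀ y, HasDerivAt φ (ψ y) y)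
    (hψ : Continuous ψ) (h0 : φ 0 = 0) (h2 : φ 2 = 0) :
    ip (ep l (derivative q + C (Complex.I * l) * q)) φ = - ip (ep l q) ψ := by
  unfold ip
  have hd : ∀ y : ℝ, HasDerivAt (fun y => (starRingEnd ℂ) (ep l q y))
      ((starRingEnd ℂ) (ep l (derivative q + C (Complex.I * l) * q) y)) y := by
    intro y
    have := (hasDerivAt_ep l q y).star
    simpa using this
  have hc1 : Continuous fun y => (starRingEnd ℂ) (ep l (derivative q + C (Complex.I * l) * q) y) :=
    Complex.continuous_conj.comp (continuous_ep _ _)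
  have key := intervalIntegral.integral_mul_deriv_eq_deriv_mul (a := (0:ℝ)) (b := 2)
    (u := fun y => (starRingEnd ℂ) (ep l q y)) (v := φ)
    (u' := fun y => (starRingEnd ℂ) (ep l (derivative q + C (Complex.I * l) * q) y)) (v' := ψ)
    (fun y _ => hd y) (fun y _ => hφ y) (hc1.intervalIntegrable _ _) (hψ.intervalIntegrable _ _)
  rw [h0, h2] at key
  simp only [mul_zero, sub_zero, zero_sub] at key
  rw [key, neg_neg]

section
variable {V : Type*} [NormedAddCommGroup V] [InnerProductSpace ℂ V]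

theorem epC_shift_eq (lam : ℂ) (w : ℝ) (p : ℂ[X]) :
    ep lam p = fun y : ℝ => Complex.exp (Complex.I * w * y) * ep (lam - w) p y := by
  funext y
  have := ep_shift (lam - w) w p y
  rw [sub_add_cancel] at this
  exact this

theorem far_bound {emb : C(ℝ, ℂ) →ₗ[ℂ] V} {c₀ : ℝ} (hemb : IsEmb emb c₀) (k : ℂ → ℕ) (lam : ℂ)
    (w : ℝ) (φ ψ : ℝ → ℂ) (hφ : ∀ y, HasDerivAt φ (ψ y) y) (hφc : Continuous φ)
    (hψ : Continuous ψ) (h0 : φ 0 = 0) (h2 : φ 2 = 0) (L : ℝ) (hL0 : 0 < L) (hl : lam - w ≠ 0)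
    (hL : ∀ q : ℂ[X], q.degree < k lam → L ^ 2 * nsq (ep (lam - w) q) ≤
      nsq (ep (lam - w) (derivative q + C (Complex.I * (lam - w)) * q))) :
    ∀ f ∈ expSub emb k lam, ‖inner ℂ f (emb (modC φ hφc w))‖ ≤
      (L⁻¹ * ‖(expSub emb k lam).starProjection (emb (modC ψ hψ w))‖) * ‖f‖ := by
  intro f hf
  obtain ⟨p, hp, rfl⟩ := mem_expSub.mp hf
  have hI : Complex.I * (lam - w) ≠ 0 := mul_ne_zero Complex.I_ne_zero hl
  obtain ⟨q, hq, hqp⟩ := exists_antideriv _ hI (k lam) p hp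
  set u : V := emb (epC lam q) with hu
  have huE : u ∈ expSub emb k lam := mem_expSub.mpr ⟨q, hq, rfl⟩
  -- norms
  have hnorm : L * ‖u‖ ≤ ‖emb (epC lam p)‖ := by
    have h1 : (L * ‖u‖) ^ 2 ≤ ‖emb (epC lam p)‖ ^ 2 := by
      rw [mul_pow, hu, hemb.norm_sq, hemb.norm_sq, coe_epC, coe_epC]
      have e1 : nsq (ep lam q) = nsq (ep (lam - w) q) := by
        rw [epC_shift_eq lam w q, nsq_exp_mul]
      have e2 : nsq (ep lam p) = nsq (ep (lam - w) p) := by
        rw [epC_shift_eq lam w p, nsq_exp_mul]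
      rw [e1, e2, ← hqp]
      have := mul_le_mul_of_nonneg_left (hL q hq) hemb.pos.le
      linarith
    exact (sq_le_sq₀ (by positivity) (norm_nonneg _)).mp h1
  -- inner products
  have hinner : inner ℂ (emb (epC lam p)) (emb (modC φ hφc w)) =
      - inner ℂ u (emb (modC ψ hψ w)) := by
    rw [hu, hemb.inner_eq, hemb.inner_eq, coe_epC, coe_epC, coe_modC, coe_modC,
      epC_shift_eq lam w p, epC_shift_eq lam w q, ip_exp_mul, ip_exp_mul, ← hqp,
      ip_parts _ q φ ψ hφ hψ h0 h2]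
    ring
  rw [hinner, norm_neg]
  have hproj : inner ℂ u (emb (modC ψ hψ w)) =
      inner ℂ u ((expSub emb k lam).starProjection (emb (modC ψ hψ w))) := by
    have h3 := Submodule.starProjection_inner_eq_zero (K := expSub emb k lam)
      (emb (modC ψ hψ w)) u huE
    rw [inner_sub_left, sub_eq_zero] at h3
    have h4 := congrArg (starRingEnd ℂ) h3
    rwa [inner_conj_symm, inner_conj_symm] at h4
  rw [hproj]
  calc ‖inner ℂ u ((expSub emb k lam).starProjection (emb (modC ψ hψ w)))‖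
      ≤ ‖u‖ * ‖(expSub emb k lam).starProjection (emb (modC ψ hψ w))‖ := norm_inner_le_norm _ _
    _ ≤ (L⁻¹ * ‖emb (epC lam p)‖) * ‖(expSub emb k lam).starProjection (emb (modC ψ hψ w))‖ := by
        apply mul_le_mul_of_nonneg_right _ (norm_nonneg _)
        rw [inv_mul_eq_div, le_div_iff₀ hL0]
        linarith [mul_comm ‖u‖ L]
    _ = _ := by ring

end

end Pool.Agent.MP_12ef2a_an
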