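import Mathlib
import Pool.Agent.MP_12ef2a_an.Far
import Pool.Agent.MP_12ef2a_an.All

set_option autoImplicit false

open MeasureTheory Polynomial

namespace Pool.Agent.MP_12ef2a_an

/-- the central bump -/
noncomputable def bumpC (r : ℝ) (hr : 0 < r) : ContDiffBump (1 : ℝ) where
  rIn := r / 2
  rOut := r
  rIn_pos := by positivity
  rIn_lt_rOut := by linarith

theorem nsq_bump_pos (r : ℝ) (hr : 0 < r) : 0 < nsq (fun y => ((bumpC r hr y : ℝ) : ℂ)) := by
  unfold nsq
  have hc : Continuous fun y : ℝ => ‖((bumpC r hr y : ℝ) : ℂ)‖ ^ 2 := by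
    have := (bumpC r hr).continuous
    fun_prop
  apply intervalIntegral.integral_pos (by norm_num) hc.continuousOn (fun x _ => by positivity)
  refine ⟨1, ⟨by norm_num, by norm_num⟩, ?_⟩
  have : bumpC r hr 1 = 1 := by
    apply (bumpC r hr).one_of_mem_closedBall
    simp [bumpC]; positivity
  rw [this]; norm_num

section
variable {V : Type*} [NormedAddCommGroup V] [InnerProductSpace ℂ V]

theorem bessel_proj {ι : Type*} (E : ι → Submodule ℂ V) [∀ i, (E i).HasOrthogonalProjection]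
    (C : ℝ)
    (hbess : ∀ (h : V) (s : Finset ι) (u : ι → V), (∀ i, u i ∈ E i) → (∀ i, ‖u i‖ ≤ 1) →
        ∑ i ∈ s, ‖inner ℂ (u i) h‖ ^ 2 ≤ C * ‖h‖ ^ 2) (h : V) (s : Finset ι) :
    ∑ i ∈ s, ‖(E i).starProjection h‖ ^ 2 ≤ C * ‖h‖ ^ 2 := by
  have h1 := hbess h s (fun i => ((‖(E i).starProjection h‖⁻¹ : ℝ) : ℂ) • (E i).starProjection h)
    (fun i => (E i).smul_mem _ ((E i).starProjection_apply_mem h)) (by
      intro i
      rw [norm_smul, Complex.norm_real, norm_inv, norm_norm]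
      exact inv_mul_le_one)
  refine le_trans (Finset.sum_le_sum fun i _ => ?_) h1
  by_cases h0 : (E i).starProjection h = 0
  · rw [h0]; simp
  · rw [inner_smul_left, Complex.conj_ofReal, norm_mul, Complex.norm_real, norm_inv, norm_norm]
    have h2 : inner ℂ ((E i).starProjection h) h =
        inner ℂ ((E i).starProjection h) ((E i).starProjection h) := by
      have h3 := Submodule.starProjection_inner_eq_zero (K := E i) h _
        ((E i).starProjection_apply_mem h)
      rw [inner_sub_left, sub_eq_zero] at h3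
      have h4 := congrArg (starRingEnd ℂ) h3
      rw [inner_conj_symm] at h4
      rw [h4, inner_conj_symm]
    rw [h2, inner_self_eq_norm_sq_to_K]
    have h5 : 0 < ‖(E i).starProjection h‖ := norm_pos_iff.mpr h0
    have h6 : ‖(((‖(E i).starProjection h‖ : ℝ) : ℂ)) ^ 2‖ = ‖(E i).starProjection h‖ ^ 2 := by
      rw [norm_pow, Complex.norm_real, norm_norm]
    have h7 : ‖(E i).starProjection h‖⁻¹ * ‖(((‖(E i).starProjection h‖ : ℝ) : ℂ)) ^ 2‖ =
        ‖(E i).starProjection h‖ := by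
      rw [h6]; field_simp
    exact le_of_eq (congrArg (fun x : ℝ => x ^ 2) h7.symm)

theorem norm_sq_mod_sub {emb : C(ℝ, ℂ) →ₗ[ℂ] V} {c₀ : ℝ} (hemb : IsEmb emb c₀) (f : ℝ → ℂ)
    (hf : Continuous f) (w : ℝ) (lam : ℂ) (q : ℂ[X]) :
    ‖emb (modC f hf w) - emb (epC lam q)‖ ^ 2 =
      c₀ * nsq (fun y => f y - ep (lam - w) q y) := by
  rw [← map_sub, hemb.norm_sq]
  congr 1
  have : ⇑(modC f hf w - epC lam q) = fun y : ℝ => Complex.exp (Complex.I * w * y) *
      (f y - ep (lam - w) q y) := by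
    funext y
    rw [ContinuousMap.sub_apply, coe_modC, coe_epC, epC_shift_eq lam w q]
    ring
  rw [this, nsq_exp_mul]

theorem norm_sq_mod {emb : C(ℝ, ℂ) →ₗ[ℂ] V} {c₀ : ℝ} (hemb : IsEmb emb c₀) (f : ℝ → ℂ)
    (hf : Continuous f) (w : ℝ) : ‖emb (modC f hf w)‖ ^ 2 = c₀ * nsq f := by
  rw [hemb.norm_sq, coe_modC, nsq_exp_mul]

end

section
variable {V : Type*} [NormedAddCommGroup V] [InnerProductSpace ℂ V]

set_option maxHeartbeats 1000000 in
theorem not_extendable [CompleteSpace V] {emb : C(ℝ, ℂ) →ₗ[ℂ] V} {c₀ : ℝ} (hemb : IsEmb emb c₀)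
    (b : ℕ) (hb : 2 ≤ b) (k : ℂ → ℕ)
    (h1 : ∀ n : ℕ, 1 ≤ n → b ^ n ≤ k (((b : ℝ) ^ (3 * n) : ℝ) : ℂ))
    (h2 : ∀ j : ℕ, 1 ≤ j → 1 ≤ k (Complex.I * (((b : ℝ) ^ j : ℝ) : ℂ)))
    (h3 : ∀ j : ℕ, 1 ≤ j → 1 ≤ k (-(Complex.I * (((b : ℝ) ^ j : ℝ) : ℂ)))) :
    ¬ IsUnconditionalBasisOf (expSub emb k) ⊤ := by
  classical
  intro hbasis
  obtain ⟨C, hC1, hlow, -, hframe, hbess⟩ :=
    uncond_const (expSub emb k) (isClosed_expSub emb k) hbasis
  have hC0 : 0 < C := by linarith
  have hc₀ := hemb.pos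
  have hb' : (2 : ℝ) ≤ b := by exact_mod_cast hb
  -- parameters
  set r : ℝ := 1 / (8 * C) with hr
  have hr0 : 0 < r := by positivity
  have hr8 : r ≤ 1 / 8 := by
    rw [hr]
    apply one_div_le_one_div_of_le (by norm_num) (by linarith)
  have hrsq : r ^ 2 ≤ 1 / 64 := (pow_le_pow_left₀ hr0.le hr8 2).trans (by norm_num)
  have hrsq0 : 0 < r ^ 2 := by positivity
  have hden : 0 < 1 - r ^ 2 / 8 := by linarith
  set ζ : ℝ := Real.sqrt (1 / (1 - r ^ 2 / 8)) with hζ
  have hζsq : ζ ^ 2 = 1 / (1 - r ^ 2 / 8) := Real.sq_sqrt (by positivity)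
  have hζ0 : 0 < ζ := Real.sqrt_pos.mpr (by positivity)
  have hζ2 : ζ ≤ 2 := by
    have : ζ ^ 2 ≤ 2 ^ 2 := by
      rw [hζsq, div_le_iff₀ hden]; linarith
    exact (sq_le_sq₀ hζ0.le (by norm_num)).mp this
  have hA : ζ ^ 2 * (1 - r ^ 2 / 4) < 1 := by
    rw [hζsq, one_div, inv_mul_lt_iff₀ hden]; linarith
  have hr4 : 0 < r / 4 := by positivity
  have hB : 1 < ζ ^ 2 * (1 - (r / 4) ^ 2) := by
    rw [hζsq, one_div, lt_inv_mul_iff₀ hden]; linarith
  -- the bump and its derivative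
  set β₀ := bumpC (r / 4) hr4 with hβ₀
  have hsm : ContDiff ℝ 2 (β₀ : ℝ → ℝ) := β₀.contDiff
  set φ : ℝ → ℂ := fun y => ((β₀ y : ℝ) : ℂ) with hφdef
  set ψ : ℝ → ℂ := fun y => ((deriv (β₀ : ℝ → ℝ) y : ℝ) : ℂ) with hψdef
  have hφC : ContDiff ℝ 1 φ := by
    have : ContDiff ℝ 1 (β₀ : ℝ → ℝ) := β₀.contDiff
    exact Complex.ofRealCLM.contDiff.comp this
  have hφc : Continuous φ := hφC.continuous
  have hψc : Continuous ψ := by
    have : Continuous (deriv (β₀ : ℝ → ℝ)) :=
      (β₀.contDiff (n := 1)).continuous_deriv le_rfl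
    exact Complex.continuous_ofReal.comp this
  have hφd : ∀ y, HasDerivAt φ (ψ y) y := by
    intro y
    have hd : Differentiable ℝ (β₀ : ℝ → ℝ) := (β₀.contDiff (n := 1)).differentiable one_ne_zero
    exact (hd y).hasDerivAt.ofReal_comp
  have hφs : ∀ y, r / 4 ≤ |y - 1| → φ y = 0 := by
    intro y hy
    have : β₀ y = 0 := by
      apply β₀.zero_of_le_dist
      rw [Real.dist_eq]
      exact hy
    simp [hφdef, this]
  have hφ0 : φ 0 = 0 := hφs 0 (by norm_num; linarith)
  have hφ2 : φ 2 = 0 := hφs 2 (by norm_num; linarith)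
  have hφpos : 0 < nsq φ := nsq_bump_pos (r / 4) hr4
  have hψnn : 0 ≤ nsq ψ := nsq_nonneg ψ
  -- L
  set L : ℝ := 2 * C * Real.sqrt (nsq ψ / nsq φ) + 1 with hLdef
  have hL0 : 0 < L := by positivity
  have hLsq : 4 * C ^ 2 * nsq ψ ≤ L ^ 2 * nsq φ := by
    have e1 : (2 * C * Real.sqrt (nsq ψ / nsq φ)) ^ 2 ≤ L ^ 2 := by
      apply pow_le_pow_left₀ (by positivity)
      rw [hLdef]; linarith
    have e2 : (2 * C * Real.sqrt (nsq ψ / nsq φ)) ^ 2 = 4 * C ^ 2 * (nsq ψ / nsq φ) := by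
      rw [mul_pow, Real.sq_sqrt (by positivity)]; ring
    rw [e2] at e1
    have e3 := mul_le_mul_of_nonneg_right e1 hφpos.le
    calc 4 * C ^ 2 * nsq ψ = 4 * C ^ 2 * (nsq ψ / nsq φ) * nsq φ := by field_simp
      _ ≤ _ := e3
  obtain ⟨R₁, K, hR₁, hK, hlemL⟩ := lemL L hL0
  have hc64 : 0 < 1 / (64 * C) := by positivity
  obtain ⟨m₀, M₀, κ, hκ, hconf⟩ := conflict (1 / (64 * C)) K hc64 hK
  set R : ℝ := max R₁ (K * m₀) + 1 with hR
  have hRpos : 0 < R := by
    have := le_max_left R₁ (K * m₀)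
    linarith
  obtain ⟨M₁, hnear⟩ := near_pt ζ r R hζ0 hr0 (by linarith) hA (1 / (4 * C)) (by positivity)
  obtain ⟨M₂, hcenter⟩ := center ζ (r / 4) hζ0 hr4 (by linarith) hB φ hφC hφs
    (nsq φ / (4 * C)) (by positivity)
  obtain ⟨M₃, hblock⟩ := blocker_exists b hb κ K (1 / (64 * C) / 20) hκ hK (by positivity)
  -- choose the cluster
  set n : ℕ := max (max M₀ M₁) (max M₂ M₃) + 1 with hn
  have hn1 : 1 ≤ n := by omega
  have hbn : n ≤ b ^ n := le_of_lt (Nat.lt_pow_self (by omega))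
  set lam₀ : ℂ := (((b : ℝ) ^ (3 * n) : ℝ) : ℂ) with hlam₀
  set M : ℕ := k lam₀ with hM
  have hMn : b ^ n ≤ M := h1 n hn1
  have hM0 : M₀ ≤ M := by
    have : M₀ ≤ n := by rw [hn]; exact le_trans (le_trans (le_max_left _ _) (le_max_left _ _)) (Nat.le_succ _)
    omega
  have hM1 : M₁ ≤ M := by
    have : M₁ ≤ n := by rw [hn]; exact le_trans (le_trans (le_max_right _ _) (le_max_left _ _)) (Nat.le_succ _)
    omega
  have hM2 : M₂ ≤ M := by
    have : M₂ ≤ n := by rw [hn]; exact le_trans (le_trans (le_max_left _ _) (le_max_right _ _)) (Nat.le_succ _)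
    omega
  have hM3 : M₃ ≤ M := by
    have : M₃ ≤ n := by rw [hn]; exact le_trans (le_trans (le_max_right _ _) (le_max_right _ _)) (Nat.le_succ _)
    omega
  have hMb : (b : ℝ) ^ (3 * n) ≤ (M : ℝ) ^ 3 := by
    rw [mul_comm 3 n, pow_mul]
    apply pow_le_pow_left₀ (by positivity)
    exact_mod_cast hMn
  have hMpos : (1 : ℝ) ≤ M := by
    have : 1 ≤ M := by omega
    exact_mod_cast this
  set w : ℝ := (b : ℝ) ^ (3 * n) + ζ * M with hw
  have hlw : lam₀ - w = -((ζ * M : ℝ) : ℂ) := by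
    rw [hlam₀, hw]; push_cast; ring
  set g : V := emb (modC φ hφc w) with hg
  set h : V := emb (modC ψ hψc w) with hh
  have hgn : ‖g‖ ^ 2 = c₀ * nsq φ := norm_sq_mod hemb φ hφc w
  have hhn : ‖h‖ ^ 2 = c₀ * nsq ψ := norm_sq_mod hemb ψ hψc w
  -- far points
  have hfar1 : ∀ lam : ℂ, lam ≠ lam₀ → 1 ≤ k lam → R ≤ ‖lam - w‖ := by
    intro lam hne hk
    by_contra hcon
    push Not at hcon
    obtain ⟨q, hq, hqn⟩ := hnear M hM1 (lam - w) hcon.le
    have e0 : (((ζ * M : ℝ) : ℂ) + (lam - w)) = lam - lam₀ := by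
      rw [hw, hlam₀]; push_cast; ring
    rw [e0] at hqn
    -- vectors
    have hone : emb (epC lam 1) ∈ expSub emb k lam :=
      mem_expSub.mpr ⟨1, by rw [Polynomial.degree_one]; exact_mod_cast hk, rfl⟩
    have hqm : emb (epC lam₀ q) ∈ expSub emb k lam₀ := mem_expSub.mpr ⟨q, hq, rfl⟩
    have hp := pair_ineq (expSub emb k) C hlow hne hone hqm
    have e1 : ‖emb (epC lam 1)‖ ^ 2 =
        c₀ * nsq (fun y : ℝ => Complex.exp (Complex.I * (lam - lam₀) * y)) := by
      rw [hemb.norm_sq, coe_epC]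
      congr 1
      have : ep lam 1 = fun y : ℝ => Complex.exp (Complex.I * ((b : ℝ) ^ (3 * n) : ℝ) * y) *
          Complex.exp (Complex.I * (lam - lam₀) * y) := by
        funext y
        unfold ep
        rw [← Complex.exp_add, hlam₀]
        simp only [eval_one, mul_one]
        congr 1
        ring
      rw [this, nsq_exp_mul]
    have e2 : ‖emb (epC lam 1) - emb (epC lam₀ q)‖ ^ 2 =
        c₀ * nsq (fun y : ℝ => Complex.exp (Complex.I * (lam - lam₀) * y) - q.eval (y : ℂ)) := by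
      rw [← map_sub, hemb.norm_sq]
      congr 1
      have : ⇑(epC lam 1 - epC lam₀ q) = fun y : ℝ =>
          Complex.exp (Complex.I * ((b : ℝ) ^ (3 * n) : ℝ) * y) *
          (Complex.exp (Complex.I * (lam - lam₀) * y) - q.eval (y : ℂ)) := by
        funext y
        rw [ContinuousMap.sub_apply, coe_epC, coe_epC]
        unfold ep
        rw [mul_sub, ← Complex.exp_add, hlam₀]
        simp only [eval_one, mul_one]
        congr 2
        ring
      rw [this, nsq_exp_mul]
    have e3 : 0 < nsq (fun y : ℝ => Complex.exp (Complex.I * (lam - lam₀) * y)) := by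
      unfold nsq
      apply intervalIntegral.integral_pos (by norm_num) _ (fun x _ => by positivity)
        ⟨1, ⟨by norm_num, by norm_num⟩, by
          have := Complex.exp_ne_zero (Complex.I * (lam - lam₀) * (1 : ℝ))
          positivity⟩
      apply Continuous.continuousOn
      fun_prop
    rw [e1, e2] at hp
    have e4 : 2 * r + 1 / (4 * C) = 1 / (2 * C) := by rw [hr]; field_simp; norm_num
    rw [e4] at hqn
    have e5 : C * (c₀ * nsq (fun y : ℝ => Complex.exp (Complex.I * (lam - lam₀) * y) - q.eval (y : ℂ)))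
        ≤ C * (c₀ * (1 / (2 * C) * nsq (fun y : ℝ => Complex.exp (Complex.I * (lam - lam₀) * y)))) := by
      gcongr
    have e6 : C * (c₀ * (1 / (2 * C) * nsq (fun y : ℝ => Complex.exp (Complex.I * (lam - lam₀) * y))))
        = 1 / 2 * (c₀ * nsq (fun y : ℝ => Complex.exp (Complex.I * (lam - lam₀) * y))) := by
      field_simp
    have e7 : 0 < c₀ * nsq (fun y : ℝ => Complex.exp (Complex.I * (lam - lam₀) * y)) := by
      positivity
    linarith
  have hfar2 : ∀ lam : ℂ, lam ≠ lam₀ → 1 ≤ k lam → K * (k lam : ℝ) ≤ ‖lam - w‖ := by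
    intro lam hne hk
    by_contra hcon
    push Not at hcon
    have hRl := hfar1 lam hne hk
    set m : ℕ := k lam with hm
    have hmK : R < K * m := lt_of_le_of_lt hRl hcon
    have hK0 : 0 < K := by linarith
    have hm0 : m₀ ≤ m := by
      have e1 : K * m₀ < K * m := by
        have := le_max_right R₁ (K * m₀)
        linarith
      have e2 : (m₀ : ℝ) < m := lt_of_mul_lt_mul_left e1 hK0.le
      have : m₀ < m := by exact_mod_cast e2
      exact this.le
    have hm1 : (1 : ℝ) ≤ m := by exact_mod_cast hk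
    by_cases hcase : (m : ℝ) ≤ κ * (M : ℝ) ^ 2
    · -- conflict with the cluster itself
      have hω : |ζ * (M : ℝ)| ≤ 2 * M := by
        rw [abs_of_nonneg (by positivity)]
        exact mul_le_mul_of_nonneg_right hζ2 (by positivity)
      obtain ⟨f, q₁, q₂, hfc, hfpos, hq1, hq2, hf1, hf2⟩ :=
        hconf m M (ζ * M) (lam - w) hm0 hM0 hcase hω hcon.le
      have m1 : emb (epC lam q₁) ∈ expSub emb k lam := mem_expSub.mpr ⟨q₁, hq1, rfl⟩
      have m2 : emb (epC lam₀ q₂) ∈ expSub emb k lam₀ := mem_expSub.mpr ⟨q₂, hq2, rfl⟩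
      have n0 : ‖emb (modC f hfc w)‖ ^ 2 = c₀ * nsq f := norm_sq_mod hemb f hfc w
      have n1 := norm_sq_mod_sub hemb f hfc w lam q₁
      have n2 := norm_sq_mod_sub hemb f hfc w lam₀ q₂
      rw [hlw] at n2
      apply common_absurd (expSub emb k) C hC1 hlow hne m1 m2 (f := emb (modC f hfc w))
      · rw [n0]; positivity
      · rw [n0, n1]
        have := mul_le_mul_of_nonneg_left hf1 hc₀.le
        linarith
      · rw [n0, n2]
        have := mul_le_mul_of_nonneg_left hf2 hc₀.le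
        linarith
    · -- conflict with a blocker
      push Not at hcase
      have hlamn : ‖lam‖ ≤ (M : ℝ) ^ 3 + 2 * M + K * m := by
        have e1 : lam = (lam - w) + (w : ℂ) := by ring
        have e2 : ‖(w : ℂ)‖ ≤ (M : ℝ) ^ 3 + 2 * M := by
          rw [Complex.norm_real, Real.norm_of_nonneg (by positivity), hw]
          have := mul_le_mul_of_nonneg_right hζ2 (by positivity : (0:ℝ) ≤ M)
          linarith
        calc ‖lam‖ = ‖(lam - w) + (w : ℂ)‖ := by rw [← e1]
          _ ≤ ‖lam - w‖ + ‖(w : ℂ)‖ := norm_add_le _ _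
          _ ≤ _ := by linarith
      obtain ⟨j, hj1, hj2, hj3⟩ := hblock M m ‖lam‖ hM3 hcase hlamn
      set β : ℝ := (b : ℝ) ^ j with hβ
      have hβ1 : 1 ≤ β := one_le_pow₀ (by linarith)
      have hβ0 : 0 < β := by linarith
      have hm2 : (0 : ℝ) < (m : ℝ) ^ 2 := by positivity
      have hkey : C * (5 / (m : ℝ) ^ 2) < 1 / (4 * β) := by
        rw [mul_div_assoc', div_lt_div_iff₀ hm2 (by positivity)]
        have e1 : β * (64 * C * 20) ≤ (m : ℝ) ^ 2 := by
          have : 1 / (64 * C) / 20 * (m : ℝ) ^ 2 = (m : ℝ) ^ 2 / (64 * C * 20) := by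
            field_simp
          rw [this, le_div_iff₀ (by positivity)] at hj3
          exact hj3
        linarith [mul_pos hC0 hβ0]
      have hlamβ : ∀ z : ℂ, ‖z‖ = β → lam ≠ z := by
        intro z hz hlz
        rw [hlz, hz] at hj2
        linarith
      rcases le_total 0 lam.im with him | him
      · obtain ⟨q, hq, hqn⟩ := block_left β lam m hβ0 hj2 (by omega) him
        have hz : lam ≠ Complex.I * ((β : ℝ) : ℂ) := hlamβ _ (by
          rw [norm_mul, Complex.norm_I, one_mul, Complex.norm_real, Real.norm_of_nonneg hβ0.le])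
        have hk2 : 1 ≤ k (Complex.I * ((β : ℝ) : ℂ)) := h2 j hj1
        have mβ : emb (epC (Complex.I * ((β : ℝ) : ℂ)) 1) ∈
            expSub emb k (Complex.I * ((β : ℝ) : ℂ)) :=
          mem_expSub.mpr ⟨1, by rw [Polynomial.degree_one]; exact_mod_cast hk2, rfl⟩
        have mq : emb (epC lam q) ∈ expSub emb k lam := mem_expSub.mpr ⟨q, hq, rfl⟩
        have hp := pair_ineq (expSub emb k) C hlow hz.symm mβ mq
        have f1 : ep (Complex.I * ((β : ℝ) : ℂ)) 1 =
            fun y : ℝ => Complex.exp (-((β * y : ℝ) : ℂ)) := by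
          funext y
          unfold ep
          simp only [eval_one, mul_one]
          congr 1
          push_cast
          rw [← mul_assoc, Complex.I_mul_I]
          ring
        have n1 : ‖emb (epC (Complex.I * ((β : ℝ) : ℂ)) 1)‖ ^ 2 =
            c₀ * nsq (fun y : ℝ => Complex.exp (-((β * y : ℝ) : ℂ))) := by
          rw [hemb.norm_sq, coe_epC, f1]
        have n2 : ‖emb (epC (Complex.I * ((β : ℝ) : ℂ)) 1) - emb (epC lam q)‖ ^ 2 =
            c₀ * nsq (fun y : ℝ => Complex.exp (-((β * y : ℝ) : ℂ)) - ep lam q y) := by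
          rw [← map_sub, hemb.norm_sq]
          congr 2
          funext y
          rw [ContinuousMap.sub_apply, coe_epC, coe_epC, f1]
        rw [n1, n2] at hp
        have g1 := (nsq_block β hβ1).1
        have g2 := mul_le_mul_of_nonneg_left hqn (mul_nonneg hC0.le hc₀.le)
        have g3 := mul_le_mul_of_nonneg_left g1 hc₀.le
        have g4 := mul_lt_mul_of_pos_left hkey hc₀
        linarith
      · obtain ⟨q, hq, hqn⟩ := block_right β lam m hβ0 hj2 (by omega) him
        have hz : lam ≠ -(Complex.I * ((β : ℝ) : ℂ)) := hlamβ _ (by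
          rw [norm_neg, norm_mul, Complex.norm_I, one_mul, Complex.norm_real,
            Real.norm_of_nonneg hβ0.le])
        have hk3 : 1 ≤ k (-(Complex.I * ((β : ℝ) : ℂ))) := h3 j hj1
        have mβ : emb (epC (-(Complex.I * ((β : ℝ) : ℂ))) (Polynomial.C (Complex.exp ((-(2 * β) : ℝ) : ℂ)))) ∈
            expSub emb k (-(Complex.I * ((β : ℝ) : ℂ))) :=
          mem_expSub.mpr ⟨_, lt_of_le_of_lt Polynomial.degree_C_le (by exact_mod_cast hk3), rfl⟩
        have mq : emb (epC lam q) ∈ expSub emb k lam := mem_expSub.mpr ⟨q, hq, rfl⟩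
        have hp := pair_ineq (expSub emb k) C hlow hz.symm mβ mq
        have f1 : ep (-(Complex.I * ((β : ℝ) : ℂ))) (Polynomial.C (Complex.exp ((-(2 * β) : ℝ) : ℂ))) =
            fun y : ℝ => Complex.exp ((β * (y - 2) : ℝ) : ℂ) := by
          funext y
          unfold ep
          rw [eval_C, ← Complex.exp_add]
          congr 1
          push_cast
          have : Complex.I * -(Complex.I * (β : ℂ)) = β := by
            rw [mul_neg, ← mul_assoc, Complex.I_mul_I]; ring
          rw [this]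
          ring
        have n1 : ‖emb (epC (-(Complex.I * ((β : ℝ) : ℂ))) (Polynomial.C (Complex.exp ((-(2 * β) : ℝ) : ℂ))))‖ ^ 2 =
            c₀ * nsq (fun y : ℝ => Complex.exp ((β * (y - 2) : ℝ) : ℂ)) := by
          rw [hemb.norm_sq, coe_epC, f1]
        have n2 : ‖emb (epC (-(Complex.I * ((β : ℝ) : ℂ))) (Polynomial.C (Complex.exp ((-(2 * β) : ℝ) : ℂ)))) - emb (epC lam q)‖ ^ 2 =
            c₀ * nsq (fun y : ℝ => Complex.exp ((β * (y - 2) : ℝ) : ℂ) - ep lam q y) := by
          rw [← map_sub, hemb.norm_sq]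
          congr 2
          funext y
          rw [ContinuousMap.sub_apply, coe_epC, coe_epC, f1]
        rw [n1, n2] at hp
        have g1 := (nsq_block β hβ1).2
        have g2 := mul_le_mul_of_nonneg_left hqn (mul_nonneg hC0.le hc₀.le)
        have g3 := mul_le_mul_of_nonneg_left g1 hc₀.le
        have g4 := mul_lt_mul_of_pos_left hkey hc₀
        linarith
  -- the frame inequality
  set Pr : ℂ → ℝ := fun lam => ‖(expSub emb k lam).starProjection h‖ with hPr
  set S : ℂ → ℝ := fun lam =>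
    if lam = lam₀ then Real.sqrt (c₀ * (nsq φ / (4 * C))) else L⁻¹ * Pr lam with hS
  have hSnn : ∀ lam, 0 ≤ S lam := by
    intro lam
    simp only [hS]
    split_ifs
    · exact Real.sqrt_nonneg _
    · have : 0 ≤ Pr lam := norm_nonneg _
      positivity
  have hSb : ∀ lam, ∀ f ∈ expSub emb k lam, ‖inner ℂ f g‖ ≤ S lam * ‖f‖ := by
    intro lam f hf
    by_cases hl : lam = lam₀
    · rw [hl] at hf ⊢
      simp only [hS, if_true]
      obtain ⟨p, hp, rfl⟩ := mem_expSub.mp hf
      have e1 := hcenter M hM2 p hp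
      have e2 : inner ℂ (emb (epC lam₀ p)) g = c₀ * ip (fun y : ℝ => p.eval (y : ℂ))
          (fun y : ℝ => φ y * Complex.exp (Complex.I * ((ζ * M : ℝ) : ℂ) * y)) := by
        rw [hg, hemb.inner_eq, coe_epC, coe_modC]
        congr 1
        have f1 : ep lam₀ p = fun y : ℝ => Complex.exp (Complex.I * ((b : ℝ) ^ (3 * n) : ℝ) * y) *
            p.eval (y : ℂ) := by
          funext y; rw [hlam₀]; rfl
        have f2 : (fun y : ℝ => Complex.exp (Complex.I * w * y) * φ y) =
            fun y : ℝ => Complex.exp (Complex.I * ((b : ℝ) ^ (3 * n) : ℝ) * y) *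
              (φ y * Complex.exp (Complex.I * ((ζ * M : ℝ) : ℂ) * y)) := by
          funext y
          rw [mul_comm (φ y), ← mul_assoc, ← Complex.exp_add, hw]
          congr 2
          push_cast
          ring
        rw [f1, f2, ip_exp_mul]
      have e3 : ‖emb (epC lam₀ p)‖ ^ 2 = c₀ * nsq (fun y : ℝ => p.eval (y : ℂ)) := by
        rw [hemb.norm_sq, coe_epC]
        congr 1
        have f1 : ep lam₀ p = fun y : ℝ => Complex.exp (Complex.I * ((b : ℝ) ^ (3 * n) : ℝ) * y) *
            p.eval (y : ℂ) := by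
          funext y; rw [hlam₀]; rfl
        rw [f1, nsq_exp_mul]
      have e4 : ‖inner ℂ (emb (epC lam₀ p)) g‖ ^ 2 ≤
          (Real.sqrt (c₀ * (nsq φ / (4 * C))) * ‖emb (epC lam₀ p)‖) ^ 2 := by
        rw [e2, norm_mul, Complex.norm_real, Real.norm_of_nonneg hc₀.le, mul_pow, mul_pow,
          Real.sq_sqrt (by positivity), e3]
        have := mul_le_mul_of_nonneg_left e1 (sq_nonneg c₀)
        calc _ ≤ _ := this
          _ = _ := by ring
      exact (sq_le_sq₀ (norm_nonneg _) (by positivity)).mp e4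
    · simp only [hS, hl, if_false]
      by_cases hk : 1 ≤ k lam
      · have hl1 := hfar1 lam hl hk
        have hl2 := hfar2 lam hl hk
        have hne : lam - w ≠ 0 := by
          intro h0
          rw [h0, norm_zero] at hl1
          linarith
        refine far_bound hemb k lam w φ ψ hφd hφc hψc hφ0 hφ2 L hL0 hne ?_ f hf
        intro q hq
        exact hlemL (k lam) (lam - w) q
          (le_trans (by have := le_max_left R₁ (K * m₀); linarith) hl1) hl2 hq
      · obtain ⟨p, hp, rfl⟩ := mem_expSub.mp hf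
        have hk0 : k lam = 0 := by omega
        rw [hk0] at hp
        have hp0 : p = 0 := by
          rw [← Polynomial.degree_eq_bot]
          exact Nat.WithBot.lt_zero_iff.mp hp
        rw [hp0]
        simp
  have hSs : ∀ s : Finset ℂ, ∑ i ∈ s, S i ^ 2 ≤ c₀ * (nsq φ / (2 * C)) := by
    intro s
    have e1 : ∀ i ∈ s, S i ^ 2 ≤ (if i = lam₀ then c₀ * (nsq φ / (4 * C)) else 0) +
        (L⁻¹) ^ 2 * Pr i ^ 2 := by
      intro i _
      simp only [hS]
      split_ifs with hi
      · rw [Real.sq_sqrt (by positivity)]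
        have : 0 ≤ (L⁻¹) ^ 2 * Pr i ^ 2 := by positivity
        linarith
      · rw [mul_pow, zero_add]
    have e2 : ∑ i ∈ s, (if i = lam₀ then c₀ * (nsq φ / (4 * C)) else 0) ≤ c₀ * (nsq φ / (4 * C)) := by
      rw [Finset.sum_ite_eq' s lam₀]
      split_ifs
      · exact le_rfl
      · positivity
    have e3 : ∑ i ∈ s, Pr i ^ 2 ≤ C * ‖h‖ ^ 2 := bessel_proj (expSub emb k) C hbess h s
    have e4 : (L⁻¹) ^ 2 * (C * ‖h‖ ^ 2) ≤ c₀ * (nsq φ / (4 * C)) := by
      rw [hhn, inv_pow, inv_mul_le_iff₀ (by positivity)]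
      have : L ^ 2 * (c₀ * (nsq φ / (4 * C))) = c₀ * (L ^ 2 * nsq φ) / (4 * C) := by ring
      rw [this, le_div_iff₀ (by positivity)]
      have := mul_le_mul_of_nonneg_left hLsq hc₀.le
      linarith
    calc ∑ i ∈ s, S i ^ 2 ≤ ∑ i ∈ s, ((if i = lam₀ then c₀ * (nsq φ / (4 * C)) else 0) +
        (L⁻¹) ^ 2 * Pr i ^ 2) := Finset.sum_le_sum e1
      _ = ∑ i ∈ s, (if i = lam₀ then c₀ * (nsq φ / (4 * C)) else 0) +
        (L⁻¹) ^ 2 * ∑ i ∈ s, Pr i ^ 2 := by rw [Finset.sum_add_distrib, Finset.mul_sum]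
      _ ≤ c₀ * (nsq φ / (4 * C)) + (L⁻¹) ^ 2 * (C * ‖h‖ ^ 2) := by
          have := mul_le_mul_of_nonneg_left e3 (sq_nonneg L⁻¹)
          linarith
      _ ≤ c₀ * (nsq φ / (4 * C)) + c₀ * (nsq φ / (4 * C)) := by linarith
      _ = _ := by field_simp; ring
  have hfin := hframe g S _ hSnn hSb hSs
  rw [hgn] at hfin
  have : C * (c₀ * (nsq φ / (2 * C))) = 1 / 2 * (c₀ * nsq φ) := by field_simp
  rw [this] at hfin
  have : 0 < c₀ * nsq φ := by positivity
  linarith

end

end Pool.Agent.MP_12ef2a_an
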