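import Mathlib
import Pool.Agent.MP_12ef2a_an.Fam
import Pool.Agent.MP_12ef2a_an.A2

set_option autoImplicit false

open MeasureTheory Polynomial

namespace Pool.Agent.MP_12ef2a_an

theorem memLp_scaled (a : ℝ) (f : C(ℝ, ℂ)) :
    MemLp (fun x : ℝ => f (2 / a * x)) 2 (volume.restrict (Set.Ioo (0:ℝ) a)) := by
  have hc : Continuous (fun x : ℝ => f (2 / a * x)) := by fun_prop
  obtain ⟨M, hM⟩ := (isCompact_Icc (a := (0:ℝ)) (b := a)).exists_bound_of_continuousOn hc.continuousOn
  refine MemLp.of_bound hc.aestronglyMeasurable M ?_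
  refine (ae_restrict_iff' measurableSet_Ioo).2 (Filter.Eventually.of_forall ?_)
  intro x hx
  exact hM x (Set.Ioo_subset_Icc_self hx)

/-- functions on `[0,2]` as elements of `L²(0,a)` -/
noncomputable def embA (a : ℝ) : C(ℝ, ℂ) →ₗ[ℂ] Lp ℂ 2 (volume.restrict (Set.Ioo (0:ℝ) a)) where
  toFun f := (memLp_scaled a f).toLp _
  map_add' f g := by
    rw [← MemLp.toLp_add]
    rfl
  map_smul' c f := by
    rw [RingHom.id_apply, ← MemLp.toLp_const_smul]
    rfl

theorem coe_embA (a : ℝ) (f : C(ℝ, ℂ)) :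
    (embA a f : ℝ → ℂ) =ᵐ[volume.restrict (Set.Ioo (0:ℝ) a)] fun x => f (2 / a * x) :=
  MemLp.coeFn_toLp (memLp_scaled a f)

theorem isEmb_embA (a : ℝ) (ha : 0 < a) : IsEmb (embA a) (a / 2) := by
  refine ⟨by positivity, ?_⟩
  intro f g
  rw [L2.inner_def]
  have h1 : (∫ x, (inner ℂ ((embA a f : ℝ → ℂ) x) ((embA a g : ℝ → ℂ) x) : ℂ)
      ∂(volume.restrict (Set.Ioo (0:ℝ) a))) =
      ∫ x in Set.Ioo (0:ℝ) a, (starRingEnd ℂ) (f (2 / a * x)) * g (2 / a * x) := by
    apply integral_congr_ae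
    filter_upwards [coe_embA a f, coe_embA a g] with x hx hy
    rw [hx, hy]
    simp [mul_comm]
  rw [h1, ← integral_Ioc_eq_integral_Ioo, ← intervalIntegral.integral_of_le ha.le]
  rw [intervalIntegral.integral_comp_mul_left (fun y => (starRingEnd ℂ) (f y) * g y)
    (by positivity : (2 / a) ≠ 0)]
  unfold ip
  rw [mul_zero, div_mul_cancel₀ _ ha.ne', inv_div]
  push_cast
  rw [Complex.real_smul]
  push_cast
  rfl

/-- the subspaces of the problem -/
theorem mem_expSub_embA (a : ℝ) (ha : 0 < a) (k : ℂ → ℕ) (l : ℂ)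
    (f : Lp ℂ 2 (volume.restrict (Set.Ioo (0:ℝ) a))) :
    f ∈ expSub (embA a) (fun z => k (2 / a * z)) (a / 2 * l) ↔
      ∃ p : ℂ[X], p.degree < (k l : WithBot ℕ) ∧ (f : ℝ → ℂ) =ᵐ[volume.restrict (Set.Ioo (0:ℝ) a)]
        fun x => p.eval (x : ℂ) * Complex.exp (Complex.I * l * x) := by
  have ha' : (a : ℂ) ≠ 0 := by exact_mod_cast ha.ne'
  have hl : (2 / a * (a / 2 * l) : ℂ) = l := by field_simp
  rw [mem_expSub]
  simp only [hl]
  have hdeg : ∀ (c : ℂ) (hc : c ≠ 0) (p : ℂ[X]), (p.comp (C c * X)).degree = p.degree := by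
    intro c hc p
    by_cases hp : p = 0
    · simp [hp]
    · have h1 : (C c * X : ℂ[X]).natDegree = 1 := by
        rw [natDegree_C_mul hc, natDegree_X]
      have h2 : (p.comp (C c * X)).natDegree = p.natDegree := by
        rw [natDegree_comp, h1, mul_one]
      have h3 : p.comp (C c * X) ≠ 0 := by
        intro h0
        have := comp_eq_zero_iff.1 h0
        rcases this with h | ⟨_, h⟩
        · exact hp h
        · have h4 := congrArg natDegree h
          rw [h1, natDegree_C] at h4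
          exact one_ne_zero h4
      rw [degree_eq_natDegree h3, degree_eq_natDegree hp, h2]
  constructor
  · rintro ⟨q, hq, rfl⟩
    refine ⟨q.comp (C (2 / (a:ℂ)) * X), ?_, ?_⟩
    · rw [hdeg _ (div_ne_zero two_ne_zero ha') q]; exact hq
    · refine (coe_embA a _).trans (Filter.Eventually.of_forall fun x => ?_)
      simp only [epC_apply, ep, eval_comp, eval_mul, eval_C, eval_X]
      rw [mul_comm]
      push_cast
      congr 2
      field_simp
  · rintro ⟨p, hp, hf⟩
    refine ⟨p.comp (C ((a:ℂ) / 2) * X), ?_, ?_⟩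
    · rw [hdeg _ (div_ne_zero ha' two_ne_zero) p]; exact hp
    · apply Lp.ext
      refine (coe_embA a _).trans (Filter.EventuallyEq.trans ?_ hf.symm)
      refine Filter.Eventually.of_forall fun x => ?_
      simp only [epC_apply, ep, eval_comp, eval_mul, eval_C, eval_X]
      rw [mul_comm]
      push_cast
      have e1 : (a / 2 * (2 / a * x) : ℂ) = x := by field_simp
      have e2 : Complex.I * (a / 2 * l) * (2 / a * x) = Complex.I * l * x := by field_simp
      rw [e1, e2]

end Pool.Agent.MP_12ef2a_an
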